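import Pool.Agent.MP_154433_an.t4a.Spec

/-! Row Ce: the composition of two equivariant arrow kernels is equivariant. -/

set_option autoImplicit false
set_option linter.unusedVariables false

open MeasureTheory ProbabilityTheory Filter Topology Set
open scoped ENNReal

namespace Pool.Agent.MP_154433_an.T4A

open T3A

noncomputable section

namespace CeAux

variable {G Ω V : Type} [AddCommGroup G] [MeasurableSpace Ω] [AddCommGroup V] [Countable V]

omit [Countable V] in
theorem ae_fst {A : Base G Ω V} {H : Set G} {K : Kernel Ω (Ω × Arr V)} (h : KD A H K)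
    {Q : Ω → Prop} (hQ : ∀ᵐ y ∂A.μ, Q y) : ∀ᵐ y ∂A.μ, ∀ᵐ x ∂K y, Q x.1 := by
  have hC : MeasurableSet (toMeasurable A.μ {y | ¬ Q y}) := measurableSet_toMeasurable _ _
  have h0 : A.μ (toMeasurable A.μ {y | ¬ Q y}) = 0 := by
    rw [measure_toMeasurable]; exact hQ
  have h1 := h.int _ univ hC MeasurableSet.univ (fun _ _ => by simp)
  rw [inter_univ, h0, Measure.restrict_univ,
    lintegral_eq_zero_iff (K.measurable_coe (measurable_fst hC))] at h1
  filter_upwards [h1] with y hy
  exact measure_mono_null (fun x hx => subset_toMeasurable A.μ {y | ¬ Q y} hx) hy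

omit [AddCommGroup G] in
theorem meas_cmp : Measurable fun x : (Ω × Arr V) × (Ω × Arr V) => (x.2.1, cmpR x.1.2 x.2.2) :=
  measurable_snd.fst.prodMk (measurable_cmpR measurable_fst.snd measurable_snd.snd)

omit [AddCommGroup G] in
theorem star_apply (K1 K2 : Kernel Ω (Ω × Arr V)) [IsMarkovKernel K1] [IsMarkovKernel K2] (y : Ω)
    {E : Set (Ω × Arr V)} (hE : MeasurableSet E) :
    star K1 K2 y E = ∫⁻ x, K2 x.1 {z | (z.1, cmpR x.2 z.2) ∈ E} ∂K1 y := by
  unfold star
  rw [Kernel.map_apply' _ meas_cmp _ hE, Kernel.compProd_apply (meas_cmp hE)]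
  rfl

omit [AddCommGroup G] in
theorem meas_sec (K2 : Kernel Ω (Ω × Arr V)) [IsMarkovKernel K2] {E : Set (Ω × Arr V)}
    (hE : MeasurableSet E) :
    Measurable fun x : Ω × Arr V => K2 x.1 {z | (z.1, cmpR x.2 z.2) ∈ E} :=
  Kernel.measurable_kernel_prodMk_left (κ := K2.comap Prod.fst measurable_fst) (meas_cmp hE)

end CeAux

open CeAux in
theorem xCe : CeS := by
  intro G Ω V _ _ _ _ A H1 H2 K1 K2 h1 h2 n
  have := h1.markov
  have := h2.markov
  have hm : Measurable (Prod.map (tz A.T n) (sh A.σ n n)) :=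
    (measurable_tz A.T n).prodMap (measurable_sh A.σ n n)
  filter_upwards [h1.eqv n, ae_fst h1 (h2.eqv n)] with y a1 a2
  ext E hE
  rw [Measure.map_apply hm hE, star_apply _ _ _ hE, star_apply _ _ _ (hm hE), a1,
    lintegral_map (meas_sec K2 hE) hm]
  refine lintegral_congr_ae ?_
  filter_upwards [a2] with x hx
  have hs : MeasurableSet {z : Ω × Arr V | (z.1, cmpR (sh A.σ n n x.2) z.2) ∈ E} :=
    (measurable_fst.prodMk (measurable_cmpR measurable_const measurable_snd)) hE
  show K2 (tz A.T n x.1) {z | (z.1, cmpR (sh A.σ n n x.2) z.2) ∈ E} = _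
  rw [hx, Measure.map_apply hm hs]
  congr 1
  ext z
  simp only [mem_preimage, mem_ofPred_eq, Prod.map_fst, Prod.map_snd, cmpR_sh, Prod.map_apply]

end

end Pool.Agent.MP_154433_an.T4A
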