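import Pool.Agent.MP_154433_an.t4a.Spec

/-! Flat squares pass to the composition of two arrows. -/

set_option autoImplicit false
set_option linter.unusedVariables false

open MeasureTheory ProbabilityTheory Filter Topology Set
open scoped ENNReal

namespace Pool.Agent.MP_154433_an.T4A

open T3A

noncomputable section

namespace CflAux

lemma move {V : Type} [AddCommGroup V] {N1 N2 N3 : AddSubgroup V} {R S : Arr V}
    (hR : Iso N1 N2 R) (hS : Iso N2 N3 S) {a e e1 b : V} (h1 : (a, e) ∈ R) (h2 : (e, b) ∈ S)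
    (h3 : (a, e1) ∈ R) : (e1, b) ∈ S := by
  have h4 := hR.sub _ _ _ _ h1 h3
  have h5 : e - e1 ∈ N2 := (hR.iff _ _ h4).1 (by simp)
  have h6 := hS.sub _ _ _ _ h2 (hS.zero _ h5 0 N3.zero_mem)
  simpa using h6

/-- nonempty arrows that send `c` outside `F` -/
def miss (Ω : Type) {V : Type} [AddCommGroup V] (c : V) (F : Finset V) :
    Set ((Ω × Ω) × Arr V) :=
  {z | ((0 : V), (0 : V)) ∈ z.2 ∧ ∀ c' ∈ F, (c, c') ∉ z.2}

lemma meas_miss {Ω V : Type} [MeasurableSpace Ω] [AddCommGroup V] (c : V) (F : Finset V) :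
    MeasurableSet (miss Ω c F) := by
  have : miss Ω c F = {z | ((0 : V), (0 : V)) ∈ z.2} ∩ ⋂ c' ∈ F, {z | (c, c') ∈ z.2}ᶜ := by
    ext z; simp [miss]
  rw [this]
  exact (measurableSet_memA measurable_snd _).inter
    (F.measurableSet_biInter fun c' _ => (measurableSet_memA measurable_snd _).compl)

lemma tight {G Ω V : Type} [AddCommGroup G] [MeasurableSpace Ω] [AddCommGroup V] [Countable V]
    (A : Base G Ω V) (w : Measure ((Ω × Ω) × Arr V)) [IsFiniteMeasure w] (h : IsoW A w) (c : V)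
    (ε : ℝ≥0∞) (hε : 0 < ε) : ∃ F : Finset V, w (miss Ω c F) ≤ ε := by
  classical
  have hanti : Antitone (miss Ω c) := fun F F' hF z hz => ⟨hz.1, fun c' hc => hz.2 c' (hF hc)⟩
  have ht := tendsto_measure_iInter_atTop (μ := w) (s := miss Ω c)
    (fun F => (meas_miss c F).nullMeasurableSet) hanti ⟨∅, measure_ne_top _ _⟩
  have h0 : w (⋂ F, miss Ω c F) = 0 := by
    refine measure_mono_null ?_ (ae_iff.1 h)
    intro z hz
    simp only [mem_iInter] at hz
    intro hI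
    obtain ⟨c', hc⟩ := (hI (hz ∅).1).totL c
    exact (hz {c'}).2 c' (by simp) hc
  rw [h0] at ht
  exact (ENNReal.tendsto_nhds_zero.1 ht ε hε).exists

lemma bound {G Ω V J : Type} [AddCommGroup G] [MeasurableSpace Ω] [AddCommGroup V] [Countable V]
    (B : Bun G Ω V J) (w1 w2 w3 : Measure ((Ω × Ω) × Arr V)) (hT : Tri w1 w2 w3)
    (hinv : ∀ n, MeasurePreserving (B.sA n n) w1 w1) (h1 : IsoW B.toBase w1)
    (h2 : IsoW B.toBase w2) (j : J) (M : ℕ) (d : ℤ × ℤ) (c11 c13 c21 c23 : V) (F F1 : Finset V) :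
    w3 (B.flatS j M d c11 c13 c21 c23) ≤ w1 (miss Ω c11 F) + w1 (miss Ω c21 F1) +
      ∑ p ∈ F ×ˢ F1, (w1 (B.flatS j M d c11 p.1 c21 p.2) + w2 (B.flatS j M d p.1 c13 p.2 c23)) := by
  obtain ⟨m, hm, e1, e2, e3⟩ := hT
  have m2 : Measurable fun x : ((Ω × Ω) × Arr V) × (Ω × Arr V) => ((x.1.1.2, x.2.1), x.2.2) := by
    fun_prop
  have m3 : Measurable fun x : ((Ω × Ω) × Arr V) × (Ω × Arr V) =>
      ((x.1.1.1, x.2.1), cmpR x.1.2 x.2.2) :=
    (measurable_fst.fst.fst.prodMk measurable_snd.fst).prodMk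
      (measurable_cmpR measurable_fst.snd measurable_snd.snd)
  have a1 : ∀ᵐ x ∂m, ((0 : V), (0 : V)) ∈ x.1.2 → Iso (B.N x.1.1.1) (B.N x.1.1.2) x.1.2 := by
    unfold IsoW at h1
    rw [← e1] at h1
    exact ae_of_ae_map measurable_fst.aemeasurable h1
  have a2 : ∀ᵐ x ∂m, ((0 : V), (0 : V)) ∈ x.2.2 → Iso (B.N x.1.1.2) (B.N x.2.1) x.2.2 := by
    unfold IsoW at h2
    rw [← e2] at h2
    exact ae_of_ae_map m2.aemeasurable h2
  set n := B.st j d with hn
  have mF : ∀ a b c e : V, MeasurableSet (B.flatS j M d a b c e) :=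
    fun a b c e => (B.cyl_flatS j M d a b c e).meas
  have k1 : ∀ E, MeasurableSet E → m (Prod.fst ⁻¹' E) = w1 E := fun E hE => by
    rw [← e1, Measure.map_apply measurable_fst hE]
  have k2 : ∀ E, MeasurableSet E →
      m ((fun x : ((Ω × Ω) × Arr V) × (Ω × Arr V) => ((x.1.1.2, x.2.1), x.2.2)) ⁻¹' E) = w2 E :=
    fun E hE => by rw [← e2, Measure.map_apply m2 hE]
  have k3 : w1 (B.sA n n ⁻¹' miss Ω c21 F1) = w1 (miss Ω c21 F1) :=
    (hinv n).measure_preimage (meas_miss c21 F1).nullMeasurableSet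
  rw [← e3, Measure.map_apply m3 (mF _ _ _ _)]
  calc m _ ≤ m ((Prod.fst ⁻¹' miss Ω c11 F ∪ Prod.fst ⁻¹' (B.sA n n ⁻¹' miss Ω c21 F1)) ∪
        ⋃ p ∈ F ×ˢ F1, (Prod.fst ⁻¹' B.flatS j M d c11 p.1 c21 p.2 ∪
          (fun x : ((Ω × Ω) × Arr V) × (Ω × Arr V) => ((x.1.1.2, x.2.1), x.2.2)) ⁻¹'
            B.flatS j M d p.1 c13 p.2 c23)) := by
        refine measure_mono_ae ?_
        filter_upwards [a1, a2] with x hx1 hx2 hx
        obtain ⟨⟨z1, z2, e, he1, he2⟩, ⟨-, -, e', he1', he2'⟩, hne⟩ := hx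
        have I1 := hx1 z1
        have I2 := hx2 z2
        by_cases q1 : x.1 ∈ miss Ω c11 F
        · exact Or.inl (Or.inl q1)
        by_cases q2 : B.sA n n x.1 ∈ miss Ω c21 F1
        · exact Or.inl (Or.inr q2)
        right
        have q1' : ∃ c12 ∈ F, (c11, c12) ∈ x.1.2 := by
          by_contra hc
          exact q1 ⟨z1, fun c' hc' hh => hc ⟨c', hc', hh⟩⟩
        have q2' : ∃ c22 ∈ F1, (sz B.σ n c21, sz B.σ n c22) ∈ x.1.2 := by
          by_contra hc
          refine q2 ⟨?_, fun c' hc' hh => hc ⟨c', hc', hh⟩⟩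
          simpa using z1
        obtain ⟨c12, hF, r1⟩ := q1'
        obtain ⟨c22, hF1, r2⟩ := q2'
        have s1 : (c12, c13) ∈ x.2.2 := move I1 I2 he1 he2 r1
        have s2 : (sz B.σ n c22, sz B.σ n c23) ∈ x.2.2 := move I1 I2 he1' he2' r2
        simp only [mem_iUnion]
        refine ⟨(c12, c22), Finset.mem_product.2 ⟨hF, hF1⟩, ?_⟩
        by_cases q3 : ((c11, c21) ∈ B.Sg j M d x.1.1.1 ↔ (c12, c22) ∈ B.Sg j M d x.1.1.2)
        · exact Or.inr ⟨s1, s2, fun q4 => hne (q3.trans q4)⟩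
        · exact Or.inl ⟨r1, r2, q3⟩
    _ ≤ _ := by
        refine (measure_union_le _ _).trans (add_le_add ?_ ?_)
        · refine (measure_union_le _ _).trans (le_of_eq ?_)
          rw [k1 _ (meas_miss c11 F), k1 _ (B.measurable_sA n n (meas_miss c21 F1)), k3]
        · refine (measure_biUnion_finset_le _ _).trans (Finset.sum_le_sum fun p _ => ?_)
          refine (measure_union_le _ _).trans (le_of_eq ?_)
          rw [k1 _ (mF _ _ _ _), k2 _ (mF _ _ _ _)]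

end CflAux

open CflAux in
theorem xCfl : CflS := by
  intro G Ω V J _ _ _ _ B w1 w2 w3 hT hinv h1 h2 f1 f2 j c11 c13 c21 c23
  have : IsProbabilityMeasure w1 := by
    obtain ⟨m, hm, e1, -, -⟩ := hT
    rw [← e1]
    exact Measure.isProbabilityMeasure_map measurable_fst.aemeasurable
  refine ENNReal.tendsto_nhds_zero.2 fun ε hε => ?_
  have h3 : 0 < ε / 3 := ENNReal.div_pos hε.ne' (by norm_num)
  obtain ⟨F, hF⟩ := tight B.toBase w1 h1 c11 _ h3
  obtain ⟨F1, hF1⟩ := tight B.toBase w1 h1 c21 _ h3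
  have hs : Tendsto (fun M => ∑ p ∈ F ×ˢ F1,
      ((∫⁻ d : ℤ × ℤ, w1 (B.flatS j M d c11 p.1 c21 p.2) ∂((B.ν M).prod (B.ν M))) +
        ∫⁻ d : ℤ × ℤ, w2 (B.flatS j M d p.1 c13 p.2 c23) ∂((B.ν M).prod (B.ν M)))) B.U (𝓝 0) := by
    have := tendsto_finsetSum (F ×ˢ F1) fun p _ => (f1 j c11 p.1 c21 p.2).add (f2 j p.1 c13 p.2 c23)
    simpa using this
  filter_upwards [ENNReal.tendsto_nhds_zero.1 hs _ h3] with M hM
  calc _ ≤ ∫⁻ d : ℤ × ℤ, (ε / 3 + ε / 3 + ∑ p ∈ F ×ˢ F1, (w1 (B.flatS j M d c11 p.1 c21 p.2) +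
        w2 (B.flatS j M d p.1 c13 p.2 c23))) ∂((B.ν M).prod (B.ν M)) := by
        refine lintegral_mono fun d => ?_
        refine (bound B w1 w2 w3 hT hinv h1 h2 j M d c11 c13 c21 c23 F F1).trans ?_
        gcongr
    _ = ε / 3 + ε / 3 + ∑ p ∈ F ×ˢ F1,
      ((∫⁻ d : ℤ × ℤ, w1 (B.flatS j M d c11 p.1 c21 p.2) ∂((B.ν M).prod (B.ν M))) +
        ∫⁻ d : ℤ × ℤ, w2 (B.flatS j M d p.1 c13 p.2 c23) ∂((B.ν M).prod (B.ν M))) := by
        rw [lintegral_add_left measurable_const, lintegral_const, measure_univ, mul_one,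
          lintegral_finsetSum _ fun p _ => measurable_of_countable _]
        congr 1
        exact Finset.sum_congr rfl fun p _ => lintegral_add_left (measurable_of_countable _) _
    _ ≤ ε / 3 + ε / 3 + ε / 3 := by gcongr
    _ = ε := ENNReal.add_thirds ε

end

end Pool.Agent.MP_154433_an.T4A
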