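import Pool.Agent.MP_154433_an.t4a.Spec

/-! The target law of a composition of arrow kernels. -/

set_option autoImplicit false
set_option linter.unusedVariables false
set_option linter.unusedSectionVars false

open MeasureTheory ProbabilityTheory Filter Topology Set
open scoped ENNReal

namespace Pool.Agent.MP_154433_an.T4A

open T3A

namespace CiAux

variable {Ω Z : Type} [MeasurableSpace Ω] [MeasurableSpace Z]

lemma inv_ext (μ : Measure Ω) (K : Kernel Ω (Ω × Z)) (T : Ω → Ω)
    (h : ∀ C, MeasurableSet C → ∀ᵐ y ∂μ, K (T y) (Prod.fst ⁻¹' C) = K y (Prod.fst ⁻¹' C))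
    (f : Ω → ℝ≥0∞) (hf : Measurable f) :
    ∀ᵐ y ∂μ, ∫⁻ x, f x.1 ∂(K (T y)) = ∫⁻ x, f x.1 ∂(K y) := by
  refine Measurable.ennreal_induction
    (motive := fun f => ∀ᵐ y ∂μ, ∫⁻ x, f x.1 ∂(K (T y)) = ∫⁻ x, f x.1 ∂(K y)) ?_ ?_ ?_ hf
  · intro c s hs
    filter_upwards [h s hs] with y hy
    have e : (fun x : Ω × Z => s.indicator (fun _ => c) x.1) =
        (Prod.fst ⁻¹' s).indicator fun _ => c := by
      funext x; rfl
    rw [e, lintegral_indicator_const (measurable_fst hs),
      lintegral_indicator_const (measurable_fst hs), hy]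
  · intro f g _ hf hg h1 h2
    filter_upwards [h1, h2] with y hy1 hy2
    simp only [Pi.add_apply]
    rw [lintegral_add_left (f := fun x : Ω × Z => f x.1) (hf.comp measurable_fst),
      lintegral_add_left (f := fun x : Ω × Z => f x.1) (hf.comp measurable_fst), hy1, hy2]
  · intro f hf hm h1
    filter_upwards [ae_all_iff.2 h1] with y hy
    rw [lintegral_iSup (f := fun n (x : Ω × Z) => f n x.1) (fun n => (hf n).comp measurable_fst)
        (fun i j hij x => hm hij x.1),
      lintegral_iSup (f := fun n (x : Ω × Z) => f n x.1) (fun n => (hf n).comp measurable_fst)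
        (fun i j hij x => hm hij x.1)]
    exact iSup_congr hy

lemma int_ext (μ : Measure Ω) (K : Kernel Ω (Ω × Z)) (D : Set Ω) (hD : MeasurableSet D)
    (h : ∀ C, MeasurableSet C → ∫⁻ y in D, K y (Prod.fst ⁻¹' C) ∂μ = μ (C ∩ D))
    (f : Ω → ℝ≥0∞) (hf : Measurable f) :
    ∫⁻ y in D, ∫⁻ x, f x.1 ∂(K y) ∂μ = ∫⁻ y in D, f y ∂μ := by
  have e : (μ.restrict D).bind (Kernel.fst K) = μ.restrict D := by
    ext C hC
    rw [Measure.bind_apply hC (Kernel.fst K).measurable.aemeasurable, Measure.restrict_apply hC,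
      ← h C hC]
    refine lintegral_congr fun y => ?_
    rw [Kernel.fst_apply' _ _ hC]
    rfl
  conv_rhs => rw [← e]
  rw [Measure.lintegral_bind (Kernel.fst K).measurable.aemeasurable hf.aemeasurable]
  refine lintegral_congr fun y => ?_
  rw [Kernel.lintegral_fst _ _ hf]

lemma star_apply {V : Type} [AddCommGroup V] [Countable V] (K1 K2 : Kernel Ω (Ω × Arr V))
    [IsMarkovKernel K1] [IsMarkovKernel K2] (y : Ω) (C : Set Ω) (hC : MeasurableSet C) :
    star K1 K2 y (Prod.fst ⁻¹' C) = ∫⁻ x, K2 x.1 (Prod.fst ⁻¹' C) ∂(K1 y) := by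
  unfold star
  rw [Kernel.map_apply' _ measurable_star _ (measurable_fst hC),
    Kernel.compProd_apply (measurable_star (measurable_fst hC))]
  rfl

end CiAux

open CiAux

theorem xCi : CiS := by
  intro G Ω V _ _ _ _ A H1 H2 K1 K2 h1 h2
  have := h1.markov
  have := h2.markov
  constructor
  · intro h hh C hC
    have hf : Measurable fun y : Ω => K2 y (Prod.fst ⁻¹' C) :=
      K2.measurable_coe (measurable_fst hC)
    simp only [star_apply K1 K2 _ C hC]
    rcases hh with hh | hh
    · exact inv_ext A.μ K1 (tz A.T h) (h1.inv h hh) _ hf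
    · have hT := measurable_tz A.T h
      have hN : MeasurableSet
          {y : Ω | K2 (tz A.T h y) (Prod.fst ⁻¹' C) = K2 y (Prod.fst ⁻¹' C)}ᶜ :=
        (measurableSet_eq_fun (hf.comp hT) hf).compl
      have h0 : A.μ {y : Ω | K2 (tz A.T h y) (Prod.fst ⁻¹' C) = K2 y (Prod.fst ⁻¹' C)}ᶜ = 0 :=
        h2.inv h hh C hC
      have h3 := h1.int _ univ hN MeasurableSet.univ (fun g _ => by simp)
      rw [inter_univ, h0, Measure.restrict_univ,
        lintegral_eq_zero_iff (K1.measurable_coe (measurable_fst hN))] at h3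
      filter_upwards [h3, h1.eqv h] with y hy he
      rw [he, lintegral_map (f := fun x : Ω × Arr V => K2 x.1 (Prod.fst ⁻¹' C))
        (hf.comp measurable_fst) (hT.prodMap (measurable_sh A.σ h h))]
      exact lintegral_congr_ae hy
  · intro C D hC hD hinv
    have hf : Measurable fun y : Ω => K2 y (Prod.fst ⁻¹' C) :=
      K2.measurable_coe (measurable_fst hC)
    simp only [star_apply K1 K2 _ C hC]
    rw [int_ext A.μ K1 D hD (fun C' hC' => h1.int C' D hC' hD fun h hh => hinv h (Or.inl hh)) _ hf]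
    exact h2.int C D hC hD fun h hh => hinv h (Or.inr hh)

end Pool.Agent.MP_154433_an.T4A
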