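import Pool.Agent.MP_154433_an.t4a.Spec

/-! Row Cis: composed arrows are isomorphisms and intertwine the loops. -/

set_option autoImplicit false
set_option linter.unusedVariables false

open MeasureTheory ProbabilityTheory Filter Topology Set
open scoped ENNReal

namespace Pool.Agent.MP_154433_an.T4A

open T3A

namespace CisAux

variable {G Ω V : Type} [AddCommGroup G] [MeasurableSpace Ω] [AddCommGroup V]

theorem meas_iso [Countable V] (A : Base G Ω V) :
    Measurable fun z : (Ω × Ω) × Arr V => Iso (A.N z.1.1) (A.N z.1.2) z.2 := by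
  have m1 : ∀ c, Measurable fun z : (Ω × Ω) × Arr V => c ∈ A.N z.1.1 := fun c =>
    (measurableSet_setOfPred.1 (A.mN c)).comp measurable_fst.fst
  have m2 : ∀ c, Measurable fun z : (Ω × Ω) × Arr V => c ∈ A.N z.1.2 := fun c =>
    (measurableSet_setOfPred.1 (A.mN c)).comp measurable_fst.snd
  have m3 : ∀ p : V × V, Measurable fun z : (Ω × Ω) × Arr V => p ∈ z.2 := fun p =>
    (measurable_set_mem p).comp measurable_snd
  have e : (fun z : (Ω × Ω) × Arr V => Iso (A.N z.1.1) (A.N z.1.2) z.2) = fun z =>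
      (∀ c, c ∈ A.N z.1.1 → ∀ c', c' ∈ A.N z.1.2 → (c, c') ∈ z.2) ∧
      (∀ a a' b b', (a, a') ∈ z.2 → (b, b') ∈ z.2 → (a - b, a' - b') ∈ z.2) ∧
      (∀ c, ∃ c', (c, c') ∈ z.2) ∧ (∀ c', ∃ c, (c, c') ∈ z.2) ∧
      ∀ c c', (c, c') ∈ z.2 → (c ∈ A.N z.1.1 ↔ c' ∈ A.N z.1.2) :=
    funext fun z => propext ⟨fun h => ⟨h.1, h.2, h.3, h.4, h.5⟩,
      fun h => ⟨h.1, h.2.1, h.2.2.1, h.2.2.2.1, h.2.2.2.2⟩⟩
  rw [e]
  exact (Measurable.forall fun c => (m1 c).imp (Measurable.forall fun c' => (m2 c').imp (m3 _))).and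
    ((Measurable.forall fun a => Measurable.forall fun a' => Measurable.forall fun b =>
      Measurable.forall fun b' => (m3 _).imp ((m3 _).imp (m3 _))).and
    ((Measurable.forall fun c => Measurable.exists fun c' => m3 _).and
    ((Measurable.forall fun c => Measurable.exists fun c' => m3 _).and
    (Measurable.forall fun c => Measurable.forall fun c' => (m3 _).imp ((m1 c).iff (m2 c'))))))

omit [AddCommGroup V] in
theorem meas_itw [Countable V] {g : ℕ → Ω → Arr V} (hg : ∀ i, Measurable (g i)) :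
    Measurable fun z : (Ω × Ω) × Arr V => ∀ i, Itw (g i z.1.1) (g i z.1.2) z.2 :=
  Measurable.forall fun i => Measurable.forall fun c => Measurable.forall fun a =>
    Measurable.forall fun a' => Measurable.forall fun b' =>
      ((measurable_set_mem (c, a)).comp ((hg i).comp measurable_fst.fst)).imp
        (((measurable_set_mem (a', b')).comp ((hg i).comp measurable_fst.snd)).imp
          (((measurable_set_mem (c, a')).comp measurable_snd).imp
            ((measurable_set_mem (a, b')).comp measurable_snd)))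

theorem iso_cmp {N1 N2 N3 : AddSubgroup V} {R S : Arr V} (h1 : Iso N1 N2 R) (h2 : Iso N2 N3 S)
    (r0 : ((0 : V), (0 : V)) ∈ R) (s0 : ((0 : V), (0 : V)) ∈ S) : Iso N1 N3 (cmpR R S) where
  zero c hc c' hc' := ⟨r0, s0, 0, h1.zero c hc 0 N2.zero_mem, h2.zero 0 N2.zero_mem c' hc'⟩
  sub a a' b b' := by
    rintro ⟨-, -, e, e1, e2⟩ ⟨-, -, f, f1, f2⟩
    exact ⟨r0, s0, e - f, h1.sub _ _ _ _ e1 f1, h2.sub _ _ _ _ e2 f2⟩
  totL c := by
    obtain ⟨e, he⟩ := h1.totL c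
    obtain ⟨c', hc⟩ := h2.totL e
    exact ⟨c', r0, s0, e, he, hc⟩
  totR c' := by
    obtain ⟨e, he⟩ := h2.totR c'
    obtain ⟨c, hc⟩ := h1.totR e
    exact ⟨c, r0, s0, e, hc, he⟩
  iff c c' := by
    rintro ⟨-, -, e, e1, e2⟩
    exact (h1.iff _ _ e1).trans (h2.iff _ _ e2)

theorem itw_cmp {g1 g2 g3 R S : Arr V} (ht : g1.Nonempty → ∀ c, ∃ c', (c, c') ∈ g2)
    (h1 : Itw g1 g2 R) (h2 : Itw g2 g3 S) : Itw g1 g3 (cmpR R S) := by
  rintro c a a' b' e1 e2 ⟨r0, s0, m, m1, m2⟩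
  obtain ⟨m', hm⟩ := ht ⟨_, e1⟩ m
  exact ⟨r0, s0, m', h1 c a m m' e1 hm m1, h2 m m' a' b' hm e2 m2⟩

theorem pass [Countable V] {w1 w2 w3 : Measure ((Ω × Ω) × Arr V)} (h : Tri w1 w2 w3)
    {P1 P2 P3 : (Ω × Ω) × Arr V → Prop} (h1 : ∀ᵐ z ∂w1, P1 z) (h2 : ∀ᵐ z ∂w2, P2 z)
    (h3 : Measurable P3) (hP : ∀ (y1 y2 y3 : Ω) (R S : Arr V), P1 ((y1, y2), R) →
      P2 ((y2, y3), S) → P3 ((y1, y3), cmpR R S)) : ∀ᵐ z ∂w3, P3 z := by
  obtain ⟨m, -, rfl, rfl, rfl⟩ := h
  have k2 : Measurable fun x : ((Ω × Ω) × Arr V) × (Ω × Arr V) => ((x.1.1.2, x.2.1), x.2.2) :=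
    (measurable_fst.fst.snd.prodMk measurable_snd.fst).prodMk measurable_snd.snd
  have k3 : Measurable fun x : ((Ω × Ω) × Arr V) × (Ω × Arr V) =>
      ((x.1.1.1, x.2.1), cmpR x.1.2 x.2.2) :=
    (measurable_fst.fst.fst.prodMk measurable_snd.fst).prodMk
      (measurable_cmpR measurable_fst.snd measurable_snd.snd)
  rw [ae_map_iff k3.aemeasurable (measurableSet_setOfPred.2 h3)]
  filter_upwards [ae_of_ae_map measurable_fst.aemeasurable h1, ae_of_ae_map k2.aemeasurable h2]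
    with x e1 e2
  exact hP _ _ _ _ _ e1 e2

end CisAux

open CisAux in
theorem xCis : CisS := by
  intro G Ω V _ _ _ _ A w1 w2 w3 h h1 h2
  refine pass h h1 h2 (((measurable_set_mem _).comp measurable_snd).imp (meas_iso A)) ?_
  intro y1 y2 y3 R S e1 e2 e0
  obtain ⟨r0, s0⟩ := (zero_mem_cmpR R S).1 e0
  exact iso_cmp (e1 r0) (e2 s0) r0 s0

open CisAux in
theorem xCit : CitS := by
  intro Ω V _ _ _ w1 w2 w3 g h hg ht h1 h2
  refine pass h (ht.and h1) h2 (meas_itw hg) ?_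
  intro y1 y2 y3 R S e1 e2 i
  exact itw_cmp (e1.1 i) (e1.2 i) (e2 i)

end Pool.Agent.MP_154433_an.T4A
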