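import Pool.Agent.MP_154433_an.t4a.Spec
import Pool.Agent.MP_154433_an.t3a.ConvA
import Pool.Agent.MP_154433_an.t4.Spec

/-! From the weights of the main development to measures. -/

set_option autoImplicit false
set_option linter.unusedVariables false

open MeasureTheory ProbabilityTheory Filter Topology Set
open scoped ENNReal

namespace Pool.Agent.MP_154433_an.T4A

open T3A

noncomputable section

open T3x (Wt Lab)

theorem spr_of {ν : Wt} (h : T4x.SPR ν) : SprM (wm ν) := by
  have key : ∀ (M : ℕ) (S : Set ℤ),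
      wm ν M S = ENNReal.ofReal (ν.av M (S.indicator fun _ => (1 : ℝ))) := by
    intro M S
    rw [← lint_wm' ν M fun d => indicator_nonneg (fun _ _ => zero_le_one) d,
      ← lintegral_indicator_one (Set.to_countable S).measurableSet]
    refine lintegral_congr fun d => ?_
    by_cases hd : d ∈ S <;> simp [hd]
  refine ⟨h.1.mono fun M hM => ?_, fun r s L N ε H hε hH => (h.2 r s L N ε H hε hH).mono
    fun M hM m d0 h1 h2 h3 => ?_⟩
  · rw [key, Wt.av, Finset.sum_eq_zero, ENNReal.ofReal_zero]
    intro d hd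
    rw [indicator_of_notMem (s := {d : ℤ | ¬ |d| ≤ M}) (fun hc => hc (hM d hd)), smul_zero]
  · rw [key]
    exact ENNReal.ofReal_le_ofReal (hM m d0 h1 h2 h3)

theorem mix_of [T4x.Grp] (bt : T4x.BasT) (ν : Wt) (U : Ultrafilter ℕ)
    (hU : (U : Filter ℕ) ≤ atTop) (hm : T4x.Mix ν) : Mix T4x.Γ (wm ν) U := by
  intro Y _ μ _ T hT a b A' hA'
  let X : T4x.Sys :=
    { X := Y, μ := μ, Tz := tz T, mp := hT, zero := tz_zero T, add := tz_add T }
  have hle : T4x.Inv X {-a, b} ≤ ‹MeasurableSpace Y› := (bt.finv X _).le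
  have hi : ∀ {A : Set Y}, MeasurableSet A → Integrable (A.indicator fun _ => (1 : ℝ)) μ :=
    fun hA => (integrable_const 1).indicator hA
  have cx : ∀ {A : Set Y}, MeasurableSet A →
      (fun y => (((μ[A.indicator fun _ => (1 : ℝ) | T4x.Inv X {-a, b}]) y : ℝ) : ℂ)) =ᵐ[μ]
        μ[A.indicator fun _ => (1 : ℂ) | T4x.Inv X {-a, b}] := by
    intro A hA
    have e : (Complex.ofRealCLM ∘ A.indicator fun _ => (1 : ℝ)) = A.indicator fun _ => (1 : ℂ) := by
      funext y
      by_cases hy : y ∈ A <;> simp [hy]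
    have := Complex.ofRealCLM.comp_condExp_comm (m := T4x.Inv X {-a, b}) (hi hA)
    rw [e] at this
    exact this
  set g0 := μ[A'.indicator fun _ => (1 : ℝ) | T4x.Inv X {-a, b}] with hg0
  have gm : StronglyMeasurable[T4x.Inv X {-a, b}] g0 := stronglyMeasurable_condExp
  have gn : 0 ≤ᵐ[μ] g0 := condExp_nonneg
    (Eventually.of_forall fun y => indicator_nonneg (fun _ _ => zero_le_one) y)
  have gi : Integrable g0 μ := integrable_condExp
  have gc : StronglyMeasurable[T4x.Inv X {-a, b}] fun y => ((g0 y : ℝ) : ℂ) :=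
    Complex.continuous_ofReal.comp_stronglyMeasurable gm
  have ginv := (bt.inv_iff X {-a, b} (fun y => ((g0 y : ℝ) : ℂ))
    (gc.mono hle).aestronglyMeasurable).1 gc.aestronglyMeasurable
  have hset : ∀ D, ∫⁻ y in D, ENNReal.ofReal (g0 y) ∂μ = ENNReal.ofReal (∫ y in D, g0 y ∂μ) :=
    fun D => (ofReal_integral_eq_lintegral_ofReal gi.integrableOn (ae_restrict_of_ae gn)).symm
  refine ⟨fun y => ENNReal.ofReal (g0 y), (gm.mono hle).measurable.ennreal_ofReal, ?_, ?_,
    fun D hD h1 h2 => ?_, fun A hA => ?_⟩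
  · filter_upwards [(hT a).quasiMeasurePreserving.ae (ginv (-a) (by simp))] with y hy
    have e : ((g0 (tz T (-a) (tz T a y)) : ℝ) : ℂ) = (g0 (tz T a y) : ℝ) := hy
    rw [tz_neg_tz] at e
    rw [← Complex.ofReal_injective e]
  · filter_upwards [ginv b (by simp)] with y hy
    have e : ((g0 (tz T b y) : ℝ) : ℂ) = (g0 y : ℝ) := hy
    rw [Complex.ofReal_injective e]
  · have hDI : MeasurableSet[T4x.Inv X {-a, b}] D := by
      refine ⟨hD, fun h hh => ?_⟩
      rcases hh with rfl | rfl
      · filter_upwards [(hT (-a)).quasiMeasurePreserving.ae h1] with y hy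
        have e : (tz T a (tz T (-a) y) ∈ D) = (tz T (-a) y ∈ D) := hy
        rw [tz_tz_neg] at e
        exact e.symm
      · exact h2
    rw [hset, hg0, setIntegral_condExp hle (hi hA') hDI, setIntegral_indicator hA',
      setIntegral_const, smul_eq_mul, mul_one, inter_comm, ofReal_measureReal]
  · have bm : ∀ {A : Set Y}, MeasurableSet A → Fib27.BM μ ‹MeasurableSpace Y›
        (A.indicator fun _ => (1 : ℂ)) := fun {A} hA =>
      ⟨(measurable_const.indicator hA).aestronglyMeasurable, 1, Eventually.of_forall fun y => by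
        by_cases hy : y ∈ A <;> simp [hy]⟩
    have l := hm.pair X (-a, true) (b, false) _ _ (bm hA) (bm hA')
    have hpg : T4x.pg (-a, true) (b, false) = {-a, b} := by simp [T4x.pg]
    rw [hpg] at l
    have e2 : (A.indicator fun _ => (1 : ℝ)) * g0 = A.indicator g0 := by
      funext y
      by_cases hy : y ∈ A <;> simp [hy]
    have e3 := condExp_mul_of_stronglyMeasurable_right (μ := μ) gm
      (f := A.indicator fun _ => (1 : ℝ)) (by rw [e2]; exact gi.indicator hA) (hi hA)
    have hval : ∫ x, (μ[A.indicator fun _ => (1 : ℂ) | T4x.Inv X {-a, b}]) x *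
        (μ[A'.indicator fun _ => (1 : ℂ) | T4x.Inv X {-a, b}]) x ∂μ =
        ((∫ y in A, g0 y ∂μ : ℝ) : ℂ) := by
      rw [← integral_indicator hA, ← e2, ← integral_condExp hle (f := _ * g0), integral_congr_ae e3,
        ← integral_complex_ofReal]
      refine integral_congr_ae ?_
      filter_upwards [cx hA, cx hA'] with y h1 h2
      rw [← h1, ← h2, Pi.mul_apply, Complex.ofReal_mul]
    have hterm : ∀ l : Lab, ∫ x, (A.indicator fun _ => (1 : ℂ)) (X.Tz (T4x.rho (-a, true) l) x) *
        (A'.indicator fun _ => (1 : ℂ)) (X.Tz (T4x.rho (b, false) l) x) ∂μ =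
        ((μ.real (A ∩ tz T (l.2.1 • a + l.2.2 • b) ⁻¹' A') : ℝ) : ℂ) := by
      intro l
      have hS : MeasurableSet (A ∩ tz T (l.2.1 • a + l.2.2 • b) ⁻¹' A') :=
        hA.inter (measurable_tz T _ hA')
      rw [← (hT (l.2.1 • -a)).measureReal_preimage hS.nullMeasurableSet,
        ← integral_indicator_one (measurable_tz T _ hS), ← integral_complex_ofReal]
      refine integral_congr_ae (Eventually.of_forall fun x => ?_)
      have e : tz T (l.2.1 • a + l.2.2 • b) (tz T (l.2.1 • -a) x) = tz T (l.2.2 • b) x := by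
        rw [← tz_add]; congr 1; simp
      change (A.indicator fun _ => (1 : ℂ)) (tz T (l.2.1 • -a) x) *
        (A'.indicator fun _ => (1 : ℂ)) (tz T (l.2.2 • b) x) = _
      by_cases h1 : tz T (l.2.1 • -a) x ∈ A <;> by_cases h2 : tz T (l.2.2 • b) x ∈ A' <;>
        simp only [indicator, mem_preimage, mem_inter_iff, e, h1, h2] <;> simp
    have l2 : Tendsto (fun M => ν.av2 M fun l : Lab =>
        μ.real (A ∩ tz T (l.2.1 • a + l.2.2 • b) ⁻¹' A')) atTop (𝓝 (∫ y in A, g0 y ∂μ)) := by
      have l3 := (Complex.continuous_re.tendsto _).comp l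
      change Tendsto _ _ (𝓝 (Complex.re (∫ x, (μ[A.indicator fun _ => (1 : ℂ) |
        T4x.Inv X {-a, b}]) x * (μ[A'.indicator fun _ => (1 : ℂ) | T4x.Inv X {-a, b}]) x ∂μ))) at l3
      rw [hval, Complex.ofReal_re] at l3
      refine l3.congr fun M => ?_
      change Complex.re (ν.av2 M fun l => ∫ x, (A.indicator fun _ => (1 : ℂ))
        (X.Tz (T4x.rho (-a, true) l) x) * (A'.indicator fun _ => (1 : ℂ))
        (X.Tz (T4x.rho (b, false) l) x) ∂μ) = _
      simp only [hterm, Wt.av2, Wt.av, Complex.re_sum, Complex.smul_re, Complex.ofReal_re]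
    rw [hset]
    refine (ENNReal.tendsto_ofReal (l2.mono_left hU)).congr fun M => ?_
    rw [← key0 ν true M fun _ => measureReal_nonneg]
    refine lintegral_congr fun d => ?_
    rw [ofReal_measureReal]
    rfl

end

end Pool.Agent.MP_154433_an.T4A
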