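import Pool.Agent.MP_154433_an.t4a.ConvA

/-! From the algebraic step for bundles to the statement of the main development. -/

set_option autoImplicit false
set_option linter.unusedVariables false

open MeasureTheory ProbabilityTheory Filter Topology Set
open scoped ENNReal

namespace Pool.Agent.MP_154433_an.T4A

open T3A

noncomputable section

open T3x (Wt Lab)
open T4x (Γ 𝒰 rho)

variable [T4x.Grp]

lemma rho_same (s : T4x.Slot) (e : Bool) (h : s.2 = e) (M : ℕ) (d : ℤ × ℤ) :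
    rho s (lab e M d) = d.1 • s.1 := by
  subst h
  unfold rho lab
  cases s.2 <;> simp

lemma rho_ne (s : T4x.Slot) (e : Bool) (h : ¬ s.2 = e) (M : ℕ) (d : ℤ × ℤ) :
    rho s (lab e M d) = d.2 • s.1 := by
  unfold rho lab
  revert h
  cases s.2 <;> cases e <;> simp

theorem bridge (hA : AlgS) (hE : ExaS) (bt : T4x.BasT) (hm : T4x.MixS) : T4x.AlgS := by
  classical
  intro ν U X V _ _ sg N ι _ Sg sl i1 n v0 h
  let T : Act Γ X.X := ⟨X.Tz, fun g => (X.mp g).measurable, X.zero, X.add⟩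
  let σ : VAct Γ V := ⟨fun g => (sg g).toAddMonoidHom, fun c => by simp,
    fun g g' c => by simp [AddAut.add_apply]⟩
  obtain ⟨N', mN, eN, aN⟩ := hE Γ X.X V X.μ T σ N X.mp h.mN h.n0 h.nsub h.nsh
  set e := (sl i1).2 with he
  by_cases hJ : IsEmpty {j // j ≠ i1}
  · have h1 : ∀ k, k = i1 := fun k => by_contra fun hk => hJ.false ⟨k, hk⟩
    apply h.rel
    refine (tendsto_const_nhds (x := (0 : ℝ))).congr fun M => ?_
    have : ∀ l : Lab, {x | (∀ j, j ≠ i1 → X.Tz (rho (sl i1) l) x ∈ Sg j l 0 0) ∧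
        x ∈ N (∑ k, sg (rho (sl k) l) (v0 k)) ∧ x ∉ N (sg (rho (sl i1) l) (v0 i1))} = ∅ := by
      intro l
      refine eq_empty_of_forall_notMem fun x hx => hx.2.2 ?_
      have := hx.2.1
      rwa [Finset.sum_eq_single i1 (fun k _ hk => absurd (h1 k) hk) (by simp)] at this
    simp [this, Wt.av2, Wt.av]
  have hJ' : Nonempty {j // j ≠ i1} := not_isEmpty_iff.1 hJ
  let a : {j // j ≠ i1} → Γ := fun j => if (sl j.1).2 = e then (sl j.1).1 - (sl i1).1 else -(sl i1).1
  let b : {j // j ≠ i1} → Γ := fun j => if (sl j.1).2 = e then 0 else (sl j.1).1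
  have hn : ∀ (j : {j // j ≠ i1}) M d, n j.1 (lab e M d) = d.1 • a j + d.2 • b j := by
    intro j M d
    rw [h.hn, rho_same (sl i1) e rfl]
    by_cases hj : (sl j.1).2 = e
    · rw [rho_same _ e hj]; simp only [a, b, if_pos hj, smul_sub, smul_zero, add_zero]
    · rw [rho_ne _ e hj]; simp only [a, b, if_neg hj, smul_neg]; abel
  let B : Bun Γ X.X V {j // j ≠ i1} :=
    { μ := X.μ, prob := X.pr, T := T, mp := X.mp, σ := σ, N := N'
      mN := mN, eqz := eN, ν := wm ν, pν := fun _ => inferInstance, U := U, a := a, b := b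
      Sg := fun j M d y => {p | y ∈ Sg j.1 (lab e M d) p.1 p.2}
      mS := fun j M d => measurable_set_iff.2 fun p =>
        measurableSet_setOfPred.1 (h.mS j.1 (lab e M d) p.1 p.2) }
  have aZ : ∀ k : Γ, ∀ᵐ y ∂X.μ, ∀ c, c ∈ N' (tz T k y) ↔ X.Tz k y ∈ N c := fun k =>
    (X.mp k).quasiMeasurePreserving.ae aN
  have mT : ∀ k : Γ, Measurable (X.Tz k) := fun k => (X.mp k).measurable
  have mi : ∀ {A A' : Set X.X}, MeasurableSet A → MeasurableSet A' →
      MeasurableSet {y | ¬ (y ∈ A ↔ y ∈ A')} := fun hA hA' =>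
    measurableSet_setOfPred.2 ((measurableSet_setOfPred.1 hA).iff (measurableSet_setOfPred.1 hA')).not
  have tot : ∀ (j : {j // j ≠ i1}) (c : V) (ε : ℝ≥0∞), 0 < ε → ∃ F : Finset V,
      ∀ᶠ M in (U : Filter ℕ),
      B.P M (B.pt j M ⁻¹' {a | ((0 : V), (0 : V)) ∈ a.2 ∧ ∀ c' ∈ F, (c, c') ∉ a.2}) ≤ ε ∧
      B.P M (B.pt j M ⁻¹' {a | ((0 : V), (0 : V)) ∈ a.2 ∧ ∀ c' ∈ F, (c', c) ∉ a.2}) ≤ ε := by
    intro j c ε hε
    obtain ⟨ε', h1, h2⟩ : ∃ ε' : ℝ, 0 < ε' ∧ ENNReal.ofReal ε' ≤ ε := by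
      obtain ⟨x, -, hx1, hx2⟩ := ENNReal.lt_iff_exists_real_btwn.1 hε
      exact ⟨x, ENNReal.ofReal_pos.1 hx1, hx2.le⟩
    obtain ⟨F, hF⟩ := h.tot j.1 j.2 c ε' h1
    refine ⟨F, hF.mono fun M hM => ⟨?_, ?_⟩⟩
    · refine (key_le ν e M (X.res 0) (A := fun l => Sg j.1 l 0 0 \ ⋃ a' ∈ F, Sg j.1 l c a')
        (fun l => (h.mS j.1 l 0 0).diff (F.measurableSet_biUnion fun a' _ => h.mS j.1 l c a'))
        (fun d => Eventually.of_forall fun y hy => ⟨hy.1, ?_⟩)).trans
        ((ENNReal.ofReal_le_ofReal hM.1).trans h2)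
      intro hu
      obtain ⟨a', ha', hu⟩ := mem_iUnion₂.1 hu
      exact hy.2 a' ha' hu
    · refine (key_le ν e M (X.res 0) (A := fun l => Sg j.1 l 0 0 \ ⋃ a' ∈ F, Sg j.1 l a' c)
        (fun l => (h.mS j.1 l 0 0).diff (F.measurableSet_biUnion fun a' _ => h.mS j.1 l a' c))
        (fun d => Eventually.of_forall fun y hy => ⟨hy.1, ?_⟩)).trans
        ((ENNReal.ofReal_le_ofReal hM.2).trans h2)
      intro hu
      obtain ⟨a', ha', hu⟩ := mem_iUnion₂.1 hu
      exact hy.2 a' ha' hu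
  have h0 : H0 B := by
    refine ⟨mix_of bt ν U h.hU (hm ν h.erg), fun j c c' => ?_, fun j c c' a a' => ?_,
      fun j c c' => ?_, fun j c ε hε => ?_, fun j c ε hε => ?_, fun j g c c' => ?_⟩
    · refine nul_of ν U e (X.res 0) (fun l => (((h.mS j.1 l 0 0).inter (h.mN c)).inter
        (mT _ (h.mN c'))).diff (h.mS j.1 l c c')) (h.triv j.1 j.2 c c') fun M d => ?_
      filter_upwards [aN, aZ (B.st j d)] with y h1 h2 hy
      refine ⟨⟨⟨hy.2.2.1, (h1 c).1 hy.1⟩, ?_⟩, hy.2.2.2⟩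
      rw [hn]
      exact (h2 c').1 hy.2.1
    · exact nul_of ν U e (X.res 0)
        (fun l => ((h.mS j.1 l _ _).inter (h.mS j.1 l _ _)).diff (h.mS j.1 l _ _))
        (h.sub j.1 j.2 c c' a a') fun M d =>
          Eventually.of_forall fun y hy => ⟨⟨hy.1, hy.2.1⟩, hy.2.2⟩
    · refine nul_of ν U e (X.res 0)
        (fun l => (h.mS j.1 l c c').inter (mi (h.mN c) (mT _ (h.mN c'))))
        (h.ker j.1 j.2 c c') fun M d => ?_
      filter_upwards [aN, aZ (B.st j d)] with y h1 h2 hy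
      refine ⟨hy.1, fun hc => hy.2 ?_⟩
      rw [hn] at hc
      exact (h1 c).trans (hc.trans (h2 c').symm)
    · obtain ⟨F, hF⟩ := tot j c ε hε
      exact ⟨F, hF.mono fun M hM => hM.1⟩
    · obtain ⟨F, hF⟩ := tot j c ε hε
      exact ⟨F, hF.mono fun M hM => hM.2⟩
    · exact nul_of ν U e (X.res 0) (fun l => mi (h.mS j.1 l _ _) (mT g (h.mS j.1 l c c')))
        (h.sh j.1 j.2 g c c') fun M d => Eventually.of_forall fun y hy => hy
  have hF : Flat B := by
    intro j j' a b a' b'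
    obtain ⟨φ, h1, h2⟩ := h.flat j.1 j'.1 j.2 j'.2 a b a' b'
    have hφ : ∀ l, 0 ≤ φ l := fun l => ge_of_tendsto' (h2 l) fun M =>
      av2_nonneg ν M fun _ => measureReal_nonneg
    have h3 : ∀ M' d', limsup (fun M => B.P M (B.pt j' M ⁻¹' B.flatS j M' d' a b a' b')) U =
        ENNReal.ofReal (φ (lab e M' d')) := by
      intro M' d'
      refine ((ENNReal.tendsto_ofReal (h2 (lab e M' d'))).congr fun M => ?_).limsup_eq
      refine (key ν e M (X.res 0) (A := fun l' => {y | y ∈ Sg j'.1 l' a b ∧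
          y ∈ Sg j'.1 l' (sg (n j.1 (lab e M' d')) a') (sg (n j.1 (lab e M' d')) b') ∧
          ¬ (y ∈ Sg j.1 (lab e M' d') a a' ↔ X.Tz (n j'.1 l') y ∈ Sg j.1 (lab e M' d') b b')})
        fun l' => (h.mS j'.1 l' a b).inter ((h.mS j'.1 l' _ _).inter
        (mi (h.mS j.1 _ a a') (mT _ (h.mS j.1 _ b b'))))).symm.trans ?_
      change PM (wm ν M) X.μ _ = PM (wm ν M) X.μ _
      congr 1
      ext z
      simp only [mem_ofPred_eq, hn]
      rfl
    have h4 := ENNReal.tendsto_ofReal h1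
    rw [ENNReal.ofReal_zero] at h4
    refine h4.congr fun M' => ?_
    rw [← key0 ν e M' hφ]
    exact lintegral_congr fun d' => (h3 M' d').symm
  let D : RD Γ V :=
    { I := {k // (sl k).2 = e ∧ (sl k).1 ∈ (𝒰 : Set Γ)}, fin := inferInstance
      r := fun k => (sl k.1).1, dir := 𝒰, hr := fun k => k.2.2
      hd := fun k k' hk => (h.nrm.cov k.1 (Finset.mem_univ _) k'.1 (Finset.mem_univ _)
        fun hc => hk (Subtype.ext hc)).1 (k.2.1.trans k'.2.1.symm)
      k0 := ⟨i1, rfl, h.h1⟩, c := fun k => v0 k.1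
      b := fun d => -∑ k : {k // ¬ ((sl k).2 = e ∧ (sl k).1 ∈ (𝒰 : Set Γ))},
        sg (d • (sl k.1).1) (v0 k.1) }
  have hD : B.Dec D id := by
    intro u hu c c'
    have h4 := ENNReal.tendsto_ofReal (h.dec u hu c c')
    rw [ENNReal.ofReal_zero] at h4
    refine h4.congr' ((eventually_ge_atTop 1).mono fun K hK => ?_)
    have hK' : (0 : ℝ) < K := by exact_mod_cast hK
    simp only [id]
    rw [ENNReal.ofReal_mul (by positivity), ENNReal.ofReal_inv_of_pos hK', ENNReal.ofReal_natCast,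
      ENNReal.ofReal_sum_of_nonneg fun _ _ => measureReal_nonneg]
    congr 1
    refine Finset.sum_congr rfl fun k _ => ?_
    rw [ofReal_measureReal]
    refine measure_congr ?_
    filter_upwards [aN] with y h1
    exact propext (and_congr (h1 _).symm (not_congr (h1 _).symm))
  have hg : AddSubgroup.closure (range B.a ∪ range B.b) = ⊤ := by
    refine top_le_iff.1 (h.nrm.gen i1 ▸ (AddSubgroup.closure_le _).2 ?_)
    intro g hg
    obtain ⟨j, hj⟩ := mem_iUnion.1 hg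
    by_cases hj1 : j = i1
    · subst hj1
      simp only [T4x.pg, if_true, sub_self, mem_singleton_iff] at hj
      rw [hj]
      exact zero_mem _
    have ma : a ⟨j, hj1⟩ ∈ AddSubgroup.closure (range B.a ∪ range B.b) :=
      AddSubgroup.subset_closure (Or.inl ⟨_, rfl⟩)
    have mb : b ⟨j, hj1⟩ ∈ AddSubgroup.closure (range B.a ∪ range B.b) :=
      AddSubgroup.subset_closure (Or.inr ⟨_, rfl⟩)
    by_cases hj2 : (sl j).2 = e
    · have h3 : (sl i1).2 = (sl j).2 := hj2.symm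
      rw [T4x.pg, if_pos h3, mem_singleton_iff] at hj
      simp only [a, if_pos hj2] at ma
      rw [hj]
      exact ma
    · have h3 : ¬ (sl i1).2 = (sl j).2 := Ne.symm hj2
      rw [T4x.pg, if_neg h3, mem_insert_iff, mem_singleton_iff] at hj
      simp only [a, if_neg hj2] at ma
      simp only [b, if_neg hj2] at mb
      rcases hj with rfl | rfl
      · exact neg_mem_iff.1 ma
      · exact mb
  obtain ⟨ε, hε, hev⟩ : ∃ ε : ℝ, 0 < ε ∧ ∀ᶠ M in (U : Filter ℕ), ε ≤ ν.av2 M fun l => X.μ.real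
      {x | (∀ j, j ≠ i1 → X.Tz (rho (sl i1) l) x ∈ Sg j l 0 0) ∧
        x ∈ N (∑ k, sg (rho (sl k) l) (v0 k)) ∧ x ∉ N (sg (rho (sl i1) l) (v0 i1))} := by
    by_contra hc
    push Not at hc
    apply h.rel
    refine tendsto_order.2 ⟨fun a ha => Eventually.of_forall fun M =>
      ha.trans_le (av2_nonneg ν M fun _ => measureReal_nonneg), fun a ha => ?_⟩
    exact hc a ha
  refine hA Γ X.X V _ B D (ENNReal.ofReal ε) (ENNReal.ofReal_pos.2 hε) h.hU (spr_of h.spr) hg h0 hF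
    ?_ hD
  refine hev.mono fun M hM => (ENNReal.ofReal_le_ofReal hM).trans ?_
  have ms : ∀ l : Lab, MeasurableSet {x | ∀ j, j ≠ i1 → X.Tz (rho (sl i1) l) x ∈ Sg j l 0 0} :=
    fun l => measurableSet_setOfPred.2 (Measurable.forall fun j => measurable_const.imp
      (measurableSet_setOfPred.1 (mT _ (h.mS j l 0 0))))
  refine key_ge ν e M (X.res 0) (fun l => (ms l).inter ((h.mN _).inter (h.mN _).compl))
    fun d => ?_
  filter_upwards [aN] with y h1 hy
  obtain ⟨y1, y2, y3⟩ := hy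
  rw [rho_same _ e rfl] at y3
  refine ⟨⟨(h1 _).2 ?_, fun hc => y3 ((h1 _).1 hc)⟩, fun j => ?_⟩
  · have : (∑ k : D.I, sz B.σ (d.1 • D.r k) (D.c k)) - D.b d.2 =
        ∑ k, sg (rho (sl k) (lab e M d)) (v0 k) := by
      rw [← Fintype.sum_subtype_add_sum_subtype (fun k => (sl k).2 = e ∧ (sl k).1 ∈ (𝒰 : Set Γ)),
        sub_eq_add_neg]
      congr 1
      · exact Finset.sum_congr rfl fun k _ => by rw [rho_same _ e k.2.1]; rfl
      · rw [neg_neg]
        refine Finset.sum_congr rfl fun k _ => ?_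
        by_cases hk : (sl k.1).2 = e
        · have h0 : (sl k.1).1 = 0 := (h.nrm.nz k.1).resolve_left fun hc => k.2 ⟨hk, hc⟩
          rw [rho_same _ e hk, h0, smul_zero, smul_zero]
        · rw [rho_ne _ e hk]
    change y ∈ N ((∑ k : D.I, sz B.σ (d.1 • D.r k) (D.c k)) - D.b d.2)
    rw [this]
    exact y2
  · have := y1 j.1 j.2
    rw [rho_same _ e rfl] at this
    exact this

end

end Pool.Agent.MP_154433_an.T4A
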