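import Pool.Agent.MP_154433_an.t4a.Spec
import Pool.Agent.MP_154433_an.t3a.FinB

set_option autoImplicit false

open MeasureTheory Filter Topology
open scoped ENNReal Pointwise

namespace Pool.Agent.MP_154433_an.T4A

open T3A T3A.FinAux

namespace CoreAux

theorem drift {Om G : Type*} [MeasurableSpace Om] [AddCommGroup G] {ka : Measure Om}
    [IsProbabilityMeasure ka] {Q : Type*} [CommGroup Q]
    (T : G → Om → Om) (hT : ∀ n, MeasurePreserving (T n) ka ka) (q : G → Om → Q)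
    (hco : ∀ n m, ∀ᵐ y ∂ka, q (n + m) y = q n y * q m (T n y)) (F : Set Q) (hF : F.Finite)
    {eps : ℝ≥0∞} (he : eps + eps + eps < 1)
    (ht : ∀ n, (ka.prod ka) {p | (q n p.2)⁻¹ * q n p.1 ∉ F} ≤ eps) :
    ∃ (c : G → Q) (F' : Set Q), F'.Finite ∧ (∀ n, ka {y | (c n)⁻¹ * q n y ∉ F} ≤ eps) ∧
      ∀ n m, c (n + m) * (c n)⁻¹ * (c m)⁻¹ ∈ F' := by
  have h1 : ∀ n, ∃ c : Q, ka {y | c⁻¹ * q n y ∉ F} ≤ eps := by
    intro n
    obtain ⟨y, hy⟩ := sect (ka := ka) {p | (q n p.2)⁻¹ * q n p.1 ∉ F}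
    exact ⟨q n y, le_trans hy (ht n)⟩
  choose c hc using h1
  refine ⟨c, F * F * F⁻¹, (hF.mul hF).mul hF.inv, hc, ?_⟩
  intro n m
  by_contra hcon
  let B : G → Set Om := fun n => {y | (c n)⁻¹ * q n y ∉ F}
  let Z : Set Om := {y | ¬ q (n + m) y = q n y * q m (T n y)}
  have hZ : ka Z = 0 := ae_iff.mp (hco n m)
  have hcov : (Set.univ : Set Om) ⊆ B (n + m) ∪ B n ∪ T n ⁻¹' B m ∪ Z := by
    intro y _
    by_contra hy
    simp only [Set.mem_union, not_or, B, Z, Set.mem_ofPred_eq, not_not, Set.mem_preimage] at hy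
    obtain ⟨⟨⟨a1, a2⟩, a3⟩, a4⟩ := hy
    apply hcon
    have := Set.mul_mem_mul (Set.mul_mem_mul a2 a3) (Set.inv_mem_inv.mpr a1)
    have he : c (n + m) * (c n)⁻¹ * (c m)⁻¹
        = (c n)⁻¹ * q n y * ((c m)⁻¹ * q m (T n y)) * ((c (n + m))⁻¹ * q (n + m) y)⁻¹ := by
      rw [a4]
      apply Additive.ofMul.injective
      simp only [ofMul_mul, ofMul_inv]
      abel
    rw [he]
    exact this
  have h2 : (1 : ℝ≥0∞) ≤ eps + eps + eps + 0 := by
    calc (1 : ℝ≥0∞) = ka Set.univ := measure_univ.symm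
      _ ≤ ka (B (n + m) ∪ B n ∪ T n ⁻¹' B m ∪ Z) := measure_mono hcov
      _ ≤ ka (B (n + m) ∪ B n ∪ T n ⁻¹' B m) + ka Z := measure_union_le _ _
      _ ≤ (ka (B (n + m) ∪ B n) + ka (T n ⁻¹' B m)) + ka Z := by
          gcongr
          exact measure_union_le _ _
      _ ≤ (ka (B (n + m)) + ka (B n) + ka (B m)) + ka Z :=
          add_le_add (add_le_add (measure_union_le _ _) ((hT n).measure_preimage_le _)) le_rfl
      _ ≤ _ := add_le_add (add_le_add (add_le_add (hc _) (hc _)) (hc _)) hZ.le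
  rw [add_zero] at h2
  exact absurd he (not_lt.mpr h2)

theorem tight_set {Om G Ga Gr : Type*} [MeasurableSpace Om] {ka : Measure Om}
    (act : Gr → Ga → Ga) (g : G → Om → Gr)
    (h : ∀ (a : Ga) (eps : ℝ≥0∞), 0 < eps → ∃ F : Finset Ga, ∀ n, ka {p | act (g n p) a ∉ F} ≤ eps)
    (E : Set Ga) (hE : E.Finite) : ∀ eps : ℝ≥0∞, 0 < eps →
      ∃ A : Set Ga, A.Finite ∧ ∀ n, ka {p | ¬ ∀ a ∈ E, act (g n p) a ∈ A} ≤ eps := by
  induction E, hE using Set.Finite.induction_on with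
  | empty => exact fun eps _ => ⟨∅, Set.finite_empty, fun n => by simp⟩
  | @insert a s _ _ ih =>
    intro eps he
    obtain ⟨A, hA, h1⟩ := ih (eps / 2) (ENNReal.half_pos he.ne')
    obtain ⟨F, h2⟩ := h a (eps / 2) (ENNReal.half_pos he.ne')
    refine ⟨A ∪ F, hA.union F.finite_toSet, fun n => ?_⟩
    rw [← ENNReal.add_halves eps]
    refine le_trans (measure_mono ?_) ((measure_union_le _ _).trans (add_le_add (h1 n) (h2 n)))
    intro p hp
    by_contra hc
    simp only [Set.mem_union, Set.mem_ofPred_eq, not_or, not_not] at hc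
    apply hp
    intro b hb
    rcases hb with rfl | hb
    · exact Or.inr hc.2
    · exact Or.inl (hc.1 b hb)

theorem ces_sum {ι : Type*} (K : ℕ → ℕ) (s : Finset ι) (a : ι → ℕ → ℝ≥0∞)
    (h : ∀ j ∈ s, Ces K (a j)) : Ces K fun k => ∑ j ∈ s, a j k := by
  have h1 := tendsto_finsetSum s h
  rw [Finset.sum_const_zero] at h1
  refine h1.congr fun i => ?_
  rw [Finset.sum_comm, Finset.mul_sum]

theorem ces_le (K : ℕ → ℕ) (a b : ℕ → ℝ≥0∞) (hb : Ces K b) (h : ∀ k, a k ≤ b k + b k) :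
    Ces K a := by
  have h1 := hb.add hb
  rw [add_zero] at h1
  refine tendsto_of_tendsto_of_tendsto_of_le_of_le tendsto_const_nhds h1 (fun _ => zero_le)
    fun i => ?_
  show _ ≤ _ + _
  rw [← mul_add, ← Finset.sum_add_distrib]
  exact mul_le_mul_right (Finset.sum_le_sum fun k _ => h k) _

/-- the elements that fix `E` -/
def stab (G : Type*) {Ga : Type*} [Group G] [MulAction G Ga] (E : Set Ga) : Subgroup G where
  carrier := {g | ∀ a ∈ E, g • a = a}
  one_mem' := fun a _ => one_smul G a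
  mul_mem' := fun {g h} hg hh a ha => by rw [mul_smul, hh a ha, hg a ha]
  inv_mem' := fun {g} hg a ha => by rw [inv_smul_eq_iff, hg a ha]

section

variable {Gr : Type} (Ga : Type) [CommGroup Gr] [AddCommGroup Ga] [DistribMulAction Gr Ga]

/-- the points fixed by `K` -/
def fixA (K : Subgroup Gr) : AddSubgroup Ga where
  carrier := {a | ∀ g ∈ K, g • a = a}
  zero_mem' := fun g _ => smul_zero g
  add_mem' := fun {a b} ha hb g hg => by rw [smul_add, ha g hg, hb g hg]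
  neg_mem' := fun {a} ha g hg => by rw [smul_neg, ha g hg]

variable {Ga}

theorem fix_smul (K : Subgroup Gr) (g : Gr) (a : Ga) (ha : a ∈ fixA Ga K) : g • a ∈ fixA Ga K :=
  fun k hk => by rw [smul_smul, mul_comm, mul_smul, ha k hk]

theorem fix_eq (K : Subgroup Gr) (g g' : Gr) (a : Ga) (ha : a ∈ fixA Ga K)
    (h : (g : Gr ⧸ K) = (g' : Gr ⧸ K)) : g • a = g' • a := by
  have h1 : g⁻¹ * g' ∈ K := QuotientGroup.eq.mp h
  have h2 := ha _ h1
  rw [mul_smul, inv_smul_eq_iff] at h2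
  exact h2.symm

noncomputable instance qact (K : Subgroup Gr) : DistribMulAction (Gr ⧸ K) (fixA Ga K) where
  smul q a := ⟨q.out • (a : Ga), fix_smul K _ _ a.2⟩
  one_smul a := Subtype.ext ((fix_eq K _ 1 _ a.2 (QuotientGroup.out_eq' _)).trans (one_smul _ _))
  mul_smul q q' a := Subtype.ext ((fix_eq K _ (q.out * q'.out) _ a.2 (by
    rw [QuotientGroup.mk_mul, QuotientGroup.out_eq', QuotientGroup.out_eq',
      QuotientGroup.out_eq'])).trans (mul_smul _ _ _))
  smul_zero q := Subtype.ext (smul_zero q.out)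
  smul_add q a b := Subtype.ext (smul_add q.out (a : Ga) (b : Ga))

theorem qact_val (K : Subgroup Gr) (g : Gr) (a : fixA Ga K) :
    (((g : Gr ⧸ K) • a : fixA Ga K) : Ga) = g • (a : Ga) :=
  fix_eq K _ g _ a.2 (QuotientGroup.out_eq' _)

end

end CoreAux

open CoreAux in
theorem xCore : CoreS := by
  classical
  intro hSp G Om Ga Gr I _ _ ka _ _ _ _ _ _ T hT P hco ht nu _ hnu r dir hr hd k0 x eta hx heta
    de hde hrel Kk hKk hdec
  have hde1 : de ≤ 1 := by
    obtain ⟨M, hM⟩ := hrel.exists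
    refine hM.trans ?_
    unfold PM
    exact prob_le_one
  obtain ⟨e0, he0, hK⟩ := ENNReal.exists_nnreal_pos_mul_lt
    (a := ((2 * Fintype.card I + 4 : ℕ) : ℝ≥0∞)) (ENNReal.natCast_ne_top _) hde.ne'
  set eps : ℝ≥0∞ := (e0 : ℝ≥0∞) with heps
  have hepos : 0 < eps := by rw [heps]; exact_mod_cast he0
  have h3 : eps + eps + eps < 1 := by
    refine lt_of_le_of_lt ?_ (hK.trans_le hde1)
    have : eps + eps + eps = eps * ((3 : ℕ) : ℝ≥0∞) := by
      push_cast
      ring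
    rw [this]
    gcongr
    omega
  choose E0 hE0 hE1 using fun k => nm_tight (hx k) hepos
  set E : Set Ga := ⋃ k, E0 k with hE
  have hEf : E.Finite := Set.finite_iUnion hE0
  have hxE : ∀ k, ka {y | x k y ∉ E} ≤ eps := fun k =>
    le_trans (measure_mono fun y hy h => hy (Set.mem_iUnion.mpr ⟨k, h⟩)) (hE1 k)
  obtain ⟨A, hA, hA1⟩ := CoreAux.tight_set (ka := ka.prod ka) (fun (g : Gr) (a : Ga) => g • a)
    (fun n p => (P n p.2)⁻¹ * P n p.1) ht E hEf eps hepos
  set K := CoreAux.stab Gr E with hKd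
  have hFE : ∀ a ∈ E, a ∈ fixA Ga K := fun a ha g hg => hg a ha
  let F : Set (Gr ⧸ K) := {q | ∀ a ∈ E, q.out • a ∈ A}
  have hF : F.Finite := by
    have := hEf.to_subtype
    refine Set.Finite.of_finite_image (f := fun (q : Gr ⧸ K) (a : E) => q.out • (a : Ga)) ?_ ?_
    · refine (Set.Finite.pi' (fun _ : E => hA)).subset ?_
      rintro _ ⟨q, hq, rfl⟩ a
      exact hq a a.2
    · intro q _ q' _ h
      rw [← QuotientGroup.out_eq' q, ← QuotientGroup.out_eq' q']
      refine QuotientGroup.eq.mpr fun a ha => ?_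
      have h1 : q.out • a = q'.out • a := congrFun h ⟨a, ha⟩
      rw [mul_smul, inv_smul_eq_iff, h1]
  obtain ⟨c, F', hF', hc, hq⟩ := CoreAux.drift (ka := ka) T hT (fun n y => (P n y : Gr ⧸ K))
    (fun n m => (hco n m).mono fun y hy => by rw [hy, QuotientGroup.mk_mul]) F hF h3 (fun n => by
      refine le_trans (measure_mono ?_) (hA1 n)
      intro p hp hp'
      refine hp fun a ha => ?_
      rw [fix_eq K _ ((P n p.2)⁻¹ * P n p.1) a (hFE a ha)
        (by rw [QuotientGroup.out_eq', QuotientGroup.mk_mul, QuotientGroup.mk_inv])]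
      exact hp' a ha)
  have hlow : ∀ u ∈ dir, ∀ S : Set (Gr ⧸ K), S.Finite → ∀ ξ : fixA Ga K, ξ ≠ 0 →
      ∀ W : Set ℕ, (∀ h ∈ W, ∃ s ∈ S, c ((h : ℤ) • u) • s • ξ = ξ) → Low Kk W := by
    intro u hu S hS ξ hξ W hW
    let Y : Set (fixA Ga K) := (fun q : Gr ⧸ K => q • ξ) '' (F⁻¹ * S)
    have hY : Y.Finite := (hF.inv.mul hS).image _
    have hξ' : (ξ : Ga) ≠ 0 := fun h => hξ (Subtype.ext h)
    refine ces_le Kk _ _ (ces_sum Kk hY.toFinset
      (fun b k => ka {y | P ((k : ℤ) • u) y • (b : Ga) = (ξ : Ga)})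
      fun b _ => hdec u hu b ξ hξ') fun h => ?_
    by_cases hh : h ∈ W
    swap
    · rw [Set.indicator_of_notMem hh]
      exact zero_le
    rw [Set.indicator_of_mem hh]
    obtain ⟨s, hs, hs1⟩ := hW h hh
    have hcov : (Set.univ : Set Om) ⊆ {y | (c ((h : ℤ) • u))⁻¹ * (P ((h : ℤ) • u) y : Gr ⧸ K) ∉ F}
        ∪ ⋃ b ∈ hY.toFinset, {y | P ((h : ℤ) • u) y • (b : Ga) = (ξ : Ga)} := by
      intro y _
      by_cases hy : (c ((h : ℤ) • u))⁻¹ * (P ((h : ℤ) • u) y : Gr ⧸ K) ∈ F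
      · right
        refine Set.mem_biUnion (hY.mem_toFinset.mpr
          ⟨_, Set.mul_mem_mul (Set.inv_mem_inv.mpr hy) hs, rfl⟩) ?_
        show P ((h : ℤ) • u) y • _ = _
        rw [← qact_val, smul_smul]
        have h6 : (P ((h : ℤ) • u) y : Gr ⧸ K) *
            (((c ((h : ℤ) • u))⁻¹ * (P ((h : ℤ) • u) y : Gr ⧸ K))⁻¹ * s) = c ((h : ℤ) • u) * s := by
          apply Additive.ofMul.injective
          simp only [ofMul_mul, ofMul_inv]
          abel
        rw [h6, mul_smul, hs1]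
      · exact Or.inl hy
    set t := ∑ b ∈ hY.toFinset, ka {y | P ((h : ℤ) • u) y • (b : Ga) = (ξ : Ga)} with ht'
    have h7 : (1 : ℝ≥0∞) ≤ eps + t := by
      calc (1 : ℝ≥0∞) = ka Set.univ := measure_univ.symm
        _ ≤ _ := (measure_mono hcov).trans (measure_union_le _ _)
        _ ≤ eps + t := add_le_add (hc _) (measure_biUnion_finset_le _ _)
    rcases le_total eps t with h8 | h8
    · exact h7.trans (add_le_add h8 le_rfl)
    · exact absurd h3 (not_lt.mpr ((h7.trans (add_le_add le_rfl h8)).trans le_self_add))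
  have hND : ND (A := fixA Ga K) (fun k (d : ℤ) => c (d • r k)) Kk := by
    refine ⟨⟨F', hF', fun k d h => ?_⟩, hKk, fun k f ξ hξ => ?_, fun k k' hk f ξ hξ => ?_⟩
    · rw [add_smul]
      exact hq _ _
    · exact hlow _ (hr k) {f} (Set.finite_singleton f) ξ hξ _ fun h hh => ⟨f, rfl, hh⟩
    · refine hlow _ (hd k k' hk) (F' * {f}) (hF'.mul (Set.finite_singleton f)) ξ hξ _
        fun h hh => ?_
      have h5 := hq ((h : ℤ) • (r k - r k')) ((h : ℤ) • r k')
      rw [← smul_add, sub_add_cancel] at h5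
      refine ⟨_, Set.mul_mem_mul h5 rfl, ?_⟩
      have h6 : c ((h : ℤ) • r k) • f • ξ = c ((h : ℤ) • r k') • ξ := hh
      rw [← inv_smul_eq_iff, smul_smul, smul_smul] at h6
      rw [smul_smul]
      refine Eq.trans (congrArg (· • ξ) ?_) h6
      apply Additive.ofMul.injective
      simp only [ofMul_mul, ofMul_inv]
      abel
  let Z : Set (fixA Ga K) := Set.image2 (fun (q : Gr ⧸ K) a => q • a) F (Subtype.val ⁻¹' E)
  have hZ : Z.Finite :=
    Set.Finite.image2 _ hF (hEf.preimage Subtype.val_injective.injOn)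
  let ZZ : Set (I → fixA Ga K) := {z | (∀ k, z k ∈ Z) ∧ z k0 ≠ 0}
  have hZZ : ZZ.Finite := (Set.Finite.pi' fun _ => hZ).subset fun z hz => hz.1
  let Sol : (I → fixA Ga K) → Ga → Set ℤ := fun z b =>
    {d | ((∑ k, c (d • r k) • z k : fixA Ga K) : Ga) = b}
  have hS : ∀ z ∈ ZZ, ∀ t : ℝ≥0∞, 0 < t → ∀ᶠ i in atTop, ∀ b, nu i (Sol z b) ≤ t := by
    intro z hz t htp
    filter_upwards [hSp _ _ I _ Kk nu hnu hND z k0 hz.2 t htp] with i hi b
    rcases Set.eq_empty_or_nonempty (Sol z b) with h | ⟨d0, h⟩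
    · rw [h, measure_empty]
      exact zero_le
    · refine le_trans (measure_mono fun d hd' => ?_) (hi (∑ k, c (d0 • r k) • z k))
      exact Subtype.ext (Eq.trans hd' h.symm)
  obtain ⟨t0, ht0, ht1⟩ := ENNReal.exists_nnreal_pos_mul_lt
    (a := (hZZ.toFinset.card : ℝ≥0∞)) (ENNReal.natCast_ne_top _) hepos.ne'
  have hev : ∀ᶠ i in atTop, ∀ z ∈ hZZ.toFinset, ∀ b, nu i (Sol z b) ≤ t0 :=
    (eventually_all_finset _).mpr fun z hz =>
      hS z (hZZ.mem_toFinset.mp hz) t0 (by exact_mod_cast ht0)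
  obtain ⟨i, hrl, hi⟩ := (hrel.and_eventually hev).exists
  have hG := pm_swap (nu i) ka eta heta (fun b => ⋃ z ∈ hZZ.toFinset, Sol z b) eps (fun b => by
    refine (measure_biUnion_finset_le _ _).trans ?_
    refine (Finset.sum_le_sum fun z hz => hi z hz b).trans ?_
    rw [Finset.sum_const, nsmul_eq_mul, mul_comm]
    exact ht1.le)
  let BX : I → Set ((ℤ × ℤ) × Om) := fun k => {z | x k (T (z.1.1 • r k) z.2) ∉ E}
  let BP : I → Set ((ℤ × ℤ) × Om) := fun k =>
    {z | (c (z.1.1 • r k))⁻¹ * (P (z.1.1 • r k) z.2 : Gr ⧸ K) ∉ F}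
  have hBX : ∀ k, (((nu i).prod (nu i)).prod ka) (BX k) ≤ eps := fun k =>
    pm_le _ _ _ _ fun l => le_trans ((hT (l.1 • r k)).measure_preimage_le {y | x k y ∉ E}) (hxE k)
  have hBP : ∀ k, (((nu i).prod (nu i)).prod ka) (BP k) ≤ eps := fun k =>
    pm_le _ _ _ _ fun l => hc (l.1 • r k)
  have hcov : {z : (ℤ × ℤ) × Om |
      ∑ k, P (z.1.1 • r k) z.2 • x k (T (z.1.1 • r k) z.2) = eta z.1.2 z.2 ∧
        x k0 (T (z.1.1 • r k0) z.2) ≠ 0}
      ⊆ {z | z.1.1 ∈ ⋃ zz ∈ hZZ.toFinset, Sol zz (eta z.1.2 z.2)} ∪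
        ⋃ k ∈ (Finset.univ : Finset I), (BX k ∪ BP k) := by
    rintro ⟨⟨d, d'⟩, y⟩ ⟨h1, h2⟩
    by_cases hb : ((d, d'), y) ∈ ⋃ k ∈ (Finset.univ : Finset I), (BX k ∪ BP k)
    · exact Or.inr hb
    left
    simp only [Set.mem_iUnion, Set.mem_union, not_exists, not_or, BX, BP, Set.mem_ofPred_eq,
      not_not, Finset.mem_univ, forall_const] at hb
    let w : I → fixA Ga K := fun k => ⟨x k (T (d • r k) y), hFE _ (hb k).1⟩
    let zz : I → fixA Ga K := fun k => ((c (d • r k))⁻¹ * (P (d • r k) y : Gr ⧸ K)) • w k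
    have hzz : zz ∈ ZZ := ⟨fun k => Set.mem_image2_of_mem (hb k).2 (hb k).1,
      (smul_ne_zero_iff_ne _).mpr fun h => h2 (congrArg Subtype.val h)⟩
    refine Set.mem_biUnion (hZZ.mem_toFinset.mpr hzz) ?_
    show ((∑ k, c (d • r k) • zz k : fixA Ga K) : Ga) = eta d' y
    rw [AddSubgroup.val_finsetSum]
    refine Eq.trans (Finset.sum_congr rfl fun k _ => ?_) h1
    simp only [zz]
    rw [smul_smul, mul_inv_cancel_left, qact_val]
  have hfin : de ≤ eps + ∑ _k : I, (eps + eps) := by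
    refine hrl.trans ((measure_mono hcov).trans ((measure_union_le _ _).trans
      (add_le_add hG ((measure_biUnion_finset_le _ _).trans (Finset.sum_le_sum fun k _ => ?_)))))
    exact (measure_union_le _ _).trans (add_le_add (hBX k) (hBP k))
  refine absurd hK (not_lt.mpr (hfin.trans ?_))
  have : eps + ∑ _k : I, (eps + eps) = eps * ((2 * Fintype.card I + 1 : ℕ) : ℝ≥0∞) := by
    rw [Finset.sum_const, Finset.card_univ, nsmul_eq_mul]
    push_cast
    ring
  rw [this]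
  gcongr
  omega

end Pool.Agent.MP_154433_an.T4A
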