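import Pool.Agent.MP_154433_an.t4a.Spec

/-! The composition of two arrow kernels is nonempty where both are. -/

set_option autoImplicit false
set_option linter.unusedVariables false

open MeasureTheory ProbabilityTheory Filter Topology Set
open scoped ENNReal

namespace Pool.Agent.MP_154433_an.T4A

open T3A

noncomputable section

theorem xCpo : CpoS := by
  intro hW G Ω V _ _ _ _ A H1 H2 K1 K2 h1 h2
  have := h1.markov
  have := h2.markov
  have hZ : MeasurableSet {x : Ω × Arr V | ((0 : V), (0 : V)) ∈ x.2} :=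
    measurableSet_memA measurable_snd _
  have hinv : ∀ n, tz A.T n ⁻¹' Sup K2 =ᵐ[A.μ] Sup K2 := fun n => by
    filter_upwards [h2.eqv n] with y hy
    have e : K2 (tz A.T n y) {x | ((0 : V), (0 : V)) ∈ x.2} =
        K2 y {x | ((0 : V), (0 : V)) ∈ x.2} := by
      rw [hy, Measure.map_apply ((measurable_tz A.T n).prodMap (measurable_sh A.σ n n)) hZ]
      congr 1
      ext x
      simp
    exact congrArg (fun t => t ≠ 0) e
  have hc := (hW G Ω V A H1 K1 h1).conc _ (measurableSet_Sup K2) hinv
  have hc' := Measure.ae_ae_of_ae_compProd (ae_of_ae_map measurable_wOf.aemeasurable hc)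
  filter_upwards [hc'] with y hy hy1 hy2 h0
  refine hy1 ?_
  rw [star, Kernel.map_apply' _ measurable_star _ hZ,
    Kernel.compProd_apply (measurable_star hZ),
    lintegral_eq_zero_iff (Kernel.measurable_kernel_prodMk_left' (measurable_star hZ) y)] at h0
  refine measure_eq_zero_iff_ae_notMem.2 ?_
  filter_upwards [hy, h0] with x hx hx0 hx1
  refine hx hy2 ?_
  rw [← show (K2.comap (fun x : Ω × (Ω × Arr V) => x.2.1) measurable_snd.fst) (y, x) _ = 0 from hx0,
    Kernel.comap_apply]
  congr 1
  ext c
  exact ⟨fun h => (zero_mem_cmpR _ _).2 ⟨hx1, h⟩, fun h => ((zero_mem_cmpR _ _).1 h).2⟩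

end

end Pool.Agent.MP_154433_an.T4A
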