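import Pool.Agent.MP_154433_an.t4a.Spec

/-! The composition of arrow kernels commutes with projections. -/

set_option autoImplicit false
set_option linter.unusedVariables false

open MeasureTheory ProbabilityTheory Filter Topology Set
open scoped ENNReal

namespace Pool.Agent.MP_154433_an.T4A

open T3A

namespace CprAux

/-- the section of the preimage of `E` under the composition map -/
def sec {Ω V : Type} [AddCommGroup V] (E : Set (Ω × Arr V)) (R : Arr V) : Set (Ω × Arr V) :=
  {x | (x.1, cmpR R x.2) ∈ E}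

lemma measurableSet_sec {Ω V : Type} [MeasurableSpace Ω] [AddCommGroup V] [Countable V]
    {E : Set (Ω × Arr V)} (hE : MeasurableSet E) (R : Arr V) : MeasurableSet (sec E R) :=
  (measurable_fst.prodMk (measurable_cmpR measurable_const measurable_snd)) hE

lemma star_apply {Ω V : Type} [MeasurableSpace Ω] [AddCommGroup V] [Countable V]
    (K1 K2 : Kernel Ω (Ω × Arr V)) [IsMarkovKernel K1] [IsMarkovKernel K2] (y : Ω)
    {E : Set (Ω × Arr V)} (hE : MeasurableSet E) :
    star K1 K2 y E = ∫⁻ x, K2 x.1 (sec E x.2) ∂(K1 y) := by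
  unfold star
  rw [Kernel.map_apply' _ measurable_star _ hE, Kernel.compProd_apply (measurable_star hE)]
  rfl

lemma measurable_int {Ω V : Type} [MeasurableSpace Ω] [AddCommGroup V] [Countable V]
    (K2 : Kernel Ω (Ω × Arr V)) [IsMarkovKernel K2] {E : Set (Ω × Arr V)} (hE : MeasurableSet E) :
    Measurable fun x : Ω × Arr V => K2 x.1 (sec E x.2) :=
  Kernel.measurable_kernel_prodMk_left
    (κ := K2.comap (fun x : Ω × Arr V => x.1) measurable_fst) (measurable_star hE)

end CprAux

open CprAux in
theorem xCpr : CprS := by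
  intro Y Ω V _ _ _ _ μ' _ p K1' K2' _ _ K1 K2 _ _ hp htgt h1 h2
  have hpm : Measurable (Prod.map p id : Y × Arr V → Ω × Arr V) := hp.prodMap measurable_id
  obtain ⟨N, hsub, hN, hN0⟩ := exists_measurable_superset_of_null (ae_iff.1 h2)
  have h3 : ∀ᵐ y ∂μ', K1' y (Prod.fst ⁻¹' N) = 0 := by
    have hm : Measurable fun z : (Y × Y) × Arr V => z.1.2 := measurable_fst.snd
    rw [← htgt, Measure.map_apply hm hN, wOf, Measure.map_apply measurable_wOf (hm hN),
      Measure.compProd_apply (measurable_wOf (hm hN)),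
      lintegral_eq_zero_iff (Kernel.measurable_kernel_prodMk_left (measurable_wOf (hm hN)))] at hN0
    exact hN0
  filter_upwards [h1, h3] with y hy1 hy3
  ext E hE
  rw [Measure.map_apply hpm hE, star_apply K1' K2' y (hpm hE), star_apply K1 K2 (p y) hE, ← hy1,
    lintegral_map (measurable_int K2 hE) hpm]
  refine lintegral_congr_ae ?_
  have h4 : ∀ᵐ x ∂(K1' y), x.1 ∉ N := measure_eq_zero_iff_ae_notMem.1 hy3
  filter_upwards [h4] with x hx
  have hx2 : (K2' x.1).map (Prod.map p id) = K2 (p x.1) := by
    by_contra hne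
    exact hx (hsub hne)
  show K2' x.1 (sec (Prod.map p id ⁻¹' E) x.2) = K2 (p x.1) (sec E x.2)
  rw [← hx2, Measure.map_apply hpm (measurableSet_sec hE x.2)]
  rfl

end Pool.Agent.MP_154433_an.T4A
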