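import Pool.Agent.MP_154433_an.t3a.Own
import Pool.Agent.MP_154433_an.t4.Defs

/-! The algebraic step for actions of a countable abelian group `G`: definitions. Names that are
not declared here are those of `T3A`. -/

set_option autoImplicit false
set_option linter.unusedVariables false
set_option linter.unusedSectionVars false

open MeasureTheory ProbabilityTheory Filter Topology Set
open scoped ENNReal

namespace Pool.Agent.MP_154433_an.T4A

open T3A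

noncomputable section

/-- a measurable action -/
structure Act (G Ω : Type) [AddCommGroup G] [MeasurableSpace Ω] where
  f : G → Ω → Ω
  meas : ∀ n, Measurable (f n)
  zero : ∀ y, f 0 y = y
  add : ∀ m n y, f (m + n) y = f m (f n y)

/-- an action by automorphisms -/
structure VAct (G V : Type) [AddCommGroup G] [AddCommGroup V] where
  f : G → V →+ V
  zero : ∀ c, f 0 c = c
  add : ∀ m n c, f (m + n) c = f m (f n c)

section

variable {G Ω V : Type} [AddCommGroup G] [MeasurableSpace Ω] [AddCommGroup V]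

def tz (T : Act G Ω) (n : G) (y : Ω) : Ω := T.f n y

def sz (σ : VAct G V) (n : G) (c : V) : V := σ.f n c

/-- source shift `i`, target shift `j` of a relation -/
def sh (σ : VAct G V) (i j : G) (S : Arr V) : Arr V := {p | (sz σ i p.1, sz σ j p.2) ∈ S}

def shA (T : Act G Ω) (σ : VAct G V) (i j : G) (z : (Ω × Ω) × Arr V) : (Ω × Ω) × Arr V :=
  ((tz T i z.1.1, tz T j z.1.2), sh σ i j z.2)

/-- the action preserves the measure -/
def MP (T : Act G Ω) (μ : Measure Ω) : Prop := ∀ n, MeasurePreserving (tz T n) μ μ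

end

/-- the law of two points of a step; `g` is the conditional probability of `A'` given the sets
that are invariant under `a` and `b` -/
def Mix (G : Type) [AddCommGroup G] (ν : ℕ → Measure ℤ) (U : Filter ℕ) : Prop :=
  ∀ (Y : Type) [MeasurableSpace Y] (μ : Measure Y) [IsProbabilityMeasure μ] (T : Act G Y),
    MP T μ → ∀ (a b : G) (A' : Set Y), MeasurableSet A' → ∃ g : Y → ℝ≥0∞, Measurable g ∧
      (∀ᵐ y ∂μ, g (tz T a y) = g y) ∧ (∀ᵐ y ∂μ, g (tz T b y) = g y) ∧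
      (∀ D, MeasurableSet D → tz T a ⁻¹' D =ᵐ[μ] D → tz T b ⁻¹' D =ᵐ[μ] D →
        ∫⁻ y in D, g y ∂μ = μ (A' ∩ D)) ∧
      ∀ A, MeasurableSet A → Tendsto (fun M => ∫⁻ d : ℤ × ℤ,
        μ (A ∩ tz T (d.1 • a + d.2 • b) ⁻¹' A') ∂((ν M).prod (ν M))) U (𝓝 (∫⁻ y in A, g y ∂μ))

/-- thin classes of exponential relations have small weight -/
def SprM (ν : ℕ → Measure ℤ) : Prop := (∀ᶠ M : ℕ in atTop, ν M {d | ¬ |d| ≤ M} = 0) ∧
  ∀ (r s L : ℕ) (N : Submodule (T4x.Lau r) (Fin s → T4x.Lau r)) (ε : ℝ) (H : ℕ), 0 < ε → 1 ≤ H →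
    ∀ᶠ M : ℕ in atTop, ∀ (m : Fin s → Fin r → ℤ) (d0 : ℤ), (∀ k i, |m k i| ≤ L * M) → |d0| ≤ M →
      T4x.Thin ε H (T4x.cls N m M d0) → ν M (T4x.cls N m M d0) ≤ ENNReal.ofReal (2 * ε)

/-- Cesaro means of `a` vanish along the sequence `K` -/
def Ces (K : ℕ → ℕ) (a : ℕ → ℝ≥0∞) : Prop :=
  Tendsto (fun i => ((K i : ℕ) : ℝ≥0∞)⁻¹ * ∑ k ∈ Finset.range (K i), a k) atTop (𝓝 0)

/-- a system with a bundle of quotients `V / N y` -/
structure Base (G Ω V : Type) [AddCommGroup G] [MeasurableSpace Ω] [AddCommGroup V] where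
  μ : Measure Ω
  prob : IsProbabilityMeasure μ
  T : Act G Ω
  mp : MP T μ
  σ : VAct G V
  N : Ω → AddSubgroup V
  mN : ∀ c, MeasurableSet {y | c ∈ N y}
  eqz : ∀ n c y, sz σ n c ∈ N y ↔ c ∈ N (tz T n y)

/-- the same with weights, an ultrafilter, and internal arrows of several types; an arrow of
type `j` with label `d` goes from `y` to the shift of `y` by `d.1 • a j + d.2 • b j` -/
structure Bun (G Ω V J : Type) [AddCommGroup G] [MeasurableSpace Ω] [AddCommGroup V]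
    extends Base G Ω V where
  ν : ℕ → Measure ℤ
  pν : ∀ M, IsProbabilityMeasure (ν M)
  U : Ultrafilter ℕ
  a : J → G
  b : J → G
  Sg : J → ℕ → ℤ × ℤ → Ω → Arr V
  mS : ∀ j M d, Measurable (Sg j M d)

attribute [instance] Base.prob Bun.pν

/-- data of an exact relation -/
structure RD (G V : Type) [AddCommGroup G] where
  I : Type
  fin : Fintype I
  r : I → G
  dir : Set G
  hr : ∀ k, r k ∈ dir
  hd : ∀ k k', k ≠ k' → r k - r k' ∈ dir
  k0 : I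
  c : I → V
  b : ℤ → V

attribute [instance] RD.fin

/-- positive summable weights on a countable set -/
def wt {G : Type} [Countable G] (n : G) : ℝ≥0∞ := (2 : ℝ≥0∞)⁻¹ ^ (exists_injective_nat G).choose n

/-- composition of nonempty relations -/
def cmpR {V : Type} [AddCommGroup V] (R S : Arr V) : Arr V :=
  {p | ((0 : V), (0 : V)) ∈ R ∧ ((0 : V), (0 : V)) ∈ S ∧ ∃ e, (p.1, e) ∈ R ∧ (e, p.2) ∈ S}

section

variable {G Ω V J : Type} [AddCommGroup G] [MeasurableSpace Ω] [AddCommGroup V]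

/-- shift of arrows over a base -/
def Base.sA (A : Base G Ω V) (i j : G) : (Ω × Ω) × Arr V → (Ω × Ω) × Arr V := shA A.T A.σ i j

/-- the relation event -/
def Base.relS (A : Base G Ω V) (D : RD G V) : Set ((ℤ × ℤ) × Ω) :=
  {z | (∑ k, sz A.σ (z.1.1 • D.r k) (D.c k)) - D.b z.1.2 ∈ A.N z.2 ∧
    sz A.σ (z.1.1 • D.r D.k0) (D.c D.k0) ∉ A.N z.2}

/-- the decay event -/
def Base.decS (A : Base G Ω V) (n : G) (c c' : V) : Set Ω :=
  {y | sz A.σ n c - c' ∈ A.N y ∧ c' ∉ A.N y}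

/-- decay along the sequence `K` -/
def Base.Dec (A : Base G Ω V) (D : RD G V) (K : ℕ → ℕ) : Prop :=
  ∀ u ∈ D.dir, ∀ c c' : V, Ces K fun k => A.μ (A.decS ((k : ℤ) • u) c c')

def Bun.P (B : Bun G Ω V J) (M : ℕ) : Measure ((ℤ × ℤ) × Ω) := PM (B.ν M) B.μ

/-- the step of type `j` -/
def Bun.st (B : Bun G Ω V J) (j : J) (d : ℤ × ℤ) : G := d.1 • B.a j + d.2 • B.b j

/-- source, target and arrow of a labelled point -/
def Bun.pt (B : Bun G Ω V J) (j : J) (M : ℕ) (z : (ℤ × ℤ) × Ω) : (Ω × Ω) × Arr V :=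
  ((z.2, tz B.T (B.st j z.1) z.2), B.Sg j M z.1 z.2)

/-- null in the limit -/
def Bun.Nul (B : Bun G Ω V J) (E : ℕ → Set ((ℤ × ℤ) × Ω)) : Prop :=
  Tendsto (fun M => B.P M (E M)) B.U (𝓝 0)

/-- the internal arrows are isomorphisms or empty, and equivariant, in the limit -/
structure H0 (B : Bun G Ω V J) : Prop where
  mix : Mix G B.ν B.U
  zero : ∀ j, ∀ c c' : V, B.Nul fun M => B.pt j M ⁻¹'
    {a | c ∈ B.N a.1.1 ∧ c' ∈ B.N a.1.2 ∧ ((0 : V), (0 : V)) ∈ a.2 ∧ (c, c') ∉ a.2}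
  sub : ∀ j, ∀ c c' e e' : V, B.Nul fun M => B.pt j M ⁻¹'
    {a | (c, c') ∈ a.2 ∧ (e, e') ∈ a.2 ∧ (c - e, c' - e') ∉ a.2}
  iff : ∀ j, ∀ c c' : V, B.Nul fun M => B.pt j M ⁻¹'
    {a | (c, c') ∈ a.2 ∧ ¬ (c ∈ B.N a.1.1 ↔ c' ∈ B.N a.1.2)}
  totL : ∀ j (c : V) (ε : ℝ≥0∞), 0 < ε → ∃ F : Finset V, ∀ᶠ M in (B.U : Filter ℕ),
    B.P M (B.pt j M ⁻¹' {a | ((0 : V), (0 : V)) ∈ a.2 ∧ ∀ c' ∈ F, (c, c') ∉ a.2}) ≤ ε
  totR : ∀ j (c' : V) (ε : ℝ≥0∞), 0 < ε → ∃ F : Finset V, ∀ᶠ M in (B.U : Filter ℕ),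
    B.P M (B.pt j M ⁻¹' {a | ((0 : V), (0 : V)) ∈ a.2 ∧ ∀ c ∈ F, (c, c') ∉ a.2}) ≤ ε
  eqv : ∀ j (n : G) (c c' : V), B.Nul fun M => {z | ¬ ((sz B.σ n c, sz B.σ n c') ∈ B.Sg j M z.1 z.2 ↔
    (c, c') ∈ B.Sg j M z.1 (tz B.T n z.2))}

/-- a square over the arrow `a`, with columns of type `j`, that does not commute -/
def Bun.flatS (B : Bun G Ω V J) (j : J) (M : ℕ) (d : ℤ × ℤ) (c11 c12 c21 c22 : V) :
    Set ((Ω × Ω) × Arr V) :=
  {a | (c11, c12) ∈ a.2 ∧ (sz B.σ (B.st j d) c21, sz B.σ (B.st j d) c22) ∈ a.2 ∧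
    ¬ ((c11, c21) ∈ B.Sg j M d a.1.1 ↔ (c12, c22) ∈ B.Sg j M d a.1.2)}

/-- squares commute: rows of type `j'` at the inner limit, columns of type `j` at the outer limit -/
def Flat (B : Bun G Ω V J) : Prop :=
  ∀ j j', ∀ c11 c12 c21 c22 : V, Tendsto (fun M' => ∫⁻ d' : ℤ × ℤ, limsup (fun M => B.P M
    (B.pt j' M ⁻¹' B.flatS j M' d' c11 c12 c21 c22)) B.U ∂((B.ν M').prod (B.ν M'))) B.U (𝓝 0)

/-- the exact relation has positive limit probability where the arrows live -/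
def Rel (B : Bun G Ω V J) (D : RD G V) (δ : ℝ≥0∞) : Prop :=
  ∀ᶠ M in (B.U : Filter ℕ), δ ≤ B.P M (B.relS D ∩
    {z | ∀ j, ((0 : V), (0 : V)) ∈ B.Sg j M z.1 (tz B.T (z.1.1 • D.r D.k0) z.2)})

/-- `B'` is the pull-back of `B` along `p` -/
structure Ext {Y : Type} [MeasurableSpace Y] (B' : Bun G Y V J) (B : Bun G Ω V J) (p : Y → Ω) :
    Prop where
  mp : MeasurePreserving p B'.μ B.μ
  comm : ∀ n y, p (tz B'.T n y) = tz B.T n (p y)
  hσ : B'.σ = B.σ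
  hN : ∀ y, B'.N y = B.N (p y)
  hν : B'.ν = B.ν
  hU : B'.U = B.U
  ha : B'.a = B.a
  hb : B'.b = B.b
  hS : ∀ j M d y, B'.Sg j M d y = B.Sg j M d (p y)

/-- conditional probabilities given the invariant sets -/
structure ErgK (μ : Measure Ω) (T : Act G Ω) (κ : Kernel Ω Ω) : Prop where
  markov : IsMarkovKernel κ
  inv : ∀ n y, κ (tz T n y) = κ y
  int : ∀ h : Ω → ℝ≥0∞, Measurable h → (∀ n y, h (tz T n y) = h y) → ∀ A, MeasurableSet A →
    ∫⁻ y, h y * κ y A ∂μ = ∫⁻ y in A, h y ∂μ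

/-- their properties -/
structure ErgP (μ : Measure Ω) (T : Act G Ω) (κ : Kernel Ω Ω) : Prop extends ErgK μ T κ where
  bind : κ ∘ₘ μ = μ
  mp : ∀ᵐ a ∂μ, MP T (κ a)
  conc : ∀ B, MeasurableSet B → (∀ n, tz T n ⁻¹' B = B) → ∀ᵐ a ∂μ, a ∈ B → κ a Bᶜ = 0
  two : (κ ×ₖ κ) ∘ₘ μ = μ ⊗ₘ κ
  shift : ∀ i j, MeasurePreserving (Prod.map (tz T i) (tz T j)) (μ ⊗ₘ κ) (μ ⊗ₘ κ)
  erg : ∀ D : Set (Ω × Ω), MeasurableSet D → (∀ n, Prod.map id (tz T n) ⁻¹' D = D) →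
    ∀ᵐ y ∂μ, κ y (Prod.mk y ⁻¹' D) = 0 ∨ κ y (Prod.mk y ⁻¹' D)ᶜ = 0

/-- `w` is the limit law of the labelled points of type `j` -/
def IsLim (B : Bun G Ω V J) (j : J) (w : Measure ((Ω × Ω) × Arr V)) : Prop :=
  IsProbabilityMeasure w ∧
    ∀ E, Cyl E → Tendsto (fun M => B.P M (B.pt j M ⁻¹' E)) B.U (𝓝 (w E))

/-! ### arrow kernels and their composition -/

/-- the law of (source, target, arrow) -/
def wOf (μ : Measure Ω) (K : Kernel Ω (Ω × Arr V)) : Measure ((Ω × Ω) × Arr V) :=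
  (μ ⊗ₘ K).map fun x => ((x.1, x.2.1), x.2.2)

/-- an arrow of `K1` followed by an independent arrow of `K2` -/
def star (K1 K2 : Kernel Ω (Ω × Arr V)) : Kernel Ω (Ω × Arr V) :=
  (K1 ⊗ₖ K2.comap (fun x : Ω × (Ω × Arr V) => x.2.1) measurable_snd.fst).map
    fun x => (x.2.1, cmpR x.1.2 x.2.2)

def IsoW (A : Base G Ω V) (w : Measure ((Ω × Ω) × Arr V)) : Prop :=
  ∀ᵐ z ∂w, ((0 : V), (0 : V)) ∈ z.2 → Iso (A.N z.1.1) (A.N z.1.2) z.2

def ItwW (g : ℕ → Ω → Arr V) (w : Measure ((Ω × Ω) × Arr V)) : Prop :=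
  ∀ᵐ z ∂w, ∀ i, Itw (g i z.1.1) (g i z.1.2) z.2

/-- an equivariant arrow kernel whose target has the conditional law given the sets that are
invariant under `H` -/
structure KD (A : Base G Ω V) (H : Set G) (K : Kernel Ω (Ω × Arr V)) : Prop where
  markov : IsMarkovKernel K
  eqv : ∀ n, ∀ᵐ y ∂A.μ, K (tz A.T n y) = (K y).map (Prod.map (tz A.T n) (sh A.σ n n))
  inv : ∀ h ∈ H, ∀ C, MeasurableSet C →
    ∀ᵐ y ∂A.μ, K (tz A.T h y) (Prod.fst ⁻¹' C) = K y (Prod.fst ⁻¹' C)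
  int : ∀ C D, MeasurableSet C → MeasurableSet D → (∀ h ∈ H, tz A.T h ⁻¹' D =ᵐ[A.μ] D) →
    ∫⁻ y in D, K y (Prod.fst ⁻¹' C) ∂A.μ = A.μ (C ∩ D)
  iso : IsoW A (wOf A.μ K)

/-- consequences for the law -/
structure WD (A : Base G Ω V) (w : Measure ((Ω × Ω) × Arr V)) : Prop where
  prob : IsProbabilityMeasure w
  src : w.map (fun z => z.1.1) = A.μ
  tgt : w.map (fun z => z.1.2) = A.μ
  inv : ∀ n, MeasurePreserving (A.sA n n) w w
  conc : ∀ D, MeasurableSet D → (∀ n, tz A.T n ⁻¹' D =ᵐ[A.μ] D) → ∀ᵐ z ∂w, z.1.1 ∈ D → z.1.2 ∈ D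

/-- a joint law of two composable arrows -/
def Tri (w1 w2 w3 : Measure ((Ω × Ω) × Arr V)) : Prop :=
  ∃ m : Measure (((Ω × Ω) × Arr V) × (Ω × Arr V)), IsProbabilityMeasure m ∧
    m.map Prod.fst = w1 ∧ m.map (fun x => ((x.1.1.2, x.2.1), x.2.2)) = w2 ∧
    m.map (fun x => ((x.1.1.1, x.2.1), cmpR x.1.2 x.2.2)) = w3

/-- the sources of nonempty arrows -/
def Sup (K : Kernel Ω (Ω × Arr V)) : Set Ω := {y | K y {x | ((0 : V), (0 : V)) ∈ x.2} ≠ 0}

/-- the arrow kernel of the extension projects to the arrow kernel of the base -/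
def PrK {Y : Type} [MeasurableSpace Y] (μ' : Measure Y) (p : Y → Ω) (K' : Kernel Y (Y × Arr V))
    (K : Kernel Ω (Ω × Arr V)) : Prop := ∀ᵐ y ∂μ', (K' y).map (Prod.map p id) = K (p y)

/-! ### arrows between all pairs -/

/-- mixture of the source shifts of the nonempty part of `w` -/
def Lam [Countable G] (A : Base G Ω V) (w : Measure ((Ω × Ω) × Arr V)) :
    Measure ((Ω × Ω) × Arr V) :=
  Measure.sum fun i : G => wt i • (w.restrict {z | ((0 : V), (0 : V)) ∈ z.2}).map (A.sA i 0)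

structure LamP [Countable G] (A : Base G Ω V) (κ : Kernel Ω Ω) (w : Measure ((Ω × Ω) × Arr V)) :
    Prop where
  fin : IsFiniteMeasure (Lam A w)
  inv : ∀ n, (Lam A w).map (A.sA n n) = Lam A w
  quasi : ∀ i j E, MeasurableSet E → Lam A w E = 0 → Lam A w (A.sA i j ⁻¹' E) = 0
  ac : (Lam A w).map Prod.fst ≪ A.μ ⊗ₘ κ
  nul : ∀ E, MeasurableSet E → (Lam A w E = 0 ↔
    ∀ i, w ({z | ((0 : V), (0 : V)) ∈ z.2} ∩ A.sA i 0 ⁻¹' E) = 0)

/-- arrows between all pairs of one component, on the part `Ip` -/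
def Lp (A : Base G Ω V) (κ : Kernel Ω Ω) (Ip : Set Ω) (Φ : Kernel (Ω × Ω) (Arr V)) :
    Measure ((Ω × Ω) × Arr V) :=
  ((A.μ ⊗ₘ κ).restrict (Ip ×ˢ univ)) ⊗ₘ Φ

/-- the same on the whole space -/
def Lf (A : Base G Ω V) (κ : Kernel Ω Ω) (Φ : Kernel (Ω × Ω) (Arr V)) :
    Measure ((Ω × Ω) × Arr V) :=
  (A.μ ⊗ₘ κ) ⊗ₘ Φ

structure PhiD (A : Base G Ω V) (κ : Kernel Ω Ω) (L : Measure ((Ω × Ω) × Arr V)) (Ip : Set Ω)
    (Φ : Kernel (Ω × Ω) (Arr V)) : Prop where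
  markov : IsMarkovKernel Φ
  mI : MeasurableSet Ip
  inv : ∀ n, tz A.T n ⁻¹' Ip = Ip
  off : ∀ z : Ω × Ω, z.1 ∉ Ip → Φ z = Measure.dirac (∅ : Arr V)
  eqv : ∀ n, ∀ᵐ z ∂(A.μ ⊗ₘ κ), Φ (tz A.T n z.1, tz A.T n z.2) = (Φ z).map (sh A.σ n n)
  ac1 : Lp A κ Ip Φ ≪ L
  ac2 : L ≪ Lp A κ Ip Φ

def FlatM (B : Bun G Ω V J) (m : Measure ((Ω × Ω) × Arr V)) : Prop :=
  ∀ j, ∀ c11 c12 c21 c22 : V, Tendsto (fun M => ∫⁻ d : ℤ × ℤ, m (B.flatS j M d c11 c12 c21 c22)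
    ∂((B.ν M).prod (B.ν M))) B.U (𝓝 0)

/-- an extension that carries samples of pairs of arrows -/
structure Smp {Y : Type} [MeasurableSpace Y] (B' : Bun G Y V J) (B : Bun G Ω V J) (p : Y → Ω)
    (κ : Kernel Ω Ω) (Φ : Kernel (Ω × Ω) (Arr V)) (e : ℕ → Y → Ω) (S S' : ℕ → Y → Arr V) :
    Prop where
  ext : Ext B' B p
  me : ∀ i, Measurable (e i)
  mS : ∀ i, Measurable (S i)
  mS' : ∀ i, Measurable (S' i)
  eqv : ∀ i n y, S i (tz B'.T n y) = sh B.σ n n (S i y)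
  eqv' : ∀ i n y, S' i (tz B'.T n y) = sh B.σ n n (S' i y)
  law : ∀ i, B'.μ.map (fun y => ((p y, e i y), S i y)) = Lf B.toBase κ Φ
  law' : ∀ i, B'.μ.map (fun y => ((p y, e i y), S' i y)) = Lf B.toBase κ Φ
  hit : ∀ P P' : Set (Arr V), MeasurableSet P → MeasurableSet P' → ∃ D : Set Ω,
    (∀ᵐ z ∂(B.μ ⊗ₘ κ), Φ z P ≠ 0 → Φ z P' ≠ 0 → z.1 ∈ D) ∧
    ∀ᵐ y ∂B'.μ, p y ∈ D → ∃ i, S i y ∈ P ∧ S' i y ∈ P'

/-- what the extension knows -/
structure HatD (A : Base G Ω V) (κ : Kernel Ω Ω) (Ip : Set Ω) (Φ : Kernel (Ω × Ω) (Arr V))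
    (g : ℕ → Ω → Arr V) (Pos : Ω × Ω → V × V → V × V → Prop) : Prop where
  geq : ∀ i n y, g i (tz A.T n y) = sh A.σ n n (g i y)
  quasi : ∀ n E, MeasurableSet E → Lp A κ Ip Φ E = 0 → Lp A κ Ip Φ (A.sA 0 n ⁻¹' E) = 0
  iso : ∀ᵐ z ∂(Lp A κ Ip Φ), Iso (A.N z.1.1) (A.N z.1.2) z.2
  itw : ∀ᵐ z ∂(Lp A κ Ip Φ), ∀ i, Itw (g i z.1.1) (g i z.1.2) z.2
  pos : ∀ᵐ z ∂(Lp A κ Ip Φ), ∀ p ∈ z.2, ∀ q ∈ z.2, Pos z.1 p q
  gi : ∀ᵐ y ∂A.μ, y ∈ Ip → ∀ i, Iso (A.N y) (A.N y) (g i y)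
  hit : ∀ᵐ z ∂(A.μ ⊗ₘ κ), ∀ p q p' q', Pos z p q → Pos z p' q' → p.2 = p'.2 → q.2 = q'.2 →
    ∃ i, (p.1, p'.1) ∈ g i z.1 ∧ (q.1, q'.1) ∈ g i z.1

/-- one component seen from one base point -/
structure FixD (A : Base G Ω V) (N0 : AddSubgroup V) (τ : Ω → Arr V) (G0 : ℕ → Arr V)
    (g : ℕ → Ω → Arr V) (m2 : Measure ((Ω × Ω) × Arr V)) : Prop where
  mτ : Measurable τ
  geq : ∀ i n y, g i (tz A.T n y) = sh A.σ n n (g i y)
  isoG : ∀ i, Iso N0 N0 (G0 i)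
  isog : ∀ᵐ y ∂A.μ, ∀ i, Iso (A.N y) (A.N y) (g i y)
  isoτ : ∀ᵐ y ∂A.μ, Iso N0 (A.N y) (τ y) ∧ ∀ i, Itw (G0 i) (g i y) (τ y)
  dense : ∀ᵐ y ∂A.μ, ∀ (n : G) (p q : V × V),
    p ∈ loop (sh A.σ 0 (-n) (τ (tz A.T n y))) (τ y) →
    q ∈ loop (sh A.σ 0 (-n) (τ (tz A.T n y))) (τ y) → ∃ i, p ∈ G0 i ∧ q ∈ G0 i
  fst2 : m2.map Prod.fst = A.μ.prod A.μ
  inv2 : ∀ n, MeasurePreserving (A.sA n n) m2 m2
  iso2 : ∀ᵐ z ∂m2, Iso (A.N z.1.1) (A.N z.1.2) z.2 ∧ ∀ i, Itw (g i z.1.1) (g i z.1.2) z.2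

/-- a measurable trivialisation of the bundle -/
structure Th {Γ : Type} [AddCommGroup Γ] (A : Base G Ω V) (θ : Ω → V →+ Γ) : Prop where
  mθ : ∀ c ξ, MeasurableSet {y | θ y c = ξ}
  sur : ∀ᵐ y ∂A.μ, Function.Surjective (θ y) ∧ ∀ c, θ y c = 0 ↔ c ∈ A.N y

/-- the loops in the trivialisation -/
structure Triv {Γ : Type} [AddCommGroup Γ] (A : Base G Ω V) (θ : Ω → V →+ Γ) (γ : ℕ → Au Γ)
    (g : ℕ → Ω → Arr V) : Prop extends Th A θ where
  geq : ∀ i n y, g i (tz A.T n y) = sh A.σ n n (g i y)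
  tot : ∀ᵐ y ∂A.μ, ∀ i a, ∃ b, (a, b) ∈ g i y
  resp : ∀ᵐ y ∂A.μ, ∀ i a b, (a, b) ∈ g i y → θ y b = γ i (θ y a)
  dense : ∀ᵐ y ∂A.μ, ∀ (n : G) (c c' : V), ∃ i, γ i (θ (tz A.T n y) c) = θ y (sz A.σ n c) ∧
    γ i (θ (tz A.T n y) c') = θ y (sz A.σ n c')

/-- the cocycle in the trivialisation -/
structure Coc {Γ : Type} [AddCommGroup Γ] (A : Base G Ω V) (θ : Ω → V →+ Γ)
    (Ψ : G → Ω → Au Γ) : Prop where
  mΨ : ∀ n ξ ξ', MeasurableSet {y | Ψ n y ξ = ξ'}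
  def' : ∀ᵐ y ∂A.μ, ∀ n c, Ψ n y (θ (tz A.T n y) c) = θ y (sz A.σ n c)
  coc : ∀ n k, ∀ᵐ y ∂A.μ, Ψ (n + k) y = Ψ n y * Ψ k (tz A.T n y)

end

/-- the algebraic step -/
def AlgS : Prop :=
  ∀ (G X V J : Type) [AddCommGroup G] [Countable G] [MeasurableSpace X] [AddCommGroup V]
    [Countable V] [Fintype J] [Nonempty J] (B : Bun G X V J) (D : RD G V) (δ : ℝ≥0∞), 0 < δ →
    (B.U : Filter ℕ) ≤ atTop → SprM B.ν → AddSubgroup.closure (range B.a ∪ range B.b) = ⊤ →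
    H0 B → Flat B → Rel B D δ → B.Dec D id → False

/-! ### basic lemmas -/

section tz

variable {G Ω : Type} [AddCommGroup G] [MeasurableSpace Ω] (T : Act G Ω)

@[simp] lemma tz_zero (y : Ω) : tz T 0 y = y := T.zero y

lemma tz_add (m n : G) (y : Ω) : tz T (m + n) y = tz T m (tz T n y) := T.add m n y

@[simp] lemma tz_neg_tz (n : G) (y : Ω) : tz T (-n) (tz T n y) = y := by
  rw [← tz_add]; simp

@[simp] lemma tz_tz_neg (n : G) (y : Ω) : tz T n (tz T (-n) y) = y := by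
  rw [← tz_add]; simp

lemma tz_comm (m n : G) (y : Ω) : tz T m (tz T n y) = tz T n (tz T m y) := by
  rw [← tz_add, ← tz_add, add_comm]

lemma measurable_tz (n : G) : Measurable (tz T n) := T.meas n

/-- one element of the group as a measurable bijection -/
def tzE (n : G) : Ω ≃ᵐ Ω where
  toFun := tz T n
  invFun := tz T (-n)
  left_inv := tz_neg_tz T n
  right_inv := tz_tz_neg T n
  measurable_toFun := measurable_tz T n
  measurable_invFun := measurable_tz T (-n)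

@[simp] lemma tzE_apply (n : G) (y : Ω) : tzE T n y = tz T n y := rfl

lemma mem_tz {I : Set Ω} (h : ∀ n, tz T n ⁻¹' I = I) (n : G) (y : Ω) : tz T n y ∈ I ↔ y ∈ I :=
  Set.ext_iff.1 (h n) y

/-- measurability in the label and the point -/
lemma measurable_tzl (n : ℤ × ℤ → G) : Measurable fun z : (ℤ × ℤ) × Ω => tz T (n z.1) z.2 :=
  measurable_from_prod_countable_right fun d => measurable_tz T (n d)

end tz

section sz

variable {G V : Type} [AddCommGroup G] [AddCommGroup V] (σ : VAct G V)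

@[simp] lemma sz_zero (c : V) : sz σ 0 c = c := σ.zero c

lemma sz_add (m n : G) (c : V) : sz σ (m + n) c = sz σ m (sz σ n c) := σ.add m n c

@[simp] lemma sz_neg_sz (n : G) (c : V) : sz σ (-n) (sz σ n c) = c := by
  rw [← sz_add]; simp

@[simp] lemma sz_sz_neg (n : G) (c : V) : sz σ n (sz σ (-n) c) = c := by
  rw [← sz_add]; simp

lemma sz_comm (m n : G) (c : V) : sz σ m (sz σ n c) = sz σ n (sz σ m c) := by
  rw [← sz_add, ← sz_add, add_comm]

@[simp] lemma sz_map_zero (n : G) : sz σ n (0 : V) = 0 := by simp [sz]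

lemma sz_map_sub (n : G) (a b : V) : sz σ n (a - b) = sz σ n a - sz σ n b := by simp [sz]

lemma sz_map_add (n : G) (a b : V) : sz σ n (a + b) = sz σ n a + sz σ n b := by simp [sz]

@[simp] lemma mem_sh (i j : G) (S : Arr V) (p : V × V) :
    p ∈ sh σ i j S ↔ (sz σ i p.1, sz σ j p.2) ∈ S := Iff.rfl

@[simp] lemma sh_zero (S : Arr V) : sh σ 0 0 S = S := by ext p; simp

lemma sh_sh (i j k l : G) (S : Arr V) : sh σ i j (sh σ k l S) = sh σ (i + k) (j + l) S := by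
  ext p; simp only [mem_sh]; rw [add_comm i k, add_comm j l, sz_add, sz_add]

@[simp] lemma sh_empty (i j : G) : sh σ i j (∅ : Arr V) = ∅ := rfl

lemma measurable_sh (i j : G) : Measurable (sh σ i j) :=
  measurable_set_iff.2 fun _ => measurable_set_mem _

/-- the shift of relations as a measurable bijection -/
def shE (i j : G) : Arr V ≃ᵐ Arr V where
  toFun := sh σ i j
  invFun := sh σ (-i) (-j)
  left_inv S := by rw [sh_sh]; simp
  right_inv S := by rw [sh_sh]; simp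
  measurable_toFun := measurable_sh σ i j
  measurable_invFun := measurable_sh σ (-i) (-j)

@[simp] lemma shE_apply (i j : G) (S : Arr V) : shE σ i j S = sh σ i j S := rfl

lemma loop_sh (i : G) (S S' : Arr V) : loop (sh σ i i S) (sh σ i i S') = sh σ i i (loop S S') := by
  ext p
  constructor
  · rintro ⟨e, h1, h2⟩
    exact ⟨sz σ i e, h1, h2⟩
  · rintro ⟨e, h1, h2⟩
    exact ⟨sz σ (-i) e, by simpa using h1, by simpa using h2⟩

lemma cmpR_sh (i j k : G) (R S : Arr V) :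
    cmpR (sh σ i j R) (sh σ j k S) = sh σ i k (cmpR R S) := by
  ext p
  constructor
  · rintro ⟨h0, h0', e, h1, h2⟩
    exact ⟨by simpa using h0, by simpa using h0', sz σ j e, h1, h2⟩
  · rintro ⟨h0, h0', e, h1, h2⟩
    exact ⟨by simpa using h0, by simpa using h0', sz σ (-j) e, by simpa using h1, by simpa using h2⟩

lemma zero_mem_cmpR (R S : Arr V) :
    ((0 : V), (0 : V)) ∈ cmpR R S ↔ ((0 : V), (0 : V)) ∈ R ∧ ((0 : V), (0 : V)) ∈ S :=
  ⟨fun h => ⟨h.1, h.2.1⟩, fun h => ⟨h.1, h.2, 0, h.1, h.2⟩⟩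

lemma measurable_cmpR [Countable V] {α : Type} [MeasurableSpace α] {R S : α → Arr V}
    (h : Measurable R) (h' : Measurable S) : Measurable fun a => cmpR (R a) (S a) :=
  measurable_set_iff.2 fun p => ((measurable_set_mem _).comp h).and
    (((measurable_set_mem _).comp h').and (Measurable.exists fun e =>
      ((measurable_set_mem (p.1, e)).comp h).and ((measurable_set_mem (e, p.2)).comp h')))

end sz

lemma wt_ne_zero {G : Type} [Countable G] (n : G) : wt n ≠ 0 :=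
  pow_ne_zero _ (ENNReal.inv_ne_zero.2 ENNReal.ofNat_ne_top)

lemma tsum_wt_ne_top {G : Type} [Countable G] : ∑' n : G, wt n ≠ ⊤ := by
  have h := ENNReal.tsum_comp_le_tsum_of_injective (exists_injective_nat G).choose_spec
    fun k : ℕ => (2 : ℝ≥0∞)⁻¹ ^ k
  refine ne_top_of_le_ne_top ?_ h
  rw [ENNReal.tsum_geometric]
  simp

section base

variable {G Ω V J : Type} [AddCommGroup G] [MeasurableSpace Ω] [AddCommGroup V]

@[simp] lemma Base.sA_apply (A : Base G Ω V) (i j : G) (z : (Ω × Ω) × Arr V) :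
    A.sA i j z = ((tz A.T i z.1.1, tz A.T j z.1.2), sh A.σ i j z.2) := rfl

lemma Base.sA_sA (A : Base G Ω V) (i j k l : G) (z : (Ω × Ω) × Arr V) :
    A.sA i j (A.sA k l z) = A.sA (i + k) (j + l) z := by
  simp only [Base.sA_apply, tz_add, sh_sh]

lemma Base.sA_zero (A : Base G Ω V) (z : (Ω × Ω) × Arr V) : A.sA 0 0 z = z := by simp

lemma Base.measurable_sA (A : Base G Ω V) (i j : G) : Measurable (A.sA i j) :=
  (((measurable_tz A.T i).comp measurable_fst.fst).prodMk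
    ((measurable_tz A.T j).comp measurable_fst.snd)).prodMk
    ((measurable_sh A.σ i j).comp measurable_snd)

/-- the shift of arrows as a measurable bijection -/
def Base.sE (A : Base G Ω V) (i j : G) : ((Ω × Ω) × Arr V) ≃ᵐ ((Ω × Ω) × Arr V) where
  toFun := A.sA i j
  invFun := A.sA (-i) (-j)
  left_inv z := by rw [A.sA_sA]; simp
  right_inv z := by rw [A.sA_sA]; simp
  measurable_toFun := A.measurable_sA i j
  measurable_invFun := A.measurable_sA (-i) (-j)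

lemma iso_shift (A : Base G Ω V) {y y' : Ω} {S : Arr V} (h : Iso (A.N y) (A.N y') S) (i j : G) :
    Iso (A.N (tz A.T i y)) (A.N (tz A.T j y')) (sh A.σ i j S) where
  zero c hc c' hc' := h.zero _ ((A.eqz i c y).2 hc) _ ((A.eqz j c' y').2 hc')
  sub a a' b b' h1 h2 := by
    have := h.sub _ _ _ _ h1 h2
    simpa only [mem_sh, sz_map_sub] using this
  totL c := by
    obtain ⟨c', hc⟩ := h.totL (sz A.σ i c)
    exact ⟨sz A.σ (-j) c', by simpa using hc⟩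
  totR c' := by
    obtain ⟨c, hc⟩ := h.totR (sz A.σ j c')
    exact ⟨sz A.σ (-i) c, by simpa using hc⟩
  iff c c' hc := by rw [← A.eqz, ← A.eqz]; exact h.iff _ _ hc

instance (B : Bun G Ω V J) (M : ℕ) : IsProbabilityMeasure (B.P M) := by
  unfold Bun.P; infer_instance

lemma Bun.measurable_Sg (B : Bun G Ω V J) (j : J) (M : ℕ) :
    Measurable fun z : (ℤ × ℤ) × Ω => B.Sg j M z.1 z.2 :=
  measurable_from_prod_countable_right fun d => B.mS j M d

lemma Bun.measurable_pt (B : Bun G Ω V J) (j : J) (M : ℕ) : Measurable (B.pt j M) :=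
  (measurable_snd.prodMk (measurable_tzl B.T (B.st j))).prodMk (B.measurable_Sg j M)

lemma Bun.cyl_flatS (B : Bun G Ω V J) (j : J) (M : ℕ) (d : ℤ × ℤ) (c11 c12 c21 c22 : V) :
    Cyl (B.flatS j M d c11 c12 c21 c22) :=
  (Cyl.mem _).and ((Cyl.mem _).and ((Cyl.fst _ (measurableSet_memA (B.mS j M d) (c11, c21))).iff
    (Cyl.snd _ (measurableSet_memA (B.mS j M d) (c12, c22)))).not)

lemma Base.measurableSet_relS (A : Base G Ω V) (D : RD G V) : MeasurableSet (A.relS D) :=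
  measurableSet_lab fun d => (A.mN ((∑ k, sz A.σ (d.1 • D.r k) (D.c k)) - D.b d.2)).inter
    (A.mN (sz A.σ (d.1 • D.r D.k0) (D.c D.k0))).compl

lemma Base.measurableSet_decS (A : Base G Ω V) (n : G) (c c' : V) :
    MeasurableSet (A.decS n c c') := (A.mN (sz A.σ n c - c')).inter (A.mN c').compl

lemma measurable_wOf : Measurable fun x : Ω × (Ω × Arr V) => ((x.1, x.2.1), x.2.2) := by fun_prop

instance (μ : Measure Ω) [IsProbabilityMeasure μ] (K : Kernel Ω (Ω × Arr V)) [IsMarkovKernel K] :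
    IsProbabilityMeasure (wOf μ K) :=
  Measure.isProbabilityMeasure_map measurable_wOf.aemeasurable

lemma measurable_star [Countable V] : Measurable
    fun x : (Ω × Arr V) × (Ω × Arr V) => (x.2.1, cmpR x.1.2 x.2.2) :=
  measurable_snd.fst.prodMk (measurable_cmpR measurable_fst.snd measurable_snd.snd)

instance [Countable V] (K1 K2 : Kernel Ω (Ω × Arr V)) [IsMarkovKernel K1] [IsMarkovKernel K2] :
    IsMarkovKernel (star K1 K2) := Kernel.IsMarkovKernel.map _ measurable_star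

lemma measurableSet_Sup (K : Kernel Ω (Ω × Arr V)) : MeasurableSet (Sup K) :=
  ((K.measurable_coe (measurableSet_memA measurable_snd _)) (measurableSet_singleton 0)).compl

end base

end

end Pool.Agent.MP_154433_an.T4A
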