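import Pool.Agent.MP_154433_an.t4a.Spec

set_option autoImplicit false

open MeasureTheory ProbabilityTheory Filter Topology Set
open scoped ENNReal

namespace Pool.Agent.MP_154433_an.T4A

open T3A

noncomputable section

theorem xExa : ExaS := by
  intro G X V _ _ _ _ _ μ T σ N hT hN h0 h1 h2
  let G0 : X → Prop := fun x => x ∈ N 0 ∧ (∀ v v', x ∈ N v → x ∈ N v' → x ∈ N (v - v')) ∧
    ∀ n v, x ∈ N (sz σ n v) ↔ tz T n x ∈ N v
  let G1 : X → Prop := fun x => ∀ n : G, G0 (tz T n x)
  have m : ∀ v, Measurable fun x => x ∈ N v := fun v => measurableSet_setOfPred.1 (hN v)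
  have m0 : Measurable G0 := (m 0).and ((Measurable.forall fun v => Measurable.forall fun v' =>
    (m v).imp ((m v').imp (m _))).and (Measurable.forall fun n => Measurable.forall fun v =>
      (m _).iff ((m v).comp (T.meas n))))
  have m1 : Measurable G1 := Measurable.forall fun n => m0.comp (T.meas n)
  have a0 : ∀ᵐ x ∂μ, G0 x :=
    h0.and ((ae_all_iff.2 fun v => ae_all_iff.2 fun v' => h1 v v').and
      (ae_all_iff.2 fun n => ae_all_iff.2 (h2 n)))
  have a1 : ∀ᵐ x ∂μ, G1 x :=
    ae_all_iff.2 fun n => (hT n).quasiMeasurePreserving.ae a0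
  have gT : ∀ k x, G1 x → G1 (tz T k x) := fun k x h n => by rw [← tz_add]; exact h _
  have gT' : ∀ k x, G1 (tz T k x) → G1 x := fun k x h => by
    simpa only [tz_neg_tz] using gT (-k) _ h
  have g0 : ∀ x, G1 x → G0 x := fun x h => by simpa only [tz_zero] using h 0
  refine ⟨fun x => AddSubgroup.ofSub {c | G1 x → x ∈ N c} ⟨0, fun h => (g0 x h).1⟩
    fun a ha b hb h => ?_, fun c => measurableSet_setOfPred.2 (m1.imp (m c)), fun n c y => ?_,
    a1.mono fun x h c => ⟨fun e => e h, fun e _ => e⟩⟩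
  · rw [← sub_eq_add_neg]
    exact (g0 x h).2.1 a b (ha h) (hb h)
  · exact ⟨fun e h => ((g0 y (gT' n y h)).2.2 n c).1 (e (gT' n y h)),
      fun e h => ((g0 y h).2.2 n c).2 (e (gT n y h))⟩

end

end Pool.Agent.MP_154433_an.T4A
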