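import Pool.Agent.MP_154433_an.t4a.Spec

set_option autoImplicit false
set_option linter.unusedSectionVars false

open MeasureTheory ProbabilityTheory Filter Topology Set
open scoped ENNReal

namespace Pool.Agent.MP_154433_an.T4A

open T3A

namespace F3Aux

lemma tendsto_tsum_zero {ι α : Type} {l : Filter α} (c : ι → ℝ≥0∞) (hc : ∑' i, c i ≠ ∞)
    (a : ι → α → ℝ≥0∞) (h1 : ∀ i M, a i M ≤ 1) (h0 : ∀ i, Tendsto (a i) l (𝓝 0)) :
    Tendsto (fun M => ∑' i, c i * a i M) l (𝓝 0) := by
  rw [ENNReal.tendsto_nhds_zero]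
  intro ε hε
  have h2 : 0 < ε / 2 := ENNReal.div_pos hε.ne' (by norm_num)
  obtain ⟨s, hs⟩ :=
    (ENNReal.tendsto_nhds_zero.1 (ENNReal.tendsto_tsum_compl_atTop_zero hc) _ h2).exists
  have h3 : Tendsto (fun M => ∑ i ∈ s, c i * a i M) l (𝓝 0) := by
    have := tendsto_finsetSum s fun i _ =>
      ENNReal.Tendsto.const_mul (a := c i) (h0 i) (Or.inr (ENNReal.ne_top_of_tsum_ne_top hc i))
    simpa using this
  filter_upwards [ENNReal.tendsto_nhds_zero.1 h3 _ h2] with M hM
  rw [← ENNReal.sum_add_tsum_compl s, ← ENNReal.add_halves ε]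
  refine add_le_add hM (le_trans (ENNReal.tsum_le_tsum fun i => ?_) hs)
  exact mul_le_of_le_one_right' (h1 _ _)

end F3Aux

theorem xF3 : F3S := by
  intro G Ω V J _ _ _ _ _ B w _ h j c11 c12 c21 c22
  have hp : ∀ i, IsProbabilityMeasure (w.map (B.sA i 0)) := fun i =>
    Measure.isProbabilityMeasure_map (B.measurable_sA i 0).aemeasurable
  have hν := B.pν
  have key := F3Aux.tendsto_tsum_zero (l := (B.U : Filter ℕ)) (fun i : G => wt i)
    tsum_wt_ne_top (fun i M => ∫⁻ d : ℤ × ℤ, (w.map (B.sA i 0)) (B.flatS j M d c11 c12 c21 c22)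
      ∂((B.ν M).prod (B.ν M)))
    (fun i M => by
      refine le_trans (lintegral_mono fun d => prob_le_one) ?_
      simp)
    (fun i => h i j c11 c12 c21 c22)
  refine tendsto_of_tendsto_of_tendsto_of_le_of_le tendsto_const_nhds key
    (fun M => zero_le) fun M => ?_
  have e : ∀ i : G, wt i *
      ∫⁻ d : ℤ × ℤ, (w.map (B.sA i 0)) (B.flatS j M d c11 c12 c21 c22) ∂((B.ν M).prod (B.ν M)) =
      ∫⁻ d : ℤ × ℤ, wt i * (w.map (B.sA i 0)) (B.flatS j M d c11 c12 c21 c22)
        ∂((B.ν M).prod (B.ν M)) := fun i =>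
    (lintegral_const_mul _ (measurable_of_countable _)).symm
  simp only [e]
  rw [← lintegral_tsum fun i => (measurable_of_countable _).aemeasurable]
  refine lintegral_mono fun d => ?_
  have hm := (B.cyl_flatS j M d c11 c12 c21 c22).meas
  simp only [Lam]
  rw [Measure.sum_apply _ hm]
  refine ENNReal.tsum_le_tsum fun i => ?_
  rw [Measure.smul_apply, smul_eq_mul]
  refine mul_le_mul_right ?_ _
  exact Measure.map_mono Measure.restrict_le_self (B.measurable_sA i 0) _

end Pool.Agent.MP_154433_an.T4A
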