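import Pool.Agent.MP_154433_an.t4a.Spec

set_option autoImplicit false

open MeasureTheory ProbabilityTheory Filter Topology Set
open scoped ENNReal

namespace Pool.Agent.MP_154433_an.T4A

open T3A

noncomputable section

namespace F4bAux

lemma small {α : Type} [MeasurableSpace α] (P L : Measure α) [IsFiniteMeasure P]
    [IsFiniteMeasure L] (h : P ≪ L) {ε : ℝ≥0∞} (hε : ε ≠ 0) :
    ∃ δ : ℝ≥0∞, δ ≠ 0 ∧ δ ≠ ∞ ∧ ∀ E, MeasurableSet E → L E < δ → P E < ε := by
  obtain ⟨δ, h0, hδ⟩ := exists_pos_setLIntegral_lt_of_measure_lt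
    (Measure.lintegral_rnDeriv_lt_top P L).ne hε
  refine ⟨min δ 1, (lt_min h0 zero_lt_one).ne', (min_le_right _ _).trans_lt ENNReal.one_lt_top |>.ne,
    fun E hE hL => ?_⟩
  rw [← Measure.setLIntegral_rnDeriv' h hE]
  exact hδ E (hL.trans_le (min_le_left _ _))

lemma le_Lp {G Ω V : Type} [AddCommGroup G] [MeasurableSpace Ω] [AddCommGroup V] (A : Base G Ω V) (κ : Kernel Ω Ω)
    [IsMarkovKernel κ] {Ip : Set Ω} (hI : MeasurableSet Ip) (Φ : Kernel (Ω × Ω) (Arr V))
    [IsMarkovKernel Φ] (off : ∀ z : Ω × Ω, z.1 ∉ Ip → Φ z = Measure.dirac (∅ : Arr V))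
    {E : Set ((Ω × Ω) × Arr V)} (hE : MeasurableSet E) (h0 : ∀ z, (z, (∅ : Arr V)) ∉ E) :
    Lf A κ Φ E ≤ Lp A κ Ip Φ E := by
  rw [Lf, Lp, Measure.compProd_apply hE, Measure.compProd_apply hE,
    ← lintegral_indicator (hI.prod MeasurableSet.univ)]
  refine lintegral_mono fun z => ?_
  by_cases hz : z.1 ∈ Ip
  · rw [indicator_of_mem (show z ∈ Ip ×ˢ univ from ⟨hz, mem_univ _⟩)]
  · rw [off z hz, Measure.dirac_apply' _ (measurable_prodMk_left hE),
      indicator_of_notMem (show (∅ : Arr V) ∉ Prod.mk z ⁻¹' E from h0 z)]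
    exact zero_le

end F4bAux

theorem xF4b : F4S := by
  intro G Ω V J _ _ _ _ B κ _ L _ Ip Φ h hL j c11 c12 c21 c22
  have := h.markov
  have hP : IsFiniteMeasure (Lp B.toBase κ Ip Φ) := by
    unfold Lp
    infer_instance
  have hF : IsProbabilityMeasure (Lf B.toBase κ Φ) := by
    unfold Lf
    infer_instance
  refine ENNReal.tendsto_nhds_zero.2 fun ε hε => ?_
  have h2 : ε / 2 ≠ 0 := (ENNReal.half_pos hε.ne').ne'
  obtain ⟨δ, d0, d1, hδ⟩ := F4bAux.small _ L h.ac1 h2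
  have h3 := ENNReal.Tendsto.const_mul (a := δ⁻¹) (hL j c11 c12 c21 c22)
    (Or.inr (ENNReal.inv_ne_top.2 d0))
  rw [mul_zero] at h3
  filter_upwards [ENNReal.tendsto_nhds_zero.1 h3 (ε / 2) (pos_iff_ne_zero.2 h2)] with M hM
  have h4 : ∀ d : ℤ × ℤ, Lf B.toBase κ Φ (B.flatS j M d c11 c12 c21 c22) ≤
      ε / 2 + δ⁻¹ * L (B.flatS j M d c11 c12 c21 c22) := fun d => by
    have hE := (B.cyl_flatS j M d c11 c12 c21 c22).meas
    rcases lt_or_ge (L (B.flatS j M d c11 c12 c21 c22)) δ with h5 | h5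
    · exact ((F4bAux.le_Lp _ κ h.mI Φ h.off hE fun z hz => hz.1).trans (hδ _ hE h5).le).trans
        le_self_add
    · refine prob_le_one.trans (le_trans ?_ le_add_self)
      rw [← ENNReal.inv_mul_cancel d0 d1]
      exact mul_le_mul_right h5 _
  refine (lintegral_mono h4).trans ?_
  rw [lintegral_add_left measurable_const, lintegral_const, measure_univ, mul_one,
    lintegral_const_mul _ (measurable_of_countable _)]
  exact (add_le_add le_rfl hM).trans (ENNReal.add_halves ε).le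

end

end Pool.Agent.MP_154433_an.T4A
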