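import Pool.Agent.MP_154433_an.t4a.Spec

/-! The last step: passage to the commutative group generated by the values of the cocycle. -/

set_option autoImplicit false
set_option linter.unusedVariables false

open MeasureTheory ProbabilityTheory Filter Topology Set
open scoped ENNReal

namespace Pool.Agent.MP_154433_an.T4A

open T3A

theorem xFin : FinS := by
  classical
  intro core G Ga _ _ _ _ Y _ m _ T hT P hPm C hC hPC hco ht nu _ hsp I _ r dir hr hd k0 x eta hx
    heta de hde hrel K hK hdec
  have hcm : IsMulCommutative (Subgroup.closure C) := Subgroup.isMulCommutative_closure hC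
  let : CommGroup (Subgroup.closure C) :=
    { (inferInstance : Group (Subgroup.closure C)) with
      mul_comm := fun a b => hcm.is_comm.comm a b }
  let P' : G → Y → Subgroup.closure C := fun n y =>
    if h : P n y ∈ C then ⟨P n y, Subgroup.subset_closure h⟩ else 1
  have hall : ∀ᵐ y ∂m, ∀ n, (P' n y : Au Ga) = P n y := by
    filter_upwards [ae_all_iff.mpr hPC] with y hy n
    simp [P', hy n]
  have hsm : ∀ (g : Subgroup.closure C) (a : Ga), g • a = (g : Au Ga) a := fun _ _ => rfl
  have hsnd : ∀ i, ∀ᵐ z ∂((nu i).prod (nu i)).prod m, ∀ n, (P' n z.2 : Au Ga) = P n z.2 :=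
    fun i => Measure.quasiMeasurePreserving_snd.ae hall
  refine core G Y Ga (Subgroup.closure C) I m (tz T) hT P' ?_ ?_ nu hsp r dir hr hd k0 x eta
    (fun k a => (hx k a).nullMeasurableSet) (fun d a => (heta d a).nullMeasurableSet) de hde ?_
    K hK ?_
  · intro n k
    filter_upwards [hco n k, hall, (hT n).quasiMeasurePreserving.ae hall] with y h1 h2 h3
    apply Subtype.ext
    rw [Subgroup.coe_mul, h2, h2, h3, h1]
  · intro a eps he
    obtain ⟨F, hF⟩ := ht a eps he
    refine ⟨F, fun n => le_trans (le_of_eq (measure_congr ?_)) (hF n)⟩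
    filter_upwards [Measure.quasiMeasurePreserving_fst.ae hall,
      Measure.quasiMeasurePreserving_snd.ae hall] with p h1 h2
    show (((P' n p.2)⁻¹ * P' n p.1) • a ∉ F) = ((P n p.2)⁻¹ (P n p.1 a) ∉ F)
    rw [hsm, Subgroup.coe_mul, Subgroup.coe_inv, h1, h2]
    rfl
  · refine hrel.mono fun i hi => le_trans hi (le_of_eq (measure_congr ?_))
    filter_upwards [hsnd i] with z hz
    show (_ ∧ _) = (_ ∧ _)
    simp only [hsm, hz]
  · intro u hu a b hb
    have e : (fun k : ℕ => m {y | P' ((k : ℤ) • u) y • a = b}) =
        fun k : ℕ => m {y | P ((k : ℤ) • u) y a = b} := by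
      funext k
      refine measure_congr ?_
      filter_upwards [hall] with y hy
      show (_ = _) = (_ = _)
      simp only [hsm, hy]
    rw [e]
    exact hdec u hu a b hb

end Pool.Agent.MP_154433_an.T4A
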