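import Pool.Agent.MP_154433_an.t4a.Spec
import Pool.Agent.MP_154433_an.t3a.Iid

set_option autoImplicit false

open MeasureTheory ProbabilityTheory Filter Topology Set
open scoped ENNReal

namespace Pool.Agent.MP_154433_an.T4A

open T3A

noncomputable section

namespace IidAux

variable {G Ω Z : Type} [AddCommGroup G] [MeasurableSpace Ω] [MeasurableSpace Z]

/-- the product action, the second factor acting on all samples -/
def TA (T : Act G Ω) (R : Act G Z) : Act G (Ω × (ℕ → Z)) where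
  f n x := (T.f n x.1, fun i => R.f n (x.2 i))
  meas n := ((T.meas n).comp measurable_fst).prodMk (measurable_pi_lambda _ fun i =>
    (R.meas n).comp ((measurable_pi_apply i).comp measurable_snd))
  zero x := by simp only [T.zero, R.zero]
  add m n x := by simp only [T.add, R.add]

lemma mp_TA (μ : Measure Ω) [IsProbabilityMeasure μ] (T : Act G Ω) (R : Act G Z)
    (Ξ : Kernel Ω Z) [IsMarkovKernel Ξ] (K : Kernel Ω (ℕ → Z)) [IsMarkovKernel K]
    (hK : ∀ y, K y = Measure.infinitePi fun _ : ℕ => Ξ y) (hT : MP T μ)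
    (hΞ : ∀ n, ∀ᵐ y ∂μ, Ξ (T4A.tz T n y) = (Ξ y).map (T4A.tz R n)) : MP (TA T R) (μ ⊗ₘ K) := by
  intro n
  have hm : Measurable (T4A.tz (TA T R) n) := (TA T R).meas n
  have hRn : Measurable (T4A.tz R n) := R.meas n
  refine ⟨hm, ?_⟩
  ext s hs
  rw [Measure.map_apply hm hs, Measure.compProd_apply (hm hs), Measure.compProd_apply hs,
    ← (hT n).lintegral_comp (Kernel.measurable_kernel_prodMk_left hs)]
  refine lintegral_congr_ae ?_
  filter_upwards [hΞ n] with y hy
  have hR : Measurable fun (x : ℕ → Z) (i : ℕ) => T4A.tz R n (x i) :=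
    measurable_pi_lambda _ fun i => hRn.comp (measurable_pi_apply i)
  have h := Measure.infinitePi_map_pi (fun _ : ℕ => Ξ y) (f := fun _ : ℕ => T4A.tz R n)
    (fun _ => hRn)
  have h2 : K (T4A.tz T n y) = (K y).map fun (x : ℕ → Z) (i : ℕ) => T4A.tz R n (x i) := by
    rw [hK, hK, h]; simp only [hy]
  rw [h2, Measure.map_apply hR (measurable_prodMk_left hs)]
  rfl

end IidAux

theorem xIid : IidS := by
  intro G Ω Z _ _ _ _ _ μ _ T R Ξ _ hT hΞ
  obtain ⟨K, hM, hK⟩ := T3A.IidAux.exists_ker Ξ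
  exact ⟨μ ⊗ₘ K, IidAux.TA T R, inferInstance, fun _ _ => rfl, IidAux.mp_TA μ T R Ξ K hK hT hΞ,
    T3A.IidAux.law μ Ξ K hK, fun E hE => T3A.IidAux.hit μ Ξ K hK hE⟩

end

end Pool.Agent.MP_154433_an.T4A
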