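import Pool.Agent.MP_154433_an.t4a.Spec

set_option autoImplicit false

open MeasureTheory ProbabilityTheory Filter Topology Set
open scoped ENNReal

namespace Pool.Agent.MP_154433_an.T4A

open T3A

namespace IntAux

variable {G Y Ω V J : Type} [AddCommGroup G] [MeasurableSpace Y] [MeasurableSpace Ω]
  [AddCommGroup V]

theorem null {B' : Bun G Y V J} {B : Bun G Ω V J} {p : Y → Ω} {κ : Kernel Ω Ω}
    {Φ : Kernel (Ω × Ω) (Arr V)} {e : ℕ → Y → Ω} {S S' : ℕ → Y → Arr V} {j : J}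
    {w' : Measure ((Y × Y) × Arr V)} (h : Smp B' B p κ Φ e S S')
    (hF : FlatM B (Lf B.toBase κ Φ)) (hw : IsLim B' j w') (i : ℕ) (c a a' b' e0 e1 : V) :
    w' {z | (c, e0) ∈ S i z.1.1 ∧ (a, e0) ∈ S' i z.1.1 ∧ (a', e1) ∈ S i z.1.2 ∧
      (b', e1) ∈ S' i z.1.2 ∧ (c, a') ∈ z.2 ∧ ¬ (a, b') ∈ z.2} = 0 := by
  have hE : Cyl {z : (Y × Y) × Arr V | (c, e0) ∈ S i z.1.1 ∧ (a, e0) ∈ S' i z.1.1 ∧
      (a', e1) ∈ S i z.1.2 ∧ (b', e1) ∈ S' i z.1.2 ∧ (c, a') ∈ z.2 ∧ ¬ (a, b') ∈ z.2} :=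
    (Cyl.fst _ (measurableSet_memA (h.mS i) (c, e0))).and
      ((Cyl.fst _ (measurableSet_memA (h.mS' i) (a, e0))).and
        ((Cyl.snd _ (measurableSet_memA (h.mS i) (a', e1))).and
          ((Cyl.snd _ (measurableSet_memA (h.mS' i) (b', e1))).and
            ((Cyl.mem _).and (Cyl.mem _).not))))
  have h1 := hw.2 _ hE
  have h2 := (hF j c e0 a' e1).add (hF j a e0 b' e1)
  rw [add_zero, ← h.ext.hU] at h2
  refine le_antisymm (le_of_tendsto_of_tendsto' h1 h2 fun M => ?_) zero_le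
  rw [← lintegral_add_left (measurable_of_countable _)]
  unfold Bun.P
  rw [PM_apply _ _ (B'.measurable_pt j M hE.meas), h.ext.hν]
  refine lintegral_mono fun d => ?_
  have m1 : Measurable fun y => ((p y, e i y), S i y) :=
    (h.ext.mp.measurable.prodMk (h.me i)).prodMk (h.mS i)
  have m2 : Measurable fun y => ((p y, e i y), S' i y) :=
    (h.ext.mp.measurable.prodMk (h.me i)).prodMk (h.mS' i)
  have e1' := Measure.map_apply (μ := B'.μ) m1 (B.cyl_flatS j M d c e0 a' e1).meas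
  have e2' := Measure.map_apply (μ := B'.μ) m2 (B.cyl_flatS j M d a e0 b' e1).meas
  rw [h.law i] at e1'
  rw [h.law' i] at e2'
  beta_reduce
  rw [e1', e2']
  refine le_trans (measure_mono fun y hy => ?_) (measure_union_le _ _)
  obtain ⟨a1, a2, a3, a4, a5, a6⟩ := hy
  have hst : B'.st j d = B.st j d := by unfold Bun.st; rw [h.ext.ha, h.ext.hb]
  change (a', e1) ∈ S i (tz B'.T (B'.st j d) y) at a3
  change (b', e1) ∈ S' i (tz B'.T (B'.st j d) y) at a4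
  change (c, a') ∈ B'.Sg j M d y at a5
  change (a, b') ∉ B'.Sg j M d y at a6
  rw [h.eqv, hst] at a3
  rw [h.eqv', hst] at a4
  rw [h.ext.hS] at a5 a6
  by_cases hc : (e0, e1) ∈ B.Sg j M d (e i y)
  · exact Or.inr ⟨a2, a4, fun q => a6 (q.2 hc)⟩
  · exact Or.inl ⟨a1, a3, fun q => hc (q.1 a5)⟩

end IntAux

theorem xInt : IntS := by
  intro G Y Ω V J _ _ _ _ _ B' B p κ Φ e S S' j w' h hF hw
  have key : ∀ᵐ z ∂w', ∀ (i : ℕ) (c a a' b' e0 e1 : V),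
      ¬ ((c, e0) ∈ S i z.1.1 ∧ (a, e0) ∈ S' i z.1.1 ∧ (a', e1) ∈ S i z.1.2 ∧
        (b', e1) ∈ S' i z.1.2 ∧ (c, a') ∈ z.2 ∧ ¬ (a, b') ∈ z.2) := by
    simp only [ae_all_iff]
    intro i c a a' b' e0 e1
    exact measure_eq_zero_iff_ae_notMem.1 (IntAux.null h hF hw i c a a' b' e0 e1)
  unfold ItwW
  filter_upwards [key] with z hz i c a a' b' ⟨e0, h1, h2⟩ ⟨e1, h3, h4⟩ h5
  by_contra h6
  exact hz i c a a' b' e0 e1 ⟨h1, h2, h3, h4, h5, h6⟩

end Pool.Agent.MP_154433_an.T4A
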