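import Pool.Agent.MP_154433_an.t4a.Spec

set_option autoImplicit false

open MeasureTheory ProbabilityTheory Filter Topology Set
open scoped ENNReal

namespace Pool.Agent.MP_154433_an.T4A

open T3A

namespace KcAux

variable {Ω : Type} [MeasurableSpace Ω] (μ : Measure Ω) [IsProbabilityMeasure μ] (κ : Kernel Ω Ω)
  [IsMarkovKernel κ]

theorem lint {E : Set (Ω × Ω)} (hE : MeasurableSet E) {g : Ω → ℝ≥0∞} (hg : Measurable g) :
    ∫⁻ p in E, g p.1 ∂(μ ⊗ₘ κ) = ∫⁻ y, κ y (Prod.mk y ⁻¹' E) * g y ∂μ := by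
  have hf : Measurable fun p : Ω × Ω => g p.1 := hg.comp measurable_fst
  rw [← lintegral_indicator hE, Measure.lintegral_compProd (hf.indicator hE)]
  refine lintegral_congr fun y => ?_
  have e : (fun b => E.indicator (fun p : Ω × Ω => g p.1) (y, b)) =
      (Prod.mk y ⁻¹' E).indicator fun _ => g y := by
    funext b
    by_cases h : (y, b) ∈ E <;> simp [h, indicator]
  rw [e, lintegral_indicator_const (measurable_prodMk_left hE), mul_comm]

/-- a point with two independent samples of its component -/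
noncomputable def m3 : Measure ((Ω × Ω) × Ω) := (μ ⊗ₘ κ) ⊗ₘ κ.comap Prod.fst measurable_fst

instance : IsProbabilityMeasure (m3 μ κ) := by
  unfold m3
  infer_instance

theorem m3_prod {E : Set (Ω × Ω)} (hE : MeasurableSet E) {C : Set Ω} (hC : MeasurableSet C) :
    m3 μ κ (E ×ˢ C) = ∫⁻ y, κ y (Prod.mk y ⁻¹' E) * κ y C ∂μ := by
  rw [m3, Measure.compProd_apply_prod hE hC, ← lint μ κ hE (κ.measurable_coe hC)]
  rfl

variable {μ κ} {G : Type} [AddCommGroup G] {T : Act G Ω}

theorem m3_box (h : ErgK μ T κ) {A B C : Set Ω} (hA : MeasurableSet A) (hB : MeasurableSet B)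
    (hC : MeasurableSet C) :
    m3 μ κ ((A ×ˢ B) ×ˢ C) = ∫⁻ y, κ y B * κ y C * κ y A ∂μ := by
  rw [m3_prod μ κ (hA.prod hB) hC, h.int (fun y => κ y B * κ y C)
    ((κ.measurable_coe hB).mul (κ.measurable_coe hC)) (fun n y => by rw [h.inv]) A hA,
    ← lintegral_indicator hA]
  refine lintegral_congr fun y => ?_
  by_cases hy : y ∈ A <;> simp [hy, indicator]

theorem m3_swap (h : ErgK μ T κ) : (m3 μ κ).map (Prod.map Prod.swap id) = m3 μ κ := by
  have hm : Measurable (Prod.map Prod.swap id : (Ω × Ω) × Ω → (Ω × Ω) × Ω) :=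
    measurable_swap.prodMap measurable_id
  refine Measure.ext_prod₃_iff'.2 fun {A B C} hA hB hC => ?_
  rw [Measure.map_apply hm ((hA.prod hB).prod hC)]
  have e : (Prod.map Prod.swap id : (Ω × Ω) × Ω → (Ω × Ω) × Ω) ⁻¹' ((A ×ˢ B) ×ˢ C) =
      (B ×ˢ A) ×ˢ C := by
    ext q
    simp [and_comm]
  rw [e, m3_box h hA hB hC, m3_box h hB hA hC]
  refine lintegral_congr fun y => ?_
  ring

theorem law (h : ErgK μ T κ) {D : Set (Ω × Ω)} (hD : MeasurableSet D)
    (hT : ∀ n, Prod.map id (tz T n) ⁻¹' D = D) :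
    ((m3 μ κ).restrict ((Prod.swap ⁻¹' D) ×ˢ univ)).map (fun q => (q.1.2, q.2)) =
      ((μ ⊗ₘ κ).restrict (Prod.swap ⁻¹' D)).map Prod.swap := by
  have hm : Measurable fun q : (Ω × Ω) × Ω => (q.1.2, q.2) := by fun_prop
  refine Measure.ext_prod fun {B A} hB hA => ?_
  have hE : MeasurableSet (Prod.swap ⁻¹' D ∩ univ ×ˢ B : Set (Ω × Ω)) :=
    (measurable_swap hD).inter (MeasurableSet.univ.prod hB)
  rw [Measure.map_apply hm (hB.prod hA), Measure.restrict_apply (hm (hB.prod hA)),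
    Measure.map_apply measurable_swap (hB.prod hA),
    Measure.restrict_apply (measurable_swap (hB.prod hA))]
  have e1 : (fun q : (Ω × Ω) × Ω => (q.1.2, q.2)) ⁻¹' (B ×ˢ A) ∩ (Prod.swap ⁻¹' D) ×ˢ univ =
      (Prod.swap ⁻¹' D ∩ univ ×ˢ B) ×ˢ A := by
    ext q
    simp only [mem_inter_iff, mem_preimage, mem_prod, mem_univ, and_true, true_and]
    tauto
  have hi : ∀ n y, κ (tz T n y) (Prod.mk (tz T n y) ⁻¹' (Prod.swap ⁻¹' D ∩ univ ×ˢ B)) =
      κ y (Prod.mk y ⁻¹' (Prod.swap ⁻¹' D ∩ univ ×ˢ B)) := fun n y => by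
    rw [h.inv]
    congr 1
    ext z
    have := Set.ext_iff.1 (hT n) (z, y)
    simp only [mem_preimage, Prod.map_apply, id_eq] at this
    simp [this]
  rw [e1, m3_prod μ κ hE hA, h.int _ (Kernel.measurable_kernel_prodMk_left hE) hi A hA,
    Measure.compProd_apply ((measurable_swap (hB.prod hA)).inter (measurable_swap hD)),
    ← lintegral_indicator hA]
  refine lintegral_congr fun y => ?_
  by_cases hy : y ∈ A
  · rw [indicator_of_mem hy]
    congr 1
    ext z
    simp [hy, and_comm]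
  · rw [indicator_of_notMem hy]
    have : Prod.mk y ⁻¹' (Prod.swap ⁻¹' (B ×ˢ A) ∩ Prod.swap ⁻¹' D) = ∅ := by
      ext z
      simp [hy]
    rw [this, measure_empty]

end KcAux

open KcAux in
theorem xKc : KcS := by
  intro G Ω _ _ _ μ _ T κ _ h D hD hT
  have := h.markov
  have hm : Measurable fun q : (Ω × Ω) × Ω => (q.1.2, q.2) := by fun_prop
  have hm' : Measurable fun q : (Ω × Ω) × Ω => (q.1.1, q.2) := by fun_prop
  have hs : Measurable (Prod.map Prod.swap id : (Ω × Ω) × Ω → (Ω × Ω) × Ω) :=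
    measurable_swap.prodMap measurable_id
  have hg : Measurable fun y => κ y (Prod.mk y ⁻¹' Dᶜ) :=
    Kernel.measurable_kernel_prodMk_left hD.compl
  have hQ : MeasurableSet ((fun q : (Ω × Ω) × Ω => (q.1.1, q.2)) ⁻¹' Dᶜ ∩ D ×ˢ univ) :=
    (hm' hD.compl).inter (hD.prod MeasurableSet.univ)
  have h1 : m3 μ κ ((fun q : (Ω × Ω) × Ω => (q.1.1, q.2)) ⁻¹' Dᶜ ∩ D ×ˢ univ) = 0 := by
    have h2 := congrArg (fun m : Measure (Ω × Ω) => m Dᶜ) (law h hD hT)
    rw [Measure.map_apply hm hD.compl, Measure.restrict_apply (hm hD.compl),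
      Measure.map_apply measurable_swap hD.compl,
      Measure.restrict_apply (measurable_swap hD.compl), preimage_compl (f := Prod.swap),
      compl_inter_self, measure_empty] at h2
    rw [← m3_swap h, Measure.map_apply hs hQ, ← h2]
    congr 1
  have h3 : ∫⁻ y, κ y (Prod.mk y ⁻¹' D) * κ y (Prod.mk y ⁻¹' Dᶜ) ∂μ = 0 := by
    rw [← lint μ κ hD hg, ← h1, m3, Measure.compProd_apply hQ, ← lintegral_indicator hD]
    refine lintegral_congr fun p => ?_
    by_cases hp : p ∈ D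
    · rw [indicator_of_mem hp, Kernel.comap_apply]
      congr 1
      ext z
      simp [hp]
    · rw [indicator_of_notMem hp]
      have : Prod.mk p ⁻¹' ((fun q : (Ω × Ω) × Ω => (q.1.1, q.2)) ⁻¹' Dᶜ ∩ D ×ˢ univ) = ∅ := by
        ext z
        simp [hp]
      rw [this, measure_empty]
  filter_upwards [(lintegral_eq_zero_iff
    ((Kernel.measurable_kernel_prodMk_left hD).mul hg)).1 h3] with y hy
  exact mul_eq_zero.1 hy

end Pool.Agent.MP_154433_an.T4A
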