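import Pool.Agent.MP_154433_an.t4a.Spec

/-! Row Kex: existence of the kernel of the invariant sets of a group action. -/

set_option autoImplicit false

open MeasureTheory ProbabilityTheory Filter Topology Set
open scoped ENNReal

namespace Pool.Agent.MP_154433_an.T4A

open T3A

namespace KexAux

theorem int {Ω : Type} {m : MeasurableSpace Ω} [mΩ : MeasurableSpace Ω] [StandardBorelSpace Ω]
    (μ : Measure Ω) [IsProbabilityMeasure μ] (hm : m ≤ mΩ) {h : Ω → ℝ≥0∞} (hh : Measurable[m] h)
    {A : Set Ω} (hA : MeasurableSet A) :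
    ∫⁻ y, h y * condExpKernel μ m y A ∂μ = ∫⁻ y in A, h y ∂μ := by
  have mF : Measurable[m.prod mΩ] fun z : Ω × Ω => h z.1 * A.indicator 1 z.2 :=
    (hh.comp (@measurable_fst Ω Ω m mΩ)).mul
      ((measurable_one.indicator hA).comp (@measurable_snd Ω Ω m mΩ))
  have md : @Measurable Ω (Ω × Ω) mΩ (m.prod mΩ) Function.diag :=
    Measurable.prodMk (f := id) (g := id) (measurable_id'' hm) measurable_id
  have e := congrArg (fun ν : @Measure (Ω × Ω) (m.prod mΩ) =>
    ∫⁻ z, h z.1 * A.indicator 1 z.2 ∂ν) (compProd_trim_condExpKernel (μ := μ) hm)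
  rw [Measure.lintegral_compProd mF, @lintegral_map Ω (Ω × Ω) mΩ (m.prod mΩ) μ _ _ mF md] at e
  simp only [lintegral_const_mul _ (measurable_one.indicator hA), lintegral_indicator_one hA] at e
  rw [lintegral_trim hm (f := fun a => h a * condExpKernel μ m a A)
    (hh.mul (measurable_condExpKernel hA))] at e
  rw [e, ← lintegral_indicator hA]
  refine lintegral_congr fun y => ?_
  by_cases c : y ∈ A <;> simp [c, Function.diag]

theorem ex {I Ω : Type} [mΩ : MeasurableSpace Ω] [StandardBorelSpace Ω] (i : I)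
    (μ : Measure Ω) [IsProbabilityMeasure μ] (f : I → Ω → Ω) :
    ∃ κ : Kernel Ω Ω, IsMarkovKernel κ ∧ (∀ n y, κ (f n y) = κ y) ∧
      ∀ h : Ω → ℝ≥0∞, Measurable h → (∀ n y, h (f n y) = h y) → ∀ A, MeasurableSet A →
        ∫⁻ y, h y * κ y A ∂μ = ∫⁻ y in A, h y ∂μ := by
  have hm : (⨅ n, MeasurableSpace.invariants (f n)) ≤ mΩ :=
    iInf_le_of_le i (MeasurableSpace.invariants_le _)
  refine ⟨⟨fun y => condExpKernel μ (⨅ n, MeasurableSpace.invariants (f n)) y,
    (condExpKernel μ (⨅ n, MeasurableSpace.invariants (f n))).measurable.mono hm le_rfl⟩,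
    ⟨fun y => ?_⟩, fun n y => Measure.ext fun s hs => ?_, fun h h1 h2 A hA => ?_⟩
  · exact IsMarkovKernel.isProbabilityMeasure
      (κ := condExpKernel μ (⨅ n, MeasurableSpace.invariants (f n))) y
  · exact congrFun (MeasurableSpace.comp_eq_of_measurable_invariants
      ((measurable_condExpKernel (μ := μ) (m := ⨅ n, MeasurableSpace.invariants (f n)) hs).mono
        (iInf_le _ n) le_rfl)) y
  · refine int μ hm (fun s hs => MeasurableSpace.measurableSet_iInf.2 fun n => ?_) hA
    exact MeasurableSpace.measurable_invariants_dom.2 ⟨h1, fun s _ => by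
      ext y
      simp [h2]⟩ hs

end KexAux

theorem xKex : KexS := by
  intro G Ω _ _ mΩ _ μ _ T _
  obtain ⟨κ, h1, h2, h3⟩ := KexAux.ex (0 : G) μ (fun n => tz T n)
  exact ⟨κ, h1, h2, h3⟩

end Pool.Agent.MP_154433_an.T4A
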