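import Pool.Agent.MP_154433_an.t4a.Spec

set_option autoImplicit false
set_option linter.unusedVariables false

open MeasureTheory ProbabilityTheory Filter Topology Set
open scoped ENNReal

namespace Pool.Agent.MP_154433_an.T4A

open T3A

noncomputable section

theorem xKw : KwS := by
  intro hP G Ω V J _ _ _ _ _ B j w hw hmix hinv hsrc hiso
  have := hw.1
  have : Nonempty Ω := by
    by_contra h
    rw [not_nonempty_iff] at h
    have h1 : B.μ univ = 1 := measure_univ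
    rw [Set.univ_eq_empty_iff.2 h, measure_empty] at h1
    exact zero_ne_one h1
  have hφ : Measurable fun z : (Ω × Ω) × Arr V => (z.1.1, (z.1.2, z.2)) := by fun_prop
  have : IsProbabilityMeasure (w.map fun z : (Ω × Ω) × Arr V => (z.1.1, (z.1.2, z.2))) :=
    Measure.isProbabilityMeasure_map hφ.aemeasurable
  obtain ⟨K, hK, hL, hE⟩ := hP Ω (Ω × Arr V)
    (w.map fun z : (Ω × Ω) × Arr V => (z.1.1, (z.1.2, z.2)))
  have hfst : (w.map fun z : (Ω × Ω) × Arr V => (z.1.1, (z.1.2, z.2))).map Prod.fst = B.μ := by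
    rw [Measure.map_map measurable_fst hφ]
    exact hsrc
  rw [hfst] at hL hE
  have hwof : wOf B.μ K = w := by
    rw [wOf, ← hL, Measure.map_map measurable_wOf hφ]
    exact Measure.map_id
  have key : ∀ C, MeasurableSet C → ∃ g : Ω → ℝ≥0∞,
      (∀ᵐ y ∂B.μ, g (tz B.T (B.a j) y) = g y) ∧ (∀ᵐ y ∂B.μ, g (tz B.T (B.b j) y) = g y) ∧
      (∀ D, MeasurableSet D → tz B.T (B.a j) ⁻¹' D =ᵐ[B.μ] D → tz B.T (B.b j) ⁻¹' D =ᵐ[B.μ] D →
        ∫⁻ y in D, g y ∂B.μ = B.μ (C ∩ D)) ∧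
      (fun y => K y (Prod.fst ⁻¹' C)) =ᵐ[B.μ] g := by
    intro C hC
    obtain ⟨g, hg, ha, hb, hD, hlim⟩ := hmix Ω B.μ B.T B.mp (B.a j) (B.b j) C hC
    refine ⟨g, ha, hb, hD, ?_⟩
    refine ae_eq_of_forall_setLIntegral_eq_of_sigmaFinite
      (K.measurable_coe (measurable_fst hC)) hg fun A hA _ => ?_
    have hc : Cyl ({z | z.1.1 ∈ A} ∩ {z | z.1.2 ∈ C} : Set ((Ω × Ω) × Arr V)) :=
      Cyl.inter _ _ (Cyl.fst A hA) (Cyl.snd C hC)
    have ht := hw.2 _ hc
    have e1 : ∀ M, B.P M (B.pt j M ⁻¹' ({z | z.1.1 ∈ A} ∩ {z | z.1.2 ∈ C})) =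
        ∫⁻ d : ℤ × ℤ, B.μ (A ∩ tz B.T (d.1 • B.a j + d.2 • B.b j) ⁻¹' C)
          ∂((B.ν M).prod (B.ν M)) := by
      intro M
      rw [Bun.P, PM_apply _ _ (B.measurable_pt j M hc.meas)]
      rfl
    simp only [e1] at ht
    rw [← tendsto_nhds_unique ht (hlim A hA),
      ← Measure.compProd_apply_prod hA (measurable_fst hC), ← hL,
      Measure.map_apply hφ (hA.prod (measurable_fst hC))]
    rfl
  refine ⟨K, hwof, hK, fun n => ?_, fun h hh C hC => ?_, fun C D hC hD hH => ?_, hwof ▸ hiso⟩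
  · have h1 := hE (tzE B.T n) (MeasurableEquiv.prodCongr (tzE B.T n) (shE B.σ n n)) (by
      rw [Measure.map_map (((tzE B.T n).measurable).prodMap
        (MeasurableEquiv.prodCongr (tzE B.T n) (shE B.σ n n)).measurable) hφ]
      conv_rhs => rw [← hinv n]
      rw [Measure.map_map hφ (B.measurable_sA n n)]
      rfl)
    exact h1
  · obtain ⟨g, ha, hb, -, hg⟩ := key C hC
    have h1 : ∀ᵐ y ∂B.μ, g (tz B.T h y) = g y := by
      rcases hh with rfl | rfl
      · exact ha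
      · exact hb
    have h2 := (B.mp h).quasiMeasurePreserving.ae hg
    filter_upwards [h1, h2, hg] with y e1 e2 e3
    rw [e2, e1, e3]
  · obtain ⟨g, -, -, hI, hg⟩ := key C hC
    rw [lintegral_congr_ae (ae_restrict_of_ae hg)]
    exact hI D hD (hH _ (Or.inl rfl)) (hH _ (Or.inr rfl))

end

end Pool.Agent.MP_154433_an.T4A
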