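import Pool.Agent.MP_154433_an.t4a.Spec

set_option autoImplicit false

open MeasureTheory ProbabilityTheory Filter Topology Set
open scoped ENNReal

namespace Pool.Agent.MP_154433_an.T4A

open T3A

namespace LaeAux

variable {G Ω V : Type} [AddCommGroup G] [MeasurableSpace Ω] [AddCommGroup V] [Countable V]

theorem meas_iso (A : Base G Ω V) :
    Measurable fun z : (Ω × Ω) × Arr V => Iso (A.N z.1.1) (A.N z.1.2) z.2 := by
  have m1 : ∀ c, Measurable fun z : (Ω × Ω) × Arr V => c ∈ A.N z.1.1 := fun c =>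
    (measurableSet_setOfPred.1 (A.mN c)).comp measurable_fst.fst
  have m2 : ∀ c, Measurable fun z : (Ω × Ω) × Arr V => c ∈ A.N z.1.2 := fun c =>
    (measurableSet_setOfPred.1 (A.mN c)).comp measurable_fst.snd
  have m3 : ∀ p : V × V, Measurable fun z : (Ω × Ω) × Arr V => p ∈ z.2 := fun p =>
    (measurable_set_mem p).comp measurable_snd
  have e : (fun z : (Ω × Ω) × Arr V => Iso (A.N z.1.1) (A.N z.1.2) z.2) = fun z =>
      (∀ c, c ∈ A.N z.1.1 → ∀ c', c' ∈ A.N z.1.2 → (c, c') ∈ z.2) ∧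
      (∀ a a' b b', (a, a') ∈ z.2 → (b, b') ∈ z.2 → (a - b, a' - b') ∈ z.2) ∧
      (∀ c, ∃ c', (c, c') ∈ z.2) ∧ (∀ c', ∃ c, (c, c') ∈ z.2) ∧
      ∀ c c', (c, c') ∈ z.2 → (c ∈ A.N z.1.1 ↔ c' ∈ A.N z.1.2) :=
    funext fun z => propext ⟨fun h => ⟨h.1, h.2, h.3, h.4, h.5⟩,
      fun h => ⟨h.1, h.2.1, h.2.2.1, h.2.2.2.1, h.2.2.2.2⟩⟩
  rw [e]
  exact (Measurable.forall fun c => (m1 c).imp (Measurable.forall fun c' => (m2 c').imp (m3 _))).and
    ((Measurable.forall fun a => Measurable.forall fun a' => Measurable.forall fun b =>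
      Measurable.forall fun b' => (m3 _).imp ((m3 _).imp (m3 _))).and
    ((Measurable.forall fun c => Measurable.exists fun c' => m3 _).and
    ((Measurable.forall fun c => Measurable.exists fun c' => m3 _).and
    (Measurable.forall fun c => Measurable.forall fun c' => (m3 _).imp ((m1 c).iff (m2 c'))))))

omit [AddCommGroup V] in
theorem meas_itw {g : ℕ → Ω → Arr V} (hg : ∀ i, Measurable (g i)) :
    Measurable fun z : (Ω × Ω) × Arr V => ∀ i, Itw (g i z.1.1) (g i z.1.2) z.2 :=
  Measurable.forall fun i => Measurable.forall fun c => Measurable.forall fun a =>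
    Measurable.forall fun a' => Measurable.forall fun b' =>
      ((measurable_set_mem (c, a)).comp ((hg i).comp measurable_fst.fst)).imp
        (((measurable_set_mem (a', b')).comp ((hg i).comp measurable_fst.snd)).imp
          (((measurable_set_mem (c, a')).comp measurable_snd).imp
            ((measurable_set_mem (a, b')).comp measurable_snd)))

omit [Countable V] in
theorem pass [Countable G] {A : Base G Ω V} {κ : Kernel Ω Ω} {w : Measure ((Ω × Ω) × Arr V)} (h : LamP A κ w)
    {P : (Ω × Ω) × Arr V → Prop} (hP : Measurable P) (hs : ∀ i z, P z → P (A.sA i 0 z))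
    (hw : ∀ᵐ z ∂w, ((0 : V), (0 : V)) ∈ z.2 → P z) : ∀ᵐ z ∂(Lam A w), P z := by
  rw [ae_iff, h.nul _ (measurableSet_setOfPred.2 hP.not)]
  intro i
  rw [ae_iff] at hw
  refine measure_mono_null (fun z hz => ?_) hw
  exact fun q => hz.2 (hs i z (q hz.1))

end LaeAux

theorem xLae : LaeS := by
  intro G Ω V _ _ _ _ _ A κ w h
  refine ⟨fun hw => LaeAux.pass h (LaeAux.meas_iso A) (fun i z q => iso_shift A q i 0) hw,
    fun g hg he hw => LaeAux.pass h (LaeAux.meas_itw hg) (fun k z q i c a a' b' h1 h2 h3 => ?_)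
      (hw.mono fun z q _ => q)⟩
  simp only [Base.sA_apply, tz_zero, he i, mem_sh, sz_zero] at h1 h2 h3 ⊢
  exact q i _ _ _ _ h1 h2 h3

end Pool.Agent.MP_154433_an.T4A
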