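import Pool.Agent.MP_154433_an.t4a.Spec

/-! The mixture of the source shifts of the limit law. -/

set_option autoImplicit false

open MeasureTheory ProbabilityTheory Filter Topology Set
open scoped ENNReal

namespace Pool.Agent.MP_154433_an.T4A

open T3A

namespace LamAux

variable {G Ω V : Type} [AddCommGroup G] [MeasurableSpace Ω] [AddCommGroup V] (A : Base G Ω V)
  (w : Measure ((Ω × Ω) × Arr V)) {E : Set ((Ω × Ω) × Arr V)}

theorem apply [Countable G] (hE : MeasurableSet E) : Lam A w E = ∑' i : G, wt i *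
    w ({z | ((0 : V), (0 : V)) ∈ z.2} ∩ A.sA i 0 ⁻¹' E) := by
  rw [Lam, Measure.sum_apply _ hE]
  refine tsum_congr fun i => ?_
  rw [Measure.smul_apply, smul_eq_mul, Measure.map_apply (A.measurable_sA i 0) hE,
    Measure.restrict_apply (A.measurable_sA i 0 hE), inter_comm]

theorem nul [Countable G] (hE : MeasurableSet E) : Lam A w E = 0 ↔
    ∀ i, w ({z | ((0 : V), (0 : V)) ∈ z.2} ∩ A.sA i 0 ⁻¹' E) = 0 := by
  rw [apply A w hE, ENNReal.tsum_eq_zero]
  exact forall_congr' fun i => mul_eq_zero.trans (or_iff_right (wt_ne_zero i))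

theorem pre (i j k l : G) : A.sA k l ⁻¹' (A.sA i j ⁻¹' E) = A.sA (i + k) (j + l) ⁻¹' E :=
  Set.ext fun z => by rw [mem_preimage, mem_preimage, A.sA_sA, mem_preimage]

theorem diag (h : ∀ n, MeasurePreserving (A.sA n n) w w) (hE : MeasurableSet E) {i j i' j' : G}
    (n : G) (hi : i' = i + n) (hj : j' = j + n) :
    w ({z | ((0 : V), (0 : V)) ∈ z.2} ∩ A.sA i' j' ⁻¹' E) =
      w ({z | ((0 : V), (0 : V)) ∈ z.2} ∩ A.sA i j ⁻¹' E) := by
  rw [← (h n).measure_preimage
    ((measurableSet_memA measurable_snd _).inter (A.measurable_sA i j hE)).nullMeasurableSet,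
    preimage_inter, pre, hi, hj]
  congr 2
  ext z
  simp

end LamAux

open LamAux in
theorem xLam : LamS := by
  intro G Ω V _ _ _ _ _ A κ w _ hκ h1 h2
  refine ⟨⟨?_⟩, fun n => ?_, fun i j E hE h => ?_, ?_, fun E hE => nul A w hE⟩
  · rw [apply A w MeasurableSet.univ]
    exact lt_of_le_of_lt (ENNReal.tsum_le_tsum fun i => mul_le_of_le_one_right' prob_le_one)
      (lt_top_iff_ne_top.2 tsum_wt_ne_top)
  · ext E hE
    rw [Measure.map_apply (A.measurable_sA n n) hE, apply A w hE,
      apply A w (A.measurable_sA n n hE)]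
    refine tsum_congr fun i => ?_
    rw [pre, diag A w h1 hE n (add_comm n i) (add_comm n 0)]
  · refine (nul A w (A.measurable_sA i j hE)).2 fun k => ?_
    rw [pre, diag A w h1 hE j (sub_add_cancel (i + k) j).symm (add_comm j 0)]
    exact (nul A w hE).1 h _
  · refine Measure.AbsolutelyContinuous.mk fun E hE h => ?_
    rw [Measure.map_apply measurable_fst hE]
    refine (nul A w (measurable_fst hE)).2 fun i => measure_mono_null inter_subset_right ?_
    have h3 := ((hκ.shift i 0).measure_preimage hE.nullMeasurableSet).trans h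
    rw [← h2] at h3
    rwa [Measure.map_apply measurable_fst ((hκ.shift i 0).measurable hE)] at h3

end Pool.Agent.MP_154433_an.T4A
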