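import Pool.Agent.MP_154433_an.t4a.Spec

/-! The algebraic step for group actions: assembly. -/

set_option autoImplicit false
set_option linter.unusedVariables false
set_option linter.unusedSectionVars false

open MeasureTheory ProbabilityTheory Filter Topology Set
open scoped ENNReal

namespace Pool.Agent.MP_154433_an.T4A

open T3A

noncomputable section

theorem xW0 (hL : LimS) {G Ω V J : Type} [AddCommGroup G] [MeasurableSpace Ω]
    [StandardBorelSpace Ω] [AddCommGroup V] [Countable V] (B : Bun G Ω V J) (j : J) :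
    ∃ w, IsLim B j w := by
  have hm : ∀ M, Measurable (B.pt j M) := B.measurable_pt j
  obtain ⟨w, hw, h⟩ := hL Ω (V × V) B.μ (fun M => (B.P M).map (B.pt j M)) B.U
    (fun M => Measure.isProbabilityMeasure_map (hm M).aemeasurable)
    (fun M => by
      rw [Measure.map_map measurable_fst.fst (hm M)]
      ext A hA
      rw [Measure.map_apply (measurable_fst.fst.comp (hm M)) hA, Bun.P,
        PM_apply _ _ ((measurable_fst.fst.comp (hm M)) hA)]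
      have : ∀ d : ℤ × ℤ, B.μ (Prod.mk d ⁻¹' ((fun z : (Ω × Ω) × Arr V => z.1.1) ∘ B.pt j M ⁻¹' A))
          = B.μ A := fun d => rfl
      simp only [this, lintegral_const, measure_univ, mul_one])
    (fun M => by
      rw [Measure.map_map measurable_fst.snd (hm M)]
      ext A hA
      rw [Measure.map_apply (measurable_fst.snd.comp (hm M)) hA, Bun.P,
        PM_apply _ _ ((measurable_fst.snd.comp (hm M)) hA)]
      have : ∀ d : ℤ × ℤ, B.μ (Prod.mk d ⁻¹' ((fun z : (Ω × Ω) × Arr V => z.1.2) ∘ B.pt j M ⁻¹' A))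
          = B.μ A := fun d => (B.mp (B.st j d)).measure_preimage hA.nullMeasurableSet
      simp only [this, lintegral_const, measure_univ, mul_one])
  refine ⟨w, hw, fun E hE => ?_⟩
  have := h E hE
  simpa only [Measure.map_apply (hm _) hE.meas] using this

theorem xHat : HatS := by
  intro hI hX G Ω V J _ _ _ _ _ _ B κ L Ip Φ hκ hΦ
  have := hκ.markov
  have := hΦ.markov
  have : Nonempty Ω := nonempty_of_isProbabilityMeasure B.μ
  have : IsMarkovKernel (Xi κ Φ) := by unfold Xi; infer_instance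
  obtain ⟨x1, x2, x3, x4⟩ := hX G Ω V B.toBase κ Φ hκ hΦ.eqv
  let R : Act G (Ω × (Arr V × Arr V)) :=
    { f := fun n => Prod.map (tz B.T n) (Prod.map (sh B.σ n n) (sh B.σ n n))
      meas := fun n => (measurable_tz B.T n).prodMap
        ((measurable_sh B.σ n n).prodMap (measurable_sh B.σ n n))
      zero := fun y => by simp [Prod.map]
      add := fun m n y => by simp [Prod.map, tz_add, sh_sh] }
  obtain ⟨μ', T', hp, hT, hmp, hlaw, hhit⟩ :=
    hI G Ω (Ω × (Arr V × Arr V)) B.μ B.T R (Xi κ Φ) B.mp x1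
  have hi : ∀ i : ℕ, Measurable fun x : Ω × (ℕ → Ω × (Arr V × Arr V)) => x.2 i := fun i =>
    (measurable_pi_apply i).comp measurable_snd
  have hfst : MeasurePreserving Prod.fst μ' B.μ := by
    refine ⟨measurable_fst, ?_⟩
    have h0 := congrArg (Measure.map Prod.fst) (hlaw 0)
    rw [Measure.map_map measurable_fst (measurable_fst.prodMk (hi 0))] at h0
    exact h0.trans (Measure.fst_compProd B.μ (Xi κ Φ))
  let B' : Bun G (Ω × (ℕ → Ω × (Arr V × Arr V))) V J :=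
    { μ := μ', prob := hp, T := T', mp := hmp, σ := B.σ, N := fun x => B.N x.1
      mN := fun c => measurable_fst (B.mN c)
      eqz := fun n c x => by rw [hT]; exact B.eqz n c x.1
      ν := B.ν, pν := B.pν, U := B.U, a := B.a, b := B.b
      Sg := fun j M d x => B.Sg j M d x.1
      mS := fun j M d => (B.mS j M d).comp measurable_fst }
  refine ⟨_, inferInstance, inferInstance, B', Prod.fst, fun i x => (x.2 i).1,
    fun i x => (x.2 i).2.1, fun i x => (x.2 i).2.2,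
    ⟨hfst, fun n y => by change (tz T' n y).1 = _; rw [hT], rfl, fun _ => rfl, rfl, rfl, rfl, rfl,
      fun _ _ _ _ => rfl⟩,
    fun i => (hi i).fst, fun i => (hi i).snd.fst, fun i => (hi i).snd.snd,
    fun i n y => by change ((tz T' n y).2 i).2.1 = _; rw [hT]; rfl,
    fun i n y => by change ((tz T' n y).2 i).2.2 = _; rw [hT]; rfl, fun i => ?_, fun i => ?_, ?_⟩
  · rw [← x2, ← hlaw i, Measure.map_map (by fun_prop) (measurable_fst.prodMk (hi i))]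
    rfl
  · rw [← x3, ← hlaw i, Measure.map_map (by fun_prop) (measurable_fst.prodMk (hi i))]
    rfl
  · intro P P' hP hP'
    refine ⟨{y | Xi κ Φ y {x | x.2.1 ∈ P ∧ x.2.2 ∈ P'} ≠ 0}, x4 P P' hP hP', ?_⟩
    exact hhit {x | x.2.1 ∈ P ∧ x.2.2 ∈ P'}
      ((measurable_snd.fst hP).inter (measurable_snd.snd hP'))

/-- all rows -/
structure Rows : Prop where
  kex : KexS
  ka : KaS
  kb : KbS
  kc : KcS
  kd : KdS
  lim : LimS
  w1 : W1S
  w2 : W2S
  phb : PhbS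
  kw : KwS
  wk : WkS
  wa : WaS
  ce : CeS
  ci : CiS
  tri : TriS
  cis : CisS
  cfl : CflS
  cit : CitS
  cpo : CpoS
  cpr : CprS
  pk : PkS
  lam : LamS
  lae : LaeS
  pha : PhaS
  phc : PhcS
  f2 : F2S
  f3 : F3S
  f4 : F4S
  iid : IidS
  xi : XiS
  pull : PullS
  push : PushS
  int : IntS
  prj : PrjS
  g5 : G5S
  g3 : G3S
  g4 : G4S
  rli : RliS
  t1 : T1S
  t2 : T2S
  sel : SelS
  sub : SubS
  tau : TauS
  mk' : MkS
  th : ThS
  psi : PsiS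
  psr : PsrS
  sd : SdS
  ct : CtS
  fin : FinO

section

variable {G Ω V J : Type} [AddCommGroup G] [Countable G] [MeasurableSpace Ω] [AddCommGroup V]
  [Countable V]

/-- composition along a list of types -/
def cmpL (K : J → Kernel Ω (Ω × Arr V)) (j0 : J) : List J → Kernel Ω (Ω × Arr V)
  | [] => K j0
  | j :: l => star (K j) (cmpL K j0 l)

lemma kd_star (R : Rows) {A : Base G Ω V} {H1 H2 : Set G} {K1 K2 : Kernel Ω (Ω × Arr V)}
    (h1 : KD A H1 K1) (h2 : KD A H2 K2) :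
    KD A (H1 ∪ H2) (star K1 K2) ∧ Tri (wOf A.μ K1) (wOf A.μ K2) (wOf A.μ (star K1 K2)) := by
  have := h1.markov
  have := h2.markov
  have t := R.tri Ω V A.μ K1 K2 (R.wk G Ω V A H1 K1 h1).tgt
  obtain ⟨c1, c2⟩ := R.ci G Ω V A H1 H2 K1 K2 h1 h2
  exact ⟨⟨inferInstance, R.ce G Ω V A H1 H2 K1 K2 h1 h2, c1, c2,
    R.cis G Ω V A _ _ _ t h1.iso h2.iso⟩, t⟩

lemma kd_cmpL (R : Rows) {A : Base G Ω V} {H : J → Set G} {K : J → Kernel Ω (Ω × Arr V)}
    (h : ∀ j, KD A (H j) (K j)) (j0 : J) (l : List J) :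
    ∃ H0, (∀ j ∈ l, H j ⊆ H0) ∧ KD A H0 (cmpL K j0 l) := by
  induction l with
  | nil => exact ⟨H j0, by simp, h j0⟩
  | cons j l ih =>
    obtain ⟨H0, h1, h2⟩ := ih
    refine ⟨H j ∪ H0, fun k hk => ?_, (kd_star R (h j) h2).1⟩
    rcases List.mem_cons.1 hk with rfl | hk
    · exact subset_union_left
    · exact (h1 k hk).trans subset_union_right

/-- a property of the laws that is kept by composition -/
lemma ind_cmpL (R : Rows) {A : Base G Ω V} {H : J → Set G} {K : J → Kernel Ω (Ω × Arr V)}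
    (h : ∀ j, KD A (H j) (K j)) (j0 : J) (Q : Kernel Ω (Ω × Arr V) → Prop) (h0 : Q (K j0))
    (hs : ∀ j H0 K0, KD A H0 K0 → Q K0 → Q (star (K j) K0)) (l : List J) : Q (cmpL K j0 l) := by
  induction l with
  | nil => exact h0
  | cons j l ih =>
    obtain ⟨H0, -, h2⟩ := kd_cmpL R h j0 l
    exact hs j H0 _ h2 ih

/-- the general construction on a standard Borel base -/
lemma cons (R : Rows) [StandardBorelSpace Ω] [Fintype J] (B : Bun G Ω V J) (h : H0 B) (j0 : J)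
    (hg : AddSubgroup.closure (range B.a ∪ range B.b) = ⊤) :
    ∃ (κ : Kernel Ω Ω) (K : J → Kernel Ω (Ω × Arr V)) (H : Set G) (Ip : Set Ω)
      (Φ : Kernel (Ω × Ω) (Arr V)), ErgP B.μ B.T κ ∧ (∀ j, IsLim B j (wOf B.μ (K j))) ∧
      (∀ j, KD B.toBase {B.a j, B.b j} (K j)) ∧
      KD B.toBase H (cmpL K j0 Finset.univ.toList) ∧
      LamP B.toBase κ (wOf B.μ (cmpL K j0 Finset.univ.toList)) ∧
      PhiD B.toBase κ (Lam B.toBase (wOf B.μ (cmpL K j0 Finset.univ.toList))) Ip Φ := by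
  obtain ⟨κ, hκ⟩ := R.kex G Ω B.μ B.T B.mp
  obtain ⟨a1, a2, a3⟩ := R.ka G Ω B.μ B.T κ B.mp hκ
  obtain ⟨b1, b2⟩ := R.kb G Ω B.μ B.T κ B.mp hκ a2
  have hP : ErgP B.μ B.T κ := ⟨hκ, a1, a2, a3, b1, b2, R.kc G Ω B.μ B.T κ B.mp hκ⟩
  have hK : ∀ j, ∃ K, IsLim B j (wOf B.μ K) ∧ KD B.toBase {B.a j, B.b j} K := by
    intro j
    obtain ⟨w, hw⟩ := xW0 R.lim B j
    obtain ⟨w1, w2⟩ := R.w1 xExt G Ω V J B j w hw h
    obtain ⟨K, rfl, hK⟩ := R.kw R.phb G Ω V J B j w hw h.mix w1 w2 (R.w2 G Ω V J B j w hw h)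
    exact ⟨K, hw, hK⟩
  choose K hK1 hK2 using hK
  obtain ⟨H, hH, hD⟩ := kd_cmpL R hK2 j0 Finset.univ.toList
  have hW := R.wk G Ω V B.toBase H _ hD
  have := hW.prob
  have hcl : AddSubgroup.closure H = ⊤ := by
    refine top_le_iff.1 (hg ▸ AddSubgroup.closure_mono ?_)
    rintro _ (⟨j, rfl⟩ | ⟨j, rfl⟩)
    · exact hH j (by simp) (by simp)
    · exact hH j (by simp) (by simp)
  have hL := R.lam G Ω V B.toBase κ _ hP hW.inv (R.wa G Ω V B.toBase H _ κ hD hcl hκ)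
  obtain ⟨Ip, Φ, hΦ⟩ := R.phc R.pha R.phb G Ω V B.toBase κ _ hP hL
  exact ⟨κ, K, H, Ip, Φ, hP, hK1, hK2, hD, hL, hΦ⟩

lemma flatM_of_flat {B : Bun G Ω V J} {j : J} {w : Measure ((Ω × Ω) × Arr V)} (hw : IsLim B j w)
    (h : Flat B) : FlatM B w := by
  intro k c11 c12 c21 c22
  have := h k j c11 c12 c21 c22
  simpa only [fun M d => (hw.2 _ (B.cyl_flatS k M d c11 c12 c21 c22)).limsup_eq] using this

end

theorem algS_of_rows (R : Rows) : AlgS := by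
  intro G X V J _ _ _ _ _ _ _ B0 D δ hδ hU hS0 hg h0 hF hR hD
  obtain ⟨j0⟩ : Nonempty J := inferInstance
  obtain ⟨Ω, _, _, B, p0, e0⟩ := R.push G X V J B0
  obtain ⟨q1, q2, q3, q4⟩ := R.pull G X Ω V J B0 B p0 e0
  have h := q1.1 h0
  have hgB : AddSubgroup.closure (range B.a ∪ range B.b) = ⊤ := by rw [← e0.ha, ← e0.hb]; exact hg
  obtain ⟨κ, K, H, Ip, Φ, hκ, hw, hK, hK0, hL, hΦ⟩ := cons R B h j0 hgB
  have hW := R.wk G Ω V B.toBase H _ hK0
  have := hW.prob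
  have := hκ.markov
  have := hL.fin
  have hI := (R.lae G Ω V B.toBase κ _ hL).1 hK0.iso
  have fl0 : FlatM B (wOf B.μ (cmpL K j0 Finset.univ.toList)) :=
    ind_cmpL R hK j0 (fun K0 => FlatM B (wOf B.μ K0)) (flatM_of_flat (hw j0) (q2.1 hF))
      (fun j H0 K0 h1 h2 => R.cfl G Ω V J B _ _ _ (kd_star R (hK j) h1).2
        (R.wk G Ω V B.toBase _ _ (hK j)).inv (hK j).iso h1.iso
        (flatM_of_flat (hw j) (q2.1 hF)) h2) _
  have fl : FlatM B (Lf B.toBase κ Φ) :=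
    R.f4 G Ω V J B κ _ Ip Φ hΦ (R.f3 G Ω V J B _ (R.f2 G Ω V J B _ fl0 h hW.src))
  obtain ⟨Y, _, _, B', p, e, S, S', hS⟩ := xHat R.iid R.xi G Ω V J B κ _ Ip Φ hκ hΦ
  obtain ⟨r1, -, r3, r4⟩ := R.pull G Y Ω V J B' B p hS.ext
  have hgB' : AddSubgroup.closure (range B'.a ∪ range B'.b) = ⊤ := by
    rw [hS.ext.ha, hS.ext.hb]; exact hgB
  obtain ⟨κ', K', H', Ip', Φ', hκ', hw', hK', hK0', hL', hΦ'⟩ := cons R B' (r1.2 h) j0 hgB'
  have := hκ'.markov
  have mK : ∀ j, IsMarkovKernel (K j) := fun j => (hK j).markov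
  have mK' : ∀ j, IsMarkovKernel (K' j) := fun j => (hK' j).markov
  have := hK0.markov
  have := hK0'.markov
  have mp := hS.ext.mp.measurable
  have pk : ∀ j, PrK B'.μ p (K' j) (K j) := fun j =>
    R.pk G Y Ω V J B' B p j (K' j) (K j) hS.ext (hw' j) (hw j)
  have pk0 : ∀ l : List J, PrK B'.μ p (cmpL K' j0 l) (cmpL K j0 l) := by
    intro l
    induction l with
    | nil => exact pk j0
    | cons j l ih =>
      obtain ⟨_, -, k1⟩ := kd_cmpL R hK j0 l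
      obtain ⟨_, -, k2⟩ := kd_cmpL R hK' j0 l
      have := k1.markov
      have := k2.markov
      exact R.cpr Y Ω V B'.μ p (K' j) _ (K j) _ mp (R.wk G Y V B'.toBase _ _ (hK' j)).tgt (pk j) ih
  have hpr := R.prj G Y Ω V J B' B p κ' κ _ _ hS.ext (pk0 _) hL' hL
  have hkd := R.kd G Y Ω B'.μ B.μ B'.T B.T κ' κ p B'.mp B.mp hκ'.toErgK hκ.toErgK hS.ext.mp
    hS.ext.comm
  have geq : ∀ i n y, loop (S i (tz B'.T n y)) (S' i (tz B'.T n y)) =
      sh B'.σ n n (loop (S i y) (S' i y)) := by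
    intro i n y
    rw [hS.eqv, hS.eqv', loop_sh, hS.ext.hσ]
  have mg : ∀ i, Measurable fun y => loop (S i y) (S' i y) := fun i =>
    measurable_loop (hS.mS i) (hS.mS' i)
  have g5 := R.g5 G Y Ω V J B' B p κ _ Ip Φ e S S' hS hΦ hI
  have tot : ∀ j, ∀ᵐ z ∂(wOf B'.μ (K' j)), ∀ i, (loop (S i z.1.1) (S' i z.1.1)).Nonempty →
      ∀ c, ∃ c', (c, c') ∈ loop (S i z.1.2) (S' i z.1.2) := by
    intro j
    have w := R.wk G Y V B'.toBase _ _ (hK' j)
    have c1 := w.conc (p ⁻¹' Ip) (mp hΦ.mI) fun n => EventuallyEq.of_eq (by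
      ext y
      change p (tz B'.T n y) ∈ Ip ↔ p y ∈ Ip
      rw [hS.ext.comm, mem_tz B.T hΦ.inv])
    have c2 := ae_of_ae_map measurable_fst.fst.aemeasurable (w.src.symm ▸ g5)
    have c3 := ae_of_ae_map measurable_fst.snd.aemeasurable (w.tgt.symm ▸ g5)
    filter_upwards [c1, c2, c3] with z h1 h2 h3 i hne c
    by_cases hz : p z.1.1 ∈ Ip
    · exact (h3.1 (h1 hz) i).totL c
    · rw [h2.2 hz i] at hne
      exact absurd hne Set.not_nonempty_empty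
  have it0 : ItwW (fun i y => loop (S i y) (S' i y)) (wOf B'.μ (cmpL K' j0 Finset.univ.toList)) :=
    ind_cmpL R hK' j0 (fun K0 => ItwW (fun i y => loop (S i y) (S' i y)) (wOf B'.μ K0))
      (R.int G Y Ω V J B' B p κ Φ e S S' j0 _ hS fl (hw' j0))
      (fun j H0 K0 h1 h2 => R.cit Y V _ _ _ _ (kd_star R (hK' j) h1).2 mg (tot j)
        (R.int G Y Ω V J B' B p κ Φ e S S' j _ hS fl (hw' j)) h2) _
  have po0 : ∀ᵐ y ∂B'.μ, (∀ j, y ∈ Sup (K' j)) → y ∈ Sup (cmpL K' j0 Finset.univ.toList) :=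
    ind_cmpL R hK' j0 (fun K0 => ∀ᵐ y ∂B'.μ, (∀ j, y ∈ Sup (K' j)) → y ∈ Sup K0)
      (Eventually.of_forall fun y hy => hy j0)
      (fun j H0 K0 h1 h2 => by
        filter_upwards [h2, R.cpo R.wk G Y V B'.toBase _ _ _ _ (hK' j) h1] with y a1 a2 hy
        exact a2 (hy j) (a1 hy)) _
  obtain ⟨g1, g2⟩ := R.g4 G Y Ω V J B' B p κ' κ _ _ Ip' Ip Φ' Φ e S S' hS hΦ' hΦ hpr hkd
  have k1 : ∀ᵐ z ∂(Lp B'.toBase κ' Ip' Φ'), Iso (B'.N z.1.1) (B'.N z.1.2) z.2 :=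
    Filter.Eventually.filter_mono hΦ'.ac1.ae_le ((R.lae G Y V B'.toBase κ' _ hL').1 hK0'.iso)
  have k2 : ∀ᵐ z ∂(Lp B'.toBase κ' Ip' Φ'), ∀ i, Itw (loop (S i z.1.1) (S' i z.1.1))
      (loop (S i z.1.2) (S' i z.1.2)) z.2 :=
    Filter.Eventually.filter_mono hΦ'.ac1.ae_le
      ((R.lae G Y V B'.toBase κ' _ hL').2 (fun i y => loop (S i y) (S' i y)) mg geq it0)
  have k3 : ∀ᵐ y ∂B'.μ, y ∈ Ip' → ∀ i, Iso (B'.N y) (B'.N y) (loop (S i y) (S' i y)) := by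
    filter_upwards [g5, R.g3 G Y Ω V J B' B p κ' κ _ _ Ip' Ip Φ' Φ mp hΦ' hΦ hpr] with y a1 a2 hy
    exact a1.1 (a2 hy)
  have hH : HatD B'.toBase κ' Ip' Φ' (fun i y => loop (S i y) (S' i y))
      (fun z a b => Φ (p z.1, p z.2) {R | a ∈ R ∧ b ∈ R} ≠ 0) :=
    ⟨geq, fun n E hE h1 => hΦ'.ac1 (hL'.quasi 0 n E hE (hΦ'.ac2 h1)), k1, k2, g1, k3, g2⟩
  have hδ2 : 0 < δ / 2 := ENNReal.half_pos hδ.ne'
  have hU' : (B'.U : Filter ℕ) ≤ atTop := by rw [hS.ext.hU, ← e0.hU]; exact hU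
  have rl := R.rli G Y V J B' κ' K' _ Ip' Φ' D δ hw' po0 hL' hΦ' hδ ((r3 D δ).2 ((q3 D δ).1 hR))
  obtain ⟨A, N0, τ, G0, m2, Ks, hX, hrel, hKs, hdec⟩ := R.tau R.t1 R.t2 R.sel R.sub G Y V J B' κ'
    _ Ip' Φ' _ _ D (δ / 2) hκ' hΦ' hH hδ2 (rl.frequently.filter_mono hU')
    ((r4 D id).2 ((q4 D id).1 hD))
  have : Countable (V ⧸ N0) := QuotientAddGroup.mk_surjective.countable
  obtain ⟨θ, γ, hT⟩ := R.th R.mk' G Y V A N0 τ G0 _ m2 hX
  obtain ⟨Ψ, hΨ⟩ := R.psi R.mk' G Y V _ A θ hT.toTh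
  obtain ⟨s1, s2⟩ := R.psr G Y V _ A θ Ψ D hT.toTh hΨ
  obtain ⟨s, ms, hs⟩ := R.sd R.mk' G Y V _ A θ γ _ m2 hT hX.fst2 hX.iso2
  obtain ⟨C, c1, c2, c3⟩ := R.ct G Y V _ A θ γ _ Ψ m2 s hT hΨ hX.fst2 hX.inv2 ms hs
  have hS' : SprM B'.ν := by rw [hS.ext.hν, ← e0.hν]; exact hS0
  exact R.fin G _ Y A.μ A.T A.mp Ψ hΨ.mΨ C c1 c2 hΨ.coc c3 B'.ν hS' D.I D.r D.dir D.hr D.hd D.k0
    (fun k y => θ y (D.c k)) (fun d y => θ y (D.b d)) (fun k ξ => hT.mθ _ ξ)
    (fun d ξ => hT.mθ _ ξ) _ (ENNReal.half_pos hδ2.ne')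
    (hrel.mono fun M hM => hM.trans (s1 _)) Ks hKs (s2 Ks hdec)

end

end Pool.Agent.MP_154433_an.T4A
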