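import Pool.Agent.MP_154433_an.t4a.Spec

set_option autoImplicit false

open MeasureTheory ProbabilityTheory Filter Topology Set
open scoped ENNReal

namespace Pool.Agent.MP_154433_an.T4A

open T3A

theorem xPha : PhaS := by
  intro G Ω _ _ _ μ _ T κ L0 _ hE ac qi
  have := hE.markov
  obtain ⟨D0, m0, key⟩ : ∃ D0 : Set (Ω × Ω), MeasurableSet D0 ∧
      ∀ E, L0 E = 0 ↔ (μ ⊗ₘ κ) (D0 ∩ E) = 0 := by
    have mf := Measure.measurable_rnDeriv L0 (μ ⊗ₘ κ)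
    refine ⟨{z | L0.rnDeriv (μ ⊗ₘ κ) z ≠ 0}, (mf (measurableSet_singleton 0)).compl, fun E => ?_⟩
    rw [← withDensity_apply_eq_zero mf, Measure.withDensity_rnDeriv_eq _ _ ac]
  obtain ⟨D, hD⟩ : ∃ D : Set (Ω × Ω), ∀ z, z ∈ D ↔ ∃ i j, (tz T i z.1, tz T j z.2) ∈ D0 :=
    ⟨{z | ∃ i j, (tz T i z.1, tz T j z.2) ∈ D0}, fun _ => Iff.rfl⟩
  have mφ : ∀ i j, Measurable (Prod.map (tz T i) (tz T j)) := fun i j =>
    (measurable_tz T i).prodMap (measurable_tz T j)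
  have mD : MeasurableSet D := by
    have : D = ⋃ i, ⋃ j, Prod.map (tz T i) (tz T j) ⁻¹' D0 := by
      ext z
      simp only [hD, mem_iUnion]
      rfl
    rw [this]
    exact MeasurableSet.iUnion fun i => MeasurableSet.iUnion fun j => mφ i j m0
  have i1 : ∀ n y x, (tz T n y, x) ∈ D ↔ (y, x) ∈ D := fun n y x => by
    simp only [hD, ← tz_add]
    exact ⟨fun ⟨i, j, h⟩ => ⟨_, j, h⟩, fun ⟨i, j, h⟩ => ⟨i - n, j, by rwa [sub_add_cancel]⟩⟩
  have i2 : ∀ n y x, (y, tz T n x) ∈ D ↔ (y, x) ∈ D := fun n y x => by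
    simp only [hD, ← tz_add]
    exact ⟨fun ⟨i, j, h⟩ => ⟨i, _, h⟩, fun ⟨i, j, h⟩ => ⟨i, j - n, by rwa [sub_add_cancel]⟩⟩
  have e1 : ∀ᵐ z ∂(μ ⊗ₘ κ), ∀ i j, (tz T i z.1, tz T j z.2) ∈ D0 → z ∈ D0 := by
    refine ae_all_iff.2 fun i => ae_all_iff.2 fun j => ?_
    have h1 := (key _).1 (qi (-i) (-j) D0ᶜ m0.compl ((key _).2 (by simp)))
    rw [← (hE.shift i j).measure_preimage (m0.inter (mφ _ _ m0.compl)).nullMeasurableSet] at h1
    refine measure_mono_null (fun z hz => ?_) h1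
    have hz' := Classical.not_imp.1 hz
    exact ⟨hz'.1, by simpa [Prod.map] using hz'.2⟩
  obtain ⟨Ip, hI⟩ : ∃ Ip : Set Ω, ∀ y, y ∈ Ip ↔ κ y (Prod.mk y ⁻¹' D) ≠ 0 :=
    ⟨{y | κ y (Prod.mk y ⁻¹' D) ≠ 0}, fun _ => Iff.rfl⟩
  have mI : MeasurableSet Ip := by
    rw [show Ip = {y | κ y (Prod.mk y ⁻¹' D) ≠ 0} from Set.ext hI]
    exact (Kernel.measurable_kernel_prodMk_left mD (measurableSet_singleton 0)).compl
  have e2 : ∀ᵐ z ∂(μ ⊗ₘ κ), z ∈ D ↔ z.1 ∈ Ip := by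
    refine (Measure.ae_compProd_iff (measurableSet_setOfPred.2 ((measurableSet_setOfPred.1 mD).iff
      (measurableSet_setOfPred.1 (measurable_fst mI))))).2 ?_
    filter_upwards [hE.erg D mD (fun n => Set.ext fun z => i2 n z.1 z.2)] with y hy
    by_cases c : y ∈ Ip
    · filter_upwards [mem_ae_iff.2 (hy.resolve_left ((hI y).1 c))] with x hx
      exact iff_of_true hx c
    · filter_upwards [measure_eq_zero_iff_ae_notMem.1 (not_not.1 fun u => c ((hI y).2 u))] with x hx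
      exact iff_of_false hx c
  have e3 : (μ ⊗ₘ κ).restrict (Ip ×ˢ univ) = (μ ⊗ₘ κ).restrict D0 := by
    refine Measure.restrict_congr_set (eventuallyEq_set.2 ?_)
    filter_upwards [e1, e2] with z h1 h2
    rw [mem_prod, and_iff_left (mem_univ _), ← h2, hD]
    exact ⟨fun ⟨i, j, h⟩ => h1 i j h, fun h => ⟨0, 0, by simpa using h⟩⟩
  refine ⟨Ip, mI, fun n => Set.ext fun y => ?_, e3 ▸ Measure.AbsolutelyContinuous.mk fun E hE h => ?_,
    e3 ▸ Measure.AbsolutelyContinuous.mk fun E hE h => ?_⟩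
  · rw [mem_preimage, hI, hI, hE.inv, show Prod.mk (tz T n y) ⁻¹' D = Prod.mk y ⁻¹' D from
      Set.ext (i1 n y)]
  · rw [Measure.restrict_apply hE, inter_comm]
    exact (key E).1 h
  · rw [Measure.restrict_apply hE, inter_comm] at h
    exact (key E).2 h

end Pool.Agent.MP_154433_an.T4A
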