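import Pool.Agent.MP_154433_an.t4a.Spec

/-! The conditional kernel of an invariant measure is equivariant. -/

set_option autoImplicit false

open MeasureTheory ProbabilityTheory Filter Topology Set
open scoped ENNReal

namespace Pool.Agent.MP_154433_an.T4A

open T3A

noncomputable section

theorem xPhb : PhbS := by
  intro X Z _ _ _ _ L _
  have hd : L.fst ⊗ₘ L.condKernel = L := L.disintegrate _
  refine ⟨L.condKernel, inferInstance, hd.symm, fun R Q hL => ?_⟩
  have hm : Measurable (Prod.map R Q) := R.measurable.prodMap Q.measurable
  have hm' : Measurable (Prod.map R.symm Q.symm) := R.symm.measurable.prodMap Q.symm.measurable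
  have hfst : L.fst.map R = L.fst := by
    conv_rhs => rw [← hL]
    rw [Measure.fst, Measure.fst, Measure.map_map R.measurable measurable_fst,
      Measure.map_map measurable_fst hm]
    rfl
  have hmk : IsMarkovKernel ((L.condKernel.comap R R.measurable).map Q.symm) :=
    Kernel.IsMarkovKernel.map _ Q.symm.measurable
  have h1 : L = L.fst ⊗ₘ ((L.condKernel.comap R R.measurable).map Q.symm) := by
    ext s hs
    have hs' : MeasurableSet (Prod.map R.symm Q.symm ⁻¹' s) := hm' hs
    have e1 : L s = L (Prod.map R.symm Q.symm ⁻¹' s) := by
      conv_rhs => rw [← hL]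
      rw [Measure.map_apply hm hs']
      congr 1
      ext ⟨a, b⟩
      simp
    rw [e1, Measure.compProd_apply hs]
    conv_lhs => rw [← hd, Measure.compProd_apply hs', ← hfst]
    rw [lintegral_map (Kernel.measurable_kernel_prodMk_left hs') R.measurable]
    refine lintegral_congr fun x => ?_
    rw [Kernel.map_apply' _ Q.symm.measurable _ (measurable_prodMk_left hs), Kernel.comap_apply]
    congr 1
    ext z
    simp
  filter_upwards [eq_condKernel_of_measure_eq_compProd _ h1] with x hx
  rw [← hx, Kernel.map_apply _ Q.symm.measurable, Kernel.comap_apply,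
    Measure.map_map Q.measurable Q.symm.measurable]
  simp

end

end Pool.Agent.MP_154433_an.T4A
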