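import Pool.Agent.MP_154433_an.t4a.Spec

set_option autoImplicit false

open MeasureTheory ProbabilityTheory Filter Topology Set
open scoped ENNReal

namespace Pool.Agent.MP_154433_an.T4A

open T3A

theorem xPhc : PhcS := by
  intro hA hB G Ω V _ _ _ _ _ A κ w hκ hL
  classical
  have := hκ.markov
  have := hL.fin
  have hq : ∀ i j E, MeasurableSet E → (Lam A w).map Prod.fst E = 0 →
      (Lam A w).map Prod.fst (Prod.map (tz A.T i) (tz A.T j) ⁻¹' E) = 0 := by
    intro i j E hE h0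
    have hm : Measurable (Prod.map (tz A.T i) (tz A.T j)) :=
      (measurable_tz A.T i).prodMap (measurable_tz A.T j)
    rw [Measure.map_apply measurable_fst hE] at h0
    rw [Measure.map_apply measurable_fst (hm hE)]
    exact hL.quasi i j _ (measurable_fst hE) h0
  obtain ⟨Ip, mI, hI, a1, a2⟩ := hA G Ω A.μ A.T κ ((Lam A w).map Prod.fst) hκ hL.ac hq
  obtain ⟨Φ0, hM, hdis, heq0⟩ := hB (Ω × Ω) (Arr V) (Lam A w)
  have heq := fun n : G => heq0 (MeasurableEquiv.prodCongr (tzE A.T n) (tzE A.T n)) (shE A.σ n n)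
    (hL.inv n)
  have ms : MeasurableSet (Ip ×ˢ (univ : Set Ω)) := mI.prod MeasurableSet.univ
  have hon : ∀ z : Ω × Ω, z.1 ∈ Ip →
      Kernel.piecewise ms Φ0 (Kernel.const _ (Measure.dirac (∅ : Arr V))) z = Φ0 z := by
    intro z hz
    rw [Kernel.piecewise_apply, if_pos ⟨hz, mem_univ _⟩]
  have hoff : ∀ z : Ω × Ω, z.1 ∉ Ip →
      Kernel.piecewise ms Φ0 (Kernel.const _ (Measure.dirac (∅ : Arr V))) z
        = Measure.dirac (∅ : Arr V) := by
    intro z hz
    rw [Kernel.piecewise_apply, if_neg fun h => hz h.1, Kernel.const_apply]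
  have hLp : Lp A κ Ip (Kernel.piecewise ms Φ0 (Kernel.const _ (Measure.dirac (∅ : Arr V))))
      = ((A.μ ⊗ₘ κ).restrict (Ip ×ˢ univ)) ⊗ₘ Φ0 := by
    unfold Lp
    refine Measure.compProd_congr ?_
    filter_upwards [ae_restrict_mem ms] with z hz
    exact hon z hz.1
  refine ⟨Ip, Kernel.piecewise ms Φ0 (Kernel.const _ (Measure.dirac (∅ : Arr V))),
    inferInstance, mI, hI, hoff, fun n => ?_, ?_, ?_⟩
  · have h1 := (ae_restrict_iff' ms).1 (a1.ae_le (heq n))
    filter_upwards [h1] with z hz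
    by_cases h : z.1 ∈ Ip
    · rw [hon z h, hon (tz A.T n z.1, tz A.T n z.2) ((mem_tz A.T hI n _).2 h)]
      exact hz ⟨h, mem_univ _⟩
    · rw [hoff z h, hoff (tz A.T n z.1, tz A.T n z.2) fun h' => h ((mem_tz A.T hI n _).1 h'),
        Measure.map_dirac' (measurable_sh A.σ n n), sh_empty]
  · rw [hLp]
    have := a1.compProd_left Φ0
    rwa [← hdis] at this
  · rw [hLp]
    have := a2.compProd_left Φ0
    rwa [← hdis] at this

end Pool.Agent.MP_154433_an.T4A
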