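import Pool.Agent.MP_154433_an.t4a.Spec

/-! Row Pig: sets whose shifts meet in sparse sets are sparse. -/

set_option autoImplicit false
set_option linter.unusedVariables false

open MeasureTheory ProbabilityTheory Filter Topology Set
open scoped ENNReal

namespace Pool.Agent.MP_154433_an.T4A

open T3A

noncomputable section

namespace PigAux

open Classical in
def cnt (X : Set ℤ) (n : ℤ) (H : ℕ) : ℕ := ((Finset.range H).filter fun h : ℕ => n + h ∈ X).card

theorem thin_iff {ε : ℝ} {H : ℕ} {X : Set ℤ} :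
    T4x.Thin ε H X ↔ ∀ n, (cnt X n H : ℝ) ≤ ε * H := Iff.rfl

open Classical in
theorem cnt_shift (X : Set ℤ) (n : ℤ) (H s : ℕ) : cnt X n H ≤ cnt X (n + s) H + s := by
  unfold cnt
  calc _ ≤ ((((Finset.range H).filter fun h : ℕ => n + s + h ∈ X).image (· + s)) ∪
        Finset.range s).card := by
        refine Finset.card_le_card fun h hh => ?_
        simp only [Finset.mem_filter, Finset.mem_range, Finset.mem_union, Finset.mem_image] at hh ⊢
        rcases lt_or_ge h s with h1 | h1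
        · exact Or.inr h1
        · refine Or.inl ⟨h - s, ⟨by omega, ?_⟩, by omega⟩
          have : n + s + ((h - s : ℕ) : ℤ) = n + h := by omega
          rw [this]
          exact hh.2
    _ ≤ _ := (Finset.card_union_le _ _).trans (by
        rw [Finset.card_range]
        exact Nat.add_le_add_right Finset.card_image_le _)

open Classical in
theorem count (S : Finset ℕ) (X : Set ℤ) (C : ℕ → Set ℤ)
    (hC : ∀ s ∈ S, ∀ s' ∈ S, s < s' → ∀ d, d ∈ X → d + ((s' - s : ℕ) : ℤ) ∈ X → d ∈ C (s' - s))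
    (n : ℤ) (H : ℕ) : ∑ s ∈ S, cnt X (n + s) H ≤
      H + S.card * ∑ p ∈ (S ×ˢ S).filter fun p => p.1 < p.2, cnt (C (p.2 - p.1)) (n + p.1) H := by
  simp only [cnt, Finset.card_filter]
  rw [Finset.sum_comm, Finset.sum_comm (s := (S ×ˢ S).filter fun p => p.1 < p.2), Finset.mul_sum]
  have hs : ∀ f : ℕ → ℕ, H + ∑ h ∈ Finset.range H, f h = ∑ h ∈ Finset.range H, (1 + f h) :=
    fun f => by simp [Finset.sum_add_distrib]
  rw [hs]
  refine Finset.sum_le_sum fun h _ => ?_
  rw [← Finset.card_filter, ← Finset.card_filter]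
  by_cases e : ∃ p ∈ (S ×ˢ S).filter fun p => p.1 < p.2, n + p.1 + h ∈ C (p.2 - p.1)
  · obtain ⟨p, hp, hp'⟩ := e
    have h1 : 1 ≤ (((S ×ˢ S).filter fun p => p.1 < p.2).filter
        fun p => n + p.1 + h ∈ C (p.2 - p.1)).card :=
      Finset.card_pos.2 ⟨p, Finset.mem_filter.2 ⟨hp, hp'⟩⟩
    have h2 := Finset.card_filter_le S fun s : ℕ => n + s + h ∈ X
    have h3 := Nat.mul_le_mul_left S.card h1
    omega
  · refine le_trans (Finset.card_le_one.2 fun s hs s' hs' => ?_) (Nat.le_add_right _ _)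
    have key : ∀ s ∈ S.filter fun s : ℕ => n + s + h ∈ X,
        ∀ s' ∈ S.filter fun s : ℕ => n + s + h ∈ X, ¬ s < s' := fun s hs s' hs' hl => by
      rw [Finset.mem_filter] at hs hs'
      refine e ⟨(s, s'), Finset.mem_filter.2 ⟨Finset.mk_mem_product hs.1 hs'.1, hl⟩,
        hC s hs.1 s' hs'.1 hl _ hs.2 ?_⟩
      have : n + s + h + ((s' - s : ℕ) : ℤ) = n + s' + h := by omega
      rw [this]
      exact hs'.2
    exact le_antisymm (not_lt.1 (key s' hs' s hs)) (not_lt.1 (key s hs s' hs'))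

open Classical in
theorem few {K : ℕ → ℕ} {Bad : Set ℕ} (hK : Tendsto K atTop atTop) (hB : Low K Bad) (T m : ℕ)
    (hT : T ≠ 0) : ∃ N : ℕ, m ≤ N ∧ ((Finset.range N).filter (· ∈ Bad)).card * T ≤ N := by
  have h0 : (0 : ℝ≥0∞) < (T : ℝ≥0∞)⁻¹ := ENNReal.inv_pos.2 (ENNReal.natCast_ne_top T)
  obtain ⟨i, h1, h2⟩ := ((hB.eventually_le_const h0).and (hK.eventually_ge_atTop (m + 1))).exists
  refine ⟨K i, by omega, ?_⟩
  have e : ∑ k ∈ Finset.range (K i), Bad.indicator (fun _ => (1 : ℝ≥0∞)) k =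
      (((Finset.range (K i)).filter (· ∈ Bad)).card : ℝ≥0∞) := by
    simp only [Set.indicator_apply, Finset.card_filter]
    push_cast
    rfl
  have hk : ((K i : ℕ) : ℝ≥0∞) ≠ 0 := by exact_mod_cast (by omega : K i ≠ 0)
  rw [e, ENNReal.inv_mul_le_iff hk (ENNReal.natCast_ne_top _)] at h1
  have h3 := mul_le_mul_left h1 (T : ℝ≥0∞)
  rw [mul_assoc, ENNReal.inv_mul_cancel (by exact_mod_cast hT) (ENNReal.natCast_ne_top T),
    mul_one] at h3
  exact_mod_cast h3

open Classical in
theorem greedy {K : ℕ → ℕ} {Bad : Set ℕ} (hK : Tendsto K atTop atTop) (hB : Low K Bad) (t : ℕ) :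
    ∃ S : Finset ℕ, S.card = t ∧ ∀ s ∈ S, ∀ s' ∈ S, s < s' → s' - s ∉ Bad := by
  induction t with
  | zero => exact ⟨∅, rfl, by simp⟩
  | succ t ih =>
    obtain ⟨S, h1, h2⟩ := ih
    obtain ⟨m, hm⟩ := S.bddAbove
    obtain ⟨N, h3, h4⟩ := few hK hB (2 * t + 2) (2 * m + 4) (by omega)
    have h5 : (Finset.range (m + 1) ∪ S.biUnion fun s =>
        ((Finset.range N).filter (· ∈ Bad)).image (· + s)).card < (Finset.range N).card := by
      have a1 := Finset.card_union_le (Finset.range (m + 1))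
        (S.biUnion fun s => ((Finset.range N).filter (· ∈ Bad)).image (· + s))
      have a2 := Finset.card_biUnion_le_card_mul S
        (fun s => ((Finset.range N).filter (· ∈ Bad)).image (· + s)) _
        fun s _ => Finset.card_image_le
      rw [Finset.card_range] at a1 ⊢
      rw [h1] at a2
      nlinarith
    obtain ⟨h, h6, h7⟩ := Finset.exists_mem_notMem_of_card_lt_card h5
    simp only [Finset.mem_union, Finset.mem_range, Finset.mem_biUnion, Finset.mem_image,
      Finset.mem_filter, not_or, not_exists, not_and] at h6 h7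
    have h8 : ∀ s ∈ S, s < h := fun s hs => by
      have := hm (Finset.mem_coe.2 hs)
      omega
    refine ⟨insert h S, by
      rw [Finset.card_insert_of_notMem fun hh => lt_irrefl _ (h8 h hh), h1], ?_⟩
    intro s hs s' hs' hl
    rcases Finset.mem_insert.1 hs with u | u <;> rcases Finset.mem_insert.1 hs' with u' | u'
    · omega
    · have := h8 s' u'
      omega
    · exact fun hb => h7.2 s u (s' - s) ⟨by omega, hb⟩ (by omega)
    · exact h2 s u s' u' hl

end PigAux

open PigAux in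
theorem xPig : PigS := by
  intro β A K Bad hK hB h ε hε
  choose! C c1 c2 using h
  obtain ⟨t, ht⟩ := exists_nat_gt (3 / ε)
  have t0 : (0 : ℝ) < t := lt_trans (by positivity) ht
  rw [div_lt_iff₀ hε] at ht
  obtain ⟨S, h1, h2⟩ := greedy hK hB t
  obtain ⟨m, hm⟩ := S.bddAbove
  have e1 : ∀ᶠ H : ℕ in atTop, ∀ p ∈ (S ×ˢ S).filter fun p => p.1 < p.2,
      T4x.Thin (ε / (3 * t ^ 2)) H (C (p.2 - p.1)) := by
    refine (eventually_all_finset _).2 fun p hp => ?_
    rw [Finset.mem_filter, Finset.mem_product] at hp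
    exact (c1 _ (h2 _ hp.1.1 _ hp.1.2 hp.2) _ (by positivity)).mono fun H hH => hH ()
  have e2 : ∀ᶠ H : ℕ in atTop, 3 * m / ε ≤ (H : ℝ) :=
    tendsto_natCast_atTop_atTop.eventually_ge_atTop _
  filter_upwards [e1, e2] with H a1 a2 b
  refine thin_iff.2 fun n => ?_
  rw [div_le_iff₀ hε] at a2
  have k1 := count S (A b) C (fun s hs s' hs' hl d => c2 _ (h2 s hs s' hs' hl) b d) n H
  have k2 : S.card • cnt (A b) n H ≤ ∑ s ∈ S, (cnt (A b) (n + s) H + m) :=
    Finset.card_nsmul_le_sum _ _ _ fun s hs =>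
      (cnt_shift (A b) n H s).trans (Nat.add_le_add_left (hm (Finset.mem_coe.2 hs)) _)
  have k3 : ((∑ p ∈ (S ×ˢ S).filter fun p => p.1 < p.2, cnt (C (p.2 - p.1)) (n + p.1) H : ℕ) : ℝ) ≤
      ((S ×ˢ S).filter fun p => p.1 < p.2).card • (ε / (3 * t ^ 2) * H) := by
    rw [Nat.cast_sum]
    exact Finset.sum_le_card_nsmul _ _ _ fun p hp => thin_iff.1 (a1 p hp) _
  have k4 : (((S ×ˢ S).filter fun p => p.1 < p.2).card : ℝ) ≤ t ^ 2 := by
    have := Finset.card_filter_le (S ×ˢ S) fun p => p.1 < p.2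
    rw [Finset.card_product, h1, ← sq] at this
    exact_mod_cast this
  rw [nsmul_eq_mul] at k3
  have k5 := k3.trans (mul_le_mul_of_nonneg_right k4 (by positivity))
  have k6 : (t : ℝ) ^ 2 * (ε / (3 * t ^ 2) * H) = ε * H / 3 := by field_simp
  rw [k6] at k5
  rw [Finset.sum_add_distrib, Finset.sum_const, smul_eq_mul, smul_eq_mul, h1] at k2
  rw [h1] at k1
  have k7 : (t : ℝ) * cnt (A b) n H ≤ H + t * (ε * H / 3) + t * m := by
    have b1 := (Nat.cast_le (α := ℝ)).2 (k2.trans (Nat.add_le_add_right k1 _))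
    rw [Nat.cast_mul, Nat.cast_add, Nat.cast_add, Nat.cast_mul, Nat.cast_mul] at b1
    have b2 := mul_le_mul_of_nonneg_left k5 t0.le
    linarith
  have hH : (0 : ℝ) ≤ H := Nat.cast_nonneg _
  refine le_of_mul_le_mul_left (k7.trans ?_) t0
  nlinarith [mul_le_mul_of_nonneg_left ht.le hH, mul_le_mul_of_nonneg_left a2 t0.le]

end

end Pool.Agent.MP_154433_an.T4A
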