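import Pool.Agent.MP_154433_an.t4a.Spec

/-! The arrow kernel of an extension projects to the arrow kernel of the base. -/

set_option autoImplicit false
set_option linter.unusedVariables false
set_option linter.unusedSectionVars false

open MeasureTheory ProbabilityTheory Filter Topology Set
open scoped ENNReal

namespace Pool.Agent.MP_154433_an.T4A

open T3A

noncomputable section

namespace PkAux

/-- setwise convergence gives lower semicontinuity of integrals -/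
lemma lsc {Ω : Type} [MeasurableSpace Ω] (U : Ultrafilter ℕ) (m : ℕ → Measure Ω) (m0 : Measure Ω)
    (hm : ∀ A, MeasurableSet A → Tendsto (fun M => m M A) U (𝓝 (m0 A))) {h : Ω → ℝ≥0∞}
    (hh : Measurable h) : ∀ a, Tendsto (fun M => ∫⁻ x, h x ∂(m M)) U (𝓝 a) → ∫⁻ x, h x ∂m0 ≤ a := by
  have ex : ∀ u : ℕ → ℝ≥0∞, ∃ a, Tendsto u U (𝓝 a) := fun u =>
    ⟨(U.map u).lim, (U.map u).le_nhds_lim⟩
  refine Measurable.ennreal_induction (motive := fun h => ∀ a,
    Tendsto (fun M => ∫⁻ x, h x ∂(m M)) U (𝓝 a) → ∫⁻ x, h x ∂m0 ≤ a) ?_ ?_ ?_ hh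
  · intro c s hs a ha
    simp only [lintegral_indicator_const hs] at ha ⊢
    by_cases h0 : m0 s = 0
    · simp [h0]
    · exact (tendsto_nhds_unique (ENNReal.Tendsto.const_mul (hm s hs) (Or.inl h0)) ha).le
  · intro f g _ hf hg h1 h2 a ha
    obtain ⟨a1, e1⟩ := ex fun M => ∫⁻ x, f x ∂(m M)
    obtain ⟨a2, e2⟩ := ex fun M => ∫⁻ x, g x ∂(m M)
    simp only [Pi.add_apply, lintegral_add_left hf] at ha ⊢
    rw [tendsto_nhds_unique ha (e1.add e2)]
    exact add_le_add (h1 _ e1) (h2 _ e2)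
  · intro f hf hmono h1 a ha
    rw [lintegral_iSup hf hmono]
    refine iSup_le fun n => ?_
    obtain ⟨a1, e1⟩ := ex fun M => ∫⁻ x, f n x ∂(m M)
    exact (h1 n _ e1).trans (le_of_tendsto_of_tendsto' e1 ha fun M =>
      lintegral_mono fun x => le_iSup (fun k => f k x) n)

/-- the same for densities, tested against a measure on an extension -/
lemma lsc' {Y Ω : Type} [MeasurableSpace Y] [MeasurableSpace Ω] (U : Ultrafilter ℕ)
    (μ' : Measure Y) [IsFiniteMeasure μ'] (μ : Measure Ω) [IsFiniteMeasure μ] {p : Y → Ω}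
    (hp : MeasurePreserving p μ' μ) {F : ℕ → Ω → ℝ≥0∞} {g : Ω → ℝ≥0∞} (hF : ∀ M, Measurable (F M))
    (hg : Measurable g)
    (hm : ∀ A, MeasurableSet A → Tendsto (fun M => ∫⁻ x in A, F M x ∂μ) U (𝓝 (∫⁻ x in A, g x ∂μ)))
    (A' : Set Y) (a : ℝ≥0∞) (ha : Tendsto (fun M => ∫⁻ y in A', F M (p y) ∂μ') U (𝓝 a)) :
    ∫⁻ y in A', g (p y) ∂μ' ≤ a := by
  set ρ := (μ'.restrict A').map p with hρ
  have hac : ρ ≪ μ := by
    rw [← hp.map_eq]
    exact (Measure.absolutelyContinuous_of_le Measure.restrict_le_self).map hp.measurable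
  have e : ∀ u : Ω → ℝ≥0∞, Measurable u →
      ∫⁻ y in A', u (p y) ∂μ' = ∫⁻ x, ρ.rnDeriv μ x ∂(μ.withDensity u) := fun u hu => by
    rw [← lintegral_map hu hp.measurable, ← hρ,
      lintegral_withDensity_eq_lintegral_mul μ hu (Measure.measurable_rnDeriv _ _), mul_comm,
      ← lintegral_withDensity_eq_lintegral_mul μ (Measure.measurable_rnDeriv _ _) hu,
      Measure.withDensity_rnDeriv_eq ρ μ hac]
  rw [e g hg]
  refine lsc U (fun M => μ.withDensity (F M)) (μ.withDensity g) (fun A hA => ?_)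
    (Measure.measurable_rnDeriv _ _) a ?_
  · simpa only [withDensity_apply _ hA] using hm A hA
  · simpa only [fun M => e (F M) (hF M)] using ha

section

variable {G Ω V J : Type} [AddCommGroup G] [MeasurableSpace Ω] [AddCommGroup V]

/-- the weight of the labels that send `x` into `E` -/
def Fl (B : Bun G Ω V J) (j : J) (E : Set ((Ω × Ω) × Arr V)) (M : ℕ) (x : Ω) : ℝ≥0∞ :=
  ((B.ν M).prod (B.ν M)) ((fun d => (d, x)) ⁻¹' (B.pt j M ⁻¹' E))

/-- the kernel mass of the arrows from `x` in `E` -/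
def Gk (K : Kernel Ω (Ω × Arr V)) (E : Set ((Ω × Ω) × Arr V)) (x : Ω) : ℝ≥0∞ :=
  K x (Prod.mk x ⁻¹' ((fun x : Ω × (Ω × Arr V) => ((x.1, x.2.1), x.2.2)) ⁻¹' E))

lemma Fl_meas (B : Bun G Ω V J) (j : J) {E : Set ((Ω × Ω) × Arr V)} (hE : MeasurableSet E)
    (M : ℕ) : Measurable (Fl B j E M) :=
  measurable_measure_prodMk_right (B.measurable_pt j M hE)

lemma Gk_meas (K : Kernel Ω (Ω × Arr V)) [IsMarkovKernel K] {E : Set ((Ω × Ω) × Arr V)}
    (hE : MeasurableSet E) : Measurable (Gk K E) :=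
  Kernel.measurable_kernel_prodMk_left (measurable_wOf hE)

lemma Gk_compl (K : Kernel Ω (Ω × Arr V)) [IsMarkovKernel K] {E : Set ((Ω × Ω) × Arr V)}
    (hE : MeasurableSet E) (x : Ω) : Gk K E x + Gk K Eᶜ x = 1 :=
  prob_add_prob_compl (μ := K x) (measurable_prodMk_left (measurable_wOf hE))

lemma wOf_eq (ρ : Measure Ω) [SFinite ρ] (K : Kernel Ω (Ω × Arr V)) [IsMarkovKernel K]
    {E : Set ((Ω × Ω) × Arr V)} (hE : MeasurableSet E) : wOf ρ K E = ∫⁻ x, Gk K E x ∂ρ := by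
  rw [wOf, Measure.map_apply measurable_wOf hE, Measure.compProd_apply (measurable_wOf hE)]
  rfl

lemma lim (B : Bun G Ω V J) (j : J) (K : Kernel Ω (Ω × Arr V)) [IsMarkovKernel K]
    (h : IsLim B j (wOf B.μ K)) {E : Set ((Ω × Ω) × Arr V)} (hE : Cyl E) (A : Set Ω)
    (hA : MeasurableSet A) : Tendsto (fun M => ∫⁻ x in A, Fl B j E M x ∂B.μ) B.U
      (𝓝 (∫⁻ x in A, Gk K E x ∂B.μ)) := by
  have hc := Cyl.inter _ _ (Cyl.fst A hA) hE
  have h1 := h.2 _ hc
  have e1 : wOf B.μ K ({z | z.1.1 ∈ A} ∩ E) = ∫⁻ x in A, Gk K E x ∂B.μ := by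
    rw [wOf_eq _ _ hc.meas, ← lintegral_indicator hA]
    refine lintegral_congr fun x => ?_
    by_cases hx : x ∈ A
    · rw [indicator_of_mem hx, Gk, Gk]
      congr 1
      ext u
      simp [hx]
    · rw [indicator_of_notMem hx, Gk]
      have : Prod.mk x ⁻¹' ((fun x : Ω × (Ω × Arr V) => ((x.1, x.2.1), x.2.2)) ⁻¹'
          ({z | z.1.1 ∈ A} ∩ E)) = ∅ := by
        ext u
        simp [hx]
      rw [this, measure_empty]
  have e2 : ∀ M, B.P M (B.pt j M ⁻¹' ({z | z.1.1 ∈ A} ∩ E)) = ∫⁻ x in A, Fl B j E M x ∂B.μ := by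
    intro M
    rw [Bun.P, PM, Measure.prod_apply_symm (B.measurable_pt j M hc.meas), ← lintegral_indicator hA]
    refine lintegral_congr fun x => ?_
    by_cases hx : x ∈ A
    · rw [indicator_of_mem hx, Fl]
      congr 1
      ext d
      simp [hx, Bun.pt]
    · rw [indicator_of_notMem hx]
      have : (fun d => (d, x)) ⁻¹' (B.pt j M ⁻¹' ({z | z.1.1 ∈ A} ∩ E)) = ∅ := by
        ext d
        simp [hx, Bun.pt]
      rw [this, measure_empty]
  simpa only [e1, e2] using h1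

variable {Y : Type} [MeasurableSpace Y]

/-- the projection of arrows -/
def pj (p : Y → Ω) (z : (Y × Y) × Arr V) : (Ω × Ω) × Arr V := ((p z.1.1, p z.1.2), z.2)

lemma pj_meas {p : Y → Ω} (hp : Measurable p) : Measurable (pj (V := V) p) :=
  ((hp.comp measurable_fst.fst).prodMk (hp.comp measurable_fst.snd)).prodMk measurable_snd

lemma pj_cyl {p : Y → Ω} (hp : Measurable p) {E : Set ((Ω × Ω) × Arr V)} (hE : Cyl E) :
    Cyl (pj p ⁻¹' E) := by
  induction hE with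
  | fst A hA => exact Cyl.fst _ (hp hA)
  | snd A hA => exact Cyl.snd _ (hp hA)
  | mem q => exact Cyl.mem q
  | compl E _ ih => exact Cyl.compl _ ih
  | inter E E' _ _ ih ih' => exact Cyl.inter _ _ ih ih'

lemma Fl_pj {B' : Bun G Y V J} {B : Bun G Ω V J} {p : Y → Ω} (h : Ext B' B p) (j : J)
    (E : Set ((Ω × Ω) × Arr V)) (M : ℕ) (y : Y) : Fl B' j (pj p ⁻¹' E) M y = Fl B j E M (p y) := by
  rw [Fl, Fl, h.hν]
  congr 1
  ext d
  simp only [mem_preimage, Bun.pt, pj, Bun.st, h.comm, h.hS, h.ha, h.hb]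

variable {B' : Bun G Y V J} {B : Bun G Ω V J} {p : Y → Ω} {j : J}
  {K' : Kernel Y (Y × Arr V)} [IsMarkovKernel K'] {K : Kernel Ω (Ω × Arr V)} [IsMarkovKernel K]

lemma key_le (h : Ext B' B p) (h' : IsLim B' j (wOf B'.μ K')) (h0 : IsLim B j (wOf B.μ K))
    {E : Set ((Ω × Ω) × Arr V)} (hE : Cyl E) (A' : Set Y) (hA : MeasurableSet A') :
    ∫⁻ y in A', Gk K E (p y) ∂B'.μ ≤ ∫⁻ y in A', Gk K' (pj p ⁻¹' E) y ∂B'.μ := by
  refine lsc' B.U B'.μ B.μ h.mp (Fl_meas B j hE.meas) (Gk_meas K hE.meas) (lim B j K h0 hE) A' _ ?_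
  have h1 := lim B' j K' h' (pj_cyl h.mp.measurable hE) A' hA
  rw [h.hU] at h1
  simpa only [Fl_pj h] using h1

lemma key (h : Ext B' B p) (h' : IsLim B' j (wOf B'.μ K')) (h0 : IsLim B j (wOf B.μ K))
    {E : Set ((Ω × Ω) × Arr V)} (hE : Cyl E) (A' : Set Y) (hA : MeasurableSet A') :
    ∫⁻ y in A', Gk K E (p y) ∂B'.μ = ∫⁻ y in A', Gk K' (pj p ⁻¹' E) y ∂B'.μ := by
  have hp := h.mp.measurable
  have l1 := key_le h h' h0 hE A' hA
  have l2 := key_le h h' h0 (Cyl.compl _ hE) A' hA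
  have s1 : ∫⁻ y in A', Gk K E (p y) ∂B'.μ + ∫⁻ y in A', Gk K Eᶜ (p y) ∂B'.μ = B'.μ A' := by
    rw [← lintegral_add_left (f := fun y => Gk K E (p y)) ((Gk_meas K hE.meas).comp hp)]
    simp [Gk_compl K hE.meas]
  have s2 : ∫⁻ y in A', Gk K' (pj p ⁻¹' E) y ∂B'.μ + ∫⁻ y in A', Gk K' (pj p ⁻¹' Eᶜ) y ∂B'.μ =
      B'.μ A' := by
    rw [← lintegral_add_left (Gk_meas K' (pj_meas hp hE.meas)), preimage_compl]
    simp [Gk_compl K' (pj_meas hp hE.meas)]
  refine le_antisymm l1 ?_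
  have hfin : ∫⁻ y in A', Gk K' (pj p ⁻¹' Eᶜ) y ∂B'.μ ≠ ∞ :=
    ne_top_of_le_ne_top (measure_ne_top B'.μ A') (s2 ▸ le_add_self)
  refine (ENNReal.add_le_add_iff_right hfin).1 ?_
  rw [s2, ← s1]
  exact add_le_add le_rfl l2

end

end PkAux

open PkAux in
theorem xPk : PkS := by
  intro G Y Ω V J _ _ _ _ _ _ B' B p j K' _ K _ h h' h0
  have hp := h.mp.measurable
  have hq : Measurable (Prod.map p id : Y × Arr V → Ω × Arr V) := hp.prodMap measurable_id
  have := Kernel.IsMarkovKernel.map K' hq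
  have hk : K'.map (Prod.map p id) =ᵐ[B'.μ] K.comap p hp := by
    refine Kernel.ae_eq_of_compProd_eq (Measure.ext_prod fun {A' C} hA hC => ?_)
    rw [Measure.compProd_apply_prod hA hC, Measure.compProd_apply_prod hA hC]
    have f1 : IsFiniteMeasure (wOf ((B'.μ.restrict A').map p) K) := by
      unfold wOf; infer_instance
    have e1 : ∀ E : Set ((Ω × Ω) × Arr V), MeasurableSet E →
        wOf ((B'.μ.restrict A').map p) K E = ∫⁻ y in A', Gk K E (p y) ∂B'.μ := fun E hE => by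
      rw [wOf_eq _ _ hE, lintegral_map (Gk_meas K hE) hp]
    have e2 : ∀ E : Set ((Ω × Ω) × Arr V), MeasurableSet E →
        (wOf (B'.μ.restrict A') K').map (pj p) E = ∫⁻ y in A', Gk K' (pj p ⁻¹' E) y ∂B'.μ :=
      fun E hE => by rw [Measure.map_apply (pj_meas hp) hE, wOf_eq _ _ (pj_meas hp hE)]
    have e3 : wOf ((B'.μ.restrict A').map p) K = (wOf (B'.μ.restrict A') K').map (pj p) :=
      xExt Ω (V × V) _ _ fun E hE => by rw [e1 E hE.meas, e2 E hE.meas, key h h' h0 hE A' hA]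
    have hE : MeasurableSet {z : (Ω × Ω) × Arr V | (z.1.2, z.2) ∈ C} :=
      (measurable_fst.snd.prodMk measurable_snd) hC
    have e4 := e2 _ hE
    rw [← e3, e1 _ hE] at e4
    simp only [Kernel.map_apply' _ hq _ hC, Kernel.comap_apply]
    exact e4.symm
  filter_upwards [hk] with y hy
  rw [← Kernel.map_apply _ hq, hy, Kernel.comap_apply]

end

end Pool.Agent.MP_154433_an.T4A
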