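import Pool.Agent.MP_154433_an.t4a.Spec

set_option autoImplicit false
set_option linter.unusedVariables false
set_option linter.unusedSectionVars false

open MeasureTheory ProbabilityTheory Filter Topology Set
open scoped ENNReal

namespace Pool.Agent.MP_154433_an.T4A

open T3A

namespace PrjAux

variable {G Y Ω V J : Type} [AddCommGroup G] [MeasurableSpace Y] [MeasurableSpace Ω]
  [AddCommGroup V]

theorem sA {B' : Bun G Y V J} {B : Bun G Ω V J} {p : Y → Ω} (h : Ext B' B p) (i j : G)
    (z : (Y × Y) × Arr V) : proj p (B'.sA i j z) = B.sA i j (proj p z) := by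
  simp only [Base.sA_apply, proj, h.hσ, h.comm]

theorem wmap {μ' : Measure Y} [IsProbabilityMeasure μ'] {μ : Measure Ω} [IsProbabilityMeasure μ]
    {p : Y → Ω} (hp : MeasurePreserving p μ' μ) (K' : Kernel Y (Y × Arr V)) [IsMarkovKernel K']
    (K : Kernel Ω (Ω × Arr V)) [IsMarkovKernel K] (hK : PrK μ' p K' K)
    {E : Set ((Ω × Ω) × Arr V)} (hE : MeasurableSet E) :
    wOf μ' K' (proj p ⁻¹' E) = wOf μ K E := by
  have hm := hp.measurable
  have hpr : Measurable (proj p : (Y × Y) × Arr V → (Ω × Ω) × Arr V) := measurable_proj hm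
  have hE1 : MeasurableSet ((fun x : Ω × (Ω × Arr V) => ((x.1, x.2.1), x.2.2)) ⁻¹' E) :=
    measurable_wOf hE
  unfold wOf
  rw [Measure.map_apply measurable_wOf (hpr hE), Measure.map_apply measurable_wOf hE,
    Measure.compProd_apply (measurable_wOf (hpr hE)), Measure.compProd_apply hE1,
    ← hp.lintegral_comp (Kernel.measurable_kernel_prodMk_left hE1)]
  refine lintegral_congr_ae (hK.mono fun y hy => ?_)
  simp only
  rw [← hy, Measure.map_apply (hm.prodMap measurable_id) (measurable_prodMk_left hE1)]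
  rfl

end PrjAux

theorem xPrj : PrjS := by
  intro G Y Ω V J _ _ _ _ _ _ B' B p κ' κ K' _ K _ h hK hL' hL E hE h0
  have hpr : Measurable (proj p : (Y × Y) × Arr V → (Ω × Ω) × Arr V) :=
    measurable_proj h.mp.measurable
  refine (hL'.nul _ (hpr hE)).2 fun i => ?_
  have h2 := (hL.nul E hE).1 h0 i
  rw [← PrjAux.wmap h.mp K' K hK ((measurableSet_memA measurable_snd _).inter
    (B.measurable_sA i 0 hE))] at h2
  rw [← h2]
  refine congrArg _ ?_
  ext z
  simp only [mem_inter_iff, mem_preimage, PrjAux.sA h]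
  rfl

end Pool.Agent.MP_154433_an.T4A
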