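import Pool.Agent.MP_154433_an.t4a.Spec

/-! The relation and the decay, read in the trivialisation. -/

set_option autoImplicit false
set_option linter.unusedSectionVars false

open MeasureTheory ProbabilityTheory Filter Topology Set
open scoped ENNReal

namespace Pool.Agent.MP_154433_an.T4A

open T3A

namespace PsrAux

lemma ces_of_le {K : ℕ → ℕ} {a : ℕ → ℝ≥0∞}
    (h : ∀ ε : ℝ≥0∞, 0 < ε → ∃ (ι : Type) (S : Finset ι) (b : ι → ℕ → ℝ≥0∞),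
      (∀ p ∈ S, Ces K (b p)) ∧ ∀ k, a k ≤ ε + ∑ p ∈ S, b p k) : Ces K a := by
  unfold Ces
  rw [ENNReal.tendsto_nhds_zero]
  intro ε hε
  have h2 : 0 < ε / 2 := ENNReal.div_pos hε.ne' (by norm_num)
  obtain ⟨ι, S, b, hb, hab⟩ := h _ h2
  have hs : Tendsto (fun i => ∑ p ∈ S, ((K i : ℕ) : ℝ≥0∞)⁻¹ * ∑ k ∈ Finset.range (K i), b p k)
      atTop (𝓝 0) := by
    have := tendsto_finsetSum S fun p hp => hb p hp
    simpa using this
  filter_upwards [ENNReal.tendsto_nhds_zero.1 hs _ h2] with i hi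
  calc ((K i : ℕ) : ℝ≥0∞)⁻¹ * ∑ k ∈ Finset.range (K i), a k
      ≤ ((K i : ℕ) : ℝ≥0∞)⁻¹ * ∑ k ∈ Finset.range (K i), (ε / 2 + ∑ p ∈ S, b p k) := by
        gcongr with k _
        exact hab k
    _ = ((K i : ℕ) : ℝ≥0∞)⁻¹ * (K i : ℕ) * (ε / 2) +
          ∑ p ∈ S, ((K i : ℕ) : ℝ≥0∞)⁻¹ * ∑ k ∈ Finset.range (K i), b p k := by
        rw [Finset.sum_add_distrib, mul_add, Finset.sum_const, Finset.card_range, nsmul_eq_mul,
          ← mul_assoc, Finset.sum_comm, Finset.mul_sum]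
    _ ≤ 1 * (ε / 2) + ε / 2 := by
        gcongr
        exact ENNReal.inv_mul_le_one _
    _ = ε := by rw [one_mul, ENNReal.add_halves]

variable {G Ω : Type} [AddCommGroup G] [MeasurableSpace Ω]

lemma ae_PM (ν : Measure ℤ) [IsProbabilityMeasure ν] (μ : Measure Ω) [IsProbabilityMeasure μ]
    {P : Ω → Prop} (h : ∀ᵐ y ∂μ, P y) : ∀ᵐ z ∂(PM ν μ), P z.2 :=
  (measurePreserving_snd (μ := ν.prod ν) (ν := μ)).quasiMeasurePreserving.ae h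

variable {V Γ : Type} [AddCommGroup V] [Countable V] [AddCommGroup Γ]

lemma meas_bad {A : Base G Ω V} {θ : Ω → V →+ Γ} (h : Th A θ) (ξ : Γ) (F : Finset V) :
    MeasurableSet {y | ∀ c ∈ F, θ y c ≠ ξ} := by
  have : {y | ∀ c ∈ F, θ y c ≠ ξ} = ⋂ c ∈ F, {y | θ y c = ξ}ᶜ := by
    ext y; simp
  rw [this]
  exact F.measurableSet_biInter fun c _ => (h.mθ c ξ).compl

lemma fin_cover {A : Base G Ω V} {θ : Ω → V →+ Γ} (h : Th A θ) (ξ : Γ) {ε : ℝ≥0∞} (hε : 0 < ε) :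
    ∃ F : Finset V, A.μ {y | ∀ c ∈ F, θ y c ≠ ξ} ≤ ε := by
  classical
  obtain ⟨f, hf⟩ := exists_surjective_nat V
  set B : ℕ → Set Ω := fun n => {y | ∀ c ∈ (Finset.range n).image f, θ y c ≠ ξ} with hB
  have hanti : Antitone B := by
    intro m n hmn y hy c hc
    exact hy c (Finset.image_subset_image (Finset.range_mono hmn) hc)
  have h1 := tendsto_measure_iInter_atTop (μ := A.μ) (s := B)
    (fun n => (meas_bad h ξ _).nullMeasurableSet) hanti ⟨0, measure_ne_top _ _⟩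
  have h2 : A.μ (⋂ n, B n) = 0 := by
    refine measure_mono_null ?_ (ae_iff.1 h.sur)
    intro y hy hs
    obtain ⟨c, hc⟩ := hs.1 ξ
    obtain ⟨n, rfl⟩ := hf c
    exact (mem_iInter.1 hy (n + 1)) (f n)
      (Finset.mem_image_of_mem f (Finset.self_mem_range_succ n)) hc
  rw [h2] at h1
  obtain ⟨n, hn⟩ := (ENNReal.tendsto_nhds_zero.1 h1 ε hε).exists
  exact ⟨_, hn⟩

lemma step {A : Base G Ω V} {θ : Ω → V →+ Γ} {Ψ : G → Ω → Au Γ} (hθ : Th A θ) (hΨ : Coc A θ Ψ)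
    {ξ ξ' : Γ} (hξ : ξ' ≠ 0) {ε : ℝ≥0∞} (hε : 0 < ε) : ∃ S : Finset (V × V), ∀ n : G,
      A.μ {y | Ψ n y ξ = ξ'} ≤ ε + ∑ p ∈ S, A.μ (A.decS n p.1 p.2) := by
  have h2 : 0 < ε / 2 := ENNReal.div_pos hε.ne' (by norm_num)
  obtain ⟨F, hF⟩ := fin_cover hθ ξ h2
  obtain ⟨F', hF'⟩ := fin_cover hθ ξ' h2
  refine ⟨F ×ˢ F', fun n => ?_⟩
  have e1 := (A.mp n).measure_preimage (meas_bad hθ ξ F).nullMeasurableSet
  have hsub : ({y | Ψ n y ξ = ξ'} : Set Ω) ≤ᵐ[A.μ]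
      ((tz A.T n ⁻¹' {y | ∀ c ∈ F, θ y c ≠ ξ} ∪ {y | ∀ c ∈ F', θ y c ≠ ξ'} ∪
        ⋃ p ∈ F ×ˢ F', A.decS n p.1 p.2 : Set Ω)) := by
    filter_upwards [hθ.sur, hΨ.def'] with y h1 h2 hy
    by_cases ha : ∀ c ∈ F, θ (tz A.T n y) c ≠ ξ
    · exact Or.inl (Or.inl ha)
    by_cases hb : ∀ c ∈ F', θ y c ≠ ξ'
    · exact Or.inl (Or.inr hb)
    push Not at ha hb
    obtain ⟨c, hc, hca⟩ := ha
    obtain ⟨c', hc', hcb⟩ := hb
    have hy' : Ψ n y ξ = ξ' := hy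
    have h4 := h2 n c
    rw [hca, hy'] at h4
    refine Or.inr (mem_iUnion₂.2 ⟨(c, c'), Finset.mem_product.2 ⟨hc, hc'⟩, ?_, ?_⟩)
    · refine (h1.2 _).1 ?_
      rw [map_sub, ← h4, hcb, sub_self]
    · intro hn
      exact hξ (hcb.symm.trans ((h1.2 _).2 hn))
  calc A.μ {y | Ψ n y ξ = ξ'}
      ≤ _ := measure_mono_ae hsub
    _ ≤ _ := measure_union_le _ _
    _ ≤ (ε / 2 + ε / 2) + ∑ p ∈ F ×ˢ F', A.μ (A.decS n p.1 p.2) :=
      add_le_add ((measure_union_le _ _).trans (add_le_add (e1.le.trans hF) hF'))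
        (measure_biUnion_finset_le _ _)
    _ = _ := by rw [ENNReal.add_halves]

end PsrAux

open PsrAux

theorem xPsr : PsrS := by
  intro G Ω V Γ _ _ _ _ _ _ _ A θ Ψ D hθ hΨ
  refine ⟨fun ν _ => measure_mono_ae ?_, fun K hK u hu ξ ξ' hξ => ces_of_le fun ε hε => ?_⟩
  · filter_upwards [ae_PM ν A.μ hθ.sur, ae_PM ν A.μ hΨ.def'] with z h1 h2 hz
    obtain ⟨hz1, hz2⟩ := hz
    refine ⟨?_, fun h0 => hz2 ?_⟩
    · have h3 := (h1.2 _).2 hz1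
      rw [map_sub, map_sum, sub_eq_zero] at h3
      rw [← h3]
      exact Finset.sum_congr rfl fun k _ => h2 _ _
    · have h3 := h2 (z.1.1 • D.r D.k0) (D.c D.k0)
      rw [h0, map_zero] at h3
      exact (h1.2 _).1 h3.symm
  · obtain ⟨S, hS⟩ := step hθ hΨ (ξ := ξ) hξ hε
    exact ⟨V × V, S, fun p k => A.μ (A.decS ((k : ℤ) • u) p.1 p.2),
      fun p _ => hK u hu p.1 p.2, fun k => hS _⟩

end Pool.Agent.MP_154433_an.T4A
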