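import Pool.Agent.MP_154433_an.t4a.Spec

set_option autoImplicit false

open MeasureTheory ProbabilityTheory Filter Topology Set
open scoped ENNReal

namespace Pool.Agent.MP_154433_an.T4A

open T3A

noncomputable section

namespace PushAux

/-- the shift of the time coordinate -/
def shf (G I : Type) [AddCommGroup G] : Act G (Set (G × I)) where
  f m ω := {a | (a.1 + m, a.2) ∈ ω}
  meas _ := measurable_set_iff.2 fun _ => measurable_set_mem _
  zero ω := by ext a; simp
  add m n ω := by ext a; simp [add_assoc]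

variable {G X V J : Type} [AddCommGroup G] [MeasurableSpace X] [AddCommGroup V]

/-- the names of the points -/
def nm {I : Type} (T : Act G X) (A : I → Set X) (x : X) : Set (G × I) := {a | tz T a.1 x ∈ A a.2}

lemma measurable_nm {I : Type} (T : Act G X) {A : I → Set X} (hA : ∀ i, MeasurableSet (A i)) :
    Measurable (nm T A) :=
  measurable_set_iff.2 fun a => measurableSet_setOfPred.1 (measurable_tz T a.1 (hA a.2))

lemma nm_T {I : Type} (T : Act G X) (A : I → Set X) (n : G) (x : X) :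
    nm T A (tz T n x) = tz (shf G I) n (nm T A x) := by
  ext a
  show tz T a.1 (tz T n x) ∈ A a.2 ↔ tz T (a.1 + n) x ∈ A a.2
  rw [tz_add]

/-- names that describe an equivariant family of subgroups -/
def Good (σ : VAct G V) (ω : Set (G × (V ⊕ J))) : Prop := ∀ n : G, (n, Sum.inl 0) ∈ ω ∧
  (∀ c c', (n, Sum.inl c) ∈ ω → (n, Sum.inl c') ∈ ω → (n, Sum.inl (c + c')) ∈ ω) ∧
  (∀ c, (n, Sum.inl c) ∈ ω → (n, Sum.inl (-c)) ∈ ω) ∧
  ∀ m c, (n, Sum.inl (sz σ m c)) ∈ ω ↔ (m + n, Sum.inl c) ∈ ω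

lemma good_tz (σ : VAct G V) (k : G) {ω : Set (G × (V ⊕ J))} (h : Good σ ω) :
    Good σ (tz (shf G _) k ω) := fun n =>
  ⟨(h (n + k)).1, (h (n + k)).2.1, (h (n + k)).2.2.1, fun m c => by
    show (n + k, Sum.inl (sz σ m c)) ∈ ω ↔ (m + n + k, Sum.inl c) ∈ ω
    rw [add_assoc]
    exact (h (n + k)).2.2.2 m c⟩

lemma good_shf (σ : VAct G V) (k : G) (ω : Set (G × (V ⊕ J))) :
    Good σ (tz (shf G _) k ω) ↔ Good σ ω :=
  ⟨fun h => by simpa using good_tz σ (-k) h, good_tz σ k⟩

lemma measurable_good [Countable G] [Countable V] (σ : VAct G V) : Measurable (Good (J := J) σ) :=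
  Measurable.forall fun _ => (measurable_set_mem _).and
    ((Measurable.forall fun _ => Measurable.forall fun _ => (measurable_set_mem _).imp
      ((measurable_set_mem _).imp (measurable_set_mem _))).and
    ((Measurable.forall fun _ => (measurable_set_mem _).imp (measurable_set_mem _)).and
      (Measurable.forall fun _ => Measurable.forall fun _ =>
        (measurable_set_mem _).iff (measurable_set_mem _))))

/-- the subgroup read off from a name -/
def sub (σ : VAct G V) (ω : Set (G × (V ⊕ J))) : AddSubgroup V where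
  carrier := {c | Good σ ω → (0, Sum.inl c) ∈ ω}
  add_mem' ha hb g := (g 0).2.1 _ _ (ha g) (hb g)
  zero_mem' g := (g 0).1
  neg_mem' ha g := (g 0).2.2.1 _ (ha g)

lemma sub_eqz (σ : VAct G V) (n : G) (c : V) (ω : Set (G × (V ⊕ J))) :
    sz σ n c ∈ sub σ ω ↔ c ∈ sub σ (tz (shf G _) n ω) := by
  show (Good σ ω → (0, Sum.inl (sz σ n c)) ∈ ω) ↔
    (Good σ (tz (shf G _) n ω) → (0 + n, Sum.inl c) ∈ ω)
  rw [good_shf, add_comm]
  exact ⟨fun h g => ((g 0).2.2.2 n c).1 (h g), fun h g => ((g 0).2.2.2 n c).2 (h g)⟩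

end PushAux

open PushAux in
theorem xPush : PushS := by
  intro G X V J _ _ _ _ _ _ B'
  let A : V ⊕ (J × ℕ × (ℤ × ℤ) × (V × V)) → Set X :=
    Sum.elim (fun c => {x | c ∈ B'.N x}) fun e => {x | e.2.2.2 ∈ B'.Sg e.1 e.2.1 e.2.2.1 x}
  have hA : ∀ i, MeasurableSet (A i) := by
    rintro (c | e)
    exacts [B'.mN c, measurableSet_memA (B'.mS _ _ _) _]
  have hp := measurable_nm B'.T hA
  have gd : ∀ x, Good B'.σ (nm B'.T A x) := fun x n =>
    ⟨(B'.N _).zero_mem, fun _ _ => (B'.N _).add_mem, fun _ => (B'.N _).neg_mem, fun m c => by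
      show sz B'.σ m c ∈ B'.N (tz B'.T n x) ↔ c ∈ B'.N (tz B'.T (m + n) x)
      rw [B'.eqz, tz_add]⟩
  refine ⟨Set (G × (V ⊕ (J × ℕ × (ℤ × ℤ) × (V × V)))), inferInstance, inferInstance,
    { μ := B'.μ.map (nm B'.T A)
      prob := Measure.isProbabilityMeasure_map hp.aemeasurable
      T := shf G _
      mp := fun n => ⟨measurable_tz _ n, ?_⟩
      σ := B'.σ
      N := sub B'.σ
      mN := fun c => measurableSet_setOfPred.2 ((measurable_good B'.σ).imp (measurable_set_mem _))
      eqz := sub_eqz B'.σ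
      ν := B'.ν
      pν := B'.pν
      U := B'.U
      a := B'.a
      b := B'.b
      Sg := fun j M d ω => {q | (0, Sum.inr (j, M, d, q)) ∈ ω}
      mS := fun j M d => measurable_set_iff.2 fun _ => measurable_set_mem _ }, nm B'.T A,
    ⟨hp, rfl⟩, nm_T _ _, rfl, fun y => ?_, rfl, rfl, rfl, rfl, fun j M d y => ?_⟩
  · rw [Measure.map_map (measurable_tz _ n) hp,
      show tz (shf G _) n ∘ nm B'.T A = nm B'.T A ∘ tz B'.T n from
        funext fun x => (nm_T _ _ n x).symm,
      ← Measure.map_map hp (measurable_tz _ n), (B'.mp n).map_eq]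
  · ext c
    show _ ↔ (Good B'.σ (nm B'.T A y) → c ∈ B'.N (tz B'.T 0 y))
    rw [tz_zero]
    exact ⟨fun h _ => h, fun h => h (gd y)⟩
  · ext q
    show _ ↔ q ∈ B'.Sg j M d (tz B'.T 0 y)
    rw [tz_zero]

end

end Pool.Agent.MP_154433_an.T4A
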