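import Pool.Agent.MP_154433_an.t4a.Spec
import Pool.Agent.MP_154433_an.t3a.FinA

/-! Almost multiplicative sequences in a commutative group are monomials up to a finite set. -/

set_option autoImplicit false
set_option linter.unusedVariables false
set_option linter.unusedSectionVars false

open Set

namespace Pool.Agent.MP_154433_an.T4A

open T3A

namespace QhAux

/-- a finitely generated commutative group has a lattice quotient with finite kernel -/
lemma lattice (G : Type) [AddCommGroup G] [AddGroup.FG G] :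
    ∃ (r : ℕ) (lam : G →+ (Fin r → ℤ)) (s : (Fin r → ℤ) →+ G), (∀ v, lam (s v) = v) ∧
      {g | lam g = 0}.Finite := by
  classical
  obtain ⟨n, ι, _, p, hp, e, ⟨E⟩⟩ := AddCommGroup.equiv_free_prod_directSum_zmod G
  have hz : ∀ i, NeZero (p i ^ e i) := fun i => ⟨pow_ne_zero _ (hp i).ne_zero⟩
  let c : (Fin n →₀ ℤ) ≃+ (Fin n → ℤ) := (Finsupp.linearEquivFunOnFinite ℤ ℤ (Fin n)).toAddEquiv
  have hfin : Finite (DirectSum ι fun i => ZMod (p i ^ e i)) :=
    Finite.of_injective _ (DFinsupp.equivFunOnFintype (β := fun i => ZMod (p i ^ e i))).injective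
  refine ⟨n, c.toAddMonoidHom.comp ((AddMonoidHom.fst _ _).comp E.toAddMonoidHom),
    E.symm.toAddMonoidHom.comp ((AddMonoidHom.inl _ _).comp c.symm.toAddMonoidHom),
    fun v => by simp, ?_⟩
  refine (Set.finite_range fun t => E.symm (0, t)).subset fun g hg => ⟨(E g).2, ?_⟩
  have h1 : c (E g).1 = 0 := hg
  have h2 : (E g).1 = 0 := c.injective (h1.trans (map_zero c).symm)
  show E.symm (0, (E g).2) = g
  rw [← h2, Prod.mk.eta, E.symm_apply_apply]

lemma box_finite {G : Type} [AddCommGroup G] {r : ℕ} (lam : G →+ (Fin r → ℤ))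
    (s : (Fin r → ℤ) →+ G) (hs : ∀ v, lam (s v) = v) (hk : {g | lam g = 0}.Finite) (C : ℤ) :
    {g | ∀ i, |lam g i| ≤ C}.Finite := by
  have hb : (Set.pi univ fun _ : Fin r => Icc (-C) C).Finite :=
    Set.Finite.pi fun _ => Set.finite_Icc _ _
  refine ((hb.prod hk).image fun z => s z.1 + z.2).subset fun g hg => ?_
  refine ⟨(lam g, g - s (lam g)), ⟨fun i _ => abs_le.1 (hg i), ?_⟩, by simp⟩
  show lam (g - s (lam g)) = 0
  rw [map_sub, hs, sub_self]

section

variable {α : ℤ → ℤ} {D : ℤ}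

lemma mul_def (h : ∀ d e, |α (d + e) - α d - α e| ≤ D) (d n : ℤ) :
    |α (n * d) - n * α d| ≤ (|n| + 1) * D := by
  induction n using Int.induction_on with
  | zero =>
    have h0 := abs_le.1 (h 0 0)
    simp only [add_zero, sub_self, zero_sub] at h0
    simp only [zero_mul, sub_zero, abs_zero, zero_add, one_mul]
    exact abs_le.2 ⟨by linarith [h0.2], by linarith [h0.1]⟩
  | succ n ih =>
    have h1 := abs_le.1 (h (n * d) d)
    have hn : (0 : ℤ) ≤ n := Int.natCast_nonneg n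
    rw [abs_of_nonneg hn] at ih
    rw [abs_of_nonneg (by linarith : (0 : ℤ) ≤ n + 1), add_one_mul]
    have h2 := abs_le.1 ih
    exact abs_le.2 ⟨by linarith [h1.1, h2.1], by linarith [h1.2, h2.2]⟩
  | pred n ih =>
    have h1 := abs_le.1 (h ((-n - 1) * d) d)
    have hn : (0 : ℤ) ≤ n := Int.natCast_nonneg n
    have e1 : (-(n : ℤ) - 1) * d + d = -n * d := by ring
    rw [e1] at h1
    rw [abs_neg, abs_of_nonneg hn] at ih
    rw [abs_of_nonpos (by linarith : -(n : ℤ) - 1 ≤ 0)]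
    have h2 := abs_le.1 ih
    exact abs_le.2 ⟨by linarith [h1.2, h2.1], by linarith [h1.1, h2.2]⟩

lemma nonneg_def (h : ∀ d e, |α (d + e) - α d - α e| ≤ D) : 0 ≤ D :=
  (abs_nonneg _).trans (h 0 0)

lemma size (h : ∀ d e, |α (d + e) - α d - α e| ≤ D) {M : ℤ} (hM : 1 ≤ M) :
    |α M| ≤ (2 * D + |α 1|) * M := by
  have h1 := mul_def h 1 M
  have hD := nonneg_def h
  rw [mul_one, abs_of_nonneg (by linarith : (0 : ℤ) ≤ M)] at h1
  have h2 : |α M| ≤ |α M - M * α 1| + |M * α 1| := by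
    have := abs_add_le (α M - M * α 1) (M * α 1)
    rwa [sub_add_cancel] at this
  rw [abs_mul, abs_of_nonneg (by linarith : (0 : ℤ) ≤ M)] at h2
  nlinarith

lemma near (h : ∀ d e, |α (d + e) - α d - α e| ≤ D) {M d : ℤ} (hM : 1 ≤ M) (hd : |d| ≤ M) :
    |α d - d * α M / M| ≤ 4 * D + 1 := by
  have hD := nonneg_def h
  have hM0 : 0 < M := by linarith
  have h1 := abs_le.1 (mul_def h d M)
  have h2 := abs_le.1 (mul_def h M d)
  rw [abs_of_nonneg hM0.le] at h1
  rw [mul_comm d M] at h2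
  have h3 := Int.emod_add_mul_ediv (d * α M) M
  have h4 := Int.emod_nonneg (d * α M) hM0.ne'
  have h5 := Int.emod_lt_of_pos (d * α M) hM0
  have h6 : (|d| + 1) * D ≤ (M + 1) * D := mul_le_mul_of_nonneg_right (by linarith) hD
  have h7 : D ≤ M * D := le_mul_of_one_le_left hD hM
  set q := d * α M / M
  refine abs_le.2 ⟨?_, ?_⟩
  · refine le_of_mul_le_mul_left ?_ hM0
    linarith [h1.1, h1.2, h2.1, h2.2]
  · refine le_of_mul_le_mul_left ?_ hM0
    linarith [h1.1, h1.2, h2.1, h2.2]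

end

/-- the additive form in a finitely generated group -/
lemma addv (G I : Type) [AddCommGroup G] [AddGroup.FG G] [Fintype I] (a : I → ℤ → G)
    (F : Set G) (hF : F.Finite) (h : ∀ k d e, a k (d + e) - a k d - a k e ∈ F) :
    ∃ (r L : ℕ) (s : (Fin r → ℤ) →+ G) (B : Set G) (m : ℕ → I → Fin r → ℤ),
      B.Finite ∧ ∀ M : ℕ, 1 ≤ M → (∀ k i, |m M k i| ≤ L * M) ∧ ∀ k (d : ℤ), |d| ≤ M →
        ∃ g ∈ B, a k d = s (fun i => d * m M k i / M) + g := by
  obtain ⟨r, lam, s, hs, hk⟩ := lattice G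
  obtain ⟨D, hD⟩ := ((hF.prod (Set.finite_univ (α := Fin r))).image
    fun z => |lam z.1 z.2|).bddAbove
  have hd : ∀ k i d e, |lam (a k (d + e)) i - lam (a k d) i - lam (a k e) i| ≤ D := by
    intro k i d e
    have h1 := hD ⟨(a k (d + e) - a k d - a k e, i), ⟨h k d e, mem_univ _⟩, rfl⟩
    simpa only [map_sub, Pi.sub_apply] using h1
  obtain ⟨L, hL⟩ := (Set.finite_range fun z : I × Fin r => 2 * D + |lam (a z.1 1) z.2|).bddAbove
  refine ⟨r, L.toNat, s, {g | ∀ i, |lam g i| ≤ 4 * D + 1}, fun M k i => lam (a k M) i,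
    box_finite lam s hs hk _, fun M hM => ⟨fun k i => ?_, fun k d hdM => ?_⟩⟩
  · have hM' : (1 : ℤ) ≤ M := by exact_mod_cast hM
    refine (size (α := fun d => lam (a k d) i) (hd k i) hM').trans ?_
    exact mul_le_mul_of_nonneg_right ((hL ⟨(k, i), rfl⟩).trans (Int.self_le_toNat L))
      (by linarith)
  · have hM' : (1 : ℤ) ≤ M := by exact_mod_cast hM
    refine ⟨a k d - s (fun i => d * lam (a k M) i / M), fun i => ?_, by simp⟩
    rw [map_sub, hs, Pi.sub_apply]
    exact near (α := fun d => lam (a k d) i) (hd k i) hM' hdM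

end QhAux

theorem xQh : QhS := by
  intro Q I _ _ a F hF h
  let S : Set Q := F ∪ (range (fun k => a k 0) ∪ range fun k => a k 1)
  have hS : S.Finite := hF.union ((finite_range _).union (finite_range _))
  let Q0 : Subgroup Q := Subgroup.closure S
  have hm : ∀ k d, a k d ∈ Q0 := fun k d => by
    refine Subgroup.closure_mono ?_ (FinAux.quasi_gen (a k) F (h k) d)
    rintro x (hx | rfl | rfl)
    · exact Or.inl hx
    · exact Or.inr (Or.inl ⟨k, rfl⟩)
    · exact Or.inr (Or.inr ⟨k, rfl⟩)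
  have hfg : Group.FG Q0 := (Group.fg_iff_subgroup_fg Q0).2 ((Subgroup.fg_iff Q0).2 ⟨S, rfl, hS⟩)
  have hfa : AddGroup.FG (Additive Q0) := inferInstance
  let u : Additive Q0 → Q := fun g => (Additive.toMul g : Q0)
  have hu : Function.Injective u := fun g g' e => Additive.toMul.injective (Subtype.ext e)
  obtain ⟨r, L, s, B, m, hB, hM⟩ := QhAux.addv (Additive Q0) I
    (fun k d => Additive.ofMul ⟨a k d, hm k d⟩) (u ⁻¹' F) (hF.preimage hu.injOn) fun k d e => by
      have := h k d e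
      simpa [u, div_eq_mul_inv] using this
  refine ⟨r, L, MonoidHom.mk' (fun v => u (s (Multiplicative.toAdd v))) fun v w => by simp [u],
    u '' B, m, hB.image _, fun M h1 => ⟨(hM M h1).1, fun k d hd => ?_⟩⟩
  obtain ⟨g, hg, e⟩ := (hM M h1).2 k d hd
  refine ⟨u g, ⟨g, hg, rfl⟩, ?_⟩
  have e2 := congrArg u e
  simpa [u] using e2

end Pool.Agent.MP_154433_an.T4A
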