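import Pool.Agent.MP_154433_an.t4a.Spec

set_option autoImplicit false

open MeasureTheory ProbabilityTheory Filter Topology Set
open scoped ENNReal

namespace Pool.Agent.MP_154433_an.T4A

open T3A

namespace RliAux

variable {G Ω V J : Type} [AddCommGroup G] [MeasurableSpace Ω] [AddCommGroup V]

theorem lp_off (A : Base G Ω V) (κ : Kernel Ω Ω) [IsMarkovKernel κ] {Ip : Set Ω}
    (hI : MeasurableSet Ip) (Φ : Kernel (Ω × Ω) (Arr V)) [IsMarkovKernel Φ] :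
    Lp A κ Ip Φ {a | a.1.1 ∉ Ip} = 0 := by
  have e : {a : (Ω × Ω) × Arr V | a.1.1 ∉ Ip} = (Ipᶜ ×ˢ univ) ×ˢ univ := by
    ext a
    simp
  have h : MeasurableSet (Ipᶜ ×ˢ (univ : Set Ω)) := hI.compl.prod MeasurableSet.univ
  rw [e, Lp, Measure.compProd_apply_prod h MeasurableSet.univ]
  refine setLIntegral_measure_zero _ _ ?_
  rw [Measure.restrict_apply h, prod_inter_prod, compl_inter_self, empty_prod, measure_empty]

/-- the weight of the nonempty arrows with source in `S` -/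
theorem wOf_src (μ : Measure Ω) [IsProbabilityMeasure μ] (K : Kernel Ω (Ω × Arr V))
    [IsMarkovKernel K] {S : Set Ω} (hS : MeasurableSet S) :
    wOf μ K {z | ((0 : V), (0 : V)) ∈ z.2 ∧ z.1.1 ∈ S} =
      ∫⁻ y in S, K y {x | ((0 : V), (0 : V)) ∈ x.2} ∂μ := by
  have h1 : MeasurableSet {z : (Ω × Ω) × Arr V | ((0 : V), (0 : V)) ∈ z.2 ∧ z.1.1 ∈ S} :=
    ((Cyl.mem ((0 : V), (0 : V))).and (Cyl.fst _ hS)).meas
  have h2 : MeasurableSet {x : Ω × Arr V | ((0 : V), (0 : V)) ∈ x.2} :=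
    measurableSet_memA measurable_snd _
  have e : (fun x : Ω × (Ω × Arr V) => ((x.1, x.2.1), x.2.2)) ⁻¹'
      {z : (Ω × Ω) × Arr V | ((0 : V), (0 : V)) ∈ z.2 ∧ z.1.1 ∈ S} =
      S ×ˢ {x : Ω × Arr V | ((0 : V), (0 : V)) ∈ x.2} := by
    ext x
    exact and_comm
  rw [wOf, Measure.map_apply measurable_wOf h1, e, Measure.compProd_apply_prod hS h2]

theorem shift (B : Bun G Ω V J) (M : ℕ) (E : ℤ × ℤ → Set Ω) (hE : ∀ d, MeasurableSet (E d))
    (n : ℤ × ℤ → G) :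
    B.P M {z | tz B.T (n z.1) z.2 ∈ E z.1} = B.P M {z | z.2 ∈ E z.1} := by
  have h1 : MeasurableSet {z : (ℤ × ℤ) × Ω | tz B.T (n z.1) z.2 ∈ E z.1} :=
    measurableSet_lab fun d => measurable_tz B.T (n d) (hE d)
  have h2 : MeasurableSet {z : (ℤ × ℤ) × Ω | z.2 ∈ E z.1} := measurableSet_lab fun d => hE d
  rw [Bun.P, PM_apply _ _ h1, PM_apply _ _ h2]
  refine lintegral_congr fun d => ?_
  exact (B.mp (n d)).measure_preimage (hE d).nullMeasurableSet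

theorem snd_null (B : Bun G Ω V J) (M : ℕ) {N : Set Ω} (hN : MeasurableSet N) (h : B.μ N = 0) :
    B.P M {z | z.2 ∈ N} = 0 := by
  have h1 : MeasurableSet {z : (ℤ × ℤ) × Ω | z.2 ∈ N} := measurable_snd hN
  rw [Bun.P, PM_apply _ _ h1]
  have e : ∀ d : ℤ × ℤ, B.μ (Prod.mk d ⁻¹' {z : (ℤ × ℤ) × Ω | z.2 ∈ N}) = 0 := fun _ => h
  simp only [e, lintegral_zero]

end RliAux

theorem xRli : RliS := by
  intro G Ω V J _ _ _ _ _ _ B κ _ K _ K0 _ Ip Φ D δ hw h0 hL hΦ hδ hR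
  have := hΦ.markov
  have h1 := (hL.nul _ (measurable_fst.fst hΦ.mI.compl)).1
    (hΦ.ac2 (RliAux.lp_off B.toBase κ hΦ.mI Φ)) 0
  have e : ({z | ((0 : V), (0 : V)) ∈ z.2} ∩ B.toBase.sA 0 0 ⁻¹'
      ((fun z : (Ω × Ω) × Arr V => z.1.1) ⁻¹' Ipᶜ)) =
      {z | ((0 : V), (0 : V)) ∈ z.2 ∧ z.1.1 ∈ Ipᶜ} := by
    ext z
    simp
  rw [e, RliAux.wOf_src _ _ hΦ.mI.compl,
    setLIntegral_eq_zero_iff hΦ.mI.compl (K0.measurable_coe (measurableSet_memA measurable_snd _))]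
    at h1
  have hN : MeasurableSet {y | (∀ j, y ∈ Sup (K j)) ∧ y ∉ Ip} := by
    have : MeasurableSet (⋂ j, Sup (K j)) := MeasurableSet.iInter fun j => measurableSet_Sup _
    convert this.inter hΦ.mI.compl using 1
    ext y
    simp
  have hN0 : B.μ {y | (∀ j, y ∈ Sup (K j)) ∧ y ∉ Ip} = 0 := by
    rw [measure_eq_zero_iff_ae_notMem]
    filter_upwards [h0, h1] with y a b c
    exact a c.1 (b c.2)
  have h2 : ∀ j, Tendsto (fun M => B.P M
      {z | ((0 : V), (0 : V)) ∈ B.Sg j M z.1 z.2 ∧ z.2 ∈ (Sup (K j))ᶜ}) B.U (𝓝 0) := by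
    intro j
    have a := (hw j).2 _ ((Cyl.mem ((0 : V), (0 : V))).and
      (Cyl.fst _ (measurableSet_Sup (K j)).compl))
    rw [RliAux.wOf_src _ _ (measurableSet_Sup (K j)).compl,
      setLIntegral_eq_zero (measurableSet_Sup (K j)).compl fun y hy => not_not.1 hy] at a
    exact a
  have h3 := tendsto_finsetSum Finset.univ fun j _ => h2 j
  rw [Finset.sum_const_zero] at h3
  filter_upwards [hR, h3.eventually (Iic_mem_nhds (ENNReal.half_pos hδ.ne'))] with M h4 h5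
  have h6 : δ / 2 ≠ ∞ := ENNReal.div_ne_top (ne_top_of_le_ne_top (measure_ne_top _ _) h4) (by simp)
  refine ENNReal.le_of_add_le_add_right h6 ?_
  rw [ENNReal.add_halves]
  have hE : ∀ d : ℤ × ℤ,
      MeasurableSet {y | (∀ j, ((0 : V), (0 : V)) ∈ B.Sg j M d y) ∧ y ∉ Ip} := by
    intro d
    have : MeasurableSet (⋂ j, {y | ((0 : V), (0 : V)) ∈ B.Sg j M d y}) :=
      MeasurableSet.iInter fun j => measurableSet_memA (B.mS j M d) _
    convert this.inter hΦ.mI.compl using 1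
    ext y
    simp
  have h7 : B.P M {z | z.2 ∈ {y | (∀ j, ((0 : V), (0 : V)) ∈ B.Sg j M z.1 y) ∧ y ∉ Ip}} ≤
      δ / 2 := by
    refine le_trans ?_ h5
    have hs : {z : (ℤ × ℤ) × Ω |
        z.2 ∈ {y | (∀ j, ((0 : V), (0 : V)) ∈ B.Sg j M z.1 y) ∧ y ∉ Ip}} ⊆
        {z | z.2 ∈ {y | (∀ j, y ∈ Sup (K j)) ∧ y ∉ Ip}} ∪
          ⋃ j, {z | ((0 : V), (0 : V)) ∈ B.Sg j M z.1 z.2 ∧ z.2 ∈ (Sup (K j))ᶜ} := by
      intro z hz
      by_cases h : ∀ j, z.2 ∈ Sup (K j)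
      · exact Or.inl ⟨h, hz.2⟩
      · obtain ⟨j, hj⟩ := not_forall.1 h
        exact Or.inr (mem_iUnion.2 ⟨j, hz.1 j, hj⟩)
    refine (measure_mono hs).trans ((measure_union_le _ _).trans ?_)
    rw [RliAux.snd_null B M hN hN0, zero_add]
    exact measure_iUnion_fintype_le _ _
  refine h4.trans ((measure_mono ?_).trans ((measure_union_le _ _).trans (add_le_add le_rfl
    ((RliAux.shift B M _ hE fun d => d.1 • D.r D.k0).trans_le h7))))
  intro z hz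
  by_cases h : z.2 ∈ Ip
  · exact Or.inl ⟨hz.1, h⟩
  · exact Or.inr ⟨hz.2, fun h' => h ((mem_tz B.T hΦ.inv _ _).1 h')⟩

end Pool.Agent.MP_154433_an.T4A
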