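import Pool.Agent.MP_154433_an.t4a.Spec

set_option autoImplicit false

open MeasureTheory ProbabilityTheory Filter Topology Set
open scoped ENNReal

namespace Pool.Agent.MP_154433_an.T4A

open T3A

namespace SdAux

variable {V Γ : Type} [AddCommGroup V] [AddCommGroup Γ]

/-- the image of a relation in the trivialisation -/
def im (θ θ' : V →+ Γ) (S : Arr V) : Arr Γ :=
  {p | ∃ q : V × V, q ∈ S ∧ θ q.1 = p.1 ∧ θ' q.2 = p.2}

lemma iso_im {θ θ' : V →+ Γ} {N N' : AddSubgroup V} {S : Arr V} (h : Iso N N' S)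
    (h1 : Function.Surjective θ ∧ ∀ c, θ c = 0 ↔ c ∈ N)
    (h2 : Function.Surjective θ' ∧ ∀ c, θ' c = 0 ↔ c ∈ N') : Iso ⊥ ⊥ (im θ θ' S) where
  zero c hc c' hc' := ⟨(0, 0), h.zero 0 N.zero_mem 0 N'.zero_mem,
    (map_zero θ).trans (AddSubgroup.mem_bot.1 hc).symm,
    (map_zero θ').trans (AddSubgroup.mem_bot.1 hc').symm⟩
  sub a a' b b' := by
    rintro ⟨p, hp, e1, e2⟩ ⟨q, hq, e3, e4⟩
    refine ⟨(p.1 - q.1, p.2 - q.2), h.sub _ _ _ _ hp hq, ?_, ?_⟩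
    · rw [map_sub, e1, e3]
    · rw [map_sub, e2, e4]
  totL c := by
    obtain ⟨a, rfl⟩ := h1.1 c
    obtain ⟨a', ha⟩ := h.totL a
    exact ⟨θ' a', (a, a'), ha, rfl, rfl⟩
  totR c' := by
    obtain ⟨a', rfl⟩ := h2.1 c'
    obtain ⟨a, ha⟩ := h.totR a'
    exact ⟨θ a, (a, a'), ha, rfl, rfl⟩
  iff c c' := by
    rintro ⟨p, hp, e1, e2⟩
    change θ p.1 = c at e1
    change θ' p.2 = c' at e2
    rw [AddSubgroup.mem_bot, AddSubgroup.mem_bot, ← e1, ← e2, h1.2, h2.2]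
    exact h.iff _ _ hp

lemma both {Ω Z : Type} [MeasurableSpace Ω] [MeasurableSpace Z] {μ : Measure Ω} [SFinite μ]
    {m : Measure ((Ω × Ω) × Z)} (h : m.map Prod.fst = μ.prod μ) {P : Ω → Prop}
    (hP : ∀ᵐ y ∂μ, P y) : ∀ᵐ z ∂m, P z.1.1 ∧ P z.1.2 := by
  have h1 : ∀ᵐ x ∂(μ.prod μ), P x.1 ∧ P x.2 :=
    (Measure.quasiMeasurePreserving_fst.ae hP).and (Measure.quasiMeasurePreserving_snd.ae hP)
  rw [← h] at h1
  exact ae_of_ae_map measurable_fst.aemeasurable h1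

end SdAux

open SdAux in
theorem xSd : SdS := by
  intro hk G Ω V Γ _ _ _ _ _ _ A θ γ g m2 tr hf hi
  have hm : Measurable fun z : (Ω × Ω) × Arr V => im (θ z.1.1) (θ z.1.2) z.2 :=
    measurable_set_iff.2 fun p => Measurable.exists fun q =>
      ((measurable_set_mem q).comp measurable_snd).and
        (((measurableSet_setOfPred.1 (tr.mθ q.1 p.1)).comp measurable_fst.fst).and
          ((measurableSet_setOfPred.1 (tr.mθ q.2 p.2)).comp measurable_fst.snd))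
  obtain ⟨s, hs, hs'⟩ := hk _ Γ _ hm
  refine ⟨s, hs, ?_⟩
  filter_upwards [hi, both hf tr.sur, both hf tr.tot, both hf tr.resp] with z a b c d
  have key : ∀ x x', (x, x') ∈ z.2 → s z (θ z.1.1 x) = θ z.1.2 x' := fun x x' hx =>
    (hs' z (iso_im a.1 b.1 b.2) _ _).2 ⟨(x, x'), hx, rfl, rfl⟩
  refine ⟨a.1.totL, key, fun i => LinearEquiv.ext fun ξ => ?_⟩
  obtain ⟨x, rfl⟩ := b.1.1 ξ
  obtain ⟨y, hy⟩ := c.1 i x
  obtain ⟨x', hx'⟩ := a.1.totL x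
  obtain ⟨y', hy'⟩ := c.2 i x'
  change s z (γ i (θ z.1.1 x)) = γ i (s z (θ z.1.1 x))
  rw [← d.1 i x y hy, key y y' (a.2 i x y x' y' hy hy' hx'), key x x' hx', d.2 i x' y' hy']

end Pool.Agent.MP_154433_an.T4A
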