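import Pool.Agent.MP_154433_an.t4a.Spec

set_option autoImplicit false

open MeasureTheory ProbabilityTheory Filter Topology Set
open scoped ENNReal

namespace Pool.Agent.MP_154433_an.T4A

open T3A

namespace SelAux

variable {X : Type} [MeasurableSpace X] (μ : Measure X)

theorem half_le [IsProbabilityMeasure μ] {R : X → ℝ≥0∞} (hR : Measurable R) (h1 : ∀ x, R x ≤ 1)
    {δ : ℝ≥0∞} (h : δ ≤ ∫⁻ x, R x ∂μ) : δ / 2 ≤ μ {x | δ / 2 ≤ R x} := by
  have hA : MeasurableSet {x | δ / 2 ≤ R x} := measurableSet_le measurable_const hR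
  have h2 : δ ≤ 1 := h.trans ((lintegral_mono h1).trans (by simp))
  have h3 : δ / 2 ≠ ∞ := ENNReal.div_ne_top (ne_top_of_le_ne_top ENNReal.one_ne_top h2) (by simp)
  have h4 : ∫⁻ x, R x ∂μ ≤ ∫⁻ x, ({x | δ / 2 ≤ R x}.indicator 1 x + δ / 2) ∂μ := by
    refine lintegral_mono fun x => ?_
    by_cases hx : δ / 2 ≤ R x
    · rw [indicator_of_mem (show x ∈ {x | δ / 2 ≤ R x} from hx)]
      exact (h1 x).trans le_self_add
    · exact (not_le.1 hx).le.trans le_add_self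
  rw [lintegral_add_right _ measurable_const, lintegral_indicator_one hA, lintegral_const,
    measure_univ, mul_one] at h4
  refine ENNReal.le_of_add_le_add_right h3 ?_
  rw [ENNReal.add_halves]
  exact h.trans h4

theorem tendsto_ae {F : ℕ → X → ℝ≥0∞} (hF : ∀ i, Measurable (F i)) (m : ℕ)
    (h : ∀ i, m ≤ i → ∫⁻ x, F i x ∂μ ≤ 2⁻¹ ^ i) :
    ∀ᵐ x ∂μ, Tendsto (fun i => F i x) atTop (𝓝 0) := by
  have h1 : ∫⁻ x, ∑' i, F (i + m) x ∂μ ≠ ∞ := by
    rw [lintegral_tsum fun i => (hF _).aemeasurable]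
    refine ne_top_of_le_ne_top ?_ (ENNReal.tsum_le_tsum (g := fun i => (2⁻¹ : ℝ≥0∞) ^ i) fun i =>
      (h _ (Nat.le_add_left _ _)).trans (pow_le_pow_right_of_le_one' (by simp) (Nat.le_add_right _ _)))
    rw [ENNReal.tsum_geometric]
    simp
  filter_upwards [ae_lt_top (Measurable.tsum fun i => hF _) h1] with x hx
  exact (tendsto_add_atTop_iff_nat m).1 (ENNReal.tendsto_atTop_zero_of_tsum_ne_top hx.ne)

theorem freq [IsFiniteMeasure μ] {A : ℕ → Set X} (hA : ∀ i, MeasurableSet (A i)) {ε : ℝ≥0∞}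
    (h : ∀ i, ε ≤ μ (A i)) : ε ≤ μ (⋂ n, ⋃ i ≥ n, A i) := by
  have h1 : Antitone fun n => ⋃ i ≥ n, A i := fun a b hab =>
    biUnion_subset_biUnion_left fun i (hi : b ≤ i) => hab.trans hi
  rw [h1.measure_iInter (fun n => (MeasurableSet.iUnion fun i =>
    MeasurableSet.iUnion fun _ => hA i).nullMeasurableSet) ⟨0, measure_ne_top _ _⟩]
  exact le_iInf fun n => (h n).trans (measure_mono (subset_biUnion_of_mem (u := A) (le_refl n)))

end SelAux

theorem xSel : SelS := by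
  intro X _ μ _ R δ Q hR h1 hδ h2 hQ
  obtain ⟨s, hs, hs'⟩ := extraction_of_frequently_atTop h2
  have h6 := SelAux.freq μ (A := fun i => {x | δ / 2 ≤ R (s i) x})
    (fun i => measurableSet_le measurable_const (hR _))
    fun i => SelAux.half_le μ (hR _) (h1 _) (hs' i)
  obtain ⟨x, hx, h7⟩ := Measure.exists_mem_of_measure_ne_zero_of_ae
    ((ENNReal.half_pos hδ.ne').trans_le h6).ne' (ae_restrict_of_ae hQ)
  refine ⟨x, h7, frequently_atTop.2 fun n => ?_⟩
  obtain ⟨i, hi, h⟩ := mem_iUnion₂.1 (mem_iInter.1 hx n)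
  exact ⟨s i, le_trans hi (hs.id_le i), h⟩

theorem xSub : SubS := by
  intro X K _ _ μ F hF h3
  obtain ⟨f, hf⟩ := Countable.exists_injective_nat K
  have h4 : ∀ i : ℕ, ∃ M, i ≤ M ∧ ∀ k ∈ f ⁻¹' Iic i, ∫⁻ x, F M k x ∂μ ≤ 2⁻¹ ^ i := by
    intro i
    have h5 : (0 : ℝ≥0∞) < 2⁻¹ ^ i := ENNReal.pow_pos (by simp) i
    exact ((eventually_ge_atTop i).and
      ((eventually_all_finite ((finite_Iic i).preimage hf.injOn)).2 fun k _ =>
        (h3 k).eventually (Iic_mem_nhds h5))).exists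
  choose s hs hs' using h4
  exact ⟨s, tendsto_atTop_mono hs tendsto_id,
    ae_all_iff.2 fun k => SelAux.tendsto_ae μ (fun i => hF _ k) (f k) fun i hi => hs' i k hi⟩

end Pool.Agent.MP_154433_an.T4A
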