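import Pool.Agent.MP_154433_an.t4a.Spec

/-! Solution sets of exponential relations have small weight. -/

set_option autoImplicit false
set_option linter.unusedVariables false

open MeasureTheory ProbabilityTheory Filter Topology Set
open scoped ENNReal

namespace Pool.Agent.MP_154433_an.T4A

open T3A

noncomputable section

namespace SpAux

open T4x (Thin Lau mon cls)

/-- a set that is covered by finitely many thin sets is thin -/
lemma thin_cover {J : Type} [Fintype J] {ε : ℝ} {H : ℕ} {A : Set ℤ} {C : J → Set ℤ}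
    (h : ∀ j, Thin ε H (C j)) (hA : ∀ d ∈ A, ∃ j, d ∈ C j) :
    Thin (Fintype.card J * ε) H A := by
  classical
  intro n
  have h1 : ((Finset.range H).filter fun h : ℕ => n + h ∈ A) ⊆
      Finset.univ.biUnion fun j => (Finset.range H).filter fun h : ℕ => n + h ∈ C j := by
    intro x hx
    obtain ⟨j, hj⟩ := hA _ (Finset.mem_filter.1 hx).2
    exact Finset.mem_biUnion.2 ⟨j, Finset.mem_univ _,
      Finset.mem_filter.2 ⟨(Finset.mem_filter.1 hx).1, hj⟩⟩
  have h2 := (Finset.card_le_card h1).trans Finset.card_biUnion_le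
  have h3 : ((∑ j, ((Finset.range H).filter fun h : ℕ => n + h ∈ C j).card : ℕ) : ℝ) ≤
      ∑ _j : J, ε * H := by
    rw [Nat.cast_sum]
    exact Finset.sum_le_sum fun j _ => by convert h j n
  rw [Finset.sum_const, Finset.card_univ, nsmul_eq_mul, ← mul_assoc] at h3
  refine le_trans ?_ h3
  convert (Nat.cast_le (α := ℝ)).2 h2

variable {Q A : Type} [CommGroup Q] [AddCommGroup A] [DistribMulAction Q A] {r s : ℕ}

/-- the action of the ring of Laurent polynomials -/
def act (A : Type) [AddCommGroup A] [DistribMulAction Q A]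
    (φ : Multiplicative (Fin r → ℤ) →* Q) : Lau r →ₐ[ℤ] Module.End ℤ A :=
  AddMonoidAlgebra.lift ℤ (Module.End ℤ A) (Fin r → ℤ) ((DistribMulAction.toModuleEnd ℤ A).comp φ)

lemma act_single (φ : Multiplicative (Fin r → ℤ) →* Q) (v : Fin r → ℤ) (x : A) :
    act A φ (AddMonoidAlgebra.single v 1) x = φ (Multiplicative.ofAdd v) • x := by
  rw [act, AddMonoidAlgebra.lift_single, one_smul]
  rfl

/-- the relations between the entries of `w` -/
def rel (φ : Multiplicative (Fin r → ℤ) →* Q) (w : Fin s → A) :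
    Submodule (Lau r) (Fin s → Lau r) where
  carrier := {p | ∑ k, act A φ (p k) (w k) = 0}
  zero_mem' := by simp
  add_mem' := fun {p q} hp hq => by
    simp only [mem_ofPred_eq, Pi.add_apply, map_add, LinearMap.add_apply,
      Finset.sum_add_distrib] at hp hq ⊢
    rw [hp, hq, add_zero]
  smul_mem' := fun c p hp => by
    simp only [mem_ofPred_eq, Pi.smul_apply, smul_eq_mul, map_mul, Module.End.mul_apply] at hp ⊢
    rw [← map_sum, hp, map_zero]

lemma mem_cls (φ : Multiplicative (Fin r → ℤ) →* Q) (w : Fin s → A) (m : Fin s → Fin r → ℤ)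
    (M : ℕ) (d0 d : ℤ) : d ∈ cls (rel φ w) m M d0 ↔ |d| ≤ M ∧
      ∑ k, φ (Multiplicative.ofAdd fun i => d * m k i / M) • w k =
        ∑ k, φ (Multiplicative.ofAdd fun i => d0 * m k i / M) • w k := by
  refine and_congr_right fun _ => ?_
  show ∑ k, act A φ (mon m M d k - mon m M d0 k) (w k) = 0 ↔ _
  simp only [map_sub, LinearMap.sub_apply, Finset.sum_sub_distrib, sub_eq_zero, mon, act_single]

end SpAux

open SpAux T4x in
theorem xSp : SpS := by
  classical
  intro zl qh Q A I _ _ _ _ a K ν hν nd z k0 hz t ht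
  obtain ⟨F, hF, hq⟩ := nd.quasi
  obtain ⟨r, L, φ, B, m, hB, hm⟩ := qh Q I a F hF hq
  have : Fintype B := hB.fintype
  let e := (Fintype.equivFin I).symm
  obtain ⟨c, hc⟩ : ∃ c : ℕ, c = Fintype.card (I → B) := ⟨_, rfl⟩
  obtain ⟨ε, ε0, hε⟩ : ∃ ε : ℝ, 0 < ε ∧ c * ENNReal.ofReal (2 * ε) ≤ t := by
    rcases eq_or_ne t ⊤ with rfl | h
    · exact ⟨1, one_pos, le_top⟩
    · have h1 := ENNReal.toReal_pos ht.ne' h
      refine ⟨t.toReal / (2 * (c + 1)), by positivity, ?_⟩
      rw [← ENNReal.ofReal_natCast, ← ENNReal.ofReal_mul (by positivity)]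
      refine ENNReal.ofReal_le_of_le_toReal ?_
      rw [← mul_assoc, ← mul_div_assoc, div_le_iff₀ (by positivity)]
      nlinarith
  have sp : ∀ᶠ H : ℕ in atTop, ∀ g g1 : I → B, ∀ b : A, Thin (ε / (c + 1)) H
      {d | ∑ k, a k d • (((g1 k : Q)⁻¹ * g k) • z k) = b} :=
    eventually_all.2 fun g => eventually_all.2 fun g1 =>
      zl Q A I a K nd (fun k => ((g1 k : Q)⁻¹ * g k) • z k) k0
        (fun h => hz ((smul_eq_zero_iff_eq _).1 h)) _ (by positivity)
  obtain ⟨H, hH, H1⟩ := (sp.and (eventually_ge_atTop 1)).exists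
  have ev : ∀ᶠ M : ℕ in atTop, ∀ g : I → B, _ := eventually_all.2 fun g =>
    hν.2 r _ L (rel φ fun k => (g (e k) : Q) • z (e k)) ε H ε0 H1
  filter_upwards [ev, hν.1, eventually_ge_atTop 1] with M h1 h2 M1 b
  obtain ⟨m1, m2⟩ := hm M M1
  let S : (I → B) → Set ℤ := fun g => {d | |d| ≤ M ∧
    ∑ k, φ (Multiplicative.ofAdd fun i => d * m M k i / M) • ((g k : Q) • z k) = b}
  have pick : ∀ d : ℤ, |d| ≤ M → ∃ g : I → B, ∀ k,
      a k d = φ (Multiplicative.ofAdd fun i => d * m M k i / M) * g k := fun d hd => by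
    choose g u v using fun k => m2 k d hd
    exact ⟨fun k => ⟨g k, u k⟩, v⟩
  have hS : ∀ g, ν M (S g) ≤ ENNReal.ofReal (2 * ε) := fun g => by
    rcases (S g).eq_empty_or_nonempty with h | ⟨d0, d1, d2⟩
    · rw [h, measure_empty]; exact zero_le
    have eq : cls (rel φ fun k => (g (e k) : Q) • z (e k)) (fun k => m M (e k)) M d0 = S g := by
      ext d
      rw [mem_cls,
        e.sum_comp fun k => φ (Multiplicative.ofAdd fun i => d * m M k i / M) • ((g k : Q) • z k),
        e.sum_comp fun k => φ (Multiplicative.ofAdd fun i => d0 * m M k i / M) • ((g k : Q) • z k),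
        d2]
      rfl
    have h3 := h1 g (fun k => m M (e k)) d0 (fun k i => m1 _ i) d1
    rw [eq] at h3
    refine h3 fun n => (thin_cover (fun g1 => hH g g1 b) (fun d hd => ?_) n).trans ?_
    · obtain ⟨g1, h4⟩ := pick d hd.1
      refine ⟨g1, Eq.trans (Finset.sum_congr rfl fun k _ => ?_) hd.2⟩
      rw [h4, smul_smul, smul_smul, mul_assoc, mul_inv_cancel_left]
    · rw [← hc]
      refine mul_le_mul_of_nonneg_right ?_ (Nat.cast_nonneg _)
      rw [← mul_div_assoc, div_le_iff₀ (by positivity)]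
      nlinarith
  have sub : {d | ∑ k, a k d • z k = b} ⊆ {d | ¬ |d| ≤ M} ∪ ⋃ g, S g := fun d hd => by
    by_cases h : |d| ≤ M
    · obtain ⟨g, h4⟩ := pick d h
      refine Or.inr (mem_iUnion.2 ⟨g, h, Eq.trans (Finset.sum_congr rfl fun k _ => ?_) hd⟩)
      rw [h4, mul_smul]
    · exact Or.inl h
  refine ((measure_mono sub).trans (measure_union_le _ _)).trans ?_
  rw [h2, zero_add]
  refine (measure_iUnion_fintype_le _ _).trans ((Finset.sum_le_sum fun g _ => hS g).trans ?_)
  rwa [Finset.sum_const, Finset.card_univ, nsmul_eq_mul, ← hc]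

end

end Pool.Agent.MP_154433_an.T4A
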