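import Pool.Agent.MP_154433_an.t4a.Defs

/-! The algebraic step for group actions: statements of the rows. -/

set_option autoImplicit false
set_option linter.unusedVariables false

open MeasureTheory ProbabilityTheory Filter Topology Set
open scoped ENNReal

namespace Pool.Agent.MP_154433_an.T4A

open T3A

noncomputable section

/-! ### the kernel of the invariant sets -/

def KexS : Prop :=
  ∀ (G Ω : Type) [AddCommGroup G] [Countable G] [MeasurableSpace Ω] [StandardBorelSpace Ω]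
    (μ : Measure Ω) [IsProbabilityMeasure μ] (T : Act G Ω), MP T μ → ∃ κ : Kernel Ω Ω, ErgK μ T κ

def KaS : Prop :=
  ∀ (G Ω : Type) [AddCommGroup G] [Countable G] [MeasurableSpace Ω] [StandardBorelSpace Ω]
    (μ : Measure Ω) [IsProbabilityMeasure μ] (T : Act G Ω) (κ : Kernel Ω Ω), MP T μ → ErgK μ T κ →
    κ ∘ₘ μ = μ ∧ (∀ᵐ a ∂μ, MP T (κ a)) ∧
    ∀ B, MeasurableSet B → (∀ n, tz T n ⁻¹' B = B) → ∀ᵐ a ∂μ, a ∈ B → κ a Bᶜ = 0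

def KbS : Prop :=
  ∀ (G Ω : Type) [AddCommGroup G] [Countable G] [MeasurableSpace Ω] (μ : Measure Ω)
    [IsProbabilityMeasure μ] (T : Act G Ω) (κ : Kernel Ω Ω), MP T μ → ErgK μ T κ →
    (∀ᵐ a ∂μ, MP T (κ a)) → (κ ×ₖ κ) ∘ₘ μ = μ ⊗ₘ κ ∧
    ∀ i j, MeasurePreserving (Prod.map (tz T i) (tz T j)) (μ ⊗ₘ κ) (μ ⊗ₘ κ)

def KcS : Prop :=
  ∀ (G Ω : Type) [AddCommGroup G] [Countable G] [MeasurableSpace Ω] (μ : Measure Ω)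
    [IsProbabilityMeasure μ] (T : Act G Ω) (κ : Kernel Ω Ω), MP T μ → ErgK μ T κ →
    ∀ D : Set (Ω × Ω), MeasurableSet D → (∀ n, Prod.map id (tz T n) ⁻¹' D = D) →
    ∀ᵐ y ∂μ, κ y (Prod.mk y ⁻¹' D) = 0 ∨ κ y (Prod.mk y ⁻¹' D)ᶜ = 0

def KdS : Prop :=
  ∀ (G Y Ω : Type) [AddCommGroup G] [Countable G] [MeasurableSpace Y] [MeasurableSpace Ω]
    (μ' : Measure Y) [IsProbabilityMeasure μ'] (μ : Measure Ω) [IsProbabilityMeasure μ]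
    (T' : Act G Y) (T : Act G Ω) (κ' : Kernel Y Y) (κ : Kernel Ω Ω) (p : Y → Ω), MP T' μ' → MP T μ →
    ErgK μ' T' κ' → ErgK μ T κ → MeasurePreserving p μ' μ →
    (∀ n y, p (tz T' n y) = tz T n (p y)) → (μ' ⊗ₘ κ').map (Prod.map p p) = μ ⊗ₘ κ

/-! ### limit laws and their kernels -/

def W1S : Prop := ExtS →
  ∀ (G Ω V J : Type) [AddCommGroup G] [MeasurableSpace Ω] [AddCommGroup V] [Countable V]
    (B : Bun G Ω V J) (j : J) (w : Measure ((Ω × Ω) × Arr V)), IsLim B j w → H0 B →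
    (∀ n, w.map (B.sA n n) = w) ∧ w.map (fun z => z.1.1) = B.μ

def W2S : Prop :=
  ∀ (G Ω V J : Type) [AddCommGroup G] [MeasurableSpace Ω] [AddCommGroup V] [Countable V]
    (B : Bun G Ω V J) (j : J) (w : Measure ((Ω × Ω) × Arr V)), IsLim B j w → H0 B →
    IsoW B.toBase w

def PhbS : Prop :=
  ∀ (X Z : Type) [MeasurableSpace X] [MeasurableSpace Z] [StandardBorelSpace Z] [Nonempty Z]
    (L : Measure (X × Z)) [IsFiniteMeasure L], ∃ Φ : Kernel X Z, IsMarkovKernel Φ ∧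
      L = L.map Prod.fst ⊗ₘ Φ ∧ ∀ (R : X ≃ᵐ X) (Q : Z ≃ᵐ Z), L.map (Prod.map R Q) = L →
        ∀ᵐ x ∂(L.map Prod.fst), Φ (R x) = (Φ x).map Q

def KwS : Prop := PhbS →
  ∀ (G Ω V J : Type) [AddCommGroup G] [MeasurableSpace Ω] [StandardBorelSpace Ω] [AddCommGroup V]
    [Countable V] (B : Bun G Ω V J) (j : J) (w : Measure ((Ω × Ω) × Arr V)), IsLim B j w →
    Mix G B.ν B.U → (∀ n, w.map (B.sA n n) = w) → w.map (fun z => z.1.1) = B.μ →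
    IsoW B.toBase w → ∃ K, wOf B.μ K = w ∧ KD B.toBase {B.a j, B.b j} K

def WkS : Prop :=
  ∀ (G Ω V : Type) [AddCommGroup G] [MeasurableSpace Ω] [AddCommGroup V] [Countable V]
    (A : Base G Ω V) (H : Set G) (K : Kernel Ω (Ω × Arr V)), KD A H K → WD A (wOf A.μ K)

def WaS : Prop :=
  ∀ (G Ω V : Type) [AddCommGroup G] [Countable G] [MeasurableSpace Ω] [AddCommGroup V]
    [Countable V] (A : Base G Ω V) (H : Set G) (K : Kernel Ω (Ω × Arr V)) (κ : Kernel Ω Ω),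
    KD A H K → AddSubgroup.closure H = ⊤ → ErgK A.μ A.T κ →
    (wOf A.μ K).map Prod.fst = A.μ ⊗ₘ κ

/-! ### composition -/

def CeS : Prop :=
  ∀ (G Ω V : Type) [AddCommGroup G] [MeasurableSpace Ω] [AddCommGroup V] [Countable V]
    (A : Base G Ω V) (H1 H2 : Set G) (K1 K2 : Kernel Ω (Ω × Arr V)), KD A H1 K1 → KD A H2 K2 →
    ∀ n, ∀ᵐ y ∂A.μ,
      star K1 K2 (tz A.T n y) = (star K1 K2 y).map (Prod.map (tz A.T n) (sh A.σ n n))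

def CiS : Prop :=
  ∀ (G Ω V : Type) [AddCommGroup G] [MeasurableSpace Ω] [AddCommGroup V] [Countable V]
    (A : Base G Ω V) (H1 H2 : Set G) (K1 K2 : Kernel Ω (Ω × Arr V)), KD A H1 K1 → KD A H2 K2 →
    (∀ h ∈ H1 ∪ H2, ∀ C, MeasurableSet C → ∀ᵐ y ∂A.μ,
      star K1 K2 (tz A.T h y) (Prod.fst ⁻¹' C) = star K1 K2 y (Prod.fst ⁻¹' C)) ∧
    ∀ C D, MeasurableSet C → MeasurableSet D → (∀ h ∈ H1 ∪ H2, tz A.T h ⁻¹' D =ᵐ[A.μ] D) →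
      ∫⁻ y in D, star K1 K2 y (Prod.fst ⁻¹' C) ∂A.μ = A.μ (C ∩ D)

def TriS : Prop :=
  ∀ (Ω V : Type) [MeasurableSpace Ω] [AddCommGroup V] [Countable V] (μ : Measure Ω)
    [IsProbabilityMeasure μ] (K1 K2 : Kernel Ω (Ω × Arr V)) [IsMarkovKernel K1] [IsMarkovKernel K2],
    (wOf μ K1).map (fun z => z.1.2) = μ → Tri (wOf μ K1) (wOf μ K2) (wOf μ (star K1 K2))

def CisS : Prop :=
  ∀ (G Ω V : Type) [AddCommGroup G] [MeasurableSpace Ω] [AddCommGroup V] [Countable V]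
    (A : Base G Ω V) (w1 w2 w3 : Measure ((Ω × Ω) × Arr V)), Tri w1 w2 w3 → IsoW A w1 →
    IsoW A w2 → IsoW A w3

def CflS : Prop :=
  ∀ (G Ω V J : Type) [AddCommGroup G] [MeasurableSpace Ω] [AddCommGroup V] [Countable V]
    (B : Bun G Ω V J) (w1 w2 w3 : Measure ((Ω × Ω) × Arr V)), Tri w1 w2 w3 →
    (∀ n, MeasurePreserving (B.sA n n) w1 w1) → IsoW B.toBase w1 → IsoW B.toBase w2 →
    FlatM B w1 → FlatM B w2 → FlatM B w3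

def CitS : Prop :=
  ∀ (Ω V : Type) [MeasurableSpace Ω] [AddCommGroup V] [Countable V]
    (w1 w2 w3 : Measure ((Ω × Ω) × Arr V)) (g : ℕ → Ω → Arr V), Tri w1 w2 w3 →
    (∀ i, Measurable (g i)) →
    (∀ᵐ z ∂w1, ∀ i, (g i z.1.1).Nonempty → ∀ c, ∃ c', (c, c') ∈ g i z.1.2) →
    ItwW g w1 → ItwW g w2 → ItwW g w3

def CpoS : Prop := WkS →
  ∀ (G Ω V : Type) [AddCommGroup G] [MeasurableSpace Ω] [AddCommGroup V] [Countable V]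
    (A : Base G Ω V) (H1 H2 : Set G) (K1 K2 : Kernel Ω (Ω × Arr V)), KD A H1 K1 → KD A H2 K2 →
    ∀ᵐ y ∂A.μ, y ∈ Sup K1 → y ∈ Sup K2 → y ∈ Sup (star K1 K2)

def CprS : Prop :=
  ∀ (Y Ω V : Type) [MeasurableSpace Y] [MeasurableSpace Ω] [AddCommGroup V] [Countable V]
    (μ' : Measure Y) [IsProbabilityMeasure μ'] (p : Y → Ω) (K1' K2' : Kernel Y (Y × Arr V))
    [IsMarkovKernel K1'] [IsMarkovKernel K2'] (K1 K2 : Kernel Ω (Ω × Arr V)) [IsMarkovKernel K1]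
    [IsMarkovKernel K2], Measurable p → (wOf μ' K1').map (fun z => z.1.2) = μ' →
    PrK μ' p K1' K1 → PrK μ' p K2' K2 → PrK μ' p (star K1' K2') (star K1 K2)

def PkS : Prop :=
  ∀ (G Y Ω V J : Type) [AddCommGroup G] [MeasurableSpace Y] [MeasurableSpace Ω]
    [StandardBorelSpace Ω] [AddCommGroup V] [Countable V] (B' : Bun G Y V J) (B : Bun G Ω V J)
    (p : Y → Ω) (j : J) (K' : Kernel Y (Y × Arr V)) [IsMarkovKernel K'] (K : Kernel Ω (Ω × Arr V))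
    [IsMarkovKernel K], Ext B' B p → IsLim B' j (wOf B'.μ K') → IsLim B j (wOf B.μ K) →
    PrK B'.μ p K' K

/-! ### arrows between all pairs -/

def LamS : Prop :=
  ∀ (G Ω V : Type) [AddCommGroup G] [Countable G] [MeasurableSpace Ω] [AddCommGroup V]
    [Countable V] (A : Base G Ω V) (κ : Kernel Ω Ω) (w : Measure ((Ω × Ω) × Arr V))
    [IsProbabilityMeasure w], ErgP A.μ A.T κ → (∀ n, MeasurePreserving (A.sA n n) w w) →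
    w.map Prod.fst = A.μ ⊗ₘ κ → LamP A κ w

/-- properties that are kept by source shifts pass from `w` to the mixture -/
def LaeS : Prop :=
  ∀ (G Ω V : Type) [AddCommGroup G] [Countable G] [MeasurableSpace Ω] [AddCommGroup V]
    [Countable V] (A : Base G Ω V) (κ : Kernel Ω Ω) (w : Measure ((Ω × Ω) × Arr V)), LamP A κ w →
    (IsoW A w → ∀ᵐ z ∂(Lam A w), Iso (A.N z.1.1) (A.N z.1.2) z.2) ∧
    ∀ g : ℕ → Ω → Arr V, (∀ i, Measurable (g i)) →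
      (∀ i n y, g i (tz A.T n y) = sh A.σ n n (g i y)) → ItwW g w → ItwW g (Lam A w)

def PhaS : Prop :=
  ∀ (G Ω : Type) [AddCommGroup G] [Countable G] [MeasurableSpace Ω] (μ : Measure Ω)
    [IsProbabilityMeasure μ] (T : Act G Ω) (κ : Kernel Ω Ω) (L0 : Measure (Ω × Ω))
    [IsFiniteMeasure L0], ErgP μ T κ → L0 ≪ μ ⊗ₘ κ →
    (∀ i j E, MeasurableSet E → L0 E = 0 → L0 (Prod.map (tz T i) (tz T j) ⁻¹' E) = 0) →
    ∃ Ip : Set Ω, MeasurableSet Ip ∧ (∀ n, tz T n ⁻¹' Ip = Ip) ∧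
      (μ ⊗ₘ κ).restrict (Ip ×ˢ univ) ≪ L0 ∧ L0 ≪ (μ ⊗ₘ κ).restrict (Ip ×ˢ univ)

def PhcS : Prop := PhaS → PhbS →
  ∀ (G Ω V : Type) [AddCommGroup G] [Countable G] [MeasurableSpace Ω] [AddCommGroup V]
    [Countable V] (A : Base G Ω V) (κ : Kernel Ω Ω) (w : Measure ((Ω × Ω) × Arr V)),
    ErgP A.μ A.T κ → LamP A κ w → ∃ Ip Φ, PhiD A κ (Lam A w) Ip Φ

/-! ### flat squares -/

def F2S : Prop :=
  ∀ (G Ω V J : Type) [AddCommGroup G] [MeasurableSpace Ω] [AddCommGroup V] [Countable V]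
    (B : Bun G Ω V J) (w : Measure ((Ω × Ω) × Arr V)), FlatM B w → H0 B →
    w.map (fun z => z.1.1) = B.μ → ∀ i, FlatM B (w.map (B.sA i 0))

def F3S : Prop :=
  ∀ (G Ω V J : Type) [AddCommGroup G] [Countable G] [MeasurableSpace Ω] [AddCommGroup V]
    [Countable V] (B : Bun G Ω V J) (w : Measure ((Ω × Ω) × Arr V)) [IsProbabilityMeasure w],
    (∀ i, FlatM B (w.map (B.sA i 0))) → FlatM B (Lam B.toBase w)

def F4S : Prop :=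
  ∀ (G Ω V J : Type) [AddCommGroup G] [MeasurableSpace Ω] [AddCommGroup V] [Countable V]
    (B : Bun G Ω V J) (κ : Kernel Ω Ω) [IsMarkovKernel κ] (L : Measure ((Ω × Ω) × Arr V))
    [IsFiniteMeasure L] (Ip : Set Ω) (Φ : Kernel (Ω × Ω) (Arr V)), PhiD B.toBase κ L Ip Φ →
    FlatM B L → FlatM B (Lf B.toBase κ Φ)

/-! ### the extension by samples -/

def IidS : Prop :=
  ∀ (G Ω Z : Type) [AddCommGroup G] [MeasurableSpace Ω] [MeasurableSpace Z] [StandardBorelSpace Z]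
    [Nonempty Z] (μ : Measure Ω) [IsProbabilityMeasure μ] (T : Act G Ω) (R : Act G Z)
    (Ξ : Kernel Ω Z) [IsMarkovKernel Ξ], MP T μ →
    (∀ n, ∀ᵐ y ∂μ, Ξ (tz T n y) = (Ξ y).map (tz R n)) →
    ∃ (μ' : Measure (Ω × (ℕ → Z))) (T' : Act G (Ω × (ℕ → Z))),
      IsProbabilityMeasure μ' ∧ (∀ n x, tz T' n x = (tz T n x.1, fun i => tz R n (x.2 i))) ∧
      MP T' μ' ∧ (∀ i, μ'.map (fun x => (x.1, x.2 i)) = μ ⊗ₘ Ξ) ∧
      ∀ E, MeasurableSet E → ∀ᵐ x ∂μ', Ξ x.1 E ≠ 0 → ∃ i, x.2 i ∈ E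

def XiS : Prop :=
  ∀ (G Ω V : Type) [AddCommGroup G] [Countable G] [MeasurableSpace Ω] [AddCommGroup V]
    [Countable V] (A : Base G Ω V) (κ : Kernel Ω Ω) (Φ : Kernel (Ω × Ω) (Arr V))
    [IsMarkovKernel Φ], ErgP A.μ A.T κ →
    (∀ n, ∀ᵐ z ∂(A.μ ⊗ₘ κ), Φ (tz A.T n z.1, tz A.T n z.2) = (Φ z).map (sh A.σ n n)) →
    (∀ n, ∀ᵐ y ∂A.μ, Xi κ Φ (tz A.T n y) =
      (Xi κ Φ y).map (Prod.map (tz A.T n) (Prod.map (sh A.σ n n) (sh A.σ n n)))) ∧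
    (A.μ ⊗ₘ Xi κ Φ).map (fun x => ((x.1, x.2.1), x.2.2.1)) = Lf A κ Φ ∧
    (A.μ ⊗ₘ Xi κ Φ).map (fun x => ((x.1, x.2.1), x.2.2.2)) = Lf A κ Φ ∧
    ∀ P P' : Set (Arr V), MeasurableSet P → MeasurableSet P' → ∀ᵐ z ∂(A.μ ⊗ₘ κ),
      Φ z P ≠ 0 → Φ z P' ≠ 0 → Xi κ Φ z.1 {x | x.2.1 ∈ P ∧ x.2.2 ∈ P'} ≠ 0

def HatS : Prop := IidS → XiS →
  ∀ (G Ω V J : Type) [AddCommGroup G] [Countable G] [MeasurableSpace Ω] [StandardBorelSpace Ω]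
    [AddCommGroup V] [Countable V] (B : Bun G Ω V J) (κ : Kernel Ω Ω)
    (L : Measure ((Ω × Ω) × Arr V)) (Ip : Set Ω) (Φ : Kernel (Ω × Ω) (Arr V)), ErgP B.μ B.T κ →
    PhiD B.toBase κ L Ip Φ →
    ∃ (Y : Type) (_ : MeasurableSpace Y) (_ : StandardBorelSpace Y) (B' : Bun G Y V J) (p : Y → Ω)
      (e : ℕ → Y → Ω) (S S' : ℕ → Y → Arr V), Smp B' B p κ Φ e S S'

def PullS : Prop :=
  ∀ (G Y Ω V J : Type) [AddCommGroup G] [MeasurableSpace Y] [MeasurableSpace Ω] [AddCommGroup V]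
    [Countable V] [Fintype J] (B' : Bun G Y V J) (B : Bun G Ω V J) (p : Y → Ω), Ext B' B p →
    (H0 B' ↔ H0 B) ∧ (Flat B' ↔ Flat B) ∧ (∀ D δ, Rel B' D δ ↔ Rel B D δ) ∧
      ∀ D K, B'.Dec D K ↔ B.Dec D K

def PushS : Prop :=
  ∀ (G X V J : Type) [AddCommGroup G] [Countable G] [MeasurableSpace X] [AddCommGroup V]
    [Countable V] [Fintype J] (B' : Bun G X V J),
    ∃ (Ω : Type) (_ : MeasurableSpace Ω) (_ : StandardBorelSpace Ω) (B : Bun G Ω V J) (p : X → Ω),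
      Ext B' B p

def IntS : Prop :=
  ∀ (G Y Ω V J : Type) [AddCommGroup G] [MeasurableSpace Y] [MeasurableSpace Ω] [AddCommGroup V]
    [Countable V] (B' : Bun G Y V J) (B : Bun G Ω V J) (p : Y → Ω) (κ : Kernel Ω Ω)
    (Φ : Kernel (Ω × Ω) (Arr V)) (e : ℕ → Y → Ω) (S S' : ℕ → Y → Arr V) (j : J)
    (w' : Measure ((Y × Y) × Arr V)), Smp B' B p κ Φ e S S' → FlatM B (Lf B.toBase κ Φ) →
    IsLim B' j w' → ItwW (fun i y => loop (S i y) (S' i y)) w'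

def PrjS : Prop :=
  ∀ (G Y Ω V J : Type) [AddCommGroup G] [Countable G] [MeasurableSpace Y] [MeasurableSpace Ω]
    [AddCommGroup V] [Countable V] (B' : Bun G Y V J) (B : Bun G Ω V J) (p : Y → Ω)
    (κ' : Kernel Y Y) (κ : Kernel Ω Ω) (K' : Kernel Y (Y × Arr V)) [IsMarkovKernel K']
    (K : Kernel Ω (Ω × Arr V)) [IsMarkovKernel K], Ext B' B p → PrK B'.μ p K' K →
    LamP B'.toBase κ' (wOf B'.μ K') → LamP B.toBase κ (wOf B.μ K) →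
    ∀ E, MeasurableSet E → Lam B.toBase (wOf B.μ K) E = 0 →
      Lam B'.toBase (wOf B'.μ K') (proj p ⁻¹' E) = 0

/-- the loops are isomorphisms over `Ip` and empty elsewhere -/
def G5S : Prop :=
  ∀ (G Y Ω V J : Type) [AddCommGroup G] [MeasurableSpace Y] [MeasurableSpace Ω] [AddCommGroup V]
    [Countable V] (B' : Bun G Y V J) (B : Bun G Ω V J) (p : Y → Ω) (κ : Kernel Ω Ω)
    [IsMarkovKernel κ] (L : Measure ((Ω × Ω) × Arr V)) (Ip : Set Ω) (Φ : Kernel (Ω × Ω) (Arr V))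
    (e : ℕ → Y → Ω) (S S' : ℕ → Y → Arr V), Smp B' B p κ Φ e S S' → PhiD B.toBase κ L Ip Φ →
    (∀ᵐ z ∂L, Iso (B.N z.1.1) (B.N z.1.2) z.2) →
    ∀ᵐ y ∂B'.μ, (p y ∈ Ip → ∀ i, Iso (B'.N y) (B'.N y) (loop (S i y) (S' i y))) ∧
      (p y ∉ Ip → ∀ i, loop (S i y) (S' i y) = ∅)

def G3S : Prop :=
  ∀ (G Y Ω V J : Type) [AddCommGroup G] [MeasurableSpace Y] [MeasurableSpace Ω] [AddCommGroup V]
    [Countable V] (B' : Bun G Y V J) (B : Bun G Ω V J) (p : Y → Ω) (κ' : Kernel Y Y)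
    [IsMarkovKernel κ'] (κ : Kernel Ω Ω) [IsMarkovKernel κ] (L' : Measure ((Y × Y) × Arr V))
    (L : Measure ((Ω × Ω) × Arr V)) (Ip' : Set Y) (Ip : Set Ω) (Φ' : Kernel (Y × Y) (Arr V))
    (Φ : Kernel (Ω × Ω) (Arr V)), Measurable p → PhiD B'.toBase κ' L' Ip' Φ' →
    PhiD B.toBase κ L Ip Φ → (∀ E, MeasurableSet E → L E = 0 → L' (proj p ⁻¹' E) = 0) →
    ∀ᵐ y ∂B'.μ, y ∈ Ip' → p y ∈ Ip

def G4S : Prop :=
  ∀ (G Y Ω V J : Type) [AddCommGroup G] [MeasurableSpace Y] [MeasurableSpace Ω] [AddCommGroup V]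
    [Countable V] (B' : Bun G Y V J) (B : Bun G Ω V J) (p : Y → Ω) (κ' : Kernel Y Y)
    [IsMarkovKernel κ'] (κ : Kernel Ω Ω) [IsMarkovKernel κ] (L' : Measure ((Y × Y) × Arr V))
    (L : Measure ((Ω × Ω) × Arr V)) (Ip' : Set Y) (Ip : Set Ω) (Φ' : Kernel (Y × Y) (Arr V))
    (Φ : Kernel (Ω × Ω) (Arr V)) (e : ℕ → Y → Ω) (S S' : ℕ → Y → Arr V),
    Smp B' B p κ Φ e S S' → PhiD B'.toBase κ' L' Ip' Φ' → PhiD B.toBase κ L Ip Φ →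
    (∀ E, MeasurableSet E → L E = 0 → L' (proj p ⁻¹' E) = 0) →
    (B'.μ ⊗ₘ κ').map (Prod.map p p) = B.μ ⊗ₘ κ →
    (∀ᵐ z ∂(Lp B'.toBase κ' Ip' Φ'), ∀ a ∈ z.2, ∀ b ∈ z.2,
      Φ (p z.1.1, p z.1.2) {R | a ∈ R ∧ b ∈ R} ≠ 0) ∧
    ∀ᵐ z ∂(B'.μ ⊗ₘ κ'), ∀ a b a' b' : V × V, Φ (p z.1, p z.2) {R | a ∈ R ∧ b ∈ R} ≠ 0 →
      Φ (p z.1, p z.2) {R | a' ∈ R ∧ b' ∈ R} ≠ 0 → a.2 = a'.2 → b.2 = b'.2 →
      ∃ i, (a.1, a'.1) ∈ loop (S i z.1) (S' i z.1) ∧ (b.1, b'.1) ∈ loop (S i z.1) (S' i z.1)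

def RliS : Prop :=
  ∀ (G Ω V J : Type) [AddCommGroup G] [Countable G] [MeasurableSpace Ω] [AddCommGroup V]
    [Countable V] [Fintype J] (B : Bun G Ω V J) (κ : Kernel Ω Ω) [IsMarkovKernel κ]
    (K : J → Kernel Ω (Ω × Arr V)) [∀ j, IsMarkovKernel (K j)] (K0 : Kernel Ω (Ω × Arr V))
    [IsMarkovKernel K0] (Ip : Set Ω) (Φ : Kernel (Ω × Ω) (Arr V)) (D : RD G V) (δ : ℝ≥0∞),
    (∀ j, IsLim B j (wOf B.μ (K j))) → (∀ᵐ y ∂B.μ, (∀ j, y ∈ Sup (K j)) → y ∈ Sup K0) →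
    LamP B.toBase κ (wOf B.μ K0) → PhiD B.toBase κ (Lam B.toBase (wOf B.μ K0)) Ip Φ → 0 < δ →
    Rel B D δ → ∀ᶠ M in (B.U : Filter ℕ), δ / 2 ≤ B.P M (B.relS D ∩ {z | z.2 ∈ Ip})

/-! ### one base point -/

def T1S : Prop :=
  ∀ (G Ω V : Type) [AddCommGroup G] [Countable G] [MeasurableSpace Ω] [AddCommGroup V]
    [Countable V] (A : Base G Ω V) (κ : Kernel Ω Ω) (L : Measure ((Ω × Ω) × Arr V)) (Ip : Set Ω)
    (Φ : Kernel (Ω × Ω) (Arr V)), ErgP A.μ A.T κ → PhiD A κ L Ip Φ →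
    (∀ Q : (Ω × Ω) × Arr V → Prop, (∀ᵐ z ∂(Lp A κ Ip Φ), Q z) →
      ∀ᵐ a ∂A.μ, a ∈ Ip → ∀ᵐ z ∂(((κ a).prod (κ a)) ⊗ₘ Φ), Q z) ∧
    ∀ᵐ a ∂A.μ, ∀ n,
      MeasurePreserving (A.sA n n) (((κ a).prod (κ a)) ⊗ₘ Φ) (((κ a).prod (κ a)) ⊗ₘ Φ)

def T2S : Prop :=
  ∀ (G Ω V : Type) [AddCommGroup G] [Countable G] [MeasurableSpace Ω] [AddCommGroup V]
    [Countable V] (A : Base G Ω V) (κ : Kernel Ω Ω) (Ip : Set Ω) (Φ : Kernel (Ω × Ω) (Arr V))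
    [IsMarkovKernel Φ], ErgP A.μ A.T κ → MeasurableSet Ip →
    (∀ n E, MeasurableSet E → Lp A κ Ip Φ E = 0 → Lp A κ Ip Φ (A.sA 0 n ⁻¹' E) = 0) →
    ∀ Q : (Ω × Ω) × Arr V → Prop, (∀ᵐ z ∂(Lp A κ Ip Φ), Q z) →
    ∀ᵐ a ∂A.μ, a ∈ Ip → ∃ τ : Ω → Arr V, Measurable τ ∧
      ∀ᵐ y ∂(κ a), ∀ n : G, Q ((a, y), sh A.σ 0 (-n) (τ (tz A.T n y)))

def SelS : Prop :=
  ∀ (X : Type) [MeasurableSpace X] (μ : Measure X) [IsProbabilityMeasure μ]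
    (R : ℕ → X → ℝ≥0∞) (δ : ℝ≥0∞) (Q : X → Prop), (∀ M, Measurable (R M)) → (∀ M x, R M x ≤ 1) →
    0 < δ → (∃ᶠ M in atTop, δ ≤ ∫⁻ x, R M x ∂μ) → (∀ᵐ x ∂μ, Q x) →
    ∃ x : X, Q x ∧ ∃ᶠ M in atTop, δ / 2 ≤ R M x

def SubS : Prop :=
  ∀ (X κ : Type) [MeasurableSpace X] [Countable κ] (μ : Measure X) (F : ℕ → κ → X → ℝ≥0∞),
    (∀ M k, Measurable (F M k)) → (∀ k, Tendsto (fun M => ∫⁻ x, F M k x ∂μ) atTop (𝓝 0)) →
    ∃ s : ℕ → ℕ, Tendsto s atTop atTop ∧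
      ∀ᵐ x ∂μ, ∀ k, Tendsto (fun i => F (s i) k x) atTop (𝓝 0)

def TauS : Prop := T1S → T2S → SelS → SubS →
  ∀ (G Ω V J : Type) [AddCommGroup G] [Countable G] [MeasurableSpace Ω] [AddCommGroup V]
    [Countable V] (B : Bun G Ω V J) (κ : Kernel Ω Ω) (L : Measure ((Ω × Ω) × Arr V)) (Ip : Set Ω)
    (Φ : Kernel (Ω × Ω) (Arr V)) (g : ℕ → Ω → Arr V) (Pos : Ω × Ω → V × V → V × V → Prop)
    (D : RD G V) (δ : ℝ≥0∞), ErgP B.μ B.T κ → PhiD B.toBase κ L Ip Φ →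
    HatD B.toBase κ Ip Φ g Pos → 0 < δ →
    (∃ᶠ M in atTop, δ ≤ B.P M (B.relS D ∩ {z | z.2 ∈ Ip})) → B.Dec D id →
    ∃ (A : Base G Ω V) (N0 : AddSubgroup V) (τ : Ω → Arr V) (G0 : ℕ → Arr V)
      (m2 : Measure ((Ω × Ω) × Arr V)) (K : ℕ → ℕ), FixD A N0 τ G0 g m2 ∧
      (∃ᶠ M in atTop, δ / 2 ≤ PM (B.ν M) A.μ (A.relS D)) ∧ Tendsto K atTop atTop ∧ A.Dec D K

/-! ### the trivialisation -/

def ThS : Prop := MkS →
  ∀ (G Ω V : Type) [AddCommGroup G] [Countable G] [MeasurableSpace Ω] [AddCommGroup V]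
    [Countable V] (A : Base G Ω V) (N0 : AddSubgroup V) (τ : Ω → Arr V) (G0 : ℕ → Arr V)
    (g : ℕ → Ω → Arr V) (m2 : Measure ((Ω × Ω) × Arr V)), FixD A N0 τ G0 g m2 →
    ∃ (θ : Ω → V →+ (V ⧸ N0)) (γ : ℕ → Au (V ⧸ N0)), Triv A θ γ g

def PsiS : Prop := MkS →
  ∀ (G Ω V Γ : Type) [AddCommGroup G] [Countable G] [MeasurableSpace Ω] [AddCommGroup V]
    [Countable V] [AddCommGroup Γ] [Countable Γ] (A : Base G Ω V) (θ : Ω → V →+ Γ), Th A θ →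
    ∃ Ψ, Coc A θ Ψ

def PsrS : Prop :=
  ∀ (G Ω V Γ : Type) [AddCommGroup G] [Countable G] [MeasurableSpace Ω] [AddCommGroup V]
    [Countable V] [AddCommGroup Γ] [Countable Γ] (A : Base G Ω V) (θ : Ω → V →+ Γ)
    (Ψ : G → Ω → Au Γ) (D : RD G V), Th A θ → Coc A θ Ψ →
    (∀ (ν : Measure ℤ) [IsProbabilityMeasure ν], PM ν A.μ (A.relS D) ≤
      PM ν A.μ {z | ∑ k, Ψ (z.1.1 • D.r k) z.2
        (θ (tz A.T (z.1.1 • D.r k) z.2) (D.c k)) = θ z.2 (D.b z.1.2) ∧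
      θ (tz A.T (z.1.1 • D.r D.k0) z.2) (D.c D.k0) ≠ 0}) ∧
    ∀ K, A.Dec D K → ∀ u ∈ D.dir, ∀ ξ ξ' : Γ, ξ' ≠ 0 →
      Ces K fun k => A.μ {y | Ψ ((k : ℤ) • u) y ξ = ξ'}

def SdS : Prop := MkS →
  ∀ (G Ω V Γ : Type) [AddCommGroup G] [MeasurableSpace Ω] [AddCommGroup V] [Countable V]
    [AddCommGroup Γ] [Countable Γ] (A : Base G Ω V) (θ : Ω → V →+ Γ) (γ : ℕ → Au Γ)
    (g : ℕ → Ω → Arr V) (m2 : Measure ((Ω × Ω) × Arr V)), Triv A θ γ g →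
    m2.map Prod.fst = A.μ.prod A.μ →
    (∀ᵐ z ∂m2, Iso (A.N z.1.1) (A.N z.1.2) z.2 ∧ ∀ i, Itw (g i z.1.1) (g i z.1.2) z.2) →
    ∃ s : (Ω × Ω) × Arr V → Au Γ, (∀ ξ ξ', MeasurableSet {z | s z ξ = ξ'}) ∧
      ∀ᵐ z ∂m2, (∀ c, ∃ c', (c, c') ∈ z.2) ∧
        (∀ c c', (c, c') ∈ z.2 → s z (θ z.1.1 c) = θ z.1.2 c') ∧ ∀ i, s z * γ i = γ i * s z

def CtS : Prop :=
  ∀ (G Ω V Γ : Type) [AddCommGroup G] [Countable G] [MeasurableSpace Ω] [AddCommGroup V]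
    [Countable V] [AddCommGroup Γ] [Countable Γ] (A : Base G Ω V) (θ : Ω → V →+ Γ) (γ : ℕ → Au Γ)
    (g : ℕ → Ω → Arr V) (Ψ : G → Ω → Au Γ) (m2 : Measure ((Ω × Ω) × Arr V))
    (s : (Ω × Ω) × Arr V → Au Γ), Triv A θ γ g → Coc A θ Ψ → m2.map Prod.fst = A.μ.prod A.μ →
    (∀ n, MeasurePreserving (A.sA n n) m2 m2) → (∀ ξ ξ', MeasurableSet {z | s z ξ = ξ'}) →
    (∀ᵐ z ∂m2, (∀ c, ∃ c', (c, c') ∈ z.2) ∧
      (∀ c c', (c, c') ∈ z.2 → s z (θ z.1.1 c) = θ z.1.2 c') ∧ ∀ i, s z * γ i = γ i * s z) →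
    ∃ C : Set (Au Γ), (∀ a ∈ C, ∀ b ∈ C, a * b = b * a) ∧ (∀ n, ∀ᵐ y ∂A.μ, Ψ n y ∈ C) ∧
      ∀ ξ : Γ, ∀ ε : ℝ≥0∞, 0 < ε → ∃ F : Finset Γ, ∀ n,
        (A.μ.prod A.μ) {p | (Ψ n p.2)⁻¹ (Ψ n p.1 ξ) ∉ F} ≤ ε

/-! ### exact subgroups -/

def ExaS : Prop :=
  ∀ (G X V : Type) [AddCommGroup G] [Countable G] [MeasurableSpace X] [AddCommGroup V]
    [Countable V] (μ : Measure X) (T : Act G X) (σ : VAct G V) (N : V → Set X), MP T μ →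
    (∀ v, MeasurableSet (N v)) → (∀ᵐ x ∂μ, x ∈ N 0) →
    (∀ v v', ∀ᵐ x ∂μ, x ∈ N v → x ∈ N v' → x ∈ N (v - v')) →
    (∀ n v, ∀ᵐ x ∂μ, x ∈ N (sz σ n v) ↔ tz T n x ∈ N v) →
    ∃ N' : X → AddSubgroup V, (∀ c, MeasurableSet {y | c ∈ N' y}) ∧
      (∀ n c y, sz σ n c ∈ N' y ↔ c ∈ N' (tz T n y)) ∧ ∀ᵐ x ∂μ, ∀ c, c ∈ N' x ↔ x ∈ N c

/-! ### the last step -/

/-- upper Banach density zero, uniformly in the family -/
def Sparse {β : Type} (A : β → Set ℤ) : Prop :=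
  ∀ ε : ℝ, 0 < ε → ∀ᶠ H : ℕ in atTop, ∀ b, T4x.Thin ε H (A b)

/-- density zero along `K` -/
def Low (K : ℕ → ℕ) (S : Set ℕ) : Prop := Ces K (S.indicator fun _ => 1)

def PigS : Prop :=
  ∀ (β : Type) (A : β → Set ℤ) (K : ℕ → ℕ) (Bad : Set ℕ), Tendsto K atTop atTop → Low K Bad →
    (∀ h : ℕ, h ∉ Bad → ∃ C : Set ℤ, Sparse (fun _ : Unit => C) ∧
      ∀ b d, d ∈ A b → d + h ∈ A b → d ∈ C) → Sparse A

/-- almost multiplicative sequences that separate the nonzero points for most shifts -/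
structure ND {Q A I : Type} [CommGroup Q] [AddCommGroup A] [DistribMulAction Q A]
    (a : I → ℤ → Q) (K : ℕ → ℕ) : Prop where
  quasi : ∃ F : Set Q, F.Finite ∧ ∀ k d h, a k (d + h) * (a k d)⁻¹ * (a k h)⁻¹ ∈ F
  top : Tendsto K atTop atTop
  one : ∀ k (f : Q) (ξ : A), ξ ≠ 0 → Low K {h | a k h • f • ξ = ξ}
  two : ∀ k k', k ≠ k' → ∀ (f : Q) (ξ : A), ξ ≠ 0 → Low K {h | a k h • f • ξ = a k' h • ξ}

/-- solution sets are sparse -/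
def ZlO : Prop :=
  ∀ (Q A I : Type) [CommGroup Q] [AddCommGroup A] [DistribMulAction Q A] [Fintype I]
    (a : I → ℤ → Q) (K : ℕ → ℕ), ND (A := A) a K → ∀ (z : I → A) (k0 : I), z k0 ≠ 0 →
    Sparse fun b : A => {d | ∑ k, a k d • z k = b}

def ZlS : Prop := PigS → ZlO

/-- almost multiplicative sequences are monomials up to a finite set -/
def QhS : Prop :=
  ∀ (Q I : Type) [CommGroup Q] [Fintype I] (a : I → ℤ → Q) (F : Set Q), F.Finite →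
    (∀ k d h, a k (d + h) * (a k d)⁻¹ * (a k h)⁻¹ ∈ F) →
    ∃ (r L : ℕ) (φ : Multiplicative (Fin r → ℤ) →* Q) (B : Set Q) (m : ℕ → I → Fin r → ℤ),
      B.Finite ∧ ∀ M : ℕ, 1 ≤ M → (∀ k i, |m M k i| ≤ L * M) ∧ ∀ k (d : ℤ), |d| ≤ M →
        ∃ g ∈ B, a k d = φ (Multiplicative.ofAdd fun i => d * m M k i / M) * g

/-- solution sets have small weight -/
def SpO : Prop :=
  ∀ (Q A I : Type) [CommGroup Q] [AddCommGroup A] [DistribMulAction Q A] [Fintype I]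
    (a : I → ℤ → Q) (K : ℕ → ℕ) (ν : ℕ → Measure ℤ), SprM ν → ND (A := A) a K →
    ∀ (z : I → A) (k0 : I), z k0 ≠ 0 → ∀ t : ℝ≥0∞, 0 < t →
    ∀ᶠ M in atTop, ∀ b : A, ν M {d | ∑ k, a k d • z k = b} ≤ t

def SpS : Prop := ZlO → QhS → SpO

/-- a tight cocycle with values in a commutative group has no exact relation -/
def CoreO : Prop :=
  ∀ (G Om Ga Gr I : Type) [AddCommGroup G] [MeasurableSpace Om] (ka : Measure Om)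
    [IsProbabilityMeasure ka] [AddCommGroup Ga] [Countable Ga] [CommGroup Gr]
    [DistribMulAction Gr Ga] [Fintype I] (T : G → Om → Om), (∀ n, MeasurePreserving (T n) ka ka) →
  ∀ (P : G → Om → Gr), (∀ n k, ∀ᵐ y ∂ka, P (n + k) y = P n y * P k (T n y)) →
    (∀ (a : Ga) (ε : ℝ≥0∞), 0 < ε → ∃ F : Finset Ga, ∀ n,
      (ka.prod ka) {p | ((P n p.2)⁻¹ * P n p.1) • a ∉ F} ≤ ε) →
  ∀ (ν : ℕ → Measure ℤ) [∀ M, IsProbabilityMeasure (ν M)], SprM ν →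
  ∀ (r : I → G) (dir : Set G), (∀ k, r k ∈ dir) → (∀ k k', k ≠ k' → r k - r k' ∈ dir) →
  ∀ (k0 : I) (x : I → Om → Ga) (η : ℤ → Om → Ga),
    (∀ k a, NullMeasurableSet {y | x k y = a} ka) → (∀ d a, NullMeasurableSet {y | η d y = a} ka) →
  ∀ δ : ℝ≥0∞, 0 < δ →
    (∃ᶠ M in atTop, δ ≤ PM (ν M) ka
      {z | ∑ k, P (z.1.1 • r k) z.2 • x k (T (z.1.1 • r k) z.2) = η z.1.2 z.2 ∧
        x k0 (T (z.1.1 • r k0) z.2) ≠ 0}) →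
  ∀ K : ℕ → ℕ, Tendsto K atTop atTop →
    (∀ u ∈ dir, ∀ a b : Ga, b ≠ 0 → Ces K fun k => ka {y | P ((k : ℤ) • u) y • a = b}) → False

def CoreS : Prop := SpO → CoreO

/-- the last step: a tight commutative cocycle has no exact relation -/
def FinO : Prop :=
  ∀ (G Γ : Type) [AddCommGroup G] [Countable G] [AddCommGroup Γ] [Countable Γ] (Y : Type)
    [MeasurableSpace Y] (m : Measure Y) [IsProbabilityMeasure m] (T : Act G Y), MP T m →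
  ∀ (Ψ : G → Y → Au Γ), (∀ n ξ ξ', MeasurableSet {y | Ψ n y ξ = ξ'}) →
  ∀ (C : Set (Au Γ)), (∀ a ∈ C, ∀ b ∈ C, a * b = b * a) → (∀ n, ∀ᵐ y ∂m, Ψ n y ∈ C) →
    (∀ n k, ∀ᵐ y ∂m, Ψ (n + k) y = Ψ n y * Ψ k (tz T n y)) →
    (∀ ξ : Γ, ∀ ε : ℝ≥0∞, 0 < ε → ∃ F : Finset Γ, ∀ n,
      (m.prod m) {p | (Ψ n p.2)⁻¹ (Ψ n p.1 ξ) ∉ F} ≤ ε) →
  ∀ (ν : ℕ → Measure ℤ) [∀ M, IsProbabilityMeasure (ν M)], SprM ν →
  ∀ (I : Type) [Fintype I] (r : I → G) (dir : Set G), (∀ k, r k ∈ dir) →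
    (∀ k k', k ≠ k' → r k - r k' ∈ dir) → ∀ (k0 : I) (x : I → Y → Γ) (η : ℤ → Y → Γ),
    (∀ k ξ, MeasurableSet {y | x k y = ξ}) → (∀ d ξ, MeasurableSet {y | η d y = ξ}) →
  ∀ δ : ℝ≥0∞, 0 < δ →
    (∃ᶠ M in atTop, δ ≤ PM (ν M) m
      {z | ∑ k, Ψ (z.1.1 • r k) z.2 (x k (tz T (z.1.1 • r k) z.2)) = η z.1.2 z.2 ∧
        x k0 (tz T (z.1.1 • r k0) z.2) ≠ 0}) →
  ∀ K : ℕ → ℕ, Tendsto K atTop atTop →
    (∀ u ∈ dir, ∀ ξ ξ' : Γ, ξ' ≠ 0 → Ces K fun k => m {y | Ψ ((k : ℤ) • u) y ξ = ξ'}) → False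

def FinS : Prop := CoreO → FinO

end

end Pool.Agent.MP_154433_an.T4A
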