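import Pool.Agent.MP_154433_an.t4a.Spec

set_option autoImplicit false

open MeasureTheory ProbabilityTheory Filter Topology Set
open scoped ENNReal

namespace Pool.Agent.MP_154433_an.T4A

open T3A

theorem xT1 : T1S := by
  intro G Ω V _ _ _ _ _ A κ L Ip Φ hE hP
  have := hE.markov
  have := hP.markov
  have key : ∀ {p : Ω × Ω → Prop}, (∀ᵐ x ∂(A.μ ⊗ₘ κ), p x) →
      ∀ᵐ a ∂A.μ, ∀ᵐ x ∂((κ a).prod (κ a)), p x := by
    intro p hp
    rw [← hE.two] at hp
    simpa only [Kernel.prod_apply] using Measure.ae_ae_of_ae_comp hp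
  refine ⟨fun Q hQ => ?_, ?_⟩
  · obtain ⟨E, hs, hm, h0⟩ := exists_measurable_superset_of_null (ae_iff.1 hQ)
    have h1 : ∀ᵐ z ∂(Lp A κ Ip Φ), z ∉ E := measure_eq_zero_iff_ae_notMem.1 h0
    have h2 := Measure.ae_ae_of_ae_compProd h1
    rw [ae_restrict_iff' (hP.mI.prod MeasurableSet.univ)] at h2
    filter_upwards [key h2, hE.conc Ip hP.mI hP.inv] with a ha hc hI
    have h3 : ∀ᵐ x ∂((κ a).prod (κ a)), x.1 ∈ Ip :=
      Measure.quasiMeasurePreserving_fst.ae (p := fun y => y ∈ Ip) (hc hI)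
    have h4 : ∀ᵐ z ∂(((κ a).prod (κ a)) ⊗ₘ Φ), z ∉ E := by
      refine Measure.ae_compProd_of_ae_ae hm.compl ?_
      filter_upwards [ha, h3] with x hx hx' using hx ⟨hx', mem_univ _⟩
    filter_upwards [h4] with z hz
    by_contra hq
    exact hz (hs hq)
  · rw [ae_all_iff]
    intro n
    filter_upwards [key (hP.eqv n), hE.mp] with a ha hm'
    have hm := hm' n
    refine ⟨A.measurable_sA n n, Measure.ext fun E hE' => ?_⟩
    rw [Measure.map_apply (A.measurable_sA n n) hE', Measure.compProd_apply hE',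
      Measure.compProd_apply (A.measurable_sA n n hE'),
      ← (hm.prod hm).lintegral_comp (Kernel.measurable_kernel_prodMk_left hE')]
    refine lintegral_congr_ae ?_
    filter_upwards [ha] with x hx
    have e : Prod.map (tz A.T n) (tz A.T n) x = (tz A.T n x.1, tz A.T n x.2) := rfl
    rw [e, hx, Measure.map_apply (measurable_sh _ n n) (measurable_prodMk_left hE')]
    congr 1

end Pool.Agent.MP_154433_an.T4A
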