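import Pool.Agent.MP_154433_an.t4a.Spec

/-! One component seen from one base point, for actions of a countable group. -/

set_option autoImplicit false

open MeasureTheory ProbabilityTheory Filter Topology Set
open scoped ENNReal

namespace Pool.Agent.MP_154433_an.T4A

open T3A

noncomputable section

namespace TauAux

variable {G Ω : Type} [AddCommGroup G] [MeasurableSpace Ω]

lemma meas2 (κ : Kernel Ω Ω) {E : Set ((ℤ × ℤ) × Ω)} (hE : MeasurableSet E) :
    Measurable fun z : (ℤ × ℤ) × Ω => κ z.2 (Prod.mk z.1 ⁻¹' E) :=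
  measurable_from_prod_countable_right fun _ => κ.measurable_coe (measurable_prodMk_left hE)

lemma measPM (ν : Measure ℤ) [IsProbabilityMeasure ν] (κ : Kernel Ω Ω) [IsMarkovKernel κ]
    {E : Set ((ℤ × ℤ) × Ω)} (hE : MeasurableSet E) : Measurable fun a => PM ν (κ a) E := by
  simp only [PM_apply ν _ hE]
  exact (meas2 κ hE).lintegral_prod_left'

lemma avg (ν : Measure ℤ) [IsProbabilityMeasure ν] {μ : Measure Ω} [IsProbabilityMeasure μ]
    {T : Act G Ω} {κ : Kernel Ω Ω} (h : ErgK μ T κ) {E : Set ((ℤ × ℤ) × Ω)}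
    (hE : MeasurableSet E) {I : Set Ω} (hI : MeasurableSet I) (hT : ∀ n, tz T n ⁻¹' I = I) :
    ∫⁻ a, I.indicator (fun a => PM ν (κ a) E) a ∂μ = PM ν μ (E ∩ {z | z.2 ∈ I}) := by
  have := h.markov
  have hm : Measurable (I.indicator (1 : Ω → ℝ≥0∞)) := measurable_one.indicator hI
  have e1 : ∀ a, I.indicator (fun a => PM ν (κ a) E) a =
      ∫⁻ d, I.indicator (1 : Ω → ℝ≥0∞) a * κ a (Prod.mk d ⁻¹' E) ∂(ν.prod ν) := by
    intro a
    by_cases ha : a ∈ I
    · simp [ha, PM_apply ν _ hE]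
    · simp [ha]
  simp only [e1]
  have hEI : MeasurableSet (E ∩ {z | z.2 ∈ I}) := hE.inter (measurable_snd hI)
  rw [lintegral_lintegral_swap, PM_apply ν μ hEI]
  · refine lintegral_congr fun d => ?_
    have hA : MeasurableSet (Prod.mk d ⁻¹' E) := measurable_prodMk_left hE
    rw [h.int _ hm (fun n y => by
      have := mem_tz T hT n y
      by_cases hy : y ∈ I
      · simp [hy, this.2 hy]
      · simp [hy, mt this.1 hy]) _ hA, lintegral_indicator_one hI, Measure.restrict_apply hI,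
      inter_comm]
    rfl
  · exact ((hm.comp measurable_fst).mul ((meas2 κ hE).comp measurable_swap)).aemeasurable

/-- the mean of the conditional probabilities -/
lemma avg0 {μ : Measure Ω} {T : Act G Ω} {κ : Kernel Ω Ω} (h : ErgK μ T κ) {A : Set Ω}
    (hA : MeasurableSet A) : ∫⁻ a, κ a A ∂μ = μ A := by
  simpa using h.int (fun _ => 1) measurable_const (fun _ _ => rfl) A hA

/-- the same for Cesaro means -/
lemma avgC {μ : Measure Ω} {T : Act G Ω} {κ : Kernel Ω Ω} (h : ErgK μ T κ) {A : ℕ → Set Ω}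
    (hA : ∀ k, MeasurableSet (A k)) (M : ℕ) :
    ∫⁻ a, (M : ℝ≥0∞)⁻¹ * ∑ k ∈ Finset.range M, κ a (A k) ∂μ =
      (M : ℝ≥0∞)⁻¹ * ∑ k ∈ Finset.range M, μ (A k) := by
  rw [lintegral_const_mul _ (Finset.measurable_sum _ fun k _ => κ.measurable_coe (hA k)),
    lintegral_finsetSum _ fun k _ => κ.measurable_coe (hA k)]
  simp only [avg0 h (hA _)]

end TauAux

open TauAux in
theorem xTau : TauS := by
  intro h1 h2 hS hU G Ω V J _ _ _ _ _ B κ L Ip Φ g Pos D δ hE hP hH hδ hrel hdec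
  have := hE.markov
  have := hP.markov
  obtain ⟨t1, t1'⟩ := h1 G Ω V B.toBase κ L Ip Φ hE hP
  have q1 := t1 _ (hH.iso.and hH.itw)
  have q2 := h2 G Ω V B.toBase κ Ip Φ hE hP.mI hH.quasi _ (hH.iso.and (hH.itw.and hH.pos))
  have q3 : ∀ᵐ a ∂B.μ, ∀ᵐ y ∂(κ a), y ∈ Ip → ∀ i, Iso (B.N y) (B.N y) (g i y) := by
    have := hH.gi
    rw [← hE.bind] at this
    exact Measure.ae_ae_of_ae_comp this
  have q4 := Measure.ae_ae_of_ae_compProd hH.hit
  have q5 := hE.conc Ip hP.mI hP.inv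
  obtain ⟨s, hs, q6⟩ := hU Ω (D.dir × V × V) B.μ
    (fun M k a => (M : ℝ≥0∞)⁻¹ * ∑ i ∈ Finset.range M,
      κ a (B.decS ((i : ℤ) • (k.1 : G)) k.2.1 k.2.2))
    (fun M k => (Finset.measurable_sum _ fun i _ =>
      κ.measurable_coe (B.measurableSet_decS _ _ _)).const_mul _)
    (fun k => by
      simp only [avgC hE.toErgK fun i : ℕ => B.measurableSet_decS ((i : ℤ) • (k.1 : G)) k.2.1 k.2.2]
      exact hdec k.1 k.1.2 k.2.1 k.2.2)
  obtain ⟨a, ⟨⟨⟨⟨⟨⟨⟨⟨a1, a2⟩, a3⟩, a4⟩, a5⟩, a6⟩, a7⟩, a8⟩, a9⟩, hR⟩ := hS Ω B.μ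
    (fun M => Ip.indicator (fun a => PM (B.ν M) (κ a) (B.relS D))) δ _
    (fun M => (measPM _ κ (B.measurableSet_relS D)).indicator hP.mI)
    (fun M x => le_trans (indicator_le_self _ _ x) prob_le_one) hδ
    (hrel.mono fun M hM => by
      rw [TauAux.avg _ hE.toErgK (B.measurableSet_relS D) hP.mI hP.inv]
      exact hM)
    ((((((((hE.mp.and q5).and q1).and t1').and q2).and hH.gi).and q3).and q4).and q6)
  have ha : a ∈ Ip := by
    by_contra hc
    obtain ⟨M, this⟩ := hR.exists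
    rw [indicator_of_notMem hc] at this
    exact absurd this (not_le.2 (ENNReal.half_pos hδ.ne'))
  obtain ⟨τ, mτ, hτ⟩ := a5 ha
  have hin : ∀ᵐ y ∂(κ a), y ∈ Ip := a2 ha
  refine ⟨{ B.toBase with μ := κ a, prob := inferInstance, mp := a1 }, B.N a, τ,
    fun i => g i a, ((κ a).prod (κ a)) ⊗ₘ Φ, s,
    ⟨mτ, hH.geq, a6 ha, ?_, ?_, ?_, Measure.fst_compProd _ _, a4, a3 ha⟩,
    hR.mono fun M hM => ?_, hs, fun u hu c c' => a9 (⟨u, hu⟩, c, c')⟩
  · filter_upwards [hin, a7] with y hy h using h hy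
  · filter_upwards [hτ] with y h
    have := h 0
    rw [neg_zero, sh_zero, tz_zero] at this
    exact ⟨this.1, this.2.1⟩
  · filter_upwards [hτ, a8] with y h hh n p q ⟨e, p1, p2⟩ ⟨e', q1, q2⟩
    have h0 := h 0
    rw [neg_zero, sh_zero, tz_zero] at h0
    exact hh (p.1, e) (q.1, e') (p.2, e) (q.2, e') ((h n).2.2 _ p1 _ q1) (h0.2.2 _ p2 _ q2) rfl rfl
  · rwa [indicator_of_mem ha] at hM

end

end Pool.Agent.MP_154433_an.T4A
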