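import Pool.Agent.MP_154433_an.t4a.Spec

/-! The trivialisation of the bundle from one base point. -/

set_option autoImplicit false

open MeasureTheory ProbabilityTheory Filter Topology Set
open scoped ENNReal

namespace Pool.Agent.MP_154433_an.T4A

open T3A

namespace ThAux

variable {V : Type} [AddCommGroup V] {N N' : AddSubgroup V} {S : Arr V}

lemma hom (h : Iso N N' S) :
    ∃ θ : V →+ V ⧸ N, ∀ c0 c, θ c = QuotientAddGroup.mk c0 ↔ (c0, c) ∈ S := by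
  choose f hf using h.totR
  have key : ∀ c0 c, (QuotientAddGroup.mk (f c) : V ⧸ N) = QuotientAddGroup.mk c0 ↔
      (c0, c) ∈ S := fun c0 c => by
    rw [QuotientAddGroup.eq_iff_sub_mem]
    refine ⟨fun e => ?_, fun e => (h.iff _ _ (h.sub _ _ _ _ (hf c) e)).2 (by simp)⟩
    simpa using h.sub _ _ _ _ (hf c) (h.zero _ e 0 N'.zero_mem)
  exact ⟨AddMonoidHom.ofMapSub (fun c => QuotientAddGroup.mk (f c)) fun x y => by
    rw [← QuotientAddGroup.mk_sub, key]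
    exact h.sub _ _ _ _ (hf x) (hf y), key⟩

lemma quo (h : Iso N N S) : Iso (V := V ⧸ N) ⊥ ⊥
    {p | ∃ c c1, (c, c1) ∈ S ∧ p = (QuotientAddGroup.mk c, QuotientAddGroup.mk c1)} where
  zero := by
    rintro _ rfl _ rfl
    exact ⟨0, 0, h.zero _ N.zero_mem _ N.zero_mem, rfl⟩
  sub := by
    rintro _ _ _ _ ⟨a, a', h1, ⟨⟩⟩ ⟨b, b', h2, ⟨⟩⟩
    exact ⟨_, _, h.sub _ _ _ _ h1 h2, rfl⟩
  totL := by
    rintro ⟨c⟩
    obtain ⟨c', hc⟩ := h.totL c
    exact ⟨_, c, c', hc, rfl⟩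
  totR := by
    rintro ⟨c'⟩
    obtain ⟨c, hc⟩ := h.totR c'
    exact ⟨_, c, c', hc, rfl⟩
  iff := by
    rintro _ _ ⟨c, c', hc, ⟨⟩⟩
    simp only [AddSubgroup.mem_bot, QuotientAddGroup.eq_zero_iff]
    exact h.iff _ _ hc

lemma meas [Countable V] {Ω : Type} [MeasurableSpace Ω] {M : Ω → AddSubgroup V} {τ : Ω → Arr V}
    (hM : ∀ c, MeasurableSet {y | c ∈ M y}) (hτ : Measurable τ) :
    Measurable fun y => Iso N (M y) (τ y) := by
  have mm : ∀ p, Measurable fun y => p ∈ τ y := fun p => (measurable_set_mem p).comp hτ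
  have mn : ∀ c, Measurable fun y => c ∈ M y := fun c => measurableSet_setOfPred.1 (hM c)
  have : (fun y => Iso N (M y) (τ y)) = fun y => (∀ c c', c ∈ N → c' ∈ M y → (c, c') ∈ τ y) ∧
      (∀ a a' b b', (a, a') ∈ τ y → (b, b') ∈ τ y → (a - b, a' - b') ∈ τ y) ∧
      (∀ c, ∃ c', (c, c') ∈ τ y) ∧ (∀ c', ∃ c, (c, c') ∈ τ y) ∧
      ∀ c c', (c, c') ∈ τ y → (c ∈ N ↔ c' ∈ M y) := funext fun y => propext
    ⟨fun h => ⟨fun c c' a b => h.zero c a c' b, h.sub, h.totL, h.totR, h.iff⟩,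
      fun h => ⟨fun c a c' b => h.1 c c' a b, h.2.1, h.2.2.1, h.2.2.2.1, h.2.2.2.2⟩⟩
  rw [this]
  exact (Measurable.forall fun _ => .forall fun _ => measurable_const.imp ((mn _).imp (mm _))).and
    ((Measurable.forall fun _ => .forall fun _ => .forall fun _ => .forall fun _ =>
      (mm _).imp ((mm _).imp (mm _))).and
    ((Measurable.forall fun _ => .exists fun _ => mm _).and
    ((Measurable.forall fun _ => .exists fun _ => mm _).and
    (Measurable.forall fun _ => .forall fun _ => (mm _).imp (measurable_const.iff (mn _))))))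

end ThAux

open ThAux

theorem xTh : ThS := by
  intro mk G0 Ω V _ _ _ _ _ A N0 τ G g m2 F
  classical
  have ex : ∀ y, ∃ θ : V →+ V ⧸ N0, (Iso N0 (A.N y) (τ y) →
      ∀ c0 c, θ c = QuotientAddGroup.mk c0 ↔ (c0, c) ∈ τ y) ∧
      (¬ Iso N0 (A.N y) (τ y) → θ = 0) := fun y => by
    by_cases h : Iso N0 (A.N y) (τ y)
    · exact (hom h).imp fun θ hθ => ⟨fun _ => hθ, fun n => (n h).elim⟩
    · exact ⟨0, fun n => (h n).elim, fun _ => rfl⟩
  choose θ h1 h0 using ex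
  have : Countable (V ⧸ N0) := QuotientAddGroup.mk_surjective.countable
  obtain ⟨γ, -, hγ⟩ := mk ℕ (V ⧸ N0) (fun i =>
    {p | ∃ c c1, (c, c1) ∈ G i ∧ p = (QuotientAddGroup.mk c, QuotientAddGroup.mk c1)})
    measurable_from_top
  have h2 : ∀ i c c1, (c, c1) ∈ G i → γ i (QuotientAddGroup.mk c) = QuotientAddGroup.mk c1 :=
    fun i c c1 h => (hγ i (quo (F.isoG i)) _ _).2 ⟨c, c1, h, rfl⟩
  refine ⟨θ, γ, ⟨fun c ξ => ?_, ?_⟩, F.geq, F.isog.mono fun y h i => (h i).totL, ?_, ?_⟩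
  · obtain ⟨c0, rfl⟩ := QuotientAddGroup.mk_surjective ξ
    have m := meas (N := N0) A.mN F.mτ
    have : {y | θ y c = QuotientAddGroup.mk c0} = {y | (Iso N0 (A.N y) (τ y) ∧ (c0, c) ∈ τ y) ∨
        (¬ Iso N0 (A.N y) (τ y) ∧ (0 : V ⧸ N0) = QuotientAddGroup.mk c0)} := by
      ext y
      by_cases h : Iso N0 (A.N y) (τ y)
      · simp [h, h1 y h]
      · simp [h, h0 y h]
    rw [this]
    exact measurableSet_setOfPred.2 ((m.and ((measurable_set_mem _).comp F.mτ)).or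
      (m.not.and measurable_const))
  · filter_upwards [F.isoτ] with y ⟨h, _⟩
    refine ⟨fun ξ => ?_, fun c => (h1 y h 0 c).trans
      ⟨fun e => (h.iff _ _ e).1 N0.zero_mem, h.zero _ N0.zero_mem _⟩⟩
    obtain ⟨c0, rfl⟩ := QuotientAddGroup.mk_surjective ξ
    exact (h.totL c0).imp fun c hc => (h1 y h c0 c).2 hc
  · filter_upwards [F.isoτ] with y ⟨h, h'⟩ i a b hab
    obtain ⟨c, hc⟩ := h.totR a
    obtain ⟨c1, hc1⟩ := (F.isoG i).totL c
    rw [(h1 y h c a).2 hc, h2 i c c1 hc1]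
    exact (h1 y h c1 b).2 (h' i c c1 a b hc1 hab hc)
  · filter_upwards [F.isoτ, F.dense,
      ae_all_iff.2 fun n : G0 => (A.mp n).quasiMeasurePreserving.ae F.isoτ]
      with y ⟨h, _⟩ hd hn n c c'
    have k : ∀ c, ∃ p ∈ loop (sh A.σ 0 (-n) (τ (tz A.T n y))) (τ y),
        θ (tz A.T n y) c = QuotientAddGroup.mk p.1 ∧
          θ y (sz A.σ n c) = QuotientAddGroup.mk p.2 := fun c => by
      obtain ⟨c1, e1⟩ := (hn n).1.totR c
      obtain ⟨a1, e2⟩ := h.totR (sz A.σ n c)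
      exact ⟨(c1, a1), ⟨sz A.σ n c, by simpa using e1, e2⟩, (h1 _ (hn n).1 _ _).2 e1,
        (h1 y h _ _).2 e2⟩
    obtain ⟨p, hp, p1, p2⟩ := k c
    obtain ⟨q, hq, q1, q2⟩ := k c'
    obtain ⟨i, e1, e2⟩ := hd n p q hp hq
    exact ⟨i, by rw [p1, p2]; exact h2 i _ _ e1, by rw [q1, q2]; exact h2 i _ _ e2⟩

end Pool.Agent.MP_154433_an.T4A
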