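import Pool.Agent.MP_154433_an.t4a.Spec

set_option autoImplicit false

open MeasureTheory ProbabilityTheory Filter Topology Set
open scoped ENNReal

namespace Pool.Agent.MP_154433_an.T4A

open T3A

namespace W2Aux

variable {G Ω V J : Type} [AddCommGroup G] [MeasurableSpace Ω] [AddCommGroup V]

omit [AddCommGroup V] in
theorem cyl_forall {ι α : Type} (F : Finset α) (f : α → ι) :
    Cyl {z : (Ω × Ω) × Set ι | ∀ a ∈ F, f a ∉ z.2} := by
  classical
  induction F using Finset.induction_on with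
  | empty => simpa using Cyl.univ
  | insert a F _ ih => simpa using (Cyl.mem (Ω := Ω) (f a)).not.and ih

theorem nul {B : Bun G Ω V J} {j : J} {w : Measure ((Ω × Ω) × Arr V)} (hw : IsLim B j w)
    {P : (Ω × Ω) × Arr V → Prop} (hE : Cyl {z | P z})
    (h : B.Nul fun M => B.pt j M ⁻¹' {z | P z}) : ∀ᵐ z ∂w, ¬ P z :=
  measure_eq_zero_iff_ae_notMem.1 (tendsto_nhds_unique (hw.2 _ hE) h)

theorem tot {B : Bun G Ω V J} {j : J} {w : Measure ((Ω × Ω) × Arr V)} (hw : IsLim B j w)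
    (f : V → V × V)
    (h : ∀ ε : ℝ≥0∞, 0 < ε → ∃ F : Finset V, ∀ᶠ M in (B.U : Filter ℕ),
      B.P M (B.pt j M ⁻¹' {a | ((0 : V), (0 : V)) ∈ a.2 ∧ ∀ c ∈ F, f c ∉ a.2}) ≤ ε) :
    ∀ᵐ z ∂w, ((0 : V), (0 : V)) ∈ z.2 → ∃ c, f c ∈ z.2 := by
  rw [ae_iff]
  refine le_antisymm (le_of_forall_gt_imp_ge_of_dense fun ε hε => ?_) zero_le
  obtain ⟨F, hF⟩ := h ε hε
  refine le_trans (measure_mono fun z hz => ?_)
    (le_of_tendsto (hw.2 _ ((Cyl.mem _).and (cyl_forall F f))) hF)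
  by_contra hn
  refine hz fun h0 => ?_
  by_contra h1
  exact hn ⟨h0, fun c _ hc => h1 ⟨c, hc⟩⟩

end W2Aux

theorem xW2 : W2S := by
  intro G Ω V J _ _ _ _ B j w hw h
  have h1 := ae_all_iff.2 fun c => ae_all_iff.2 fun c' => W2Aux.nul hw
    ((Cyl.fst _ (B.mN c)).and ((Cyl.snd _ (B.mN c')).and ((Cyl.mem _).and (Cyl.mem _).not)))
    (h.zero j c c')
  have h2 := ae_all_iff.2 fun c => ae_all_iff.2 fun c' => ae_all_iff.2 fun e =>
    ae_all_iff.2 fun e' => W2Aux.nul hw ((Cyl.mem _).and ((Cyl.mem _).and (Cyl.mem _).not))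
      (h.sub j c c' e e')
  have h3 := ae_all_iff.2 fun c => ae_all_iff.2 fun c' => W2Aux.nul hw
    ((Cyl.mem _).and ((Cyl.fst _ (B.mN c)).iff (Cyl.snd _ (B.mN c'))).not) (h.iff j c c')
  have h4 := ae_all_iff.2 fun c => W2Aux.tot hw (fun c' => (c, c')) (h.totL j c)
  have h5 := ae_all_iff.2 fun c' => W2Aux.tot hw (fun c => (c, c')) (h.totR j c')
  unfold IsoW
  filter_upwards [h1, h2, h3, h4, h5] with z a1 a2 a3 a4 a5 h0
  refine ⟨fun c hc c' hc' => ?_, fun a a' b b' p q => ?_, fun c => a4 c h0, fun c => a5 c h0,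
    fun c c' p => ?_⟩
  · by_contra hn
    exact a1 c c' ⟨hc, hc', h0, hn⟩
  · by_contra hn
    exact a2 a a' b b' ⟨p, q, hn⟩
  · by_contra hn
    exact a3 c c' ⟨p, hn⟩

end Pool.Agent.MP_154433_an.T4A
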