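import Pool.Agent.MP_154433_an.t4a.Spec

/-! Row Wa: when the steps generate the group, the target has the conditional law given the
invariant sets. -/

set_option autoImplicit false
set_option linter.unusedVariables false

open MeasureTheory ProbabilityTheory Filter Topology Set
open scoped ENNReal

namespace Pool.Agent.MP_154433_an.T4A

open T3A

noncomputable section

namespace WaAux

lemma ae_ge {Ω : Type} [MeasurableSpace Ω] (μ : Measure Ω) {a b : Ω → ℝ≥0∞} (ha : Measurable a)
    (hb : Measurable b) (hf : ∫⁻ y in {y | a y < b y}, a y ∂μ ≠ ⊤)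
    (h : ∫⁻ y in {y | a y < b y}, b y ∂μ ≤ ∫⁻ y in {y | a y < b y}, a y ∂μ) :
    ∀ᵐ y ∂μ, b y ≤ a y := by
  have hD : MeasurableSet {y | a y < b y} := measurableSet_lt ha hb
  have h1 : a =ᵐ[μ.restrict {y | a y < b y}] b :=
    ae_eq_of_ae_le_of_lintegral_le ((ae_restrict_mem hD).mono fun y hy => le_of_lt hy) hf
      hb.aemeasurable h
  filter_upwards [(ae_restrict_iff' hD).1 h1] with y hy
  exact not_lt.1 fun hlt => hlt.ne (hy hlt)

variable {G Ω : Type} [AddCommGroup G] [MeasurableSpace Ω]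

/-- almost invariance passes from generators to the group -/
lemma inv_all {μ : Measure Ω} {T : Act G Ω} (hT : MP T μ) {H : Set G}
    (hH : AddSubgroup.closure H = ⊤) {f : Ω → ℝ≥0∞} (hf : ∀ h ∈ H, ∀ᵐ y ∂μ, f (tz T h y) = f y)
    (n : G) : ∀ᵐ y ∂μ, f (tz T n y) = f y := by
  have hn : n ∈ AddSubgroup.closure H := by rw [hH]; trivial
  induction hn using AddSubgroup.closure_induction with
  | mem x hx => exact hf x hx
  | zero => exact ae_of_all _ fun y => by rw [tz_zero]
  | add x x' _ _ h1 h2 =>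
    filter_upwards [(hT x').quasiMeasurePreserving.ae h1, h2] with y e1 e2
    rw [tz_add, e1, e2]
  | neg x _ h1 =>
    filter_upwards [(hT (-x)).quasiMeasurePreserving.ae h1] with y e1
    rw [← e1, tz_tz_neg]

/-- an almost invariant function with the right integrals is the conditional probability -/
lemma uniq [Countable G] {μ : Measure Ω} [IsProbabilityMeasure μ] {T : Act G Ω}
    {κ : Kernel Ω Ω} (hκ : ErgK μ T κ) {C : Set Ω} (hC : MeasurableSet C) {f : Ω → ℝ≥0∞}
    (hm : Measurable f) (hf : ∀ n, ∀ᵐ y ∂μ, f (tz T n y) = f y)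
    (hi : ∀ D, MeasurableSet D → (∀ n y, tz T n y ∈ D ↔ y ∈ D) →
      ∫⁻ y in D, f y ∂μ = μ (C ∩ D)) : ∀ᵐ y ∂μ, f y = κ y C := by
  set f1 : Ω → ℝ≥0∞ := fun y => ⨅ n, f (tz T n y) with hf1
  have m1 : Measurable f1 := Measurable.iInf fun n => hm.comp (measurable_tz T n)
  have i1 : ∀ n y, f1 (tz T n y) = f1 y := fun n y => by
    simp only [hf1, ← tz_add]
    exact (Equiv.addRight n).surjective.iInf_comp fun k => f (tz T k y)
  have e1 : f1 =ᵐ[μ] f := by
    filter_upwards [ae_all_iff.2 hf] with y hy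
    simp only [hf1, hy, iInf_const]
  have m2 : Measurable fun y => κ y C := κ.measurable_coe hC
  have a1 : ∀ D, MeasurableSet D → (∀ n y, tz T n y ∈ D ↔ y ∈ D) →
      ∫⁻ y in D, f1 y ∂μ = μ (C ∩ D) := fun D hD h => by
    rw [← hi D hD h]
    exact lintegral_congr_ae (ae_restrict_of_ae e1)
  have a2 : ∀ D, MeasurableSet D → (∀ n y, tz T n y ∈ D ↔ y ∈ D) →
      ∫⁻ y in D, κ y C ∂μ = μ (C ∩ D) := fun D hD h => by
    have e := hκ.int (D.indicator 1) (measurable_one.indicator hD) (fun n y => by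
      by_cases hy : y ∈ D
      · rw [indicator_of_mem hy, indicator_of_mem ((h n y).2 hy)]
        rfl
      · rw [indicator_of_notMem hy, indicator_of_notMem fun h' => hy ((h n y).1 h')]) C hC
    rw [lintegral_indicator_one hD, Measure.restrict_apply hD, inter_comm] at e
    rw [← e, ← lintegral_indicator hD]
    refine lintegral_congr fun y => ?_
    by_cases hy : y ∈ D <;> simp [hy]
  have d1 : ∀ n y, tz T n y ∈ {y | f1 y < κ y C} ↔ y ∈ {y | f1 y < κ y C} := fun n y => by
    simp only [mem_ofPred_eq, i1, hκ.inv]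
  have d2 : ∀ n y, tz T n y ∈ {y | κ y C < f1 y} ↔ y ∈ {y | κ y C < f1 y} := fun n y => by
    simp only [mem_ofPred_eq, i1, hκ.inv]
  have s1 := measurableSet_lt m1 m2
  have s2 := measurableSet_lt m2 m1
  filter_upwards [e1,
    ae_ge μ m1 m2 (by rw [a1 _ s1 d1]; exact measure_ne_top _ _) (by rw [a1 _ s1 d1, a2 _ s1 d1]),
    ae_ge μ m2 m1 (by rw [a2 _ s2 d2]; exact measure_ne_top _ _) (by rw [a1 _ s2 d2, a2 _ s2 d2])]
    with y h1 h2 h3
  rw [← h1]
  exact le_antisymm h3 h2

end WaAux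

open WaAux in
theorem xWa : WaS := by
  intro G Ω V _ _ _ _ _ A H K κ hK hH hκ
  have := hK.markov
  have := hκ.markov
  have hm : Measurable fun x : Ω × (Ω × Arr V) => (x.1, x.2.1) := by fun_prop
  have e : (wOf A.μ K).map Prod.fst = (A.μ ⊗ₘ K).map fun x => (x.1, x.2.1) := by
    rw [wOf, Measure.map_map measurable_fst measurable_wOf]
    rfl
  rw [e]
  refine Measure.ext_prod fun {s t} hs ht => ?_
  have ht' : MeasurableSet (Prod.fst ⁻¹' t : Set (Ω × Arr V)) := measurable_fst ht
  have e2 : (fun x : Ω × (Ω × Arr V) => (x.1, x.2.1)) ⁻¹' (s ×ˢ t) = s ×ˢ (Prod.fst ⁻¹' t) := rfl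
  rw [Measure.map_apply hm (hs.prod ht), e2, Measure.compProd_apply_prod hs ht',
    Measure.compProd_apply_prod hs ht]
  refine lintegral_congr_ae (ae_restrict_of_ae ?_)
  exact uniq hκ ht (K.measurable_coe ht')
    (inv_all (f := fun y => K y (Prod.fst ⁻¹' t)) A.mp hH fun h hh => hK.inv h hh t ht)
    fun D hD h => hK.int t D ht hD fun n _ => (Set.ext (h n)).eventuallyEq

end

end Pool.Agent.MP_154433_an.T4A
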