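import Pool.Agent.MP_154433_an.t4a.Spec

/-! Row Wk: the law of an equivariant arrow kernel. -/

set_option autoImplicit false
set_option linter.unusedVariables false

open MeasureTheory ProbabilityTheory Filter Topology Set
open scoped ENNReal

namespace Pool.Agent.MP_154433_an.T4A

open T3A

namespace WkAux

variable {Ω V : Type} [MeasurableSpace Ω] [AddCommGroup V]

theorem app (μ : Measure Ω) [IsProbabilityMeasure μ] (K : Kernel Ω (Ω × Arr V)) [IsMarkovKernel K]
    {E : Set ((Ω × Ω) × Arr V)} (hE : MeasurableSet E) :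
    wOf μ K E = ∫⁻ y, K y {x | ((y, x.1), x.2) ∈ E} ∂μ := by
  rw [wOf, Measure.map_apply measurable_wOf hE, Measure.compProd_apply (measurable_wOf hE)]
  rfl

theorem rect (μ : Measure Ω) [IsProbabilityMeasure μ] (K : Kernel Ω (Ω × Arr V)) [IsMarkovKernel K]
    {C D : Set Ω} (hC : MeasurableSet C) (hD : MeasurableSet D) :
    wOf μ K {z | z.1.1 ∈ D ∧ z.1.2 ∈ C} = ∫⁻ y in D, K y (Prod.fst ⁻¹' C) ∂μ := by
  have hE : MeasurableSet {z : (Ω × Ω) × Arr V | z.1.1 ∈ D ∧ z.1.2 ∈ C} :=
    (measurable_fst.fst hD).inter (measurable_fst.snd hC)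
  rw [app μ K hE, ← lintegral_indicator hD]
  refine lintegral_congr fun y => ?_
  by_cases h : y ∈ D
  · rw [indicator_of_mem h]
    exact congrArg _ (Set.ext fun x => and_iff_right h)
  · rw [indicator_of_notMem h, show {x : Ω × Arr V | ((y, x.1), x.2) ∈
      {z : (Ω × Ω) × Arr V | z.1.1 ∈ D ∧ z.1.2 ∈ C}} = ∅ from
        Set.eq_empty_of_forall_notMem fun x hx => h hx.1, measure_empty]

end WkAux

open WkAux in
theorem xWk : WkS := by
  intro G Ω V _ _ _ _ A H K h
  have := h.markov
  refine ⟨inferInstance, ?_, ?_, fun n => ⟨A.measurable_sA n n, ?_⟩, fun D hD hi => ?_⟩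
  · ext D hD
    rw [Measure.map_apply measurable_fst.fst hD]
    have e := rect A.μ K MeasurableSet.univ hD
    simp only [mem_univ, and_true, preimage_univ, measure_univ, lintegral_const, one_mul,
      Measure.restrict_apply_univ] at e
    exact e
  · ext C hC
    rw [Measure.map_apply measurable_fst.snd hC]
    have e := rect A.μ K hC MeasurableSet.univ
    rw [h.int C univ hC MeasurableSet.univ fun _ _ => by rw [preimage_univ], inter_univ] at e
    simp only [mem_univ, true_and] at e
    exact e
  · ext E hE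
    have hm : Measurable fun y => K y {x | ((y, x.1), x.2) ∈ E} :=
      Kernel.measurable_kernel_prodMk_left (measurable_wOf hE)
    rw [Measure.map_apply (A.measurable_sA n n) hE, app A.μ K (A.measurable_sA n n hE),
      app A.μ K hE, ← (A.mp n).lintegral_comp hm]
    refine lintegral_congr_ae ?_
    filter_upwards [h.eqv n] with y hy
    have hs : MeasurableSet {x : Ω × Arr V | ((tz A.T n y, x.1), x.2) ∈ E} :=
      measurable_prodMk_left (measurable_wOf hE)
    rw [hy, Measure.map_apply ((measurable_tz A.T n).prodMap (measurable_sh A.σ n n)) hs]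
    rfl
  · have e := rect A.μ K hD.compl hD
    rw [h.int Dᶜ D hD.compl hD fun n _ => hi n, compl_inter_self, measure_empty] at e
    rw [ae_iff, ← e]
    exact congrArg _ (Set.ext fun z => Classical.not_imp)

end Pool.Agent.MP_154433_an.T4A
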