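import Pool.Agent.MP_154433_an.t4a.Spec

set_option autoImplicit false

open MeasureTheory ProbabilityTheory Filter Topology Set
open scoped ENNReal

namespace Pool.Agent.MP_154433_an.T4A

open T3A

namespace XiAux

variable {Ω Z : Type} [MeasurableSpace Ω] [MeasurableSpace Z]

lemma eqv (κ : Kernel Ω Ω) [IsMarkovKernel κ] (Φ : Kernel (Ω × Ω) Z) [IsMarkovKernel Φ]
    {T : Ω → Ω} {R : Z → Z} (hR : Measurable R) (y : Ω) (h1 : κ (T y) = κ y)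
    (h2 : MeasurePreserving T (κ y) (κ y))
    (h3 : ∀ᵐ b ∂(κ y), Φ (T y, T b) = (Φ (y, b)).map R) :
    (κ ⊗ₖ (Φ ×ₖ Φ)) (T y) = ((κ ⊗ₖ (Φ ×ₖ Φ)) y).map (Prod.map T (Prod.map R R)) := by
  have hm : Measurable (Prod.map T (Prod.map R R)) := h2.measurable.prodMap (hR.prodMap hR)
  ext s hs
  rw [Measure.map_apply hm hs, Kernel.compProd_apply hs, Kernel.compProd_apply (hm hs), h1,
    ← h2.lintegral_comp (Kernel.measurable_kernel_prodMk_left' hs (T y))]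
  refine lintegral_congr_ae ?_
  filter_upwards [h3] with b hb
  rw [Kernel.prod_apply, Kernel.prod_apply, hb, Measure.map_prod_map _ _ hR hR,
    Measure.map_apply (hR.prodMap hR) (measurable_prodMk_left hs)]
  rfl

lemma law1 (μ : Measure Ω) [IsProbabilityMeasure μ] (κ : Kernel Ω Ω) [IsMarkovKernel κ]
    (Φ : Kernel (Ω × Ω) Z) [IsMarkovKernel Φ] :
    (μ ⊗ₘ (κ ⊗ₖ (Φ ×ₖ Φ))).map (fun x => ((x.1, x.2.1), x.2.2.1)) = (μ ⊗ₘ κ) ⊗ₘ Φ := by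
  have h : (μ ⊗ₘ κ) ⊗ₘ Φ = (μ ⊗ₘ κ) ⊗ₘ ((Φ ×ₖ Φ).map Prod.fst) := by
    rw [← Kernel.fst_eq, Kernel.fst_prod]
  rw [h, Measure.compProd_map measurable_fst, ← Measure.compProd_assoc,
    Measure.map_map (measurable_id.prodMap measurable_fst) (MeasurableEquiv.measurable _)]
  rfl

lemma law2 (μ : Measure Ω) [IsProbabilityMeasure μ] (κ : Kernel Ω Ω) [IsMarkovKernel κ]
    (Φ : Kernel (Ω × Ω) Z) [IsMarkovKernel Φ] :
    (μ ⊗ₘ (κ ⊗ₖ (Φ ×ₖ Φ))).map (fun x => ((x.1, x.2.1), x.2.2.2)) = (μ ⊗ₘ κ) ⊗ₘ Φ := by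
  have h : (μ ⊗ₘ κ) ⊗ₘ Φ = (μ ⊗ₘ κ) ⊗ₘ ((Φ ×ₖ Φ).map Prod.snd) := by
    rw [← Kernel.snd_eq, Kernel.snd_prod]
  rw [h, Measure.compProd_map measurable_snd, ← Measure.compProd_assoc,
    Measure.map_map (measurable_id.prodMap measurable_snd) (MeasurableEquiv.measurable _)]
  rfl

lemma hit (μ : Measure Ω) [IsProbabilityMeasure μ] (κ : Kernel Ω Ω) [IsMarkovKernel κ]
    (Φ : Kernel (Ω × Ω) Z) [IsMarkovKernel Φ] {P P' : Set Z} (hP : MeasurableSet P)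
    (hP' : MeasurableSet P') :
    ∀ᵐ z ∂(μ ⊗ₘ κ), Φ z P ≠ 0 → Φ z P' ≠ 0 →
      (κ ⊗ₖ (Φ ×ₖ Φ)) z.1 {x | x.2.1 ∈ P ∧ x.2.2 ∈ P'} ≠ 0 := by
  have hE : MeasurableSet {x : Ω × (Z × Z) | x.2.1 ∈ P ∧ x.2.2 ∈ P'} :=
    (measurable_snd.fst hP).inter (measurable_snd.snd hP')
  have h0 : MeasurableSet ({0}ᶜ : Set ℝ≥0∞) := (measurableSet_singleton 0).compl
  have hm : MeasurableSet {z : Ω × Ω | Φ z P ≠ 0 → Φ z P' ≠ 0 →
      (κ ⊗ₖ (Φ ×ₖ Φ)) z.1 {x | x.2.1 ∈ P ∧ x.2.2 ∈ P'} ≠ 0} := by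
    have a1 : MeasurableSet {z : Ω × Ω | Φ z P ≠ 0} := (Φ.measurable_coe hP) h0
    have a2 : MeasurableSet {z : Ω × Ω | Φ z P' ≠ 0} := (Φ.measurable_coe hP') h0
    have a3 : MeasurableSet {z : Ω × Ω |
        (κ ⊗ₖ (Φ ×ₖ Φ)) z.1 {x | x.2.1 ∈ P ∧ x.2.2 ∈ P'} ≠ 0} :=
      (((κ ⊗ₖ (Φ ×ₖ Φ)).measurable_coe hE).comp measurable_fst) h0
    exact measurableSet_setOfPred.2 ((measurableSet_setOfPred.1 a1).imp
      ((measurableSet_setOfPred.1 a2).imp (measurableSet_setOfPred.1 a3)))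
  refine Measure.ae_compProd_of_ae_ae hm (Eventually.of_forall fun a => ?_)
  by_cases h : (κ ⊗ₖ (Φ ×ₖ Φ)) a {x | x.2.1 ∈ P ∧ x.2.2 ∈ P'} = 0
  · have h' := h
    rw [Kernel.compProd_apply hE,
      lintegral_eq_zero_iff (Kernel.measurable_kernel_prodMk_left' hE a)] at h'
    filter_upwards [h'] with b hb h1 h2
    exfalso
    have e : (Prod.mk b ⁻¹' {x : Ω × (Z × Z) | x.2.1 ∈ P ∧ x.2.2 ∈ P'}) = P ×ˢ P' := rfl
    simp only [Pi.zero_apply] at hb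
    rw [e, Kernel.prod_apply, Measure.prod_prod] at hb
    exact mul_ne_zero h1 h2 hb
  · exact Eventually.of_forall fun b _ _ => h

end XiAux

theorem xXi : XiS := by
  intro G Ω V _ _ _ _ _ A κ Φ _ hκ h
  have := hκ.markov
  refine ⟨fun n => ?_, XiAux.law1 A.μ κ Φ, XiAux.law2 A.μ κ Φ,
    fun P P' hP hP' => XiAux.hit A.μ κ Φ hP hP'⟩
  filter_upwards [Measure.ae_ae_of_ae_compProd (h n), hκ.mp] with y h3 h2
  exact XiAux.eqv κ Φ (measurable_sh A.σ n n) y (hκ.inv n y) (h2 n) h3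

end Pool.Agent.MP_154433_an.T4A
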