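import Pool.Agent.MP_154433_an.t4a.Spec

/-! Solution sets of almost exponential equations are sparse. -/

set_option autoImplicit false
set_option linter.unusedVariables false

open MeasureTheory ProbabilityTheory Filter Topology Set
open scoped ENNReal

namespace Pool.Agent.MP_154433_an.T4A

open T3A

noncomputable section

namespace ZlAux

theorem fin_union {X ι : Type} (P : Set X → Prop) (h0 : P ∅)
    (hu : ∀ s t, P s → P t → P (s ∪ t)) (g : ι → Set X) (S : Set ι) (hS : S.Finite) :
    (∀ i ∈ S, P (g i)) → P (⋃ i ∈ S, g i) := by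
  induction S, hS using Set.Finite.induction_on with
  | empty => intro _; simpa using h0
  | @insert a s _ _ ih =>
    intro h
    rw [biUnion_insert]
    exact hu _ _ (h a (mem_insert _ _)) (ih fun i hi => h i (mem_insert_of_mem _ hi))

theorem low_empty (K : ℕ → ℕ) : Low K ∅ := by
  simp [Low, Ces]

theorem low_union (K : ℕ → ℕ) (s t : Set ℕ) (hs : Low K s) (ht : Low K t) : Low K (s ∪ t) := by
  have h := Tendsto.add hs ht
  rw [add_zero] at h
  refine tendsto_of_tendsto_of_tendsto_of_le_of_le tendsto_const_nhds h (fun _ => bot_le)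
    fun i => ?_
  simp only
  rw [← mul_add, ← Finset.sum_add_distrib]
  refine mul_le_mul_right (Finset.sum_le_sum fun k _ => ?_) _
  by_cases h1 : k ∈ s <;> by_cases h2 : k ∈ t <;> simp [h1, h2]

theorem sp_empty : Sparse fun _ : Unit => (∅ : Set ℤ) := by
  intro ε hε
  refine Eventually.of_forall fun H _ n => ?_
  simp only [mem_empty_iff_false, Finset.filter_false, Finset.card_empty, Nat.cast_zero]
  positivity

theorem sp_union (s t : Set ℤ) (hs : Sparse fun _ : Unit => s) (ht : Sparse fun _ : Unit => t) :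
    Sparse fun _ : Unit => s ∪ t := by
  classical
  intro ε hε
  filter_upwards [hs (ε / 2) (half_pos hε), ht (ε / 2) (half_pos hε)] with H h1 h2 b n
  have h3 := h1 b n
  have h4 := h2 b n
  have h5 : (((Finset.range H).filter fun h : ℕ => n + h ∈ s ∪ t).card : ℝ) ≤
      (((Finset.range H).filter fun h : ℕ => n + h ∈ s).card : ℝ) +
        (((Finset.range H).filter fun h : ℕ => n + h ∈ t).card : ℝ) := by
    rw [← Nat.cast_add, Nat.cast_le]
    refine le_trans (Finset.card_le_card ?_) (Finset.card_union_le _ _)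
    intro h hh
    simp only [Finset.mem_filter, Finset.mem_union, mem_union] at hh ⊢
    tauto
  have h6 : (((Finset.range H).filter fun h : ℕ => n + h ∈ s ∪ t).card : ℝ) ≤ ε * H := by
    linarith
  convert h6

variable {Q A I : Type} [CommGroup Q] [AddCommGroup A] [DistribMulAction Q A] [Fintype I]

theorem shift (a : I → ℤ → Q) (z : I → A) (d h : ℤ) (c : Q) :
    ∑ k, a k d • ((a k h * (a k (d + h) * (a k d)⁻¹ * (a k h)⁻¹)) • z k - c • z k) =
      ∑ k, a k (d + h) • z k - c • ∑ k, a k d • z k := by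
  rw [Finset.smul_sum, ← Finset.sum_sub_distrib]
  refine Finset.sum_congr rfl fun k _ => ?_
  rw [smul_sub, smul_smul, smul_smul, smul_smul, mul_comm c]
  congr 2
  rw [mul_comm (a k h), inv_mul_cancel_right, mul_comm (a k d), inv_mul_cancel_right]

theorem zero (pig : PigS) (a : I → ℤ → Q) (K : ℕ → ℕ) (nd : ND (A := A) a K) (n : ℕ) :
    ∀ (z : I → A) (k0 : I), {k | z k ≠ 0}.ncard ≤ n → z k0 ≠ 0 →
      Sparse fun _ : Unit => {d | ∑ k, a k d • z k = 0} := by
  induction n with
  | zero =>
    intro z k0 hc h0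
    have h1 : {k | z k ≠ 0} = ∅ := (Set.ncard_eq_zero (toFinite _)).1 (Nat.le_zero.1 hc)
    have h2 : k0 ∈ {k | z k ≠ 0} := h0
    rw [h1] at h2
    exact absurd h2 (notMem_empty _)
  | succ n ih =>
    intro z k0 hc h0
    by_cases h1 : ∀ k, k ≠ k0 → z k = 0
    · have h2 : {d | ∑ k, a k d • z k = 0} = ∅ := by
        refine eq_empty_of_forall_notMem fun d hd => h0 ?_
        have h3 : ∑ k, a k d • z k = 0 := hd
        rw [Finset.sum_eq_single k0 (fun k _ hk => by rw [h1 k hk, smul_zero])
          (fun h => absurd (Finset.mem_univ _) h)] at h3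
        exact (smul_eq_zero_iff_eq _).1 h3
      rw [h2]
      exact sp_empty
    push Not at h1
    obtain ⟨k1, hk1, hz1⟩ := h1
    obtain ⟨F, hF, hq⟩ := nd.quasi
    refine pig Unit _ K (⋃ f0 ∈ F, ⋃ f1 ∈ F,
      {h : ℕ | a k0 h • (f0 * f1⁻¹) • f1 • z k0 = a k1 h • f1 • z k0}) nd.top ?_ ?_
    · refine fin_union (Low K) (low_empty K) (low_union K) _ F hF fun f0 _ => ?_
      refine fin_union (Low K) (low_empty K) (low_union K) _ F hF fun f1 _ => ?_
      exact nd.two k0 k1 hk1.symm _ _ fun h => h0 ((smul_eq_zero_iff_eq _).1 h)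
    · intro h hb
      refine ⟨⋃ f ∈ {f : I → Q | ∀ k, f k ∈ F},
        {d | ∑ k, a k d • ((a k h * f k) • z k - (a k1 h * f k1) • z k) = 0}, ?_, ?_⟩
      · refine fin_union (fun s => Sparse fun _ : Unit => s) sp_empty sp_union _ _
          (Set.Finite.pi' fun _ => hF) fun f hf => ?_
        refine ih _ k0 ?_ ?_
        · have h2 : {k | (a k h * f k) • z k - (a k1 h * f k1) • z k ≠ 0} ⊆
              {k | z k ≠ 0} \ {k1} := by
            intro k hk
            refine ⟨fun h3 => hk ?_, fun h3 => hk ?_⟩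
            · rw [h3, smul_zero, smul_zero, sub_zero]
            · rw [mem_singleton_iff.1 h3, sub_self]
          have h3 := Set.ncard_le_ncard h2 (toFinite _)
          rw [Set.ncard_sdiff_singleton_of_mem (show k1 ∈ {k | z k ≠ 0} from hz1)] at h3
          omega
        · intro h2
          refine hb (mem_iUnion₂.2 ⟨f k0, hf k0, mem_iUnion₂.2 ⟨f k1, hf k1, ?_⟩⟩)
          show a k0 h • (f k0 * (f k1)⁻¹) • f k1 • z k0 = a k1 h • f k1 • z k0
          rw [smul_smul (f k0 * (f k1)⁻¹), inv_mul_cancel_right, smul_smul, smul_smul]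
          exact sub_eq_zero.1 h2
      · intro b d hd hd'
        refine mem_iUnion₂.2 ⟨fun k => a k (d + h) * (a k d)⁻¹ * (a k h)⁻¹, fun k => hq k d h, ?_⟩
        have h2 : ∑ k, a k d • z k = 0 := hd
        have h3 : ∑ k, a k (d + h) • z k = 0 := hd'
        show ∑ k, a k d • _ = 0
        rw [shift, h2, h3, smul_zero, sub_zero]

end ZlAux

open ZlAux in
theorem xZl : ZlS := by
  intro pig Q A I _ _ _ _ a K nd z k0 h0
  obtain ⟨F, hF, hq⟩ := nd.quasi
  refine pig A _ K (⋃ f ∈ F, {h : ℕ | a k0 h • f • z k0 = z k0}) nd.top ?_ ?_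
  · exact fin_union (Low K) (low_empty K) (low_union K) _ F hF fun f _ => nd.one k0 f _ h0
  · intro h hb
    refine ⟨⋃ f ∈ {f : I → Q | ∀ k, f k ∈ F},
      {d | ∑ k, a k d • ((a k h * f k) • z k - (1 : Q) • z k) = 0}, ?_, ?_⟩
    · refine fin_union (fun s => Sparse fun _ : Unit => s) sp_empty sp_union _ _
        (Set.Finite.pi' fun _ => hF) fun f hf => ?_
      refine zero pig a K nd _ _ k0 le_rfl fun h2 => ?_
      refine hb (mem_iUnion₂.2 ⟨f k0, hf k0, ?_⟩)
      show a k0 h • f k0 • z k0 = z k0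
      rw [smul_smul, sub_eq_zero.1 h2, one_smul]
    · intro b d hd hd'
      refine mem_iUnion₂.2 ⟨fun k => a k (d + h) * (a k d)⁻¹ * (a k h)⁻¹, fun k => hq k d h, ?_⟩
      have h2 : ∑ k, a k d • z k = b := hd
      have h3 : ∑ k, a k (d + h) • z k = b := hd'
      show ∑ k, a k d • _ = 0
      rw [shift, h2, h3, one_smul, sub_self]

end

end Pool.Agent.MP_154433_an.T4A
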