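import Pool.Agent.MP_154433_an.t4a.Own
import Pool.Agent.MP_154433_an.t4a.ConvB
import Pool.Agent.MP_154433_an.t3a.Lim
import Pool.Agent.MP_154433_an.t3a.Mk
import Pool.Agent.MP_154433_an.t4a.Ce
import Pool.Agent.MP_154433_an.t4a.Cfl
import Pool.Agent.MP_154433_an.t4a.Ci
import Pool.Agent.MP_154433_an.t4a.Cis
import Pool.Agent.MP_154433_an.t4a.Core
import Pool.Agent.MP_154433_an.t4a.Cpo
import Pool.Agent.MP_154433_an.t4a.Cpr
import Pool.Agent.MP_154433_an.t4a.Ct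
import Pool.Agent.MP_154433_an.t4a.Exa
import Pool.Agent.MP_154433_an.t4a.F2
import Pool.Agent.MP_154433_an.t4a.F3
import Pool.Agent.MP_154433_an.t4a.F4
import Pool.Agent.MP_154433_an.t4a.Fin
import Pool.Agent.MP_154433_an.t4a.G4
import Pool.Agent.MP_154433_an.t4a.G5
import Pool.Agent.MP_154433_an.t4a.Iid
import Pool.Agent.MP_154433_an.t4a.Int
import Pool.Agent.MP_154433_an.t4a.Ka
import Pool.Agent.MP_154433_an.t4a.Kb
import Pool.Agent.MP_154433_an.t4a.Kc
import Pool.Agent.MP_154433_an.t4a.Kd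
import Pool.Agent.MP_154433_an.t4a.Kex
import Pool.Agent.MP_154433_an.t4a.Kw
import Pool.Agent.MP_154433_an.t4a.Lae
import Pool.Agent.MP_154433_an.t4a.Lam
import Pool.Agent.MP_154433_an.t4a.Pha
import Pool.Agent.MP_154433_an.t4a.Phb
import Pool.Agent.MP_154433_an.t4a.Phc
import Pool.Agent.MP_154433_an.t4a.Pig
import Pool.Agent.MP_154433_an.t4a.Pk
import Pool.Agent.MP_154433_an.t4a.Prj
import Pool.Agent.MP_154433_an.t4a.Psi
import Pool.Agent.MP_154433_an.t4a.Psr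
import Pool.Agent.MP_154433_an.t4a.Pull
import Pool.Agent.MP_154433_an.t4a.Push
import Pool.Agent.MP_154433_an.t4a.Qh
import Pool.Agent.MP_154433_an.t4a.Rli
import Pool.Agent.MP_154433_an.t4a.Sd
import Pool.Agent.MP_154433_an.t4a.Sel
import Pool.Agent.MP_154433_an.t4a.Sp
import Pool.Agent.MP_154433_an.t4a.T1
import Pool.Agent.MP_154433_an.t4a.T2
import Pool.Agent.MP_154433_an.t4a.Tau
import Pool.Agent.MP_154433_an.t4a.Th
import Pool.Agent.MP_154433_an.t4a.Tri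
import Pool.Agent.MP_154433_an.t4a.W1
import Pool.Agent.MP_154433_an.t4a.W2
import Pool.Agent.MP_154433_an.t4a.Wa
import Pool.Agent.MP_154433_an.t4a.Wk
import Pool.Agent.MP_154433_an.t4a.Xi
import Pool.Agent.MP_154433_an.t4a.Zl

set_option autoImplicit false

namespace Pool.Agent.MP_154433_an.T4A

theorem rows : Rows :=
  ⟨xKex, xKa, xKb, xKc, xKd, T3A.xLim, xW1, xW2, xPhb, xKw, xWk, xWa, xCe, xCi, xTri, xCis, xCfl,
    xCit, xCpo, xCpr, xPk, xLam, xLae, xPha, xPhc, xF2, xF3, xF4, xIid, xXi, xPull, xPush, xInt, xPrj,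
    xG5, xG3, xG4, xRli, xT1, xT2, xSel, xSub, xTau, T3A.xMk, xTh, xPsi, xPsr, xSd, xCt,
    xFin (xCore (xSp (xZl xPig) xQh))⟩

theorem algS : AlgS := algS_of_rows rows

theorem xAlg [T4x.Grp] (bt : T4x.BasT) (hm : T4x.MixS) : T4x.AlgS := bridge algS xExa bt hm

end Pool.Agent.MP_154433_an.T4A
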