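import Pool.Agent.MP_154433_an.t4a.Spec

/-! Row Tri: the joint law of two consecutive arrows and their composite. -/

set_option autoImplicit false
set_option linter.unusedVariables false

open MeasureTheory ProbabilityTheory Filter Topology Set
open scoped ENNReal

namespace Pool.Agent.MP_154433_an.T4A

open T3A

noncomputable section

theorem xTri : TriS := by
  intro Ω V _ _ _ μ _ K1 K2 _ _ hμ
  have mr : Measurable fun x : Ω × (Ω × Arr V) => ((x.1, x.2.1), x.2.2) := by fun_prop
  have mt : Measurable fun z : (Ω × Ω) × Arr V => z.1.2 := measurable_fst.snd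
  have : IsProbabilityMeasure (wOf μ K1) := Measure.isProbabilityMeasure_map mr.aemeasurable
  have key : ∀ (K : Kernel Ω (Ω × Arr V)) [IsMarkovKernel K] (φ : (Ω × Ω) × Arr V → ℝ≥0∞),
      Measurable φ → ∫⁻ z, φ z ∂wOf μ K = ∫⁻ y, ∫⁻ x, φ ((y, x.1), x.2) ∂K y ∂μ := by
    intro K _ φ hφ
    rw [wOf, lintegral_map hφ mr, Measure.lintegral_compProd (hφ.fun_comp mr)]
  have m2 : Measurable fun x : ((Ω × Ω) × Arr V) × (Ω × Arr V) => ((x.1.1.2, x.2.1), x.2.2) := by
    fun_prop
  have m3 : Measurable fun x : ((Ω × Ω) × Arr V) × (Ω × Arr V) =>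
      ((x.1.1.1, x.2.1), cmpR x.1.2 x.2.2) :=
    (measurable_fst.fst.fst.prodMk measurable_snd.fst).prodMk
      (measurable_cmpR measurable_fst.snd measurable_snd.snd)
  refine ⟨wOf μ K1 ⊗ₘ K2.comap _ mt, inferInstance, Measure.fst_compProd _ _, ?_, ?_⟩
  · refine Measure.ext_of_lintegral _ fun φ hφ => ?_
    have mF : Measurable fun y => ∫⁻ x, φ ((y, x.1), x.2) ∂K2 y :=
      Measurable.lintegral_kernel_prod_right' (hφ.comp mr)
    rw [lintegral_map hφ m2, Measure.lintegral_compProd (hφ.fun_comp m2), key K2 φ hφ]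
    conv_rhs => rw [← hμ, lintegral_map mF mt]
    rfl
  · refine Measure.ext_of_lintegral _ fun φ hφ => ?_
    rw [lintegral_map hφ m3, Measure.lintegral_compProd (hφ.fun_comp m3), key _ φ hφ,
      key K1 _ (Measurable.lintegral_kernel_prod_right' (hφ.fun_comp m3))]
    refine lintegral_congr fun y => ?_
    have my : Measurable fun x : Ω × Arr V => φ ((y, x.1), x.2) :=
      hφ.comp (mr.comp measurable_prodMk_left)
    rw [star, Kernel.lintegral_map _ measurable_star _ my,
      Kernel.lintegral_compProd _ _ _ (my.fun_comp measurable_star)]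
    rfl

end

end Pool.Agent.MP_154433_an.T4A
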